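import Mathlib

namespace Pool.Agent.Helper974.Diff

/-- An algebra of differential functions in `u^0,…,u^{N-1}`: commuting derivations
`∂/∂u^i_j`, coordinates `u^i_j`, every element of finite order. -/
structure DiffAlg (N : ℕ) (V : Type) [CommRing V] [Algebra ℝ V] where
  pd : Fin N × ℕ → Derivation ℝ V V
  u : Fin N × ℕ → V
  pd_u : ∀ a b, pd a (u b) = if a = b then 1 else 0
  pd_comm : ∀ a b f, pd a (pd b f) = pd b (pd a f)
  fin_order : ∀ f, ∃ n, ∀ i j, n ≤ j → pd (i, j) f = 0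

namespace DiffAlg

variable {N : ℕ} {V : Type} [CommRing V] [Algebra ℝ V] (A : DiffAlg N V)

/-- `f` only involves `u_j` with `j < n` -/
def OrdLT (n : ℕ) (f : V) : Prop := ∀ i j, n ≤ j → A.pd (i, j) f = 0

lemma OrdLT.mono {n m : ℕ} {f : V} (h : A.OrdLT n f) (hnm : n ≤ m) : A.OrdLT m f :=
  fun i j hj => h i j (le_trans hnm hj)

lemma exists_ordLT (f : V) : ∃ n, A.OrdLT n f := A.fin_order f

lemma exists_ordLT₂ (f g : V) : ∃ n, A.OrdLT n f ∧ A.OrdLT n g := by
  obtain ⟨n, hn⟩ := A.fin_order f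
  obtain ⟨m, hm⟩ := A.fin_order g
  exact ⟨n + m, OrdLT.mono A hn (by omega), OrdLT.mono A hm (by omega)⟩

lemma OrdLT.add {n : ℕ} {f g : V} (hf : A.OrdLT n f) (hg : A.OrdLT n g) : A.OrdLT n (f + g) := by
  intro i j hj; rw [map_add, hf i j hj, hg i j hj, add_zero]

lemma OrdLT.mul {n : ℕ} {f g : V} (hf : A.OrdLT n f) (hg : A.OrdLT n g) : A.OrdLT n (f * g) := by
  intro i j hj; rw [Derivation.leibniz, hf i j hj, hg i j hj]; simp

lemma OrdLT.neg {n : ℕ} {f : V} (hf : A.OrdLT n f) : A.OrdLT n (-f) := by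
  intro i j hj; rw [map_neg, hf i j hj, neg_zero]

lemma OrdLT.pd {n : ℕ} {f : V} (hf : A.OrdLT n f) (a : Fin N × ℕ) : A.OrdLT n (A.pd a f) := by
  intro i j hj; rw [A.pd_comm, hf i j hj, map_zero]

lemma OrdLT.sum {ι : Type} (s : Finset ι) {n : ℕ} {f : ι → V} (hf : ∀ i ∈ s, A.OrdLT n (f i)) :
    A.OrdLT n (∑ i ∈ s, f i) := by
  intro i j hj
  rw [map_sum]
  exact Finset.sum_eq_zero (fun k hk => hf k hk i j hj)

/-- value of `∑ w_a ∂_a` -/
noncomputable def derFun (w : Fin N × ℕ → V) (f : V) : V :=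
  ∑ᶠ j : ℕ, ∑ i : Fin N, w (i, j) * A.pd (i, j) f

lemma derFun_eq (w : Fin N × ℕ → V) {n : ℕ} {f : V} (hf : A.OrdLT n f) :
    A.derFun w f = ∑ j ∈ Finset.range n, ∑ i : Fin N, w (i, j) * A.pd (i, j) f := by
  unfold derFun
  apply finsum_eq_sum_of_support_subset
  intro j hj
  rw [Function.mem_support] at hj
  by_contra h
  apply hj
  apply Finset.sum_eq_zero
  intro i _
  rw [hf i j (by simpa using h), mul_zero]

/-- the derivation `∑ w_a ∂_a` -/
noncomputable def der (w : Fin N × ℕ → V) : Derivation ℝ V V :=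
  Derivation.mk'
    { toFun := A.derFun w
      map_add' := by
        intro f g
        obtain ⟨n, hf, hg⟩ := A.exists_ordLT₂ f g
        rw [A.derFun_eq w hf, A.derFun_eq w hg, A.derFun_eq w (OrdLT.add A hf hg),
          ← Finset.sum_add_distrib]
        apply Finset.sum_congr rfl; intro j _
        rw [← Finset.sum_add_distrib]
        apply Finset.sum_congr rfl; intro i _
        rw [map_add, mul_add]
      map_smul' := by
        intro c f
        obtain ⟨n, hf⟩ := A.exists_ordLT f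
        have hcf : A.OrdLT n (c • f) := by
          intro i j hj; rw [Derivation.map_smul, hf i j hj, smul_zero]
        rw [A.derFun_eq w hf, A.derFun_eq w hcf, RingHom.id_apply, Finset.smul_sum]
        apply Finset.sum_congr rfl; intro j _
        rw [Finset.smul_sum]
        apply Finset.sum_congr rfl; intro i _
        rw [Derivation.map_smul, mul_smul_comm] }
    (by
      intro f g
      obtain ⟨n, hf, hg⟩ := A.exists_ordLT₂ f g
      simp only [LinearMap.coe_mk, AddHom.coe_mk]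
      rw [A.derFun_eq w hf, A.derFun_eq w hg, A.derFun_eq w (OrdLT.mul A hf hg), smul_eq_mul,
        smul_eq_mul, Finset.mul_sum, Finset.mul_sum, ← Finset.sum_add_distrib]
      apply Finset.sum_congr rfl; intro j _
      rw [Finset.mul_sum, Finset.mul_sum, ← Finset.sum_add_distrib]
      apply Finset.sum_congr rfl; intro i _
      rw [Derivation.leibniz, smul_eq_mul, smul_eq_mul]
      ring)

lemma der_eq (w : Fin N × ℕ → V) {n : ℕ} {f : V} (hf : A.OrdLT n f) :
    A.der w f = ∑ j ∈ Finset.range n, ∑ i : Fin N, w (i, j) * A.pd (i, j) f :=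
  A.derFun_eq w hf

lemma OrdLT_u (a : Fin N × ℕ) : A.OrdLT (a.2 + 1) (A.u a) := by
  intro i j hj
  rw [A.pd_u, if_neg]
  rintro rfl
  simp at hj

lemma der_u (w : Fin N × ℕ → V) (a : Fin N × ℕ) : A.der w (A.u a) = w a := by
  rw [A.der_eq w (A.OrdLT_u a)]
  rw [Finset.sum_eq_single a.2, Finset.sum_eq_single a.1]
  · simp [A.pd_u]
  · intro b _ hb
    rw [A.pd_u, if_neg, mul_zero]
    intro h; exact hb (by rw [← h])
  · intro h; simp at h
  · intro b _ hb
    apply Finset.sum_eq_zero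
    intro i _
    rw [A.pd_u, if_neg, mul_zero]
    intro h; exact hb (by rw [← h])
  · intro h; simp at h

lemma pd_der (w : Fin N × ℕ → V) (a : Fin N × ℕ) (f : V) :
    A.pd a (A.der w f) = A.der w (A.pd a f) + A.der (fun b => A.pd a (w b)) f := by
  obtain ⟨n, hf⟩ := A.exists_ordLT f
  rw [A.der_eq w hf, A.der_eq w (OrdLT.pd A hf a), A.der_eq _ hf, map_sum, ← Finset.sum_add_distrib]
  apply Finset.sum_congr rfl; intro j _
  rw [map_sum, ← Finset.sum_add_distrib]
  apply Finset.sum_congr rfl; intro i _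
  rw [Derivation.leibniz, smul_eq_mul, smul_eq_mul, A.pd_comm a]
  ring

/-- the total derivative -/
noncomputable def D : Derivation ℝ V V := A.der (fun a => A.u (a.1, a.2 + 1))

lemma D_u (i : Fin N) (j : ℕ) : A.D (A.u (i, j)) = A.u (i, j + 1) := A.der_u _ _

lemma pd_succ_D (i : Fin N) (j : ℕ) (f : V) :
    A.pd (i, j + 1) (A.D f) = A.D (A.pd (i, j + 1) f) + A.pd (i, j) f := by
  unfold D
  rw [pd_der]
  congr 1
  obtain ⟨n, hf⟩ := A.exists_ordLT f
  rw [A.der_eq _ (OrdLT.mono A hf (show n ≤ n + j + 1 by omega)), Finset.sum_eq_single j,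
    Finset.sum_eq_single i]
  · simp [A.pd_u]
  · intro b _ hb
    rw [A.pd_u, if_neg, zero_mul]
    intro h; exact hb (by simpa using (congrArg Prod.fst h).symm)
  · intro h; simp at h
  · intro b _ hb
    apply Finset.sum_eq_zero
    intro i' _
    rw [A.pd_u, if_neg, zero_mul]
    intro h; exact hb (by simpa using (congrArg Prod.snd h).symm)
  · intro h; simp at h

lemma pd_zero_D (i : Fin N) (f : V) : A.pd (i, 0) (A.D f) = A.D (A.pd (i, 0) f) := by
  unfold D
  rw [pd_der]
  have : A.der (fun b => A.pd (i, 0) (A.u (b.1, b.2 + 1))) f = 0 := by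
    obtain ⟨n, hf⟩ := A.exists_ordLT f
    rw [A.der_eq _ hf]
    apply Finset.sum_eq_zero; intro j _
    apply Finset.sum_eq_zero; intro i' _
    rw [A.pd_u, if_neg, zero_mul]
    intro h; simp at h
  rw [this, add_zero]

lemma OrdLT.D {n : ℕ} {f : V} (hf : A.OrdLT n f) : A.OrdLT (n + 1) (A.D f) := by
  intro i j hj
  obtain ⟨j, rfl⟩ : ∃ k, j = k + 1 := ⟨j - 1, by omega⟩
  rw [A.pd_succ_D, hf i (j + 1) (by omega), hf i j (by omega), map_zero, add_zero]

lemma OrdLT.iter_D {n : ℕ} {f : V} (hf : A.OrdLT n f) (k : ℕ) : A.OrdLT (n + k) (A.D^[k] f) := by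
  induction k with
  | zero => exact hf
  | succ k ih => rw [Function.iterate_succ_apply']; exact OrdLT.D A ih

/-- a function all of whose derivatives vanish beyond what `D f` allows -/
lemma ordLT_of_D {n : ℕ} {f : V} (hf : A.OrdLT (n + 1) (A.D f)) : A.OrdLT n f := by
  obtain ⟨M, hM⟩ := A.exists_ordLT f
  have key : ∀ k i j, n ≤ j → M ≤ j + k → A.pd (i, j) f = 0 := by
    intro k
    induction k with
    | zero => intro i j _ h; exact hM i j h
    | succ k ih =>
      intro i j h1 h2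
      have h3 := A.pd_succ_D i j f
      rw [hf i (j + 1) (by omega), ih i (j + 1) (by omega) (by omega), map_zero, zero_add] at h3
      exact h3.symm
  intro i j hj
  exact key M i j hj (by omega)

lemma D_comm_der (w : Fin N × ℕ → V) (hw : ∀ i j, w (i, j + 1) = A.D (w (i, j))) (f : V) :
    A.der w (A.D f) = A.D (A.der w f) := by
  obtain ⟨n, hf⟩ := A.exists_ordLT f
  rw [A.der_eq w (OrdLT.D A hf), A.der_eq w hf, Finset.sum_range_succ', map_sum]
  have h0 : ∑ i : Fin N, w (i, 0) * A.pd (i, 0) (A.D f)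
      = ∑ i : Fin N, w (i, 0) * A.D (A.pd (i, 0) f) := by
    apply Finset.sum_congr rfl; intro i _; rw [A.pd_zero_D]
  have h1 : ∑ j ∈ Finset.range n, ∑ i : Fin N, w (i, j + 1) * A.pd (i, j + 1) (A.D f)
      = ∑ j ∈ Finset.range n, ∑ i : Fin N, w (i, j + 1) * A.D (A.pd (i, j + 1) f)
        + ∑ j ∈ Finset.range n, ∑ i : Fin N, A.D (w (i, j)) * A.pd (i, j) f := by
    rw [← Finset.sum_add_distrib]
    apply Finset.sum_congr rfl; intro j _
    rw [← Finset.sum_add_distrib]
    apply Finset.sum_congr rfl; intro i _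
    rw [A.pd_succ_D, hw]; ring
  have h2 : ∑ j ∈ Finset.range n, ∑ i : Fin N, w (i, j + 1) * A.D (A.pd (i, j + 1) f)
      + ∑ i : Fin N, w (i, 0) * A.D (A.pd (i, 0) f)
      = ∑ j ∈ Finset.range n, ∑ i : Fin N, w (i, j) * A.D (A.pd (i, j) f) := by
    rw [← Finset.sum_range_succ' (fun j => ∑ i : Fin N, w (i, j) * A.D (A.pd (i, j) f)),
      Finset.sum_range_succ]
    have : ∑ i : Fin N, w (i, n) * A.D (A.pd (i, n) f) = 0 := by
      apply Finset.sum_eq_zero; intro i _
      rw [hf i n le_rfl, map_zero, mul_zero]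
    rw [this, add_zero]
  rw [h1, h0]
  have h3 : ∑ x ∈ Finset.range n, A.D (∑ i : Fin N, w (i, x) * A.pd (i, x) f)
      = ∑ j ∈ Finset.range n, ∑ i : Fin N, w (i, j) * A.D (A.pd (i, j) f)
        + ∑ j ∈ Finset.range n, ∑ i : Fin N, A.D (w (i, j)) * A.pd (i, j) f := by
    rw [← Finset.sum_add_distrib]
    apply Finset.sum_congr rfl; intro j _
    rw [map_sum, ← Finset.sum_add_distrib]
    apply Finset.sum_congr rfl; intro i _
    rw [Derivation.leibniz, smul_eq_mul, smul_eq_mul]; ring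
  rw [h3, ← h2]
  ring


/-! ### Euler operator -/

lemma iter_D_add (k : ℕ) (p q : V) : A.D^[k] (p + q) = A.D^[k] p + A.D^[k] q := by
  induction k generalizing p q with
  | zero => rfl
  | succ k ih => simp only [Function.iterate_succ_apply, map_add, ih]

lemma iter_D_neg (k : ℕ) (p : V) : A.D^[k] (-p) = - A.D^[k] p := by
  induction k generalizing p with
  | zero => rfl
  | succ k ih => simp only [Function.iterate_succ_apply, map_neg, ih]

lemma iter_D_zero (k : ℕ) : A.D^[k] (0 : V) = 0 := by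
  induction k with
  | zero => rfl
  | succ k ih => simp only [Function.iterate_succ_apply, map_zero, ih]

lemma iter_D_sum {ι : Type} (s : Finset ι) (k : ℕ) (f : ι → V) :
    A.D^[k] (∑ i ∈ s, f i) = ∑ i ∈ s, A.D^[k] (f i) := by
  classical
  induction s using Finset.induction_on with
  | empty => simp
  | insert a s ha ih => rw [Finset.sum_insert ha, Finset.sum_insert ha, iter_D_add, ih]

/-- `∑_j (-D)^j (p ∂q/∂u^i_j)` -/
noncomputable def P (i : Fin N) (p q : V) : V :=
  ∑ᶠ j : ℕ, (-1) ^ j * A.D^[j] (p * A.pd (i, j) q)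

lemma P_eq (i : Fin N) (p : V) {n : ℕ} {q : V} (hq : A.OrdLT n q) :
    A.P i p q = ∑ j ∈ Finset.range n, (-1) ^ j * A.D^[j] (p * A.pd (i, j) q) := by
  unfold P
  apply finsum_eq_sum_of_support_subset
  intro j hj
  rw [Function.mem_support] at hj
  by_contra h
  apply hj
  rw [hq i j (by simpa using h), mul_zero, iter_D_zero, mul_zero]

lemma P_add_left (i : Fin N) (p p' q : V) : A.P i (p + p') q = A.P i p q + A.P i p' q := by
  obtain ⟨n, hq⟩ := A.exists_ordLT q
  rw [A.P_eq i _ hq, A.P_eq i _ hq, A.P_eq i _ hq, ← Finset.sum_add_distrib]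
  apply Finset.sum_congr rfl; intro j _
  rw [add_mul, iter_D_add, mul_add]

lemma P_neg_left (i : Fin N) (p q : V) : A.P i (-p) q = - A.P i p q := by
  obtain ⟨n, hq⟩ := A.exists_ordLT q
  rw [A.P_eq i _ hq, A.P_eq i _ hq, ← Finset.sum_neg_distrib]
  apply Finset.sum_congr rfl; intro j _
  rw [neg_mul, iter_D_neg, mul_neg]

lemma P_zero_left (i : Fin N) (q : V) : A.P i 0 q = 0 := by
  obtain ⟨n, hq⟩ := A.exists_ordLT q
  rw [A.P_eq i _ hq]
  apply Finset.sum_eq_zero; intro j _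
  rw [zero_mul, iter_D_zero, mul_zero]

lemma P_sum_left {ι : Type} (s : Finset ι) (i : Fin N) (p : ι → V) (q : V) :
    A.P i (∑ k ∈ s, p k) q = ∑ k ∈ s, A.P i (p k) q := by
  classical
  induction s using Finset.induction_on with
  | empty => simp [P_zero_left]
  | insert a s ha ih => rw [Finset.sum_insert ha, Finset.sum_insert ha, P_add_left, ih]

lemma P_add_right (i : Fin N) (p q q' : V) : A.P i p (q + q') = A.P i p q + A.P i p q' := by
  obtain ⟨n, hq, hq'⟩ := A.exists_ordLT₂ q q'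
  rw [A.P_eq i _ hq, A.P_eq i _ hq', A.P_eq i _ (OrdLT.add A hq hq'), ← Finset.sum_add_distrib]
  apply Finset.sum_congr rfl; intro j _
  rw [map_add, mul_add, iter_D_add, mul_add]

lemma P_zero_right (i : Fin N) (p : V) : A.P i p 0 = 0 := by
  rw [A.P_eq i p (n := 0) (fun i j _ => by rw [map_zero])]
  rfl

lemma P_sum_right {ι : Type} (s : Finset ι) (i : Fin N) (p : V) (q : ι → V) :
    A.P i p (∑ k ∈ s, q k) = ∑ k ∈ s, A.P i p (q k) := by
  classical
  induction s using Finset.induction_on with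
  | empty => simp [P_zero_right]
  | insert a s ha ih => rw [Finset.sum_insert ha, Finset.sum_insert ha, P_add_right, ih]

lemma P_mul_right (i : Fin N) (q r : V) : A.P i 1 (q * r) = A.P i q r + A.P i r q := by
  obtain ⟨n, hq, hr⟩ := A.exists_ordLT₂ q r
  rw [A.P_eq i _ hq, A.P_eq i _ hr, A.P_eq i _ (OrdLT.mul A hq hr), ← Finset.sum_add_distrib]
  apply Finset.sum_congr rfl; intro j _
  rw [Derivation.leibniz, one_mul, iter_D_add, mul_add, smul_eq_mul, smul_eq_mul]

lemma P_D (i : Fin N) (p q : V) : A.P i p (A.D q) = - A.P i (A.D p) q := by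
  obtain ⟨n, hq⟩ := A.exists_ordLT q
  rw [A.P_eq i _ hq, A.P_eq i _ (OrdLT.D A hq), Finset.sum_range_succ']
  have h1 : ∀ j ∈ Finset.range n, (-1 : V) ^ (j + 1) * A.D^[j + 1] (p * A.pd (i, j + 1) (A.D q))
      = (-1) ^ (j + 1) * A.D^[j + 1] (p * A.D (A.pd (i, j + 1) q))
        - (-1) ^ j * A.D^[j] (A.D p * A.pd (i, j) q)
        - (-1) ^ j * A.D^[j] (p * A.D (A.pd (i, j) q)) := by
    intro j _
    rw [A.pd_succ_D, mul_add, iter_D_add, Function.iterate_succ_apply _ j (p * A.pd (i, j) q),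
      Derivation.leibniz, iter_D_add, smul_eq_mul, smul_eq_mul, mul_comm (A.pd (i, j) q)]
    ring
  rw [Finset.sum_congr rfl h1, Finset.sum_sub_distrib, Finset.sum_sub_distrib, A.pd_zero_D]
  have h2 : ∑ j ∈ Finset.range n, (-1 : V) ^ (j + 1) * A.D^[j + 1] (p * A.D (A.pd (i, j + 1) q))
      + (-1) ^ 0 * A.D^[0] (p * A.D (A.pd (i, 0) q))
      = ∑ j ∈ Finset.range n, (-1) ^ j * A.D^[j] (p * A.D (A.pd (i, j) q)) := by
    rw [← Finset.sum_range_succ' (fun j => (-1 : V) ^ j * A.D^[j] (p * A.D (A.pd (i, j) q))),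
      Finset.sum_range_succ, hq i n le_rfl, map_zero, mul_zero, iter_D_zero, mul_zero, add_zero]
  rw [← h2]
  ring

lemma P_iter_D (i : Fin N) (l : ℕ) (p q : V) :
    A.P i p (A.D^[l] q) = A.P i ((-1) ^ l * A.D^[l] p) q := by
  induction l generalizing p with
  | zero => simp
  | succ l ih =>
    rw [Function.iterate_succ_apply', P_D, ih, ← P_neg_left, Function.iterate_succ_apply]
    congr 1
    ring

/-- the Euler operator `δ/δu^i` -/
noncomputable def E (i : Fin N) (f : V) : V := A.P i 1 f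

lemma E_D (i : Fin N) (f : V) : A.E i (A.D f) = 0 := by
  unfold E
  rw [P_D, Derivation.map_one_eq_zero, P_zero_left, neg_zero]

lemma E_eq (i : Fin N) {n : ℕ} {f : V} (hf : A.OrdLT n f) :
    A.E i f = ∑ j ∈ Finset.range n, (-1) ^ j * A.D^[j] (A.pd (i, j) f) := by
  unfold E
  rw [A.P_eq i 1 hf]
  simp only [one_mul]

/-- the evolutionary derivation -/
noncomputable def ev (K : Fin N → V) : Derivation ℝ V V := A.der (fun a => A.D^[a.2] (K a.1))

lemma ev_D (K : Fin N → V) (f : V) : A.ev K (A.D f) = A.D (A.ev K f) := by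
  apply A.D_comm_der
  intro i j
  simp only [Function.iterate_succ_apply']

lemma ev_iter_D (K : Fin N → V) (l : ℕ) (f : V) : A.ev K (A.D^[l] f) = A.D^[l] (A.ev K f) := by
  induction l generalizing f with
  | zero => rfl
  | succ l ih => rw [Function.iterate_succ_apply, ih, ev_D, Function.iterate_succ_apply]

lemma neg_one_pow_comm (E' : Derivation ℝ V V) (j : ℕ) (f : V) :
    E' ((-1) ^ j * f) = (-1) ^ j * E' f := by
  rcases neg_one_pow_eq_or V j with h | h <;> rw [h] <;> simp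

/-- variational derivative of a time derivative -/
lemma E_ev (K : Fin N → V) (i : Fin N) (ρ : V) :
    A.E i (A.ev K ρ) = A.ev K (A.E i ρ) + ∑ b, A.P i (A.E b ρ) (K b) := by
  obtain ⟨n, hρ⟩ := A.exists_ordLT ρ
  have h1 : A.ev K ρ = ∑ j ∈ Finset.range n, ∑ b : Fin N, A.D^[j] (K b) * A.pd (b, j) ρ :=
    A.der_eq _ hρ
  have h2 : A.E i (A.ev K ρ) = ∑ j ∈ Finset.range n, ∑ b : Fin N,
      (A.P i (A.D^[j] (K b)) (A.pd (b, j) ρ) + A.P i (A.pd (b, j) ρ) (A.D^[j] (K b))) := by
    rw [h1, E, P_sum_right]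
    apply Finset.sum_congr rfl; intro j _
    rw [P_sum_right]
    apply Finset.sum_congr rfl; intro b _
    rw [P_mul_right]
  rw [h2]
  simp only [Finset.sum_add_distrib]
  congr 1
  · rw [A.E_eq i hρ, map_sum]
    have h3 : ∀ j ∈ Finset.range n, A.ev K ((-1) ^ j * A.D^[j] (A.pd (i, j) ρ))
        = ∑ l ∈ Finset.range n, ∑ b : Fin N,
          (-1) ^ j * A.D^[j] (A.D^[l] (K b) * A.pd (b, l) (A.pd (i, j) ρ)) := by
      intro j _
      rw [neg_one_pow_comm, ev_iter_D]
      have : A.ev K (A.pd (i, j) ρ) = ∑ l ∈ Finset.range n, ∑ b : Fin N,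
          A.D^[l] (K b) * A.pd (b, l) (A.pd (i, j) ρ) := A.der_eq _ (OrdLT.pd A hρ _)
      rw [this, iter_D_sum, Finset.mul_sum]
      apply Finset.sum_congr rfl; intro l _
      rw [iter_D_sum, Finset.mul_sum]
    rw [Finset.sum_congr rfl h3]
    conv_rhs => rw [Finset.sum_comm]
    apply Finset.sum_congr rfl; intro l _
    conv_rhs => rw [Finset.sum_comm]
    apply Finset.sum_congr rfl; intro b _
    rw [A.P_eq i _ (OrdLT.pd A hρ (b, l))]
    apply Finset.sum_congr rfl; intro j _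
    rw [A.pd_comm (i, j) (b, l)]
  · rw [Finset.sum_comm]
    apply Finset.sum_congr rfl; intro b _
    rw [A.E_eq b hρ, P_sum_left]
    apply Finset.sum_congr rfl; intro j _
    rw [P_iter_D]

lemma pd_top_iter_D {n : ℕ} {f : V} (hf : A.OrdLT (n + 1) f) (a : Fin N) (k : ℕ) :
    A.pd (a, n + k) (A.D^[k] f) = A.pd (a, n) f := by
  induction k with
  | zero => rfl
  | succ k ih =>
    rw [Function.iterate_succ_apply', show n + (k + 1) = (n + k) + 1 by ring, A.pd_succ_D, ih,
      OrdLT.iter_D A hf k a (n + k + 1) (by omega), map_zero, zero_add]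

lemma E_ordLT {k : ℕ} {ρ : V} (hρ : A.OrdLT (k + 1) ρ) (i : Fin N) :
    A.OrdLT (2 * k + 1) (A.E i ρ) := by
  rw [A.E_eq i hρ]
  apply OrdLT.sum
  intro j hj
  have hj' : j ≤ k := by simpa [Nat.lt_succ_iff] using hj
  have h1 := OrdLT.iter_D A (OrdLT.pd A hρ (i, j)) j
  rcases neg_one_pow_eq_or V j with h | h <;> rw [h]
  · rw [one_mul]; exact OrdLT.mono A h1 (by omega)
  · rw [neg_one_mul]; exact OrdLT.neg A (OrdLT.mono A h1 (by omega))

lemma pd_top_E {k : ℕ} {ρ : V} (hρ : A.OrdLT (k + 1) ρ) (i a : Fin N) :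
    A.pd (a, 2 * k) (A.E i ρ) = (-1) ^ k * A.pd (a, k) (A.pd (i, k) ρ) := by
  rw [A.E_eq i hρ, map_sum, Finset.sum_range_succ]
  have h0 : ∑ x ∈ Finset.range k, A.pd (a, 2 * k) ((-1) ^ x * A.D^[x] (A.pd (i, x) ρ)) = 0 := by
    apply Finset.sum_eq_zero
    intro x hx
    have hx' : x < k := by simpa using hx
    rw [neg_one_pow_comm,
      OrdLT.iter_D A (OrdLT.pd A hρ (i, x)) x a (2 * k) (by omega), mul_zero]
  rw [h0, zero_add, neg_one_pow_comm, show 2 * k = k + k by ring,
    A.pd_top_iter_D (OrdLT.pd A hρ (i, k))]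

end DiffAlg
end Pool.Agent.Helper974.Diff
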