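import Mathlib
import Pool.Agent.Helper974.Diff

namespace Pool.Agent.Helper974.DiffPoly

open Pool.Agent.Helper974.Diff

noncomputable section

/-! ### derivations acting on coefficients -/

section MapD

variable {R : Type} [CommRing R] [Algebra ℝ R] {σ : Type}

/-- a map `d` applied to the coefficients of a polynomial -/
def mapDFun (d : R → R) (p : MvPolynomial σ R) : MvPolynomial σ R :=
  ∑ s ∈ p.support, MvPolynomial.monomial s (d (p.coeff s))

lemma coeff_mapDFun (d : Derivation ℝ R R) (p : MvPolynomial σ R) (t : σ →₀ ℕ) :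
    (mapDFun d p).coeff t = d (p.coeff t) := by
  classical
  simp only [mapDFun, MvPolynomial.coeff_sum, MvPolynomial.coeff_monomial, Finset.sum_ite_eq']
  split_ifs with h
  · rfl
  · rw [MvPolynomial.notMem_support_iff.1 h, map_zero]

/-- the derivation `d` applied to the coefficients of a polynomial, as a derivation -/
def mapD (d : Derivation ℝ R R) : Derivation ℝ (MvPolynomial σ R) (MvPolynomial σ R) :=
  Derivation.mk'
    { toFun := mapDFun d
      map_add' := by
        intro p q
        ext t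
        rw [MvPolynomial.coeff_add, coeff_mapDFun, coeff_mapDFun, coeff_mapDFun,
          MvPolynomial.coeff_add, map_add]
      map_smul' := by
        intro c p
        ext t
        rw [RingHom.id_apply, MvPolynomial.coeff_smul, coeff_mapDFun, coeff_mapDFun,
          MvPolynomial.coeff_smul, Derivation.map_smul] }
    (by
      classical
      intro p q
      ext t
      simp only [LinearMap.coe_mk, AddHom.coe_mk, smul_eq_mul, MvPolynomial.coeff_add,
        coeff_mapDFun, MvPolynomial.coeff_mul, map_sum, Derivation.leibniz]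
      rw [Finset.sum_add_distrib]
      congr 1
      exact Finset.sum_equiv (Equiv.prodComm _ _) (fun x => by simp [add_comm])
        (fun x _ => rfl))

lemma coeff_mapD (d : Derivation ℝ R R) (p : MvPolynomial σ R) (t : σ →₀ ℕ) :
    (mapD d p).coeff t = d (p.coeff t) := coeff_mapDFun d p t

lemma mapD_C (d : Derivation ℝ R R) (r : R) :
    mapD d (MvPolynomial.C r : MvPolynomial σ R) = MvPolynomial.C (d r) := by
  classical
  ext t
  rw [coeff_mapD, MvPolynomial.coeff_C, MvPolynomial.coeff_C]
  split_ifs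
  · rfl
  · exact map_zero _

lemma mapD_X (d : Derivation ℝ R R) (a : σ) :
    mapD d (MvPolynomial.X a : MvPolynomial σ R) = 0 := by
  classical
  ext t
  rw [coeff_mapD, MvPolynomial.coeff_X, MvPolynomial.coeff_zero]
  split_ifs
  · exact Derivation.map_one_eq_zero _
  · exact map_zero _

lemma mapD_pderiv (d : Derivation ℝ R R) (a : σ) (p : MvPolynomial σ R) :
    mapD d (MvPolynomial.pderiv a p) = MvPolynomial.pderiv a (mapD d p) := by
  ext t
  rw [coeff_mapD, MvPolynomial.coeff_pderiv, MvPolynomial.coeff_pderiv, coeff_mapD,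
    Derivation.leibniz]
  have : d ((t a : R) + 1) = 0 := by
    rw [map_add, Derivation.map_one_eq_zero, Derivation.map_natCast, add_zero]
  rw [this, smul_zero, zero_add, smul_eq_mul, mul_comm]

omit [Algebra ℝ R] in
lemma pderiv_comm (a b : σ) (p : MvPolynomial σ R) :
    MvPolynomial.pderiv a (MvPolynomial.pderiv b p)
      = MvPolynomial.pderiv b (MvPolynomial.pderiv a p) := by
  classical
  by_cases h : a = b
  · rw [h]
  ext t
  simp only [MvPolynomial.coeff_pderiv, Finsupp.add_apply, Finsupp.single_apply, h,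
    if_neg (Ne.symm h), if_false, add_zero]
  rw [add_right_comm]
  ring

end MapD

/-! ### analytic functions on an open set -/

/-- open subsets of `ℝ^n` -/
structure Dom (n : ℕ) where
  /-- the points -/
  pts : Set (Fin n → ℝ)
  isOpen : IsOpen pts

variable {n : ℕ}

/-- `g` is real analytic on a neighbourhood of every point of `U` -/
def IsAn (U : Dom n) (g : (Fin n → ℝ) → ℝ) : Prop := AnalyticOnNhd ℝ g U.pts

/-- `f` is a real analytic function on `U` -/
def IsReg (U : Dom n) (f : U.pts → ℝ) : Prop := ∃ g, IsAn U g ∧ ∀ x : U.pts, f x = g x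

lemma IsReg.mul {U : Dom n} {f f' : U.pts → ℝ} (h : IsReg U f) (h' : IsReg U f') :
    IsReg U (f * f') := by
  obtain ⟨g, hg, e⟩ := h
  obtain ⟨g', hg', e'⟩ := h'
  exact ⟨g * g', AnalyticOnNhd.mul hg hg', fun x => by simp [e, e']⟩

lemma IsReg.add {U : Dom n} {f f' : U.pts → ℝ} (h : IsReg U f) (h' : IsReg U f') :
    IsReg U (f + f') := by
  obtain ⟨g, hg, e⟩ := h
  obtain ⟨g', hg', e'⟩ := h'
  exact ⟨g + g', AnalyticOnNhd.add hg hg', fun x => by simp [e, e']⟩

lemma IsReg.const (U : Dom n) (r : ℝ) : IsReg U (algebraMap ℝ (U.pts → ℝ) r) :=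
  ⟨fun _ => r, (analyticOnNhd_const : AnalyticOnNhd ℝ (fun _ : Fin n → ℝ => r) U.pts),
    fun _ => rfl⟩

/-- real analytic functions on the open set `U` -/
def Reg (U : Dom n) : Subalgebra ℝ (U.pts → ℝ) where
  carrier := IsReg U
  mul_mem' := IsReg.mul
  add_mem' := IsReg.add
  algebraMap_mem' := IsReg.const U

/-- the ring of real analytic functions on the open set `U` -/
abbrev RegT (U : Dom n) : Type := Reg U

variable {U : Dom n}

/-- the value of an analytic function at a point -/
def ev (f : RegT U) (x : U.pts) : ℝ := f.1 x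

/-- the element of `RegT U` given by an analytic function -/
def mk (g : (Fin n → ℝ) → ℝ) (hg : IsAn U g) : RegT U :=
  ⟨fun x => g x, g, hg, fun _ => rfl⟩

lemma an_const (U : Dom n) (r : ℝ) : IsAn U (fun _ => r) :=
  (analyticOnNhd_const : AnalyticOnNhd ℝ (fun _ : Fin n → ℝ => r) U.pts)

lemma reg_ext {f g : RegT U} (h : ∀ x, ev f x = ev g x) : f = g := Subtype.ext (funext h)

lemma ev_mk (g : (Fin n → ℝ) → ℝ) (hg : IsAn U g) (x : U.pts) : ev (mk g hg) x = g x := rfl

lemma ev_add (f g : RegT U) (x : U.pts) : ev (f + g) x = ev f x + ev g x := rfl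
lemma ev_mul (f g : RegT U) (x : U.pts) : ev (f * g) x = ev f x * ev g x := rfl
lemma ev_smul (c : ℝ) (f : RegT U) (x : U.pts) : ev (c • f) x = c * ev f x := rfl
lemma ev_zero (x : U.pts) : ev (0 : RegT U) x = 0 := rfl
lemma ev_one (x : U.pts) : ev (1 : RegT U) x = 1 := rfl

lemma exists_rep (f : RegT U) : ∃ g, IsAn U g ∧ ∀ x : U.pts, ev f x = g x := f.2

lemma exists_mk (f : RegT U) : ∃ g, ∃ hg : IsAn U g, f = mk g hg := by
  obtain ⟨g, hg, e⟩ := exists_rep f
  exact ⟨g, hg, reg_ext e⟩

lemma an_d {g : (Fin n → ℝ) → ℝ} (hg : IsAn U g) (v : Fin n → ℝ) :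
    IsAn U (fun x => fderiv ℝ g x v) := fun x hx =>
  ((ContinuousLinearMap.apply ℝ ℝ v).analyticAt _).comp (hg x hx).fderiv

lemma an_coord (i : Fin n) : IsAn U (fun x : Fin n → ℝ => x i) := fun x _ =>
  (ContinuousLinearMap.proj (R := ℝ) (φ := fun _ : Fin n => ℝ) i).analyticAt x

/-- an analytic extension of `f` -/
def rep (f : RegT U) : (Fin n → ℝ) → ℝ := (exists_rep f).choose

lemma rep_an (f : RegT U) : IsAn U (rep f) := (exists_rep f).choose_spec.1

lemma rep_eq (f : RegT U) (x : U.pts) : ev f x = rep f x := (exists_rep f).choose_spec.2 x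

/-- `∂f/∂u^i` -/
def dReg (i : Fin n) (f : RegT U) : RegT U :=
  mk (fun x => fderiv ℝ (rep f) x (Pi.single i 1)) (an_d (rep_an f) _)

lemma dReg_mk (i : Fin n) (g : (Fin n → ℝ) → ℝ) (hg : IsAn U g) (x : U.pts) :
    ev (dReg i (mk g hg)) x = fderiv ℝ g x (Pi.single i 1) := by
  have e : rep (mk g hg) =ᶠ[nhds (x : Fin n → ℝ)] g := by
    filter_upwards [U.isOpen.mem_nhds x.2] with y hy
    exact (rep_eq (mk g hg) ⟨y, hy⟩).symm
  show fderiv ℝ (rep (mk g hg)) x (Pi.single i 1) = _
  rw [e.fderiv_eq]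

/-- `∂/∂u^i` as a derivation of the analytic functions -/
def dR (i : Fin n) : Derivation ℝ (RegT U) (RegT U) :=
  Derivation.mk'
    { toFun := dReg i
      map_add' := by
        intro f f'
        obtain ⟨g, hg, rfl⟩ := exists_mk f
        obtain ⟨g', hg', rfl⟩ := exists_mk f'
        apply reg_ext
        intro x
        have e : mk g hg + mk g' hg' = mk (g + g') (AnalyticOnNhd.add hg hg') := rfl
        rw [e, dReg_mk, ev_add, dReg_mk, dReg_mk,
          fderiv_add (hg x x.2).differentiableAt (hg' x x.2).differentiableAt]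
        rfl
      map_smul' := by
        intro c f
        obtain ⟨g, hg, rfl⟩ := exists_mk f
        apply reg_ext
        intro x
        have e : c • mk g hg = mk (c • g) (AnalyticOnNhd.const_smul hg) := rfl
        rw [e, dReg_mk, RingHom.id_apply, ev_smul, dReg_mk,
          fderiv_const_smul (hg x x.2).differentiableAt]
        rfl }
    (by
      intro f f'
      obtain ⟨g, hg, rfl⟩ := exists_mk f
      obtain ⟨g', hg', rfl⟩ := exists_mk f'
      apply reg_ext
      intro x
      have e : mk g hg * mk g' hg' = mk (g * g') (AnalyticOnNhd.mul hg hg') := rfl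
      show ev (dReg i (mk g hg * mk g' hg')) x = g x * ev (dReg i (mk g' hg')) x
        + g' x * ev (dReg i (mk g hg)) x
      rw [e, dReg_mk, dReg_mk, dReg_mk,
        fderiv_mul (hg x x.2).differentiableAt (hg' x x.2).differentiableAt]
      rfl)

lemma dR_apply (i : Fin n) (f : RegT U) : dR i f = dReg i f := rfl

lemma dR_mk (i : Fin n) (g : (Fin n → ℝ) → ℝ) (hg : IsAn U g) :
    dR i (mk g hg) = mk (fun x => fderiv ℝ g x (Pi.single i 1)) (an_d hg _) := by
  apply reg_ext
  intro x
  rw [dR_apply, dReg_mk]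
  rfl

lemma dR_comm (i j : Fin n) (f : RegT U) : dR i (dR j f) = dR j (dR i f) := by
  obtain ⟨g, hg, rfl⟩ := exists_mk f
  rw [dR_mk, dR_mk, dR_mk, dR_mk]
  apply reg_ext
  intro x
  have hA := hg x x.2
  have hd : DifferentiableAt ℝ (fderiv ℝ g) x := hA.fderiv.differentiableAt
  have s := (hA.contDiffAt (n := ⊤)).isSymmSndFDerivAt (by simp)
  have k : ∀ v w : Fin n → ℝ,
      fderiv ℝ (fun y => fderiv ℝ g y v) x w = fderiv ℝ (fderiv ℝ g) x w v := by
    intro v w
    have := (hd.hasFDerivAt.clm_apply (hasFDerivAt_const v (x : Fin n → ℝ))).fderiv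
    rw [this]
    simp
  show fderiv ℝ (fun y => fderiv ℝ g y (Pi.single j 1)) x (Pi.single i 1)
    = fderiv ℝ (fun y => fderiv ℝ g y (Pi.single i 1)) x (Pi.single j 1)
  rw [k, k]
  exact s _ _

/-- the coordinate function `u^i` -/
def coord (i : Fin n) : RegT U := mk (fun x => x i) (an_coord i)

lemma dR_coord (i j : Fin n) : dR i (coord j : RegT U) = if i = j then 1 else 0 := by
  rw [coord, dR_mk]
  apply reg_ext
  intro x
  show fderiv ℝ (fun x : Fin n → ℝ => x j) x (Pi.single i 1) = _
  have : fderiv ℝ (fun x : Fin n → ℝ => x j) (x : Fin n → ℝ)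
      = ContinuousLinearMap.proj (R := ℝ) (φ := fun _ : Fin n => ℝ) j :=
    (ContinuousLinearMap.proj (R := ℝ) (φ := fun _ : Fin n => ℝ) j).fderiv
  rw [this, ContinuousLinearMap.proj_apply, Pi.single_apply]
  by_cases h : i = j
  · rw [if_pos h, if_pos h.symm]; rfl
  · rw [if_neg h, if_neg (Ne.symm h)]; rfl

/-! ### differential polynomials -/

/-- The algebra of differential polynomials: polynomials in the variables `u^i_{j+1}`, `j ≥ 0`
(named `(i, j)`), with coefficients analytic in `u ∈ U`. -/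
abbrev DP (U : Dom n) : Type := MvPolynomial (Fin n × ℕ) (RegT U)

/-- `∂/∂u^i_j`: for `j = 0` it acts on the coefficients -/
def pdP : Fin n × ℕ → Derivation ℝ (DP U) (DP U)
  | (i, 0) => mapD (dR i)
  | (i, j + 1) => (MvPolynomial.pderiv (i, j)).restrictScalars ℝ

/-- `u^i_j`: a coefficient for `j = 0`, a variable for `j ≥ 1` -/
def uP : Fin n × ℕ → DP U
  | (i, 0) => MvPolynomial.C (coord i)
  | (i, j + 1) => MvPolynomial.X (i, j)

/-- `∂f/∂u^i_j`: for `j = 0` it acts on the coefficients -/
def pdF (U : Dom n) : Fin n × ℕ → DP U → DP U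
  | (i, 0) => mapDFun (dReg i)
  | (i, j + 1) => MvPolynomial.pderiv (i, j)

/-- the total derivative `D f = ∑ u^i_{j+1} ∂f/∂u^i_j` (a finite sum) -/
def DT {U : Dom n} (f : DP U) : DP U :=
  ∑ᶠ j : ℕ, ∑ i : Fin n, uP (i, j + 1) * pdF U (i, j) f

/-- the variational derivative `δf/δu^i = ∑ (-D)^j ∂f/∂u^i_j` (a finite sum) -/
def var {U : Dom n} (i : Fin n) (f : DP U) : DP U :=
  ∑ᶠ j : ℕ, (-1) ^ j * DT^[j] (pdF U (i, j) f)

/-- differential polynomials as a `DiffAlg` -/
def dpAlg (U : Dom n) : DiffAlg n (DP U) where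
  pd := pdP
  u := uP
  pd_u := by
    rintro ⟨i, _ | j⟩ ⟨k, _ | l⟩
    · simp only [pdP, uP, mapD_C, dR_coord, Prod.mk.injEq, and_true]
      split_ifs <;> simp
    · simp [pdP, uP, mapD_X]
    · simp only [pdP, uP, Derivation.restrictScalars_apply, MvPolynomial.pderiv_C]
      simp
    · classical
      simp only [pdP, uP, Derivation.restrictScalars_apply, MvPolynomial.pderiv_X, Pi.single_apply,
        Prod.mk.injEq, Nat.add_right_cancel_iff]
      simp only [eq_comm]
  pd_comm := by
    rintro ⟨i, _ | j⟩ ⟨k, _ | l⟩ f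
    · simp only [pdP]
      ext1 t
      rw [coeff_mapD, coeff_mapD, coeff_mapD, coeff_mapD, dR_comm]
    · simp only [pdP, Derivation.restrictScalars_apply]
      rw [mapD_pderiv]
    · simp only [pdP, Derivation.restrictScalars_apply]
      rw [mapD_pderiv]
    · simp only [pdP, Derivation.restrictScalars_apply]
      rw [pderiv_comm]
  fin_order := by
    intro f
    refine ⟨(f.vars.sup fun a => a.2) + 2, ?_⟩
    rintro i (_ | j) hj
    · omega
    · simp only [pdP, Derivation.restrictScalars_apply]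
      apply MvPolynomial.pderiv_eq_zero_of_notMem_vars
      intro h
      have := Finset.le_sup (f := fun a : Fin n × ℕ => a.2) h
      simp only at this
      omega

lemma pd_eq (a : Fin n × ℕ) (f : DP U) : (dpAlg U).pd a f = pdF U a f := by
  obtain ⟨i, _ | j⟩ := a
  · rfl
  · rfl

lemma D_eq (f : DP U) : (dpAlg U).D f = DT f := by
  obtain ⟨m, hm⟩ := (dpAlg U).exists_ordLT f
  have h1 : (dpAlg U).D f = ∑ j ∈ Finset.range m, ∑ i : Fin n,
      (dpAlg U).u (i, j + 1) * (dpAlg U).pd (i, j) f := (dpAlg U).der_eq _ hm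
  rw [h1, DT]
  symm
  have h2 : ∀ j, ∑ i : Fin n, uP (i, j + 1) * pdF U (i, j) f
      = ∑ i : Fin n, (dpAlg U).u (i, j + 1) * (dpAlg U).pd (i, j) f := by
    intro j
    refine Finset.sum_congr rfl fun i _ => ?_
    rw [pd_eq]
    rfl
  simp only [h2]
  apply finsum_eq_sum_of_support_subset
  intro j hj
  rw [Function.mem_support] at hj
  by_contra h
  apply hj
  refine Finset.sum_eq_zero fun i _ => ?_
  rw [hm i j (by simpa using h), mul_zero]

lemma D_eq' : (⇑(dpAlg U).D : DP U → DP U) = DT := funext D_eq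

lemma E_eq (i : Fin n) (f : DP U) : (dpAlg U).E i f = var i f := by
  simp only [DiffAlg.E, DiffAlg.P, var, pd_eq, one_mul, D_eq']

end

end Pool.Agent.Helper974.DiffPoly
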