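import Mathlib

namespace Pool.Agent.Helper974.Frob

open Filter Topology ContDiff

variable {𝕜 : Type} [RCLike 𝕜]

section Nem

variable {K : Type} [TopologicalSpace K] [CompactSpace K]
  {E G : Type} [NormedAddCommGroup E] [NormedSpace 𝕜 E] [NormedAddCommGroup G] [NormedSpace 𝕜 G]

/-- pointwise application of a multilinear map to continuous functions -/
noncomputable def nemM {n : ℕ} (f : ContinuousMultilinearMap 𝕜 (fun _ : Fin n => E) G) :
    ContinuousMultilinearMap 𝕜 (fun _ : Fin n => C(K, E)) C(K, G) :=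
  MultilinearMap.mkContinuous
    { toFun := fun γ => ⟨fun s => f (fun i => γ i s), by fun_prop⟩
      map_update_add' := by
        intro _ m i x y
        ext s
        have h : ∀ z : C(K, E), (fun j => (Function.update m i z j) s)
            = Function.update (fun j => m j s) i (z s) := by
          intro z
          funext j
          by_cases hj : j = i
          · subst hj; simp
          · simp [Function.update_of_ne hj]
        simp only [ContinuousMap.coe_mk, ContinuousMap.add_apply, h]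
        exact f.map_update_add _ _ _ _
      map_update_smul' := by
        intro _ m i c x
        ext s
        have h : ∀ z : C(K, E), (fun j => (Function.update m i z j) s)
            = Function.update (fun j => m j s) i (z s) := by
          intro z
          funext j
          by_cases hj : j = i
          · subst hj; simp
          · simp [Function.update_of_ne hj]
        simp only [ContinuousMap.coe_mk, ContinuousMap.smul_apply, h]
        exact f.map_update_smul _ _ _ _ }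
    ‖f‖ (by
      intro γ
      refine (ContinuousMap.norm_le _ (by positivity)).2 fun s => ?_
      refine (f.le_opNorm _).trans ?_
      gcongr with i
      exact ContinuousMap.norm_coe_le_norm (γ i) s)

lemma nemM_apply {n : ℕ} (f : ContinuousMultilinearMap 𝕜 (fun _ : Fin n => E) G)
    (γ : Fin n → C(K, E)) (s : K) : nemM f γ s = f (fun i => γ i s) := rfl

lemma nemM_norm {n : ℕ} (f : ContinuousMultilinearMap 𝕜 (fun _ : Fin n => E) G) :
    ‖(nemM f : ContinuousMultilinearMap 𝕜 (fun _ : Fin n => C(K, E)) C(K, G))‖ ≤ ‖f‖ :=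
  MultilinearMap.mkContinuous_norm_le _ (norm_nonneg _) _

/-- superposition by an analytic map is analytic on continuous functions, near a constant -/
lemma exists_nem [CompleteSpace G] {h : E → G} {e₀ : E} (hh : AnalyticAt 𝕜 h e₀) :
    ∃ M : C(K, E) → C(K, G), AnalyticAt 𝕜 M (ContinuousMap.const K e₀) ∧
      ∀ᶠ γ in 𝓝 (ContinuousMap.const K e₀), ∀ s, M γ s = h (γ s) := by
  obtain ⟨p, r, hp⟩ := hh
  let P : FormalMultilinearSeries 𝕜 C(K, E) C(K, G) := fun n => nemM (p n)
  have hrad : p.radius ≤ P.radius := by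
    apply FormalMultilinearSeries.radius_le_of_le
    intro n
    exact nemM_norm (p n)
  have hpos : 0 < P.radius := lt_of_lt_of_le (hp.r_pos.trans_le hp.r_le) hrad
  refine ⟨fun γ => P.sum (γ - ContinuousMap.const K e₀), ?_, ?_⟩
  · have h1 := P.hasFPowerSeriesOnBall hpos
    have h2 := h1.comp_sub (ContinuousMap.const K e₀)
    rw [zero_add] at h2
    exact h2.analyticAt
  · have hmem : Metric.eball (ContinuousMap.const K e₀) (min r P.radius) ∈
        𝓝 (ContinuousMap.const K e₀) := Metric.eball_mem_nhds _ (lt_min hp.r_pos hpos)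
    filter_upwards [hmem] with γ hγ s
    have h3 : (γ - ContinuousMap.const K e₀) ∈ Metric.eball (0 : C(K, E)) P.radius := by
      rw [Metric.mem_eball, edist_zero_right, ← edist_eq_enorm_sub]
      exact lt_of_lt_of_le hγ (min_le_right _ _)
    have h4 := P.hasSum h3
    have h5 := h4.map (ContinuousMap.evalCLM 𝕜 s : C(K, G) →L[𝕜] G)
      (ContinuousMap.evalCLM 𝕜 s : C(K, G) →L[𝕜] G).continuous
    have h6 : γ s - e₀ ∈ Metric.eball (0 : E) r := by
      rw [Metric.mem_eball, edist_zero_right]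
      have : ‖γ s - e₀‖ₑ ≤ ‖γ - ContinuousMap.const K e₀‖ₑ := by
        rw [enorm_le_iff_norm_le]
        exact ContinuousMap.norm_coe_le_norm (γ - ContinuousMap.const K e₀) s
      refine lt_of_le_of_lt this ?_
      rw [← edist_eq_enorm_sub]
      exact lt_of_lt_of_le hγ (min_le_left _ _)
    have h7 := hp.hasSum h6
    rw [add_sub_cancel] at h7
    exact h5.unique h7

end Nem



/-- the unit interval -/
abbrev II : Type := Set.Icc (0 : ℝ) 1

/-- projection to the unit interval -/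
noncomputable def pr (r : ℝ) : II := Set.projIcc 0 1 zero_le_one r

lemma pr_continuous : Continuous pr := continuous_projIcc (h := zero_le_one)

lemma pr_coe (s : II) : pr (s : ℝ) = s := Set.projIcc_val zero_le_one s

section Volt

variable {E : Type} [NormedAddCommGroup E] [NormedSpace 𝕜 E] [NormedSpace ℝ E]
  [IsScalarTower ℝ 𝕜 E] [CompleteSpace E]

/-- the integral operator `γ ↦ ∫_0^s γ` -/
noncomputable def volt (𝕜 : Type) [RCLike 𝕜] (E : Type) [NormedAddCommGroup E] [NormedSpace 𝕜 E]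
    [NormedSpace ℝ E] [IsScalarTower ℝ 𝕜 E] [CompleteSpace E] : C(II, E) →L[𝕜] C(II, E) :=
  LinearMap.mkContinuous
    { toFun := fun γ => ⟨fun s => ∫ r in (0 : ℝ)..s, γ (pr r),
        (intervalIntegral.continuous_primitive (fun a b =>
          (γ.continuous.comp pr_continuous).intervalIntegrable a b) 0).comp
            continuous_subtype_val⟩
      map_add' := by
        intro γ γ'
        ext s
        simp only [ContinuousMap.coe_mk, ContinuousMap.add_apply]
        exact intervalIntegral.integral_add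
          ((γ.continuous.comp pr_continuous).intervalIntegrable _ _)
          ((γ'.continuous.comp pr_continuous).intervalIntegrable _ _)
      map_smul' := by
        intro c γ
        ext s
        simp only [ContinuousMap.coe_mk, ContinuousMap.smul_apply, RingHom.id_apply]
        exact intervalIntegral.integral_smul c _ }
    1 (by
      intro γ
      refine (ContinuousMap.norm_le _ (by positivity)).2 fun s => ?_
      simp only [LinearMap.coe_mk, AddHom.coe_mk, ContinuousMap.coe_mk]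
      refine (intervalIntegral.norm_integral_le_of_norm_le_const (C := ‖γ‖) ?_).trans ?_
      · intro x _
        exact ContinuousMap.norm_coe_le_norm γ _
      · have h1 := s.2.1
        have h2 := s.2.2
        rw [sub_zero, abs_of_nonneg h1, one_mul]
        exact mul_le_of_le_one_right (norm_nonneg _) h2)

lemma volt_apply (γ : C(II, E)) (s : II) : volt 𝕜 E γ s = ∫ r in (0 : ℝ)..s, γ (pr r) := rfl

end Volt


section Orbit

variable {P E : Type} [NormedAddCommGroup P] [NormedSpace 𝕜 P]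
  [NormedAddCommGroup E] [NormedSpace 𝕜 E]

/-- constant functions -/
noncomputable def cst (𝕜 : Type) [RCLike 𝕜] (E : Type) [NormedAddCommGroup E] [NormedSpace 𝕜 E] :
    E →L[𝕜] C(II, E) :=
  LinearMap.mkContinuous
    { toFun := fun e => ContinuousMap.const II e
      map_add' := fun _ _ => rfl
      map_smul' := fun _ _ => rfl }
    1 (by
      intro e
      refine (ContinuousMap.norm_le _ (by positivity)).2 fun s => ?_
      show ‖e‖ ≤ 1 * ‖e‖
      rw [one_mul])

lemma cst_apply (e : E) (s : II) : cst 𝕜 E e s = e := rfl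

/-- `(τ, g) ↦ (s ↦ (τ, g s))` -/
noncomputable def pairL (𝕜 : Type) [RCLike 𝕜] (P E : Type) [NormedAddCommGroup P] [NormedSpace 𝕜 P]
    [NormedAddCommGroup E] [NormedSpace 𝕜 E] : P × C(II, E) →L[𝕜] C(II, P × E) :=
  LinearMap.mkContinuous
    { toFun := fun z => ⟨fun s => (z.1, z.2 s), by fun_prop⟩
      map_add' := fun _ _ => rfl
      map_smul' := fun _ _ => rfl }
    1 (by
      intro z
      refine (ContinuousMap.norm_le _ (by positivity)).2 fun s => ?_
      simp only [LinearMap.coe_mk, AddHom.coe_mk, ContinuousMap.coe_mk, one_mul]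
      rw [Prod.norm_def, Prod.norm_def]
      exact max_le_max le_rfl (ContinuousMap.norm_coe_le_norm z.2 s))

lemma pairL_apply (z : P × C(II, E)) (s : II) : pairL 𝕜 P E z s = (z.1, z.2 s) := rfl

lemma near_const {U : Set E} {e₀ : E} (hU : U ∈ 𝓝 e₀) :
    ∀ᶠ g in 𝓝 (cst 𝕜 E e₀), ∀ s, g s ∈ U := by
  obtain ⟨ε, hε, h⟩ := Metric.mem_nhds_iff.1 hU
  filter_upwards [Metric.ball_mem_nhds _ hε] with g hg s
  apply h
  rw [Metric.mem_ball] at hg ⊢
  exact lt_of_le_of_lt (ContinuousMap.dist_apply_le_dist (f := g) (g := cst 𝕜 E e₀) s) hg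

variable [CompleteSpace P] [CompleteSpace E] [NormedSpace ℝ E] [IsScalarTower ℝ 𝕜 E]

/-- the integral curves `g(s) = e - ∫_0^s σ(g(r)) τ dr` exist and depend analytically on `(τ, e)` -/
lemma exists_curve {σ : E → P →L[𝕜] E} {e₀ : E} (hσ : AnalyticAt 𝕜 σ e₀) :
    ∃ (M : C(II, P × E) → C(II, E)) (G : P × E → C(II, E)),
      AnalyticAt 𝕜 M (cst 𝕜 (P × E) (0, e₀)) ∧ AnalyticAt 𝕜 G (0, e₀) ∧
      (∀ᶠ γ in 𝓝 (cst 𝕜 (P × E) (0, e₀)), ∀ s, M γ s = σ (γ s).2 (γ s).1) ∧
      G (0, e₀) = cst 𝕜 E e₀ ∧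
      ∀ᶠ z in 𝓝 ((0 : P), e₀), G z = cst 𝕜 E z.2 - volt 𝕜 E (M (pairL 𝕜 P E (z.1, G z))) := by
  let h : P × E → E := fun z => σ z.2 z.1
  have hh : AnalyticAt 𝕜 h ((0 : P), e₀) := by
    apply ContDiffAt.analyticAt
    have h1 : ContDiffAt 𝕜 ω (fun z : P × E => σ z.2) ((0 : P), e₀) :=
      ContDiffAt.comp ((0 : P), e₀) (hσ.contDiffAt (n := ω)) contDiffAt_snd
    exact h1.clm_apply contDiffAt_fst
  obtain ⟨M, hM, hMe⟩ := exists_nem (K := II) hh
  have hM' : AnalyticAt 𝕜 M (cst 𝕜 (P × E) (0, e₀)) := hM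
  have hMe' : ∀ᶠ γ in 𝓝 (cst 𝕜 (P × E) (0, e₀)), ∀ s, M γ s = σ (γ s).2 (γ s).1 := hMe
  have hbase : pairL 𝕜 P E (0, cst 𝕜 E e₀) = cst 𝕜 (P × E) (0, e₀) := rfl
  let Φ : (P × E) × C(II, E) → C(II, E) := fun u =>
    u.2 - cst 𝕜 E u.1.2 + volt 𝕜 E (M (pairL 𝕜 P E (u.1.1, u.2)))
  let u₀ : (P × E) × C(II, E) := ((0, e₀), cst 𝕜 E e₀)
  have hΦ : ContDiffAt 𝕜 ω Φ u₀ := by
    have h1 : ContDiffAt 𝕜 ω (fun u : (P × E) × C(II, E) => (u.1.1, u.2)) u₀ := by fun_prop
    have h2 : ContDiffAt 𝕜 ω (fun u : (P × E) × C(II, E) => pairL 𝕜 P E (u.1.1, u.2)) u₀ :=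
      (pairL 𝕜 P E).contDiff.contDiffAt.comp u₀ h1
    have h3 : ContDiffAt 𝕜 ω (fun u : (P × E) × C(II, E) => M (pairL 𝕜 P E (u.1.1, u.2))) u₀ :=
      ContDiffAt.comp (g := M) u₀ (hM'.contDiffAt (n := ω)) h2
    have h4 : ContDiffAt 𝕜 ω (fun u : (P × E) × C(II, E) =>
        volt 𝕜 E (M (pairL 𝕜 P E (u.1.1, u.2)))) u₀ :=
      (volt 𝕜 E).contDiff.contDiffAt.comp u₀ h3
    have h5 : ContDiffAt 𝕜 ω (fun u : (P × E) × C(II, E) => u.2 - cst 𝕜 E u.1.2) u₀ := by
      fun_prop
    exact h5.add h4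
  have hzero : ∀ᶠ g in 𝓝 (cst 𝕜 E e₀), Φ ((0, e₀), g) = g - cst 𝕜 E e₀ := by
    have h1 : Tendsto (fun g : C(II, E) => pairL 𝕜 P E (0, g)) (𝓝 (cst 𝕜 E e₀))
        (𝓝 (cst 𝕜 (P × E) (0, e₀))) := by
      rw [← hbase]
      exact ((pairL 𝕜 P E).continuous.comp (by fun_prop :
        Continuous fun g : C(II, E) => ((0 : P), g))).tendsto _
    filter_upwards [h1.eventually hMe'] with g hg
    have h2 : M (pairL 𝕜 P E (0, g)) = 0 := by
      ext s
      rw [hg s]
      simp [pairL_apply]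
    show g - cst 𝕜 E e₀ + volt 𝕜 E (M (pairL 𝕜 P E (0, g))) = _
    rw [h2, map_zero, add_zero]
  have hinv : (fderiv 𝕜 Φ u₀ ∘L .inr 𝕜 (P × E) C(II, E)).IsInvertible := by
    have h1 : HasFDerivAt (fun g => Φ ((0, e₀), g)) (fderiv 𝕜 Φ u₀ ∘L .inr 𝕜 (P × E) C(II, E))
        (cst 𝕜 E e₀) := by
      have h2 : HasFDerivAt Φ (fderiv 𝕜 Φ u₀) u₀ :=
        (hΦ.differentiableAt (by simp)).hasFDerivAt
      exact h2.comp (cst 𝕜 E e₀) (hasFDerivAt_prodMk_right (0, e₀) (cst 𝕜 E e₀))
    have h3 : HasFDerivAt (fun g => Φ ((0, e₀), g)) (ContinuousLinearMap.id 𝕜 C(II, E))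
        (cst 𝕜 E e₀) := by
      refine HasFDerivAt.congr_of_eventuallyEq ?_ hzero
      exact (hasFDerivAt_id _).sub_const _
    rw [h1.unique h3]
    exact ⟨ContinuousLinearEquiv.refl 𝕜 _, rfl⟩
  have hω : (ω : ℕ∞ω) ≠ 0 := by simp
  let G := hΦ.implicitFunction hω hinv
  refine ⟨M, G, hM', (hΦ.contDiffAt_implicitFunction hω hinv).analyticAt, hMe',
    hΦ.implicitFunction_apply_self hω hinv, ?_⟩
  have h6 : Φ u₀ = 0 := by
    have := hzero.self_of_nhds
    show Φ ((0, e₀), cst 𝕜 E e₀) = 0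
    rw [this, sub_self]
  filter_upwards [hΦ.eventually_apply_implicitFunction hω hinv] with z hz
  rw [h6] at hz
  have h7 : G z - cst 𝕜 E z.2 + volt 𝕜 E (M (pairL 𝕜 P E (z.1, G z))) = 0 := hz
  rw [eq_sub_iff_add_eq, ← sub_eq_zero, ← h7]
  abel

omit [CompleteSpace P] [CompleteSpace E] [NormedSpace ℝ E] [IsScalarTower ℝ 𝕜 E] in
lemma fderiv_eval {σ : E → P →L[𝕜] E} {M : C(II, P × E) → C(II, E)} {γ : C(II, P × E)}
    (hM : DifferentiableAt 𝕜 M γ)
    (hMe : ∀ᶠ η in 𝓝 γ, ∀ s, M η s = σ (η s).2 (η s).1) (s : II)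
    (hσ : DifferentiableAt 𝕜 σ (γ s).2) (ξ : C(II, P × E)) :
    (fderiv 𝕜 M γ ξ) s = σ (γ s).2 (ξ s).1 + fderiv 𝕜 σ (γ s).2 (ξ s).2 (γ s).1 := by
  let ev : C(II, P × E) →L[𝕜] P × E := ContinuousMap.evalCLM 𝕜 s
  let ev' : C(II, E) →L[𝕜] E := ContinuousMap.evalCLM 𝕜 s
  have h1 : HasFDerivAt (fun η => M η s) (ev' ∘L fderiv 𝕜 M γ) γ :=
    ev'.hasFDerivAt.comp γ hM.hasFDerivAt
  have hfst : HasFDerivAt (fun η : C(II, P × E) => (η s).1)
      ((ContinuousLinearMap.fst 𝕜 P E) ∘L ev) γ :=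
    ((ContinuousLinearMap.fst 𝕜 P E) ∘L ev).hasFDerivAt
  have hsnd : HasFDerivAt (fun η : C(II, P × E) => (η s).2)
      ((ContinuousLinearMap.snd 𝕜 P E) ∘L ev) γ :=
    ((ContinuousLinearMap.snd 𝕜 P E) ∘L ev).hasFDerivAt
  have h2 : HasFDerivAt (fun η : C(II, P × E) => σ (η s).2)
      (fderiv 𝕜 σ (γ s).2 ∘L ((ContinuousLinearMap.snd 𝕜 P E) ∘L ev)) γ :=
    hσ.hasFDerivAt.comp γ hsnd
  have h3 := h2.clm_apply hfst
  have h4 : HasFDerivAt (fun η => M η s) _ γ :=
    h3.congr_of_eventuallyEq (hMe.mono fun η hη => hη s)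
  have h5 := congrArg (fun L => L ξ) (h1.unique h4)
  have h6 : ev' (fderiv 𝕜 M γ ξ) = σ (γ s).2 (ev ξ).1 + fderiv 𝕜 σ (γ s).2 (ev ξ).2 (γ s).1 := by
    simpa using h5
  exact h6

/-- **Flow box.**  The integral curves of commuting analytic vector fields, run backwards. -/
theorem orbit {σ : E → P →L[𝕜] E} {e₀ : E} (hσ : AnalyticAt 𝕜 σ e₀)
    (hcomm : ∀ᶠ e in 𝓝 e₀, ∀ v w : P, fderiv 𝕜 σ e (σ e v) w = fderiv 𝕜 σ e (σ e w) v) :
    ∃ W : P × E → E, AnalyticAt 𝕜 W (0, e₀) ∧ (∀ᶠ e in 𝓝 e₀, W (0, e) = e) ∧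
      ∀ᶠ z in 𝓝 ((0 : P), e₀), ∀ v : P, fderiv 𝕜 W z (v, σ z.2 v) = 0 := by
  obtain ⟨M, G, hM, hG, hMe, hG0, hGe⟩ := exists_curve hσ
  let one' : II := ⟨1, by norm_num, le_rfl⟩
  let ev1 : C(II, E) →L[𝕜] E := ContinuousMap.evalCLM 𝕜 one'
  have hGc : Tendsto G (𝓝 (0, e₀)) (𝓝 (cst 𝕜 E e₀)) := by
    have := hG.continuousAt.tendsto
    rwa [hG0] at this
  have hpc : Tendsto (fun z : P × E => pairL 𝕜 P E (z.1, G z)) (𝓝 (0, e₀))
      (𝓝 (cst 𝕜 (P × E) (0, e₀))) := by
    have h1 : Tendsto (fun z : P × E => (z.1, G z)) (𝓝 (0, e₀)) (𝓝 (0, cst 𝕜 E e₀)) := by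
      rw [nhds_prod_eq (x := (0 : P)) (y := cst 𝕜 E e₀)]
      exact Tendsto.prodMk (continuous_fst.tendsto (0, e₀)) hGc
    exact ((pairL 𝕜 P E).continuous.tendsto (0, cst 𝕜 E e₀)).comp h1
  refine ⟨fun z => G z one', (ev1.analyticAt _).comp hG, ?_, ?_⟩
  · have h1 : Tendsto (fun e : E => ((0 : P), e)) (𝓝 e₀) (𝓝 (0, e₀)) :=
      (by fun_prop : Continuous fun e : E => ((0 : P), e)).tendsto e₀
    filter_upwards [h1.eventually hGe, h1.eventually (hpc.eventually hMe)] with e he hm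
    have h2 : M (pairL 𝕜 P E (0, G (0, e))) = 0 := by
      ext s
      rw [hm s]
      simp [pairL_apply]
    rw [he]
    show (cst 𝕜 E e - volt 𝕜 E (M (pairL 𝕜 P E (0, G (0, e))))) one' = e
    rw [h2, map_zero, sub_zero]
    rfl
  · set C : ℝ := ‖fderiv 𝕜 σ e₀‖ + 1 with hC
    have hCpos : 0 < C := by positivity
    have hgood : ∀ᶠ e in 𝓝 e₀, AnalyticAt 𝕜 σ e ∧
        (∀ v w : P, fderiv 𝕜 σ e (σ e v) w = fderiv 𝕜 σ e (σ e w) v) ∧
        ‖fderiv 𝕜 σ e‖ ≤ C := by
      refine hσ.eventually_analyticAt.and (hcomm.and ?_)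
      have h1 : Tendsto (fun e => ‖fderiv 𝕜 σ e‖) (𝓝 e₀) (𝓝 ‖fderiv 𝕜 σ e₀‖) :=
        hσ.fderiv.continuousAt.norm
      exact h1.eventually_le_const (by rw [hC]; linarith)
    have hsmall : ∀ᶠ z in 𝓝 ((0 : P), e₀), C * ‖z.1‖ ≤ 1 / 2 := by
      have h1 : Tendsto (fun z : P × E => C * ‖z.1‖) (𝓝 (0, e₀)) (𝓝 (C * ‖(0 : P)‖)) :=
        (by fun_prop : Continuous fun z : P × E => C * ‖z.1‖).tendsto (0, e₀)
      rw [norm_zero, mul_zero] at h1
      exact h1.eventually_le_const (by norm_num)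
    filter_upwards [hG.eventually_analyticAt, hGe.eventually_nhds,
      hpc.eventually hM.eventually_analyticAt, hpc.eventually hMe.eventually_nhds,
      hGc.eventually (near_const (𝕜 := 𝕜) hgood), hsmall] with z c1 c2 c3 c4 c5 c6 v
    set g : C(II, E) := G z with hg
    set τ : P := z.1 with hτ
    set e : E := z.2 with he
    set γ : C(II, P × E) := pairL 𝕜 P E (τ, g) with hγ
    set δ : C(II, E) := fderiv 𝕜 G z (v, σ e v) with hδ
    have hγs : ∀ s, γ s = (τ, g s) := fun s => rfl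
    -- values of `g`
    have hMγ : ∀ s, M γ s = σ (g s) τ := fun s => c4.self_of_nhds s
    have hgeq : g = cst 𝕜 E e - volt 𝕜 E (M γ) := c2.self_of_nhds
    -- derivative of `G`
    have hδeq : δ = cst 𝕜 E (σ e v) - volt 𝕜 E (fderiv 𝕜 M γ (pairL 𝕜 P E (v, δ))) := by
      have hGd : HasFDerivAt G (fderiv 𝕜 G z) z := c1.differentiableAt.hasFDerivAt
      have hp : HasFDerivAt (fun z' : P × E => pairL 𝕜 P E (z'.1, G z'))
          (pairL 𝕜 P E ∘L ((ContinuousLinearMap.fst 𝕜 P E).prod (fderiv 𝕜 G z))) z :=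
        (pairL 𝕜 P E).hasFDerivAt.comp z (hasFDerivAt_fst.prodMk hGd)
      have hR : HasFDerivAt (fun z' : P × E => M (pairL 𝕜 P E (z'.1, G z')))
          (fderiv 𝕜 M γ ∘L (pairL 𝕜 P E ∘L ((ContinuousLinearMap.fst 𝕜 P E).prod
            (fderiv 𝕜 G z)))) z :=
        HasFDerivAt.comp z (g := M) c3.differentiableAt.hasFDerivAt hp
      have hRhs := ((cst 𝕜 E ∘L ContinuousLinearMap.snd 𝕜 P E).hasFDerivAt (x := z)).sub
        ((volt 𝕜 E).hasFDerivAt.comp z hR)
      have hG2 : HasFDerivAt G _ z := hRhs.congr_of_eventuallyEq c2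
      have := congrArg (fun L => L (v, σ e v)) (hGd.unique hG2)
      exact this
    have hdM : ∀ s, (fderiv 𝕜 M γ (pairL 𝕜 P E (v, δ))) s
        = σ (g s) v + fderiv 𝕜 σ (g s) (δ s) τ := by
      intro s
      exact fderiv_eval c3.differentiableAt c4 s (c5 s).1.differentiableAt (pairL 𝕜 P E (v, δ))
    -- the comparison curve
    have hσc : Continuous fun s : II => σ (g s) := by
      rw [continuous_iff_continuousAt]
      intro s
      exact ContinuousAt.comp (g := σ) (c5 s).1.continuousAt g.continuous.continuousAt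
    let H : C(II, E) := ⟨fun s => (1 - (s : ℝ)) • σ (g s) v,
      (continuous_const.sub continuous_subtype_val).smul (hσc.clm_apply continuous_const)⟩
    have hgi : Continuous fun r : ℝ => σ (g (pr r)) τ :=
      (hσc.comp pr_continuous).clm_apply continuous_const
    let gx : ℝ → E := fun s => e - ∫ r in (0 : ℝ)..s, σ (g (pr r)) τ
    have hgx : ∀ s : II, gx s = g s := by
      intro s
      have h1 := congrArg (fun f : C(II, E) => f s) hgeq
      simp only [ContinuousMap.sub_apply, cst_apply, volt_apply, hMγ] at h1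
      exact h1.symm
    have hgxd : ∀ s : ℝ, HasDerivAt gx (-(σ (g (pr s)) τ)) s := by
      intro s
      have h1 := intervalIntegral.integral_hasDerivAt_right (hgi.intervalIntegrable 0 s)
        (hgi.stronglyMeasurableAtFilter _ _) hgi.continuousAt
      exact h1.const_sub e
    have hHd : ∀ s : ℝ, s ∈ Set.Icc (0 : ℝ) 1 →
        HasDerivAt (fun s : ℝ => (1 - s) • σ (gx s) v)
          (-(σ (g (pr s)) v + fderiv 𝕜 σ (g (pr s)) (H (pr s)) τ)) s := by
      intro s hs
      have e1 : gx s = g (pr s) := by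
        have := hgx ⟨s, hs⟩
        have h2 : pr s = ⟨s, hs⟩ := pr_coe ⟨s, hs⟩
        rw [h2]
        exact this
      have e2 : ((pr s : II) : ℝ) = s := by
        have h2 : pr s = ⟨s, hs⟩ := pr_coe ⟨s, hs⟩
        rw [h2]
      obtain ⟨a1, a2, -⟩ := c5 (pr s)
      have h3 : HasFDerivAt (fun x => σ x v)
          ((ContinuousLinearMap.apply 𝕜 E v) ∘L fderiv 𝕜 σ (gx s)) (gx s) := by
        rw [e1]
        exact (ContinuousLinearMap.apply 𝕜 E v).hasFDerivAt.comp (g (pr s))
          a1.differentiableAt.hasFDerivAt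
      have h4 := (h3.restrictScalars ℝ).comp_hasDerivAt s (hgxd s)
      have h5 : HasDerivAt (fun s : ℝ => (1 : ℝ) - s) (-1) s := by
        simpa using (hasDerivAt_id s).const_sub 1
      have h6 := h5.smul h4
      have h7 : H (pr s) = (1 - s) • σ (g (pr s)) v := by
        show (1 - ((pr s : II) : ℝ)) • σ (g (pr s)) v = _
        rw [e2]
      have h8 : -(σ (g (pr s)) v + fderiv 𝕜 σ (g (pr s)) (H (pr s)) τ)
          = (1 - s) • (fderiv 𝕜 σ (gx s) (-(σ (g (pr s)) τ)) v) + (-1 : ℝ) • σ (gx s) v := by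
        rw [e1, map_neg, h7, ContinuousLinearMap.map_smul_of_tower]
        simp only [neg_apply, smul_apply, smul_neg, neg_smul, one_smul]
        rw [a2 τ v, neg_add, add_comm]
      rw [h8]
      exact h6
    have hKi : ∀ f : C(II, E), Continuous fun r : ℝ =>
        σ (g (pr r)) v + fderiv 𝕜 σ (g (pr r)) (f (pr r)) τ := by
      intro f
      have h1 : Continuous fun s : II => fderiv 𝕜 σ (g s) := by
        rw [continuous_iff_continuousAt]
        intro s
        exact ContinuousAt.comp (g := fderiv 𝕜 σ) (c5 s).1.fderiv.continuousAt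
          g.continuous.continuousAt
      have h2 : Continuous fun s : II => σ (g s) v + fderiv 𝕜 σ (g s) (f s) τ :=
        (hσc.clm_apply continuous_const).add
          ((h1.clm_apply f.continuous).clm_apply continuous_const)
      exact h2.comp pr_continuous
    have hHeq : ∀ s : II, H s = σ e v
        - ∫ r in (0 : ℝ)..s, (σ (g (pr r)) v + fderiv 𝕜 σ (g (pr r)) (H (pr r)) τ) := by
      intro s
      have hs : ∀ x ∈ Set.uIcc (0 : ℝ) s, x ∈ Set.Icc (0 : ℝ) 1 := by
        intro x hx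
        rw [Set.uIcc_of_le s.2.1] at hx
        exact ⟨hx.1, hx.2.trans s.2.2⟩
      have h1 := intervalIntegral.integral_eq_sub_of_hasDerivAt
        (fun x hx => hHd x (hs x hx)) ((hKi H).neg.intervalIntegrable 0 s)
      have h2 : gx 0 = e := by
        show e - ∫ r in (0 : ℝ)..0, σ (g (pr r)) τ = e
        rw [intervalIntegral.integral_same, sub_zero]
      have h3 : (1 - (0 : ℝ)) • σ (gx 0) v = σ e v := by
        rw [h2, sub_zero, one_smul]
      have h4 : (1 - (s : ℝ)) • σ (gx s) v = H s := by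
        rw [hgx s]
        rfl
      rw [h3, h4] at h1
      have h5 : ∫ r in (0 : ℝ)..s, -(σ (g (pr r)) v + fderiv 𝕜 σ (g (pr r)) (H (pr r)) τ)
          = -∫ r in (0 : ℝ)..s, (σ (g (pr r)) v + fderiv 𝕜 σ (g (pr r)) (H (pr r)) τ) :=
        intervalIntegral.integral_neg
      rw [h5] at h1
      rw [sub_eq_add_neg, h1]
      abel
    have hδeq' : ∀ s : II, δ s = σ e v
        - ∫ r in (0 : ℝ)..s, (σ (g (pr r)) v + fderiv 𝕜 σ (g (pr r)) (δ (pr r)) τ) := by
      intro s
      have h1 := congrArg (fun f : C(II, E) => f s) hδeq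
      simp only [ContinuousMap.sub_apply, cst_apply, volt_apply, hdM] at h1
      exact h1
    have hle : ‖δ - H‖ ≤ 1 / 2 * ‖δ - H‖ := by
      refine (ContinuousMap.norm_le _ (by positivity)).2 fun s => ?_
      have h1 : (δ - H) s = -∫ r in (0 : ℝ)..s, fderiv 𝕜 σ (g (pr r)) ((δ - H) (pr r)) τ := by
        rw [ContinuousMap.sub_apply, hδeq' s, hHeq s, sub_sub_sub_cancel_left,
          ← intervalIntegral.integral_sub ((hKi H).intervalIntegrable 0 s)
            ((hKi δ).intervalIntegrable 0 s), ← intervalIntegral.integral_neg]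
        congr 1
        funext r
        simp only [ContinuousMap.sub_apply, map_sub, sub_apply]
        abel
      rw [h1, norm_neg]
      refine (intervalIntegral.norm_integral_le_of_norm_le_const
        (C := 1 / 2 * ‖δ - H‖) ?_).trans ?_
      · intro x _
        calc ‖fderiv 𝕜 σ (g (pr x)) ((δ - H) (pr x)) τ‖
            ≤ ‖fderiv 𝕜 σ (g (pr x)) ((δ - H) (pr x))‖ * ‖τ‖ :=
              ContinuousLinearMap.le_opNorm _ _
          _ ≤ (‖fderiv 𝕜 σ (g (pr x))‖ * ‖(δ - H) (pr x)‖) * ‖τ‖ := by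
              gcongr
              exact ContinuousLinearMap.le_opNorm _ _
          _ ≤ (C * ‖δ - H‖) * ‖τ‖ := by
              gcongr
              · exact (c5 (pr x)).2.2
              · exact ContinuousMap.norm_coe_le_norm (δ - H) _
          _ = (C * ‖τ‖) * ‖δ - H‖ := by ring
          _ ≤ 1 / 2 * ‖δ - H‖ := by gcongr
      · have h1 := s.2.1
        have h2 := s.2.2
        rw [sub_zero, abs_of_nonneg h1]
        exact mul_le_of_le_one_right (by positivity) h2
    have hd : δ - H = 0 := by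
      have h1 := norm_nonneg (δ - H)
      rw [← norm_eq_zero]
      linarith
    have hfd : fderiv 𝕜 (fun z => G z one') z (v, σ e v) = δ one' := by
      have h1 : HasFDerivAt (fun z => G z one') (ev1 ∘L fderiv 𝕜 G z) z :=
        ev1.hasFDerivAt.comp z c1.differentiableAt.hasFDerivAt
      rw [h1.fderiv]
      rfl
    rw [hfd, sub_eq_zero.1 hd]
    show (1 - (1 : ℝ)) • σ (g one') v = 0
    rw [sub_self, zero_smul]

/-- **Frobenius theorem** for commuting analytic vector fields `e ↦ σ e v`, normalised by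
`π (σ e v) = v`: there are common first integrals, equal to the coordinates to first order on
the kernel of `π`. -/
theorem straighten {σ : E → P →L[𝕜] E} {e₀ : E} (hσ : AnalyticAt 𝕜 σ e₀)
    (hcomm : ∀ᶠ e in 𝓝 e₀, ∀ v w : P, fderiv 𝕜 σ e (σ e v) w = fderiv 𝕜 σ e (σ e w) v)
    (π : E →L[𝕜] P) (hπ : ∀ᶠ e in 𝓝 e₀, ∀ v, π (σ e v) = v) :
    ∃ W : E → E, AnalyticAt 𝕜 W e₀ ∧ (∀ᶠ e in 𝓝 e₀, ∀ v, fderiv 𝕜 W e (σ e v) = 0) ∧
      ∀ u, π u = 0 → fderiv 𝕜 W e₀ u = u := by
  obtain ⟨W, hW, hW0, hWd⟩ := orbit hσ hcomm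
  let J : E → P × E := fun e => (π (e - e₀), e)
  have hJ : ∀ e, HasFDerivAt J (π.prod (ContinuousLinearMap.id 𝕜 E)) e := by
    intro e
    have h1 : HasFDerivAt (fun e : E => π (e - e₀)) π e :=
      π.hasFDerivAt.comp e ((hasFDerivAt_id e).sub_const e₀)
    exact h1.prodMk (hasFDerivAt_id e)
  have hJ0 : J e₀ = (0, e₀) := by simp [J]
  have hJa : AnalyticAt 𝕜 J e₀ := by
    apply ContDiffAt.analyticAt
    have h1 : ContDiffAt 𝕜 ω (fun e : E => π (e - e₀)) e₀ :=
      π.contDiff.contDiffAt.comp e₀ (contDiffAt_id.sub contDiffAt_const)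
    exact h1.prodMk contDiffAt_id
  have hJt : Tendsto J (𝓝 e₀) (𝓝 (0, e₀)) := by
    rw [← hJ0]
    exact hJa.continuousAt
  have hWa : AnalyticAt 𝕜 (fun e => W (J e)) e₀ := by
    have : AnalyticAt 𝕜 W (J e₀) := by rw [hJ0]; exact hW
    exact this.comp hJa
  have hder : ∀ e, DifferentiableAt 𝕜 W (J e) → ∀ u,
      fderiv 𝕜 (fun e => W (J e)) e u = fderiv 𝕜 W (J e) (π u, u) := by
    intro e he u
    have h1 := (he.hasFDerivAt.comp e (hJ e)).fderiv
    have h2 : fderiv 𝕜 (fun e => W (J e)) e = _ := h1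
    rw [h2]
    rfl
  refine ⟨fun e => W (J e), hWa, ?_, ?_⟩
  · filter_upwards [hJt.eventually hWd, hJt.eventually hW.eventually_analyticAt, hπ]
      with e h1 h2 h3 v
    rw [hder e h2.differentiableAt, h3 v]
    exact h1 v
  · intro u hu
    have h1 : DifferentiableAt 𝕜 W (J e₀) := by rw [hJ0]; exact hW.differentiableAt
    rw [hder e₀ h1, hu, hJ0]
    have h2 : HasFDerivAt (fun e => W (0, e))
        (fderiv 𝕜 W (0, e₀) ∘L ContinuousLinearMap.inr 𝕜 P E) e₀ :=
      hW.differentiableAt.hasFDerivAt.comp e₀ (hasFDerivAt_prodMk_right (0 : P) e₀)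
    have h3 : HasFDerivAt (fun e => W (0, e)) (ContinuousLinearMap.id 𝕜 E) e₀ :=
      (hasFDerivAt_id e₀).congr_of_eventuallyEq hW0
    have h4 := congrArg (fun L => L u) (h2.unique h3)
    simpa using h4

end Orbit

end Pool.Agent.Helper974.Frob
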