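import Mathlib
import Pool.Agent.Helper974.Diff

namespace Pool.Agent.Helper974.Ham

open Pool.Agent.Helper974.Diff

noncomputable section

variable {N : ℕ} {V : Type} [CommRing V] [Algebra ℝ V] (A : DiffAlg N V)

/-- total derivatives -/
def exact : Submodule ℝ V := LinearMap.range (A.D : V →ₗ[ℝ] V)

/-- functionals -/
abbrev Fnl : Type := V ⧸ exact A

/-- the class of a density -/
def cl : V →ₗ[ℝ] Fnl A := (exact A).mkQ

lemma cl_surj (t : Fnl A) : ∃ a, cl A a = t := Submodule.mkQ_surjective _ t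

lemma cl_eq_zero (f : V) : cl A f = 0 ↔ ∃ g, A.D g = f := by
  rw [cl, Submodule.mkQ_apply, Submodule.Quotient.mk_eq_zero]
  rfl

lemma cl_D (f : V) : cl A (A.D f) = 0 := (cl_eq_zero A _).2 ⟨f, rfl⟩

lemma cl_D_mul (f g : V) : cl A (A.D f * g) = - cl A (f * A.D g) := by
  have h := cl_D A (f * g)
  rw [Derivation.leibniz, map_add, smul_eq_mul, smul_eq_mul, mul_comm g] at h
  exact eq_neg_of_add_eq_zero_right h

lemma cl_mul_D (f g : V) : cl A (f * A.D g) = - cl A (A.D f * g) := by
  rw [cl_D_mul, neg_neg]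

lemma cl_iter_D_mul (j : ℕ) (f g : V) :
    cl A (f * ((-1) ^ j * A.D^[j] g)) = cl A (A.D^[j] f * g) := by
  induction j generalizing f with
  | zero => simp
  | succ j ih =>
    have h1 : f * ((-1) ^ (j + 1) * A.D^[j + 1] g) = - (f * ((-1) ^ j * A.D (A.D^[j] g))) := by
      rw [Function.iterate_succ_apply', pow_succ]; ring
    have h2 : f * ((-1) ^ j * A.D (A.D^[j] g)) = f * A.D ((-1) ^ j * A.D^[j] g) := by
      rw [DiffAlg.neg_one_pow_comm A.D]
    rw [h1, map_neg, h2, cl_mul_D, neg_neg, ih, Function.iterate_succ_apply]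

lemma cl_P (L : Fin N → V) (p q : V) :
    ∑ i, cl A (L i * A.P i p q) = cl A (p * A.ev L q) := by
  obtain ⟨n, hq⟩ := A.exists_ordLT q
  have h1 : A.ev L q = ∑ j ∈ Finset.range n, ∑ i : Fin N, A.D^[j] (L i) * A.pd (i, j) q :=
    A.der_eq _ hq
  rw [h1, Finset.sum_comm, Finset.mul_sum, map_sum]
  refine Finset.sum_congr rfl fun i _ => ?_
  rw [A.P_eq i p hq, Finset.mul_sum, map_sum, Finset.mul_sum, map_sum]
  refine Finset.sum_congr rfl fun j _ => ?_
  rw [cl_iter_D_mul]
  congr 1
  ring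

/-- first variation -/
lemma cl_ev (K : Fin N → V) (f : V) : cl A (A.ev K f) = ∑ i, cl A (K i * A.E i f) := by
  have := cl_P A K 1 f
  rw [one_mul] at this
  exact this.symm

lemma cl_ev_congr (K : Fin N → V) {f g : V} (h : cl A f = cl A g) :
    cl A (A.ev K f) = cl A (A.ev K g) := by
  have h1 : cl A (f - g) = 0 := by rw [map_sub, h, sub_self]
  obtain ⟨w, hw⟩ := (cl_eq_zero A _).1 h1
  have h2 : cl A (A.ev K (f - g)) = 0 := by rw [← hw, A.ev_D, cl_D]
  rw [map_sub, map_sub] at h2
  exact sub_eq_zero.1 h2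

/-- symmetry of the second variation -/
lemma hess_symm (K L : Fin N → V) (ρ : V) :
    ∑ i, cl A (L i * A.ev K (A.E i ρ)) = ∑ i, cl A (K i * A.ev L (A.E i ρ)) := by
  have h1 : cl A (A.ev L (A.ev K ρ)) = ∑ i, cl A (L i * A.ev K (A.E i ρ))
      + ∑ b, cl A (A.E b ρ * A.ev L (K b)) := by
    rw [cl_ev]
    simp only [A.E_ev, mul_add, map_add, Finset.sum_add_distrib, Finset.mul_sum, map_sum]
    congr 1
    rw [Finset.sum_comm]
    exact Finset.sum_congr rfl fun b _ => cl_P A L _ _
  have h2 : cl A (A.ev L (A.ev K ρ)) = ∑ b, cl A (K b * A.ev L (A.E b ρ))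
      + ∑ b, cl A (A.E b ρ * A.ev L (K b)) := by
    have h3 : cl A (A.ev K ρ) = cl A (∑ b, K b * A.E b ρ) := by rw [cl_ev, map_sum]
    rw [cl_ev_congr A L h3, map_sum, map_sum, ← Finset.sum_add_distrib]
    refine Finset.sum_congr rfl fun b _ => ?_
    rw [Derivation.leibniz, map_add, smul_eq_mul, smul_eq_mul]
  rw [h1] at h2
  exact add_right_cancel h2

/-- abstract Jacobi criterion -/
theorem jacobi_of (Op : (Fin N → V) → Fin N → V)
    (dOp : (Fin N → V) → (Fin N → V) → Fin N → V)
    (hev : ∀ K q i, A.ev K (Op q i) = dOp K q i + Op (fun j => A.ev K (q j)) i)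
    (hskew : ∀ p q : Fin N → V, ∑ i, cl A (p i * Op q i) = - ∑ i, cl A (q i * Op p i))
    (htri : ∀ p q r : Fin N → V, ∑ i, cl A (p i * dOp (Op q) r i)
      + ∑ i, cl A (q i * dOp (Op r) p i) + ∑ i, cl A (r i * dOp (Op p) q i) = 0)
    (F G H : V) (br : V → V → V) (hbr : ∀ f g, cl A (br f g)
      = ∑ i, cl A (A.E i f * Op (fun j => A.E j g) i)) :
    cl A (br (br F G) H) + cl A (br (br G H) F) + cl A (br (br H F) G) = 0 := by
  have step : ∀ F G H, cl A (br (br F G) H)
      = ∑ i, cl A (Op (fun j => A.E j G) i * A.ev (Op fun j => A.E j H) (A.E i F))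
        - ∑ i, cl A (Op (fun j => A.E j F) i * A.ev (Op fun j => A.E j H) (A.E i G))
        + ∑ i, cl A (A.E i F * dOp (Op fun j => A.E j H) (fun j => A.E j G) i) := by
    intro F G H
    have h1 : cl A (br (br F G) H) = cl A (A.ev (Op fun j => A.E j H) (br F G)) := by
      rw [hbr, cl_ev]
      exact Finset.sum_congr rfl fun i _ => by rw [mul_comm]
    have h2 : cl A (br F G) = cl A (∑ i, A.E i F * Op (fun j => A.E j G) i) := by
      rw [hbr, map_sum]
    rw [h1, cl_ev_congr A _ h2, map_sum, map_sum]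
    simp only [Derivation.leibniz, smul_eq_mul, hev, mul_add, map_add, Finset.sum_add_distrib]
    rw [hskew (fun i => A.E i F)]
    have e : ∑ i, cl A (A.ev (Op fun j => A.E j H) (A.E i G) * Op (fun j => A.E j F) i)
        = ∑ i, cl A (Op (fun j => A.E j F) i * A.ev (Op fun j => A.E j H) (A.E i G)) :=
      Finset.sum_congr rfl fun i _ => by rw [mul_comm]
    rw [e]
    abel
  rw [step, step, step]
  have s1 := hess_symm A (Op fun j => A.E j H) (Op fun j => A.E j G) F
  have s2 := hess_symm A (Op fun j => A.E j F) (Op fun j => A.E j H) G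
  have s3 := hess_symm A (Op fun j => A.E j G) (Op fun j => A.E j F) H
  rw [s1, s2, s3]
  have t := htri (fun j => A.E j F) (fun j => A.E j H) (fun j => A.E j G)
  rw [← t]
  abel


/-! ### variational derivatives of functionals -/

lemma iter_D_smul (k : ℕ) (c : ℝ) (p : V) : A.D^[k] (c • p) = c • A.D^[k] p := by
  induction k generalizing p with
  | zero => rfl
  | succ k ih => simp only [Function.iterate_succ_apply, Derivation.map_smul, ih]

lemma E_add (i : Fin N) (f g : V) : A.E i (f + g) = A.E i f + A.E i g := A.P_add_right i 1 f g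

lemma E_smul (i : Fin N) (c : ℝ) (f : V) : A.E i (c • f) = c • A.E i f := by
  obtain ⟨n, hf⟩ := A.exists_ordLT f
  have hcf : A.OrdLT n (c • f) := by
    intro i j hj; rw [Derivation.map_smul, hf i j hj, smul_zero]
  rw [A.E_eq i hf, A.E_eq i hcf, Finset.smul_sum]
  refine Finset.sum_congr rfl fun j _ => ?_
  rw [Derivation.map_smul, iter_D_smul, mul_smul_comm]

/-- the variational derivative `δ/δu^i` of densities, as a linear map -/
def EL (i : Fin N) : V →ₗ[ℝ] V where
  toFun := A.E i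
  map_add' := E_add A i
  map_smul' := E_smul A i

lemma exact_le (i : Fin N) : exact A ≤ LinearMap.ker (EL A i) := by
  rintro _ ⟨g, rfl⟩
  exact A.E_D i g

/-- the variational derivative `δ/δu^i` of functionals -/
def ET (i : Fin N) : Fnl A →ₗ[ℝ] V := (exact A).liftQ (EL A i) (exact_le A i)

lemma ET_cl (i : Fin N) (f : V) : ET A i (cl A f) = A.E i f := rfl

end

end Pool.Agent.Helper974.Ham
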