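import Mathlib

/-! The conformal Laplacian on the round sphere `S^n` with a weight: quadratic form, min-max
eigenvalues, heat trace. -/

namespace Pool.Agent.Helper974.Heat

open MeasureTheory Metric
open scoped ENNReal ContDiff

/-- the Euclidean space `ℝ^{n+1}` -/
abbrev EE (n : ℕ) := EuclideanSpace ℝ (Fin (n + 1))

/-- the unit sphere `S^n` of `ℝ^{n+1}` -/
abbrev SS (n : ℕ) := sphere (0 : EE n) 1

/-- the surface measure of `S^n` -/
noncomputable def surf (n : ℕ) : Measure (SS n) := (volume : Measure (EE n)).toSphere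

/-- For a point `x` of `S^n`: the square `|∇f|^2` of the gradient of `f` along the sphere, that is,
the sum of the squares of the derivatives of `f` in the `n + 1` coordinates minus the square of
the derivative of `f` in the radial direction. -/
noncomputable def gradSq {n : ℕ} (f : EE n → ℝ) (x : EE n) : ℝ :=
  ∑ i, (fderiv ℝ f x (EuclideanSpace.single i 1)) ^ 2 - (fderiv ℝ f x x) ^ 2

/-- the quadratic form `∫ f (Y f) = ∫ (|∇f|^2 + (n/2)(n/2 - 1) f^2)` of the conformal Laplacian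
`Y = -Δ + (n/2)(n/2 - 1)` of `S^n` -/
noncomputable def energy {n : ℕ} (f : EE n → ℝ) : ℝ :=
  ∫ x : SS n, (gradSq f x + (n / 2 : ℝ) * (n / 2 - 1) * f x ^ 2) ∂(surf n)

/-- `∫ W f^2` -/
noncomputable def mass {n : ℕ} (W f : EE n → ℝ) : ℝ := ∫ x : SS n, W x * f x ^ 2 ∂(surf n)

/-- a weight on `S^n`: smooth, positive, with `∫ W^{n/2} = vol(S^n)` -/
structure IsWeight {n : ℕ} (W : EE n → ℝ) : Prop where
  smooth : ContDiff ℝ ∞ W
  pos : ∀ x : SS n, 0 < W x
  norm : ∫ x : SS n, W x ^ (n / 2 : ℝ) ∂(surf n) = ∫ _x : SS n, (1 : ℝ) ∂(surf n)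

/-- The `k`-th eigenvalue (`k = 0, 1, …`) of `Y_W = W^{-1/2} Y W^{-1/2}` on `L^2(S^n)`, by the
min-max formula: the infimum, over all `(k+1)`-dimensional spaces of smooth functions, of the
maximum of the quotient `∫ f (Y f) / ∫ W f^2`. (For `h = W^{1/2} f` this is
`⟨h, Y_W h⟩ / ⟨h, h⟩`.) -/
noncomputable def eig {n : ℕ} (W : EE n → ℝ) (k : ℕ) : ℝ :=
  sInf {L : ℝ | ∃ f : Fin (k + 1) → EE n → ℝ, (∀ i, ContDiff ℝ ∞ (f i)) ∧
    ∀ c : Fin (k + 1) → ℝ, c ≠ 0 → 0 < mass W (fun x => ∑ i, c i * f i x) ∧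
      energy (fun x => ∑ i, c i * f i x) ≤ L * mass W (fun x => ∑ i, c i * f i x)}

/-- the heat trace `Tr exp(-t Y_W)` -/
noncomputable def heatTrace {n : ℕ} (W : EE n → ℝ) (t : ℝ) : ℝ≥0∞ :=
  ∑' k : ℕ, ENNReal.ofReal (Real.exp (-t * eig W k))

/-- `C(W)`, the supremum over `t > 0` of `t^{n/2} Tr exp(-t Y_W)` -/
noncomputable def supTrace {n : ℕ} (W : EE n → ℝ) : ℝ≥0∞ :=
  ⨆ (t : ℝ) (_ : 0 < t), ENNReal.ofReal (t ^ (n / 2 : ℝ)) * heatTrace W t

end Pool.Agent.Helper974.Heat
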