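import Mathlib
import Pool.Agent.Helper974.HeatDefs

namespace Pool.Agent.Helper974.Heat

open MeasureTheory Metric Set Pointwise
open scoped ENNReal ContDiff Topology

variable {n : ℕ}

/-- a linear isometry on the sphere -/
noncomputable def sphMap (L : EE n ≃ₗᵢ[ℝ] EE n) (x : SS n) : SS n :=
  ⟨L x, by
    have := x.2
    rw [mem_sphere_zero_iff_norm] at this ⊢
    rw [L.norm_map, this]⟩

lemma continuous_sphMap (L : EE n ≃ₗᵢ[ℝ] EE n) : Continuous (sphMap L) :=
  (L.continuous.comp continuous_subtype_val).subtype_mk _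

instance : IsFiniteMeasure (surf n) := by unfold surf; infer_instance

lemma integrable_sph {f : EE n → ℝ} (hf : Continuous f) :
    Integrable (fun x : SS n => f x) (surf n) := by
  haveI : CompactSpace (SS n) := isCompact_iff_compactSpace.1 (isCompact_sphere _ _)
  exact (hf.comp continuous_subtype_val).integrable_of_hasCompactSupport
    (HasCompactSupport.of_compactSpace _)

lemma map_surf (L : EE n ≃ₗᵢ[ℝ] EE n) : (surf n).map (sphMap L) = surf n := by
  refine Measure.ext fun s hs => ?_
  have hm : MeasurableSet (sphMap L ⁻¹' s) := (continuous_sphMap L).measurable hs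
  rw [Measure.map_apply (continuous_sphMap L).measurable hs, surf, Measure.toSphere_apply' _ hm,
    Measure.toSphere_apply' _ hs]
  congr 1
  have e : (Ioo (0 : ℝ) 1 • ((↑) '' (sphMap L ⁻¹' s)) : Set (EE n))
      = L ⁻¹' (Ioo (0 : ℝ) 1 • ((↑) '' s)) := by
    ext y
    simp only [mem_smul, mem_image, mem_preimage]
    constructor
    · rintro ⟨r, hr, _, ⟨x, hx, rfl⟩, rfl⟩
      exact ⟨r, hr, _, ⟨sphMap L x, hx, rfl⟩, by simp [sphMap]⟩
    · rintro ⟨r, hr, _, ⟨x, hx, rfl⟩, hy⟩
      refine ⟨r, hr, _, ⟨sphMap L.symm x, ?_, rfl⟩, ?_⟩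
      · have : sphMap L (sphMap L.symm x) = x := by
          apply Subtype.ext
          simp [sphMap]
        rw [this]
        exact hx
      · apply L.injective
        rw [← hy]
        simp [sphMap]
  rw [e]
  exact L.measurePreserving.measure_preimage_equiv (f := L.toMeasurableEquiv) _

lemma integral_sphMap (L : EE n ≃ₗᵢ[ℝ] EE n) {f : EE n → ℝ} (hf : Continuous f) :
    ∫ x : SS n, f (L x) ∂(surf n) = ∫ x : SS n, f x ∂(surf n) := by
  conv_rhs => rw [← map_surf L]
  rw [integral_map (continuous_sphMap L).measurable.aemeasurable]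
  · rfl
  · exact (hf.comp continuous_subtype_val).aestronglyMeasurable

/-- the unit vectors `cos t e_i + sin t e_j` -/
noncomputable def uu (i j : Fin (n + 1)) (t : ℝ) : EE n :=
  Real.cos t • EuclideanSpace.single i 1 + Real.sin t • EuclideanSpace.single j 1

noncomputable def uu' (i j : Fin (n + 1)) (t : ℝ) : EE n :=
  -Real.sin t • EuclideanSpace.single i 1 + Real.cos t • EuclideanSpace.single j 1

lemma uu_deriv (i j : Fin (n + 1)) (t : ℝ) : HasDerivAt (uu i j) (uu' i j t) t := by
  unfold uu uu'
  exact ((Real.hasDerivAt_cos t).smul_const _).add ((Real.hasDerivAt_sin t).smul_const _)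

lemma uu_norm {i j : Fin (n + 1)} (hij : i ≠ j) (t : ℝ) : ‖uu i j t‖ = 1 := by
  have h : ‖uu i j t‖ ^ 2 = 1 := by
    unfold uu
    rw [← real_inner_self_eq_norm_sq]
    simp only [inner_add_left, inner_add_right, inner_smul_left, inner_smul_right,
      EuclideanSpace.inner_single_left, PiLp.single_apply, conj_trivial, one_mul]
    simp only [if_true, hij, hij.symm, if_false, mul_one, mul_zero, add_zero, zero_add]
    nlinarith [Real.sin_sq_add_cos_sq t]
  have h0 : 0 ≤ ‖uu i j t‖ := norm_nonneg _
  nlinarith

lemma inner_uu (i j : Fin (n + 1)) (t : ℝ) (x : EE n) :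
    inner ℝ (uu i j t) x = Real.cos t * x i + Real.sin t * x j := by
  unfold uu
  simp [inner_add_left, inner_smul_left, EuclideanSpace.inner_single_left]

lemma continuous_uu (i j : Fin (n + 1)) : Continuous (uu i j) :=
  continuous_iff_continuousAt.2 fun t => (uu_deriv i j t).continuousAt

lemma continuous_uu' (i j : Fin (n + 1)) : Continuous (uu' i j) := by
  unfold uu'
  fun_prop

/-- reflections in lines of the `(i, j)`-plane -/
noncomputable def refl (i j : Fin (n + 1)) (t : ℝ) : EE n ≃ₗᵢ[ℝ] EE n :=
  (Submodule.span ℝ {uu i j t}).reflection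

lemma refl_apply {i j : Fin (n + 1)} (hij : i ≠ j) (t : ℝ) (x : EE n) :
    refl i j t x = (2 * (Real.cos t * x i + Real.sin t * x j)) • uu i j t - x := by
  unfold refl
  rw [Submodule.reflection_singleton_apply]
  have : ((‖uu i j t‖ : ℝ) : ℝ) = 1 := uu_norm hij t
  simp only [RCLike.ofReal_real_eq_id, id, this, one_pow, div_one, inner_uu]
  rw [two_smul, ← add_smul, two_mul]

/-- the rotation field `x_i ∂_j - x_j ∂_i` -/
noncomputable def rot (i j : Fin (n + 1)) (f : EE n → ℝ) (x : EE n) : ℝ :=
  fderiv ℝ f x (x i • EuclideanSpace.single j 1 - x j • EuclideanSpace.single i 1)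

lemma hasDerivAt_refl {i j : Fin (n + 1)} (hij : i ≠ j) (t : ℝ) (x : EE n) :
    HasDerivAt (fun t => refl i j t x)
      ((2 * (-Real.sin t * x i + Real.cos t * x j)) • uu i j t
        + (2 * (Real.cos t * x i + Real.sin t * x j)) • uu' i j t) t := by
  have h1 : HasDerivAt (fun t => 2 * (Real.cos t * x i + Real.sin t * x j))
      (2 * (-Real.sin t * x i + Real.cos t * x j)) t :=
    (((Real.hasDerivAt_cos t).mul_const _).add ((Real.hasDerivAt_sin t).mul_const _)).const_mul 2
  have h2 := (h1.smul (uu_deriv i j t)).sub_const x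
  have e : (fun t => refl i j t x)
      = fun t => (2 * (Real.cos t * x i + Real.sin t * x j)) • uu i j t - x :=
    funext fun t => refl_apply hij t x
  rw [e]
  exact h2.congr_deriv (add_comm _ _)

/-- the derivative of `t ↦ f (refl t x)` -/
noncomputable def dRefl (i j : Fin (n + 1)) (f : EE n → ℝ) (t : ℝ) (x : EE n) : ℝ :=
  fderiv ℝ f (refl i j t x) ((2 * (-Real.sin t * x i + Real.cos t * x j)) • uu i j t
        + (2 * (Real.cos t * x i + Real.sin t * x j)) • uu' i j t)

lemma continuous_coord (i : Fin (n + 1)) : Continuous fun x : EE n => x i :=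
  (EuclideanSpace.proj (𝕜 := ℝ) i).continuous

lemma continuous_dRefl {i j : Fin (n + 1)} (hij : i ≠ j) {f : EE n → ℝ} (hf : ContDiff ℝ 1 f) :
    Continuous fun p : ℝ × EE n => dRefl i j f p.1 p.2 := by
  have h1 : Continuous fun p : ℝ × EE n => refl i j p.1 p.2 := by
    simp only [refl_apply hij]
    have := continuous_uu (n := n) i j
    have := continuous_coord (n := n)
    fun_prop
  have h2 : Continuous fun p : ℝ × EE n => fderiv ℝ f (refl i j p.1 p.2) :=
    (hf.continuous_fderiv one_ne_zero).comp h1
  have h3 : Continuous fun p : ℝ × EE n =>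
      ((2 * (-Real.sin p.1 * p.2 i + Real.cos p.1 * p.2 j)) • uu i j p.1
        + (2 * (Real.cos p.1 * p.2 i + Real.sin p.1 * p.2 j)) • uu' i j p.1 : EE n) := by
    have := continuous_uu (n := n) i j
    have := continuous_uu' (n := n) i j
    have := continuous_coord (n := n)
    fun_prop
  exact h2.clm_apply h3

/-- rotation fields integrate to zero over the sphere -/
theorem integral_rot {i j : Fin (n + 1)} (hij : i ≠ j) {f : EE n → ℝ} (hf : ContDiff ℝ 1 f) :
    ∫ x : SS n, rot i j f x ∂(surf n) = 0 := by
  have hc := hf.continuous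
  -- the derivative at zero
  have hbd : ∃ C : ℝ, ∀ p ∈ (Icc (-1 : ℝ) 1) ×ˢ (sphere (0 : EE n) 1), ‖dRefl i j f p.1 p.2‖ ≤ C :=
    (isCompact_Icc.prod (isCompact_sphere _ _)).exists_bound_of_continuousOn
      (continuous_dRefl hij hf).continuousOn
  obtain ⟨C, hC⟩ := hbd
  have hd : ∀ (t : ℝ) (x : EE n), HasDerivAt (fun t => f (refl i j t x)) (dRefl i j f t x) t := by
    intro t x
    have h1 : HasFDerivAt f (fderiv ℝ f (refl i j t x)) (refl i j t x) :=
      (hf.differentiable one_ne_zero _).hasFDerivAt
    exact h1.comp_hasDerivAt t (hasDerivAt_refl hij t x)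
  have key := hasDerivAt_integral_of_dominated_loc_of_deriv_le (μ := surf n)
    (F := fun (t : ℝ) (x : SS n) => f (refl i j t x)) (F' := fun (t : ℝ) (x : SS n) => dRefl i j f t x)
    (x₀ := (0 : ℝ)) (s := Icc (-1 : ℝ) 1) (bound := fun _ => C)
    (Icc_mem_nhds (by norm_num) (by norm_num))
    (Filter.Eventually.of_forall fun t =>
      ((hc.comp ((refl i j t).continuous)).comp continuous_subtype_val).aestronglyMeasurable)
    ?_ ?_ (Filter.Eventually.of_forall fun x t ht => hC (t, x) ⟨ht, x.2⟩)
    (integrable_const _) (Filter.Eventually.of_forall fun x t _ => hd t x)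
  · have h1 : (fun t : ℝ => ∫ x : SS n, f (refl i j t x) ∂(surf n))
        = fun _ => ∫ x : SS n, f x ∂(surf n) :=
      funext fun t => integral_sphMap (refl i j t) hc
    have h2 := key.2
    rw [h1] at h2
    have h3 : ∫ x : SS n, dRefl i j f 0 x ∂(surf n) = 0 :=
      h2.unique (hasDerivAt_const _ _)
    have h4 : ∀ x : EE n, dRefl i j f 0 x = 2 * rot i j f (refl i j 0 x) := by
      intro x
      unfold dRefl rot
      have e1 : ∀ (ℓ : EE n →L[ℝ] ℝ) (v : EE n), 2 * ℓ v = ℓ ((2 : ℝ) • v) := by
        intro ℓ v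
        rw [map_smul, smul_eq_mul]
      rw [e1]
      congr 1
      rw [refl_apply hij]
      simp only [uu, uu', Real.sin_zero, Real.cos_zero, neg_zero, zero_mul, zero_add, one_mul,
        add_zero, one_smul, zero_smul]
      ext k
      simp only [PiLp.add_apply, PiLp.smul_apply, PiLp.sub_apply, PiLp.single_apply,
        smul_eq_mul, if_true, hij, hij.symm, if_false]
      ring
    have h5 : ∫ x : SS n, (fun y => 2 * rot i j f y) (refl i j 0 x) ∂(surf n)
        = ∫ x : SS n, 2 * rot i j f x ∂(surf n) := by
      apply integral_sphMap (refl i j 0) (f := fun y => 2 * rot i j f y)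
      unfold rot
      have h6 : Continuous fun x : EE n => fderiv ℝ f x := hf.continuous_fderiv one_ne_zero
      have h7 : Continuous fun x : EE n =>
          (x i • EuclideanSpace.single j 1 - x j • EuclideanSpace.single i 1 : EE n) := by
        have := continuous_coord (n := n)
        fun_prop
      exact continuous_const.mul (h6.clm_apply h7)
    simp only [h4] at h3
    rw [h5, integral_const_mul] at h3
    linarith
  · exact integrable_sph (hc.comp (refl i j 0).continuous)
  · have := (continuous_dRefl hij hf).comp (Continuous.prodMk continuous_const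
      (continuous_subtype_val (p := fun x => x ∈ sphere (0 : EE n) 1)) : Continuous fun x : SS n => ((0 : ℝ), (x : EE n)))
    exact this.aestronglyMeasurable

end Pool.Agent.Helper974.Heat
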