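import Mathlib
import Pool.Agent.Helper974.HeatRot

namespace Pool.Agent.Helper974.Heat

open MeasureTheory Metric Set
open scoped ENNReal ContDiff Topology

lemma coord_le_one (x : SS 3) (i : Fin 4) : (x : EE 3) i ∈ Icc (-1 : ℝ) 1 := by
  have h1 : ‖(x : EE 3)‖ = 1 := mem_sphere_zero_iff_norm.1 x.2
  have h2 := EuclideanSpace.norm_sq_eq (x : EE 3)
  rw [h1] at h2
  have h3 : ‖(x : EE 3) i‖ ^ 2 ≤ ∑ j, ‖(x : EE 3) j‖ ^ 2 :=
    Finset.single_le_sum (f := fun j => ‖(x : EE 3) j‖ ^ 2) (fun j _ => by positivity) (Finset.mem_univ i)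
  rw [← h2, Real.norm_eq_abs, sq_abs] at h3
  refine abs_le.1 ?_
  nlinarith [abs_nonneg ((x : EE 3) i), sq_abs ((x : EE 3) i)]

lemma sum_sq (x : SS 3) : (x : EE 3) 0 ^ 2 + (x : EE 3) 1 ^ 2 + (x : EE 3) 2 ^ 2
    + (x : EE 3) 3 ^ 2 = 1 := by
  have h1 : ‖(x : EE 3)‖ = 1 := mem_sphere_zero_iff_norm.1 x.2
  have h2 : ‖(x : EE 3)‖ ^ 2 = ∑ i : Fin 4, ‖(x : EE 3) i‖ ^ 2 := EuclideanSpace.norm_sq_eq _
  rw [h1, Fin.sum_univ_four] at h2
  simp only [Real.norm_eq_abs, sq_abs] at h2
  linarith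

/-- moments of the last coordinate -/
noncomputable def mom (m : ℕ) : ℝ := ∫ x : SS 3, (x : EE 3) 3 ^ m ∂(surf 3)

lemma contDiff_coord {n : ℕ} (i : Fin (n + 1)) {k : WithTop ℕ∞} : ContDiff ℝ k fun x : EE n => x i :=
  (EuclideanSpace.proj (𝕜 := ℝ) i).contDiff

lemma hasFDerivAt_coord {n : ℕ} (i : Fin (n + 1)) (x : EE n) :
    HasFDerivAt (fun x : EE n => x i) (EuclideanSpace.proj (𝕜 := ℝ) i : EE n →L[ℝ] ℝ) x :=
  (EuclideanSpace.proj (𝕜 := ℝ) i : EE n →L[ℝ] ℝ).hasFDerivAt

lemma rot_mom (m : ℕ) (i : Fin 4) (hi : i ≠ 3) (x : EE 3) :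
    rot i 3 (fun x : EE 3 => x 3 ^ m * x i) x
      = m * x 3 ^ (m - 1) * x i ^ 2 - x 3 ^ (m + 1) := by
  unfold rot
  have h := ((hasFDerivAt_coord (n := 3) 3 x).pow m).mul (hasFDerivAt_coord (n := 3) i x)
  rw [show (fun x : EE 3 => x 3 ^ m * x i) = (fun x : EE 3 => x 3 ^ m) * fun x => x i from rfl]
  rw [h.fderiv]
  simp [PiLp.single_apply, hi, hi.symm]
  ring

lemma mom_rec (m : ℕ) : (m + 3 : ℝ) * mom (m + 1) = m * mom (m - 1) := by
  have hc : ∀ i, ContDiff ℝ 1 (fun x : EE 3 => x 3 ^ m * x i) := fun i =>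
    ((contDiff_coord 3).pow m).mul (contDiff_coord i)
  have h0 := integral_rot (i := 0) (j := 3) (by decide) (hc 0)
  have h1 := integral_rot (i := 1) (j := 3) (by decide) (hc 1)
  have h2 := integral_rot (i := 2) (j := 3) (by decide) (hc 2)
  simp only [rot_mom m 0 (by decide), rot_mom m 1 (by decide), rot_mom m 2 (by decide)] at h0 h1 h2
  have hint : ∀ i : Fin 4, Integrable (fun x : SS 3 =>
      m * (x : EE 3) 3 ^ (m - 1) * (x : EE 3) i ^ 2 - (x : EE 3) 3 ^ (m + 1)) (surf 3) := by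
    intro i
    apply integrable_sph (f := fun x : EE 3 => m * x 3 ^ (m - 1) * x i ^ 2 - x 3 ^ (m + 1))
    have := continuous_coord (n := 3)
    fun_prop
  have hs := integral_add ((hint 0).add (hint 1)) (hint 2)
  have hs2 := integral_add (hint 0) (hint 1)
  simp only [Pi.add_apply] at hs
  rw [hs2, h0, h1, h2] at hs
  have e : ∀ x : SS 3, (m * (x : EE 3) 3 ^ (m - 1) * (x : EE 3) 0 ^ 2 - (x : EE 3) 3 ^ (m + 1)
      + (m * (x : EE 3) 3 ^ (m - 1) * (x : EE 3) 1 ^ 2 - (x : EE 3) 3 ^ (m + 1))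
      + (m * (x : EE 3) 3 ^ (m - 1) * (x : EE 3) 2 ^ 2 - (x : EE 3) 3 ^ (m + 1)))
      = m * (x : EE 3) 3 ^ (m - 1) - (m + 3) * (x : EE 3) 3 ^ (m + 1) := by
    intro x
    have h := sum_sq x
    have h' : (x : EE 3) 0 ^ 2 + (x : EE 3) 1 ^ 2 + (x : EE 3) 2 ^ 2 = 1 - (x : EE 3) 3 ^ 2 := by
      linarith
    have e1 : (m * (x : EE 3) 3 ^ (m - 1) * (x : EE 3) 0 ^ 2 - (x : EE 3) 3 ^ (m + 1)
      + (m * (x : EE 3) 3 ^ (m - 1) * (x : EE 3) 1 ^ 2 - (x : EE 3) 3 ^ (m + 1))
      + (m * (x : EE 3) 3 ^ (m - 1) * (x : EE 3) 2 ^ 2 - (x : EE 3) 3 ^ (m + 1)))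
      = m * (x : EE 3) 3 ^ (m - 1) * ((x : EE 3) 0 ^ 2 + (x : EE 3) 1 ^ 2 + (x : EE 3) 2 ^ 2)
        - 3 * (x : EE 3) 3 ^ (m + 1) := by ring
    rw [e1, h']
    rcases Nat.eq_zero_or_pos m with rfl | hm
    · simp
    · obtain ⟨l, rfl⟩ : ∃ l, m = l + 1 := ⟨m - 1, by omega⟩
      simp only [Nat.add_sub_cancel]
      push_cast
      ring
  simp only [e] at hs
  have hi1 : Integrable (fun x : SS 3 => (m : ℝ) * (x : EE 3) 3 ^ (m - 1)) (surf 3) := by
    apply integrable_sph (f := fun x : EE 3 => (m : ℝ) * x 3 ^ (m - 1))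
    have := continuous_coord (n := 3)
    fun_prop
  have hi2 : Integrable (fun x : SS 3 => ((m : ℝ) + 3) * (x : EE 3) 3 ^ (m + 1)) (surf 3) := by
    apply integrable_sph (f := fun x : EE 3 => ((m : ℝ) + 3) * x 3 ^ (m + 1))
    have := continuous_coord (n := 3)
    fun_prop
  rw [integral_sub hi1 hi2, integral_const_mul, integral_const_mul] at hs
  unfold mom
  linarith

/-- moments of the semicircle -/
noncomputable def sem (m : ℕ) : ℝ := ∫ c in (-1 : ℝ)..1, c ^ m * √(1 - c ^ 2)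

lemma sem_zero : sem 0 = Real.pi / 2 := by
  unfold sem
  simp only [pow_zero, one_mul]
  exact integral_sqrt_one_sub_sq

lemma sem_rec (m : ℕ) : (m + 3 : ℝ) * sem (m + 1) = m * sem (m - 1) := by
  have hd : ∀ c ∈ Ioo (-1 : ℝ) 1, HasDerivAt (fun c : ℝ => c ^ m * ((1 - c ^ 2) * √(1 - c ^ 2)))
      (m * (c ^ (m - 1) * √(1 - c ^ 2)) - (m + 3) * (c ^ (m + 1) * √(1 - c ^ 2))) c := by
    intro c hc
    have hpos : 0 < 1 - c ^ 2 := by nlinarith [hc.1, hc.2]
    have h1 : HasDerivAt (fun c : ℝ => 1 - c ^ 2) (-(2 * c)) c := by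
      simpa using (hasDerivAt_pow 2 c).const_sub 1
    have h2 := h1.sqrt hpos.ne'
    have h3 := (hasDerivAt_pow m c).mul (h1.mul h2)
    refine h3.congr_deriv ?_
    have hs : √(1 - c ^ 2) ≠ 0 := (Real.sqrt_pos.2 hpos).ne'
    have hsq : √(1 - c ^ 2) ^ 2 = 1 - c ^ 2 := Real.sq_sqrt hpos.le
    rcases Nat.eq_zero_or_pos m with rfl | hm
    · simp only [Nat.cast_zero, zero_mul, pow_zero, one_mul, zero_add, pow_one]
      field_simp
      rw [← hsq]
      ring_nf
      simp only [hsq]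
      ring
    · obtain ⟨l, rfl⟩ : ∃ l, m = l + 1 := ⟨m - 1, by omega⟩
      simp only [Nat.add_sub_cancel]
      have h5 : (1 - c ^ 2) * (-(2 * c) / (2 * √(1 - c ^ 2))) = -c * √(1 - c ^ 2) := by
        field_simp
        rw [hsq]
      simp only [Pi.mul_apply]
      rw [h5]
      push_cast
      ring
  have hcont : ContinuousOn (fun c : ℝ => c ^ m * ((1 - c ^ 2) * √(1 - c ^ 2))) (Icc (-1) 1) := by
    fun_prop
  have hint : IntervalIntegrable (fun c : ℝ => (m : ℝ) * (c ^ (m - 1) * √(1 - c ^ 2))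
      - (m + 3) * (c ^ (m + 1) * √(1 - c ^ 2))) volume (-1) 1 := by
    apply Continuous.intervalIntegrable
    fun_prop
  have h := intervalIntegral.integral_eq_sub_of_hasDerivAt_of_le (by norm_num) hcont hd hint
  rw [intervalIntegral.integral_sub, intervalIntegral.integral_const_mul,
    intervalIntegral.integral_const_mul] at h
  · unfold sem
    norm_num at h
    linarith
  · apply Continuous.intervalIntegrable
    fun_prop
  · apply Continuous.intervalIntegrable
    fun_prop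

lemma mom_eq (m : ℕ) : mom m = mom 0 * (2 / Real.pi) * sem m := by
  induction m using Nat.strong_induction_on with
  | _ m ih =>
    rcases m with _ | _ | m
    · rw [sem_zero]
      have := Real.pi_ne_zero
      field_simp
    · have h1 := mom_rec 0
      have h2 := sem_rec 0
      simp only [Nat.cast_zero, zero_mul, zero_add, mul_eq_zero] at h1 h2
      have h3 : mom 1 = 0 := by rcases h1 with h | h; norm_num at h; exact h
      have h4 : sem 1 = 0 := by rcases h2 with h | h; norm_num at h; exact h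
      rw [h3, h4, mul_zero]
    · have h1 := mom_rec (m + 1)
      have h2 := sem_rec (m + 1)
      simp only [Nat.add_sub_cancel] at h1 h2
      have h3 := ih m (by omega)
      rw [h3] at h1
      have h4 : ((m + 1 : ℕ) : ℝ) + 3 ≠ 0 := by positivity
      apply mul_left_cancel₀ h4
      rw [show m + 1 + 1 = m + 2 from rfl] at h1 h2 ⊢
      rw [h1]
      linear_combination (-(mom 0 * (2 / Real.pi))) * h2

/-- the area of `S^3` -/
noncomputable def area : ℝ := ∫ _x : SS 3, (1 : ℝ) ∂(surf 3)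

lemma mom_zero : mom 0 = area := by
  unfold mom area
  simp only [pow_zero]

lemma area_pos : 0 < area := by
  unfold area
  rw [integral_const, smul_eq_mul, mul_one]
  have h : (surf 3) univ ≠ 0 := by
    rw [Measure.measure_univ_ne_zero]
    exact Measure.toSphere_ne_zero _
  exact ENNReal.toReal_pos h (measure_ne_top _ _)

lemma law_poly (p : Polynomial ℝ) : ∫ x : SS 3, p.eval ((x : EE 3) 3) ∂(surf 3)
    = area * (2 / Real.pi) * ∫ c in (-1 : ℝ)..1, p.eval c * √(1 - c ^ 2) := by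
  simp only [Polynomial.eval_eq_sum_range]
  rw [integral_finsetSum]
  · simp only [Finset.sum_mul]
    rw [intervalIntegral.integral_finsetSum]
    · rw [Finset.mul_sum]
      refine Finset.sum_congr rfl fun m _ => ?_
      rw [integral_const_mul]
      simp only [mul_assoc]
      rw [intervalIntegral.integral_const_mul]
      have := mom_eq m
      unfold mom sem at this
      rw [this, ← mom_zero]
      unfold mom
      ring
    · intro m _
      apply Continuous.intervalIntegrable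
      fun_prop
  · intro m _
    apply integrable_sph (f := fun x : EE 3 => p.coeff m * x 3 ^ m)
    have := continuous_coord (n := 3)
    fun_prop

theorem law {G : ℝ → ℝ} (hG : ContinuousOn G (Icc (-1) 1)) :
    ∫ x : SS 3, G ((x : EE 3) 3) ∂(surf 3)
      = area * (2 / Real.pi) * ∫ c in (-1 : ℝ)..1, G c * √(1 - c ^ 2) := by
  have hapos := area_pos
  have hpi := Real.pi_pos
  refine eq_of_forall_dist_le fun ε hε => ?_
  have hC : 0 < area + area * (2 / Real.pi) * 2 := by positivity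
  obtain ⟨p, hp⟩ := exists_polynomial_near_of_continuousOn (-1) 1 G hG
    (ε / (area + area * (2 / Real.pi) * 2)) (by positivity)
  set η := ε / (area + area * (2 / Real.pi) * 2) with hη
  have hηpos : 0 < η := by positivity
  -- the sphere side
  have hGc : Continuous fun x : SS 3 => G ((x : EE 3) 3) := by
    have h1 : Continuous fun x : SS 3 => ((⟨(x : EE 3) 3, coord_le_one x 3⟩ : Icc (-1 : ℝ) 1)) :=
      Continuous.subtype_mk ((continuous_coord 3).comp continuous_subtype_val) _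
    exact (continuousOn_iff_continuous_domRestrict.1 hG).comp h1
  have hcs : CompactSpace (SS 3) := isCompact_iff_compactSpace.1 (isCompact_sphere _ _)
  have hGi : Integrable (fun x : SS 3 => G ((x : EE 3) 3)) (surf 3) :=
    hGc.integrable_of_hasCompactSupport (HasCompactSupport.of_compactSpace _)
  have hpi' : Integrable (fun x : SS 3 => p.eval ((x : EE 3) 3)) (surf 3) := by
    apply integrable_sph (f := fun x : EE 3 => p.eval (x 3))
    have := continuous_coord (n := 3) 3
    fun_prop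
  have h1 : |∫ x : SS 3, G ((x : EE 3) 3) ∂(surf 3) - ∫ x : SS 3, p.eval ((x : EE 3) 3) ∂(surf 3)|
      ≤ η * area := by
    rw [← integral_sub hGi hpi']
    have h2 := norm_integral_le_of_norm_le_const (μ := surf 3) (C := η)
      (f := fun x : SS 3 => G ((x : EE 3) 3) - p.eval ((x : EE 3) 3))
      (Filter.Eventually.of_forall fun x => by
        rw [Real.norm_eq_abs, abs_sub_comm]
        exact (hp _ (coord_le_one x 3)).le)
    have h3 : area = (surf 3).real univ := by
      unfold area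
      rw [integral_const, smul_eq_mul, mul_one]
    rw [h3]
    exact h2
  -- the interval side
  have hGi2 : IntervalIntegrable (fun c => G c * √(1 - c ^ 2)) volume (-1) 1 := by
    apply ContinuousOn.intervalIntegrable
    rw [uIcc_of_le (by norm_num)]
    exact hG.mul (by fun_prop)
  have hpi2 : IntervalIntegrable (fun c => p.eval c * √(1 - c ^ 2)) volume (-1) 1 := by
    apply Continuous.intervalIntegrable
    fun_prop
  have h4 : |(∫ c in (-1 : ℝ)..1, p.eval c * √(1 - c ^ 2)) - ∫ c in (-1 : ℝ)..1, G c * √(1 - c ^ 2)|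
      ≤ η * 2 := by
    rw [← intervalIntegral.integral_sub hpi2 hGi2]
    have h5 := intervalIntegral.norm_integral_le_of_norm_le_const (a := (-1 : ℝ)) (b := 1) (C := η)
      (f := fun c => p.eval c * √(1 - c ^ 2) - G c * √(1 - c ^ 2)) (by
        intro c hc
        rw [uIoc_of_le (by norm_num)] at hc
        rw [← sub_mul, norm_mul, Real.norm_eq_abs, Real.norm_eq_abs]
        have h6 := (hp c ⟨hc.1.le, hc.2⟩).le
        have h7 : |√(1 - c ^ 2)| ≤ 1 := by
          rw [abs_of_nonneg (Real.sqrt_nonneg _), Real.sqrt_le_one]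
          nlinarith [sq_nonneg c]
        calc _ ≤ η * 1 := mul_le_mul h6 h7 (abs_nonneg _) hηpos.le
          _ = η := mul_one _)
    rw [Real.norm_eq_abs] at h5
    calc _ ≤ _ := h5
      _ = η * 2 := by norm_num
  rw [Real.dist_eq]
  have h8 := law_poly p
  have h9 : ∫ x : SS 3, G ((x : EE 3) 3) ∂(surf 3)
      - area * (2 / Real.pi) * ∫ c in (-1 : ℝ)..1, G c * √(1 - c ^ 2)
      = (∫ x : SS 3, G ((x : EE 3) 3) ∂(surf 3) - ∫ x : SS 3, p.eval ((x : EE 3) 3) ∂(surf 3))
        + area * (2 / Real.pi) * ((∫ c in (-1 : ℝ)..1, p.eval c * √(1 - c ^ 2))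
          - ∫ c in (-1 : ℝ)..1, G c * √(1 - c ^ 2)) := by
    rw [h8]; ring
  rw [h9]
  refine (abs_add_le _ _).trans ?_
  rw [abs_mul, abs_of_pos (by positivity : 0 < area * (2 / Real.pi))]
  have h10 : area * (2 / Real.pi) * |(∫ c in (-1 : ℝ)..1, p.eval c * √(1 - c ^ 2))
          - ∫ c in (-1 : ℝ)..1, G c * √(1 - c ^ 2)| ≤ area * (2 / Real.pi) * (η * 2) :=
    mul_le_mul_of_nonneg_left h4 (by positivity)
  calc _ ≤ η * area + area * (2 / Real.pi) * (η * 2) := add_le_add h1 h10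
    _ = η * (area + area * (2 / Real.pi) * 2) := by ring
    _ = ε := by rw [hη]; exact div_mul_cancel₀ _ hC.ne'

end Pool.Agent.Helper974.Heat
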