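import Mathlib
import Pool.Agent.Helper974.HeatLaw

namespace Pool.Agent.Helper974.Heat

open MeasureTheory Metric Set MvPolynomial
open scoped ENNReal ContDiff Topology

/-- polynomials on `ℝ^4` -/
abbrev Pol := MvPolynomial (Fin 4) ℝ

/-- the polynomial function of `p` -/
noncomputable def pf (p : Pol) (x : EE 3) : ℝ := eval (fun i => x i) p

lemma pf_add (p q : Pol) (x : EE 3) : pf (p + q) x = pf p x + pf q x := map_add _ _ _
lemma pf_sub (p q : Pol) (x : EE 3) : pf (p - q) x = pf p x - pf q x := map_sub _ _ _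
lemma pf_mul (p q : Pol) (x : EE 3) : pf (p * q) x = pf p x * pf q x := map_mul _ _ _
lemma pf_smul (c : ℝ) (p : Pol) (x : EE 3) : pf (c • p) x = c * pf p x := by
  unfold pf
  rw [smul_eval]
lemma pf_X (i : Fin 4) (x : EE 3) : pf (X i) x = x i := eval_X i
lemma pf_C (c : ℝ) (x : EE 3) : pf (C c) x = c := eval_C c
lemma pf_sum {κ : Type*} (s : Finset κ) (p : κ → Pol) (x : EE 3) :
    pf (∑ i ∈ s, p i) x = ∑ i ∈ s, pf (p i) x := map_sum _ _ _

lemma hasFDerivAt_pf (p : Pol) (x : EE 3) :
    HasFDerivAt (pf p) (∑ i : Fin 4, pf (pderiv i p) x •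
      (EuclideanSpace.proj (𝕜 := ℝ) i : EE 3 →L[ℝ] ℝ)) x := by
  induction p using MvPolynomial.induction_on with
  | C c =>
    have e : pf (C c) = fun _ => c := by funext y; rw [pf_C]
    rw [e]
    simp only [pderiv_C]
    have : ∀ i : Fin 4, pf (0 : Pol) x • (EuclideanSpace.proj (𝕜 := ℝ) i : EE 3 →L[ℝ] ℝ) = 0 := by
      intro i
      have h0 : pf (0 : Pol) x = 0 := map_zero _
      rw [h0, zero_smul]
    simp only [this, Finset.sum_const_zero]
    exact hasFDerivAt_const c x
  | add p q hp hq =>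
    have e : pf (p + q) = pf p + pf q := by funext y; rw [pf_add]; rfl
    rw [e]
    refine (hp.add hq).congr_fderiv ?_
    rw [← Finset.sum_add_distrib]
    refine Finset.sum_congr rfl fun i _ => ?_
    rw [map_add, pf_add, add_smul]
  | mul_X p j hp =>
    have e : pf (p * X j) = pf p * fun x => x j := by
      funext y; rw [pf_mul, pf_X]; rfl
    rw [e]
    refine (hp.mul (hasFDerivAt_coord (n := 3) j x)).congr_fderiv ?_
    ext v
    simp only [Derivation.leibniz, pderiv_X, pf_add, smul_eq_mul, pf_mul, pf_X,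
      add_apply, smul_apply,
      sum_apply, Finset.smul_sum]
    simp only [add_mul, Finset.sum_add_distrib]
    have h1 : ∀ i : Fin 4, pf p x * pf (Pi.single (M := fun _ => Pol) i 1 j) x
        * (EuclideanSpace.proj (𝕜 := ℝ) i : EE 3 →L[ℝ] ℝ) v
        = if i = j then pf p x * (EuclideanSpace.proj (𝕜 := ℝ) j : EE 3 →L[ℝ] ℝ) v else 0 := by
      intro i
      by_cases h : i = j
      · subst h
        have : pf (1 : Pol) x = 1 := map_one _
        simp [this]
      · rw [if_neg h, Pi.single_apply, if_neg (Ne.symm h)]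
        have : pf (0 : Pol) x = 0 := map_zero _
        rw [this, mul_zero, zero_mul]
    simp only [h1, Finset.sum_ite_eq', Finset.mem_univ, if_true]
    congr 1
    refine Finset.sum_congr rfl fun i _ => ?_
    ring

lemma contDiff_pf (p : Pol) {k : WithTop ℕ∞} : ContDiff ℝ k (pf p) := by
  induction p using MvPolynomial.induction_on with
  | C c =>
    have e : pf (C c) = fun _ => c := by funext y; rw [pf_C]
    rw [e]
    exact contDiff_const
  | add p q hp hq =>
    have e : pf (p + q) = pf p + pf q := by funext y; rw [pf_add]; rfl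
    rw [e]
    exact hp.add hq
  | mul_X p j hp =>
    have e : pf (p * X j) = fun x => pf p x * x j := by
      funext y; rw [pf_mul, pf_X]
    rw [e]
    exact hp.mul (contDiff_coord j)

/-- the rotation field on polynomials -/
noncomputable def Rt (i j : Fin 4) : Pol →ₗ[ℝ] Pol :=
  (LinearMap.mulLeft ℝ (X i : Pol)) ∘ₗ (pderiv j).toLinearMap
    - (LinearMap.mulLeft ℝ (X j : Pol)) ∘ₗ (pderiv i).toLinearMap

lemma Rt_apply (i j : Fin 4) (p : Pol) : Rt i j p = X i * pderiv j p - X j * pderiv i p := rfl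

lemma rot_pf (i j : Fin 4) (p : Pol) (x : EE 3) : rot i j (pf p) x = pf (Rt i j p) x := by
  unfold rot
  rw [(hasFDerivAt_pf p x).fderiv, Rt_apply, pf_sub, pf_mul, pf_mul, pf_X, pf_X]
  have h1 : ∀ k i : Fin 4, (EuclideanSpace.proj (𝕜 := ℝ) k : EE 3 →L[ℝ] ℝ)
      (EuclideanSpace.single i (1 : ℝ)) = if k = i then 1 else 0 := by
    intro k i
    simp
  simp only [sum_apply, smul_apply, map_sub, map_smul,
    smul_eq_mul, h1]
  simp only [mul_ite, mul_one, mul_zero, Finset.sum_ite_eq', Finset.mem_univ,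
    if_true]

lemma rot_mul {n : ℕ} (i j : Fin (n + 1)) {f g : EE n → ℝ} {x : EE n}
    (hf : DifferentiableAt ℝ f x) (hg : DifferentiableAt ℝ g x) :
    rot i j (fun x => f x * g x) x = f x * rot i j g x + rot i j f x * g x := by
  unfold rot
  have h := hf.hasFDerivAt.mul hg.hasFDerivAt
  have e : (fun x => f x * g x) = f * g := rfl
  rw [e, h.fderiv]
  simp only [add_apply, smul_apply, smul_eq_mul]
  ring

/-- `-Δ` on `S^3`, on polynomials -/
noncomputable def Ap : Pol →ₗ[ℝ] Pol := -(1 / 2 : ℝ) • ∑ i : Fin 4, ∑ j : Fin 4, Rt i j ∘ₗ Rt i j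

noncomputable def lapP (p : Pol) : Pol := ∑ i : Fin 4, pderiv i (pderiv i p)

noncomputable def nsq : Pol := ∑ i : Fin 4, X i ^ 2

lemma pderiv_swap (i j : Fin 4) (p : Pol) : pderiv i (pderiv j p) = pderiv j (pderiv i p) := by
  induction p using MvPolynomial.induction_on with
  | C c => simp
  | add p q hp hq => simp only [map_add, hp, hq]
  | mul_X p k hp =>
    simp only [Derivation.leibniz, pderiv_X, smul_eq_mul, map_add, hp]
    have h1 : ∀ i j : Fin 4, pderiv i (Pi.single (M := fun _ => Pol) j 1 k : Pol) = 0 := by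
      intro i j
      by_cases h : k = j
      · subst h; simp
      · rw [Pi.single_apply, if_neg h, map_zero]
    simp only [h1]
    ring

lemma Ap_eq (p : Pol) : Ap p = (∑ i, X i * pderiv i (∑ j, X j * pderiv j p))
    + 2 * (∑ i, X i * pderiv i p) - nsq * lapP p := by
  have e : Ap p = -(1 / 2 : ℝ) • ∑ i : Fin 4, ∑ j : Fin 4, Rt i j (Rt i j p) := by
    simp [Ap]
  have key : ∑ i : Fin 4, ∑ j : Fin 4, Rt i j (Rt i j p)
      = (-2 : ℝ) • ((∑ i, X i * pderiv i (∑ j, X j * pderiv j p))
    + 2 * (∑ i, X i * pderiv i p) - nsq * lapP p) := by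
    have s10 := pderiv_swap 1 0 p
    have s20 := pderiv_swap 2 0 p
    have s30 := pderiv_swap 3 0 p
    have s21 := pderiv_swap 2 1 p
    have s31 := pderiv_swap 3 1 p
    have s32 := pderiv_swap 3 2 p
    have e2 : ∀ q : Pol, (-2 : ℝ) • q = -2 * q := by
      intro q
      rw [Algebra.smul_def, map_neg, map_ofNat]
    rw [e2]
    simp only [Rt_apply, nsq, lapP, Fin.sum_univ_four, map_sub, map_add, Derivation.leibniz,
      pderiv_X, smul_eq_mul, s10, s20, s30, s21, s31, s32]
    simp [Pi.single_apply]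
    ring
  rw [e, key, smul_smul]
  norm_num

end Pool.Agent.Helper974.Heat
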