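import Mathlib
import Pool.Agent.Helper974.HeatPoly

namespace Pool.Agent.Helper974.Heat

open MeasureTheory Metric Set MvPolynomial
open scoped ENNReal ContDiff Topology

/-! ### the Dirichlet form -/

/-- the product of the gradients along the sphere -/
noncomputable def tg (f g : EE 3 → ℝ) (x : EE 3) : ℝ :=
  (1 / 2 : ℝ) * ∑ i : Fin 4, ∑ j : Fin 4, rot i j f x * rot i j g x

noncomputable def dir (f g : EE 3 → ℝ) : ℝ := ∫ x : SS 3, tg f g x ∂(surf 3)

noncomputable def ip (f g : EE 3 → ℝ) : ℝ := ∫ x : SS 3, f x * g x ∂(surf 3)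

lemma rot_eq {n : ℕ} (i j : Fin (n + 1)) (f : EE n → ℝ) (x : EE n) :
    rot i j f x = x i * fderiv ℝ f x (EuclideanSpace.single j 1)
      - x j * fderiv ℝ f x (EuclideanSpace.single i 1) := by
  unfold rot
  rw [map_sub, map_smul, map_smul, smul_eq_mul, smul_eq_mul]

lemma fderiv_self (f : EE 3 → ℝ) (x : EE 3) :
    fderiv ℝ f x x = ∑ i : Fin 4, x i * fderiv ℝ f x (EuclideanSpace.single i 1) := by
  have h : ∑ i : Fin 4, x i • (EuclideanSpace.single i (1 : ℝ) : EE 3) = x := by
    have := (EuclideanSpace.basisFun (Fin 4) ℝ).sum_repr x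
    simpa using this
  calc fderiv ℝ f x x
      = fderiv ℝ f x (∑ i : Fin 4, x i • (EuclideanSpace.single i (1 : ℝ) : EE 3)) := by rw [h]
    _ = _ := by
      rw [map_sum]
      exact Finset.sum_congr rfl fun i _ => by rw [map_smul, smul_eq_mul]

lemma gradSq_eq (f : EE 3 → ℝ) (x : SS 3) : gradSq f x = tg f f x := by
  have h := sum_sq x
  unfold gradSq tg
  rw [fderiv_self]
  simp only [rot_eq]
  set D : Fin 4 → ℝ := fun i => fderiv ℝ f x (EuclideanSpace.single i 1) with hD
  have e1 : ∑ i : Fin (3 + 1), (fderiv ℝ f x (EuclideanSpace.single i 1)) ^ 2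
      = ∑ i : Fin 4, D i ^ 2 := rfl
  rw [e1]
  have e2 : ∀ i : Fin 4, fderiv ℝ f x (EuclideanSpace.single i 1) = D i := fun i => rfl
  simp only [e2, Fin.sum_univ_four]
  linear_combination (-(D 0 ^ 2 + D 1 ^ 2 + D 2 ^ 2 + D 3 ^ 2)) * h

lemma continuous_rot {n : ℕ} (i j : Fin (n + 1)) {f : EE n → ℝ} (hf : ContDiff ℝ 1 f) :
    Continuous (rot i j f) := by
  unfold rot
  have h6 : Continuous fun x : EE n => fderiv ℝ f x := hf.continuous_fderiv one_ne_zero
  have h7 : Continuous fun x : EE n =>
      (x i • EuclideanSpace.single j 1 - x j • EuclideanSpace.single i 1 : EE n) := by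
    have := continuous_coord (n := n)
    fun_prop
  exact h6.clm_apply h7

lemma continuous_tg {f g : EE 3 → ℝ} (hf : ContDiff ℝ 1 f) (hg : ContDiff ℝ 1 g) :
    Continuous (tg f g) := by
  unfold tg
  refine continuous_const.mul (continuous_finsetSum _ fun i _ => continuous_finsetSum _ fun j _ =>
    (continuous_rot i j hf).mul (continuous_rot i j hg))

lemma energy_eq {f : EE 3 → ℝ} (hf : ContDiff ℝ 1 f) : energy f = dir f f + 3 / 4 * ip f f := by
  unfold energy dir ip
  rw [← integral_const_mul, ← integral_add]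
  · refine integral_congr_ae (Filter.Eventually.of_forall fun x => ?_)
    simp only [gradSq_eq]
    push_cast
    ring
  · exact integrable_sph (continuous_tg hf hf)
  · exact integrable_sph (f := fun x => 3 / 4 * (f x * f x))
      (continuous_const.mul (hf.continuous.mul hf.continuous))

lemma rot_add {n : ℕ} (i j : Fin (n + 1)) {f g : EE n → ℝ} {x : EE n}
    (hf : DifferentiableAt ℝ f x) (hg : DifferentiableAt ℝ g x) :
    rot i j (fun x => f x + g x) x = rot i j f x + rot i j g x := by
  unfold rot
  have e : (fun x => f x + g x) = f + g := rfl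
  rw [e, (hf.hasFDerivAt.add hg.hasFDerivAt).fderiv, add_apply]

lemma rot_sub {n : ℕ} (i j : Fin (n + 1)) {f g : EE n → ℝ} {x : EE n}
    (hf : DifferentiableAt ℝ f x) (hg : DifferentiableAt ℝ g x) :
    rot i j (fun x => f x - g x) x = rot i j f x - rot i j g x := by
  unfold rot
  have e : (fun x => f x - g x) = f - g := rfl
  rw [e, (hf.hasFDerivAt.sub hg.hasFDerivAt).fderiv]
  rfl

lemma tg_nonneg (f : EE 3 → ℝ) (x : EE 3) : 0 ≤ tg f f x := by
  unfold tg
  have : 0 ≤ ∑ i : Fin 4, ∑ j : Fin 4, rot i j f x * rot i j f x :=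
    Finset.sum_nonneg fun i _ => Finset.sum_nonneg fun j _ => mul_self_nonneg _
  positivity

lemma dir_nonneg (f : EE 3 → ℝ) : 0 ≤ dir f f := integral_nonneg fun x => tg_nonneg f x

lemma tg_sub {f g : EE 3 → ℝ} (hf : ContDiff ℝ 1 f) (hg : ContDiff ℝ 1 g) (x : EE 3) :
    tg (fun x => f x - g x) (fun x => f x - g x) x = tg f f x - 2 * tg f g x + tg g g x := by
  unfold tg
  have h1 : ∀ i j : Fin 4, rot i j (fun x => f x - g x) x = rot i j f x - rot i j g x :=
    fun i j => rot_sub i j (hf.differentiable one_ne_zero x) (hg.differentiable one_ne_zero x)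
  simp only [h1]
  rw [Finset.mul_sum, Finset.mul_sum, Finset.mul_sum, Finset.mul_sum, Finset.mul_sum,
    ← Finset.sum_sub_distrib, ← Finset.sum_add_distrib]
  refine Finset.sum_congr rfl fun i _ => ?_
  rw [Finset.mul_sum, Finset.mul_sum, Finset.mul_sum, Finset.mul_sum, Finset.mul_sum,
    ← Finset.sum_sub_distrib, ← Finset.sum_add_distrib]
  refine Finset.sum_congr rfl fun j _ => ?_
  ring

lemma dir_sub {f g : EE 3 → ℝ} (hf : ContDiff ℝ 1 f) (hg : ContDiff ℝ 1 g) :
    dir (fun x => f x - g x) (fun x => f x - g x) = dir f f - 2 * dir f g + dir g g := by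
  unfold dir
  have h1 := integrable_sph (continuous_tg hf hf)
  have h2 := integrable_sph (continuous_tg hf hg)
  have h3 := integrable_sph (continuous_tg hg hg)
  have h4 : ∫ x : SS 3, (tg f f x - 2 * tg f g x + tg g g x) ∂(surf 3)
      = ∫ x : SS 3, tg f f x ∂(surf 3) - 2 * ∫ x : SS 3, tg f g x ∂(surf 3)
        + ∫ x : SS 3, tg g g x ∂(surf 3) := by
    rw [← integral_const_mul, ← integral_sub h1 (h2.const_mul 2)]
    exact integral_add (h1.sub (h2.const_mul 2)) h3
  rw [← h4]
  refine integral_congr_ae (Filter.Eventually.of_forall fun x => ?_)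
  exact tg_sub hf hg x

lemma dir_comm (f g : EE 3 → ℝ) : dir f g = dir g f := by
  unfold dir tg
  simp only [mul_comm]

/-- **Green's identity** on the sphere -/
theorem green {f : EE 3 → ℝ} (hf : ContDiff ℝ 1 f) (p : Pol) :
    dir f (pf p) = ip f (pf (Ap p)) := by
  have key : ∀ i j : Fin 4, ∫ x : SS 3, rot i j f x * rot i j (pf p) x ∂(surf 3)
      = -∫ x : SS 3, f x * pf (Rt i j (Rt i j p)) x ∂(surf 3) := by
    intro i j
    by_cases hij : i = j
    · subst hij
      have h1 : ∀ (g : EE 3 → ℝ) (x : EE 3), rot i i g x = 0 := by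
        intro g x
        unfold rot
        rw [sub_self, map_zero]
      have h2 : Rt i i = 0 := by
        ext p
        simp [Rt_apply]
      have h3 : ∀ x : EE 3, pf (0 : Pol) x = 0 := fun x => map_zero _
      simp only [h1, h2, LinearMap.zero_apply, h3, mul_zero, integral_zero, neg_zero]
    · have hg : ContDiff ℝ 1 (pf (Rt i j p)) := contDiff_pf _
      have h1 := integral_rot hij (hf.mul hg)
      have h2 : ∀ x : EE 3, rot i j (fun x => f x * pf (Rt i j p) x) x
          = f x * pf (Rt i j (Rt i j p)) x + rot i j f x * rot i j (pf p) x := by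
        intro x
        rw [rot_mul i j (hf.differentiable one_ne_zero x) (hg.differentiable one_ne_zero x),
          rot_pf, rot_pf]
      simp only [h2] at h1
      rw [integral_add] at h1
      · linarith
      · exact integrable_sph (f := fun x => f x * pf (Rt i j (Rt i j p)) x)
          (hf.continuous.mul (contDiff_pf (k := 1) _).continuous)
      · exact integrable_sph (f := fun x => rot i j f x * rot i j (pf p) x)
          ((continuous_rot i j hf).mul (continuous_rot i j (contDiff_pf _)))
  unfold dir ip tg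
  rw [integral_const_mul, integral_finsetSum]
  · have h1 : ∀ i : Fin 4, ∫ x : SS 3, ∑ j : Fin 4, rot i j f x * rot i j (pf p) x ∂(surf 3)
        = ∑ j : Fin 4, -∫ x : SS 3, f x * pf (Rt i j (Rt i j p)) x ∂(surf 3) := by
      intro i
      rw [integral_finsetSum]
      · exact Finset.sum_congr rfl fun j _ => key i j
      · intro j _
        exact integrable_sph (f := fun x => rot i j f x * rot i j (pf p) x)
          ((continuous_rot i j hf).mul (continuous_rot i j (contDiff_pf _)))
    simp only [h1]
    have h2 : ∀ x : EE 3, f x * pf (Ap p) x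
        = -(1 / 2) * ∑ i : Fin 4, ∑ j : Fin 4, f x * pf (Rt i j (Rt i j p)) x := by
      intro x
      have e : Ap p = (-(1 / 2 : ℝ)) • ∑ i : Fin 4, ∑ j : Fin 4, Rt i j (Rt i j p) := by
        simp [Ap]
      rw [e, pf_smul, pf_sum]
      simp only [pf_sum, Finset.mul_sum]
      refine Finset.sum_congr rfl fun i _ => Finset.sum_congr rfl fun j _ => ?_
      ring
    simp only [h2]
    rw [integral_const_mul, integral_finsetSum]
    · have h3 : ∀ i : Fin 4, ∫ x : SS 3, ∑ j : Fin 4, f x * pf (Rt i j (Rt i j p)) x ∂(surf 3)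
          = ∑ j : Fin 4, ∫ x : SS 3, f x * pf (Rt i j (Rt i j p)) x ∂(surf 3) := by
        intro i
        rw [integral_finsetSum]
        intro j _
        exact integrable_sph (f := fun x => f x * pf (Rt i j (Rt i j p)) x)
          (hf.continuous.mul (contDiff_pf (k := 1) _).continuous)
      simp only [h3, Finset.sum_neg_distrib]
      ring
    · intro i _
      exact integrable_sph (f := fun x => ∑ j : Fin 4, f x * pf (Rt i j (Rt i j p)) x)
        (continuous_finsetSum _ fun j _ => hf.continuous.mul (contDiff_pf (k := 1) _).continuous)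
  · intro i _
    exact integrable_sph (f := fun x => ∑ j : Fin 4, rot i j f x * rot i j (pf p) x)
      (continuous_finsetSum _ fun j _ =>
        (continuous_rot i j hf).mul (continuous_rot i j (contDiff_pf _)))

end Pool.Agent.Helper974.Heat
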