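import Mathlib
import Pool.Agent.Helper974.HeatGreen

namespace Pool.Agent.Helper974.Heat

open MeasureTheory Metric Set MvPolynomial
open scoped ENNReal ContDiff Topology

/-- polynomials of degree at most `N` -/
noncomputable abbrev Pd (N : ℕ) : Submodule ℝ Pol := restrictTotalDegree (Fin 4) ℝ N

lemma mem_Pd {N : ℕ} {p : Pol} : p ∈ Pd N ↔ p.totalDegree ≤ N := mem_restrictTotalDegree _ _ _

lemma Pd_mono {M N : ℕ} (h : M ≤ N) : Pd M ≤ Pd N := fun _ hp => mem_Pd.2 ((mem_Pd.1 hp).trans h)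

lemma mem_Pd_of_hom {l N : ℕ} {p : Pol} (h : p.IsHomogeneous l) (hl : l ≤ N) : p ∈ Pd N :=
  mem_Pd.2 (h.totalDegree_le.trans hl)

lemma X_pderiv_hom {l : ℕ} {p : Pol} (h : p.IsHomogeneous l) (i j : Fin 4) :
    (X i * pderiv j p).IsHomogeneous l := by
  rcases l with _ | l
  · have h1 := h
    rw [← totalDegree_zero_iff_isHomogeneous, totalDegree_eq_zero_iff_eq_C] at h1
    rw [h1, pderiv_C, mul_zero]
    exact isHomogeneous_zero _ _ _
  · have h2 := (isHomogeneous_X ℝ i).mul (h.pderiv (i := j))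
    rwa [Nat.add_sub_cancel, add_comm] at h2

lemma Rt_hom {l : ℕ} {p : Pol} (h : p.IsHomogeneous l) (i j : Fin 4) :
    (Rt i j p).IsHomogeneous l := by
  rw [Rt_apply]
  exact (X_pderiv_hom h i j).sub (X_pderiv_hom h j i)

lemma smul_hom {l : ℕ} {p : Pol} (h : p.IsHomogeneous l) (c : ℝ) : (c • p).IsHomogeneous l := by
  rw [← C_mul']
  exact h.C_mul c

lemma Ap_hom {l : ℕ} {p : Pol} (h : p.IsHomogeneous l) : (Ap p).IsHomogeneous l := by
  have e : Ap p = (-(1 / 2 : ℝ)) • ∑ i : Fin 4, ∑ j : Fin 4, Rt i j (Rt i j p) := by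
    simp [Ap]
  rw [e]
  apply smul_hom
  exact IsHomogeneous.sum _ _ _ fun i _ => IsHomogeneous.sum _ _ _ fun j _ => Rt_hom (Rt_hom h i j) i j

lemma Ap_of_hom {l : ℕ} {p : Pol} (h : p.IsHomogeneous l) :
    Ap p = ((l : ℝ) * (l + 2)) • p - nsq * lapP p := by
  rw [Ap_eq, h.sum_X_mul_pderiv]
  have h1 : ∑ i : Fin 4, X i * pderiv i (l • p) = l • (l • p) := by
    simp only [map_nsmul, mul_smul_comm, ← Finset.smul_sum]
    rw [h.sum_X_mul_pderiv]
  rw [h1]
  congr 1
  simp only [nsmul_eq_mul]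
  rw [← C_mul', map_mul, map_add]
  simp only [map_natCast, map_ofNat]
  ring

lemma lapP_mem {l N : ℕ} {p : Pol} (h : p.IsHomogeneous l) (hl : l ≤ N + 1) : lapP p ∈ Pd N := by
  unfold lapP
  refine Submodule.sum_mem _ fun i _ => ?_
  exact mem_Pd_of_hom ((h.pderiv (i := i)).pderiv (i := i)) (by omega)

lemma Ap_mem {N : ℕ} {p : Pol} (h : p ∈ Pd N) : Ap p ∈ Pd N := by
  rw [← sum_homogeneousComponent p, map_sum]
  refine Submodule.sum_mem _ fun l hl => ?_
  refine mem_Pd_of_hom (Ap_hom (homogeneousComponent_isHomogeneous l p)) ?_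
  have := mem_Pd.1 h
  have := Finset.mem_range.1 hl
  omega

lemma rest_mem {N : ℕ} {u : Pol} (hu : u ∈ Pd (N + 1)) :
    u - homogeneousComponent (N + 1) u ∈ Pd N := by
  have hu' := mem_Pd.1 hu
  rcases lt_or_eq_of_le hu' with h | h
  · rw [homogeneousComponent_eq_zero _ _ h, sub_zero]
    exact mem_Pd.2 (by omega)
  · have e : u - homogeneousComponent (N + 1) u
        = ∑ i ∈ Finset.range (N + 1), homogeneousComponent i u := by
      have h1 := sum_homogeneousComponent u
      rw [h, Finset.sum_range_succ] at h1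
      exact (eq_sub_of_add_eq h1).symm
    rw [e]
    refine Submodule.sum_mem _ fun l hl => ?_
    exact mem_Pd_of_hom (homogeneousComponent_isHomogeneous l u) (by
      have := Finset.mem_range.1 hl
      omega)

lemma pf_nsq (x : SS 3) : pf nsq x = 1 := by
  unfold nsq
  rw [pf_sum]
  have h : ∀ i : Fin 4, pf (X i ^ 2) (x : EE 3) = (x : EE 3) i ^ 2 := by
    intro i
    rw [pow_two, pf_mul, pf_X, pow_two]
  simp only [h, Fin.sum_univ_four]
  exact sum_sq x

lemma block {N : ℕ} {u : Pol} (hu : u ∈ Pd (N + 1)) : ∃ w ∈ Pd N, ∀ x : SS 3,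
    pf (Ap u) x = (((N + 1 : ℕ) : ℝ) * (((N + 1 : ℕ) : ℝ) + 2)) * pf u x + pf w x := by
  set t := homogeneousComponent (N + 1) u with ht
  have hth : t.IsHomogeneous (N + 1) := homogeneousComponent_isHomogeneous _ _
  have hr := rest_mem hu
  rw [← ht] at hr
  set c : ℝ := ((N + 1 : ℕ) : ℝ) * (((N + 1 : ℕ) : ℝ) + 2) with hc
  refine ⟨Ap (u - t) - c • (u - t) - lapP t, ?_, fun x => ?_⟩
  · exact Submodule.sub_mem _ (Submodule.sub_mem _ (Ap_mem hr) (Submodule.smul_mem _ _ hr))
      (lapP_mem hth le_rfl)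
  · have h1 : Ap u = Ap t + Ap (u - t) := by rw [← map_add]; congr 1; ring
    rw [h1, Ap_of_hom hth]
    simp only [pf_add, pf_sub, pf_mul, pf_smul, pf_nsq]
    ring

/-! ### the Hilbert space -/

instance : CompactSpace (SS 3) := isCompact_iff_compactSpace.1 (isCompact_sphere _ _)

/-- square integrable functions on `S^3` -/
noncomputable abbrev HH := Lp ℝ 2 (surf 3)

/-- the class of a continuous function -/
noncomputable def toH (f : EE 3 → ℝ) (hf : Continuous f) : HH :=
  ContinuousMap.toLp 2 (surf 3) ℝ ⟨fun x : SS 3 => f x, hf.comp continuous_subtype_val⟩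

lemma inner_toH {f g : EE 3 → ℝ} (hf : Continuous f) (hg : Continuous g) :
    inner ℝ (toH f hf) (toH g hg) = ip f g := by
  unfold toH ip
  rw [ContinuousMap.inner_toLp]
  refine integral_congr_ae (Filter.Eventually.of_forall fun x => ?_)
  simp [mul_comm]

lemma continuous_pf (p : Pol) : Continuous (pf p) := (contDiff_pf (k := 1) p).continuous

/-- the class of a polynomial -/
noncomputable def Pl : Pol →ₗ[ℝ] HH where
  toFun p := toH (pf p) (continuous_pf p)
  map_add' p q := by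
    unfold toH
    rw [← map_add]
    congr 1
    ext x
    exact pf_add p q x
  map_smul' c p := by
    unfold toH
    rw [← map_smul]
    congr 1
    ext x
    exact pf_smul c p x

lemma inner_Pl (p q : Pol) : inner ℝ (Pl p) (Pl q) = ip (pf p) (pf q) :=
  inner_toH (continuous_pf p) (continuous_pf q)

/-- restrictions of polynomials of degree at most `N` -/
noncomputable def Vd (N : ℕ) : Submodule ℝ HH := (Pd N).map Pl

instance (N : ℕ) : FiniteDimensional ℝ (Vd N) := by
  unfold Vd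
  infer_instance

/-- best approximation by polynomials of degree at most `N` -/
lemma exists_proj (F : HH) (N : ℕ) : ∃ q ∈ Pd N, ∀ r ∈ Pd N, inner ℝ (F - Pl q) (Pl r) = 0 := by
  obtain ⟨q, hq, e⟩ := Submodule.starProjection_apply_mem (Vd N) F
  refine ⟨q, hq, fun r hr => ?_⟩
  have h := Submodule.starProjection_inner_eq_zero (K := Vd N) F (Pl r) ⟨r, hr, rfl⟩
  rw [← e] at h
  exact h

lemma symm_Ap (p q : Pol) : inner ℝ (Pl p) (Pl (Ap q)) = inner ℝ (Pl (Ap p)) (Pl q) := by
  rw [inner_Pl, ← green (contDiff_pf p) q, dir_comm, green (contDiff_pf q) p, ← inner_Pl,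
    real_inner_comm]

lemma low_poly (m : ℕ) : ∀ (N : ℕ) (p : Pol), p ∈ Pd (m + N) →
    (∀ q ∈ Pd m, inner ℝ (Pl p) (Pl q) = 0) →
    (((m + 1 : ℕ) : ℝ) * (((m + 1 : ℕ) : ℝ) + 2)) * inner ℝ (Pl p) (Pl p)
      ≤ inner ℝ (Pl p) (Pl (Ap p)) := by
  intro N
  induction N with
  | zero =>
    intro p hp h
    rw [h p hp, mul_zero, h (Ap p) (Ap_mem hp)]
  | succ N ih =>
    intro p hp h
    obtain ⟨q, hq, hproj⟩ := exists_proj (Pl p) (m + N)
    have hq' : q ∈ Pd (m + N + 1) := Pd_mono (Nat.le_succ _) hq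
    have hu : p - q ∈ Pd (m + N + 1) := Submodule.sub_mem _ hp hq'
    obtain ⟨w, hw, hb⟩ := block hu
    set u := p - q with hu'
    have hPu : Pl u = Pl p - Pl q := map_sub _ _ _
    have hpe : Pl p = Pl u + Pl q := by rw [hPu]; abel
    have horth : ∀ r ∈ Pd (m + N), inner ℝ (Pl u) (Pl r) = 0 := fun r hr => by
      rw [hPu]; exact hproj r hr
    set c : ℝ := ((m + N + 1 : ℕ) : ℝ) * (((m + N + 1 : ℕ) : ℝ) + 2) with hc
    have hAu : Pl (Ap u) = c • Pl u + Pl w := by
      rw [← map_smul, ← map_add]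
      show toH (pf (Ap u)) (continuous_pf _) = toH (pf (c • u + w)) (continuous_pf _)
      unfold toH
      congr 1
      ext x
      show pf (Ap u) x = pf (c • u + w) x
      rw [hb x, pf_add, pf_smul]
    have e1 : inner ℝ (Pl u) (Pl (Ap u)) = c * inner ℝ (Pl u) (Pl u) := by
      rw [hAu, inner_add_right, horth w hw, add_zero, inner_smul_right]
    have e2 : inner ℝ (Pl u) (Pl (Ap q)) = 0 := horth _ (Ap_mem hq)
    have e3 : inner ℝ (Pl q) (Pl (Ap u)) = 0 := by
      rw [symm_Ap, real_inner_comm]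
      exact e2
    have e4 : inner ℝ (Pl p) (Pl (Ap p)) = c * inner ℝ (Pl u) (Pl u)
        + inner ℝ (Pl q) (Pl (Ap q)) := by
      have h1 : Ap p = Ap u + Ap q := by rw [← map_add, hu']; congr 1; ring
      rw [h1, map_add, hpe, inner_add_left, inner_add_right, inner_add_right, e1, e2, e3]
      ring
    have e5 : inner ℝ (Pl p) (Pl p) = inner ℝ (Pl u) (Pl u) + inner ℝ (Pl q) (Pl q) := by
      rw [hpe, inner_add_left, inner_add_right, inner_add_right, horth q hq,
        real_inner_comm (Pl u) (Pl q), horth q hq]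
      ring
    have hqo : ∀ r ∈ Pd m, inner ℝ (Pl q) (Pl r) = 0 := by
      intro r hr
      have h1 := h r hr
      rw [hpe, inner_add_left, horth r (Pd_mono (Nat.le_add_right _ _) hr), zero_add] at h1
      exact h1
    have h6 := ih q hq hqo
    rw [e4, e5, mul_add]
    have h7 : (((m + 1 : ℕ) : ℝ) * (((m + 1 : ℕ) : ℝ) + 2)) ≤ c := by
      rw [hc]
      push_cast
      have : (0 : ℝ) ≤ (N : ℝ) := Nat.cast_nonneg _
      have : (0 : ℝ) ≤ (m : ℝ) := Nat.cast_nonneg _
      gcongr <;> linarith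
    have h8 : (0 : ℝ) ≤ inner ℝ (Pl u) (Pl u) := real_inner_self_nonneg
    exact add_le_add (mul_le_mul_of_nonneg_right h7 h8) h6

/-- density of polynomials -/
lemma dens {f : EE 3 → ℝ} (hf : Continuous f) {ε : ℝ} (hε : 0 < ε) :
    ∃ r : Pol, ∀ x : SS 3, |pf r x - f x| ≤ ε := by
  let φ : Pol →ₐ[ℝ] C(SS 3, ℝ) := MvPolynomial.aeval fun i =>
    (⟨fun x : SS 3 => (x : EE 3) i, (continuous_coord i).comp continuous_subtype_val⟩ : C(SS 3, ℝ))
  have hφ : ∀ (p : Pol) (x : SS 3), φ p x = pf p x := by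
    intro p x
    have h := MvPolynomial.comp_aeval_apply (R := ℝ) (fun i : Fin 4 =>
      (⟨fun x : SS 3 => (x : EE 3) i, (continuous_coord i).comp continuous_subtype_val⟩ :
        C(SS 3, ℝ))) (ContinuousMap.evalAlgHom ℝ ℝ x) p
    exact h
  have hsep : φ.range.SeparatesPoints := by
    intro x y hxy
    have h1 : ∃ i : Fin 4, (x : EE 3) i ≠ (y : EE 3) i := by
      by_contra h
      push Not at h
      apply hxy
      apply Subtype.ext
      ext i
      exact h i
    obtain ⟨i, hi⟩ := h1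
    refine ⟨_, ⟨φ (X i), ⟨X i, rfl⟩, rfl⟩, ?_⟩
    show φ (X i) x ≠ φ (X i) y
    rw [hφ, hφ, pf_X, pf_X]
    exact hi
  obtain ⟨⟨g, r, hr⟩, hg⟩ := ContinuousMap.exists_mem_subalgebra_near_continuous_of_separatesPoints
    φ.range hsep (fun x : SS 3 => f x) (hf.comp continuous_subtype_val) ε hε
  refine ⟨r, fun x => ?_⟩
  have h1 := hg x
  have h2 : g x = pf r x := by
    rw [← hr]
    exact hφ r x
  simp only [h2, Real.norm_eq_abs] at h1
  exact h1.le

end Pool.Agent.Helper974.Heat
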