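import Mathlib
import Pool.Agent.Helper974.HeatSpan

namespace Pool.Agent.Helper974.Heat

open MeasureTheory Metric Set MvPolynomial
open scoped ENNReal ContDiff Topology

/-- monomials of degree `l` -/
noncomputable def monos (l : ℕ) : Finset HH := by
  classical
  exact (Finset.univ.finsuppAntidiag l : Finset (Fin 4 →₀ ℕ)).image fun d => Pl (monomial d 1)

lemma card_monos (l : ℕ) : (monos l).card ≤ (l + 3).choose 3 := by
  classical
  unfold monos
  refine Finset.card_image_le.trans ?_
  rw [Finset.card_finsuppAntidiag_nat_eq_choose]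
  simp only [Finset.card_univ, Fintype.card_fin]
  have : 4 + l - 1 = l + 3 := by omega
  rw [this, Nat.choose_symm_add]

lemma mem_monos {d : Fin 4 →₀ ℕ} {l : ℕ} (h : d.degree = l) : Pl (monomial d 1) ∈ monos l := by
  classical
  unfold monos
  refine Finset.mem_image.2 ⟨d, ?_, rfl⟩
  rw [Finset.mem_finsuppAntidiag]
  refine ⟨?_, Finset.subset_univ _⟩
  rw [← h, Finsupp.degree_eq_sum]

/-- monomials of degrees `N` and `N + 1` -/
noncomputable def monos2 (N : ℕ) : Finset HH := by
  classical
  exact monos (N + 1) ∪ monos N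

lemma card_monos2 (N : ℕ) : (monos2 N).card ≤ (N + 1 + 3).choose 3 + (N + 3).choose 3 := by
  classical
  unfold monos2
  exact (Finset.card_union_le _ _).trans (add_le_add (card_monos (N + 1)) (card_monos N))

lemma mem_monos2_left {N : ℕ} {v : HH} (h : v ∈ monos (N + 1)) : v ∈ monos2 N := by
  classical
  exact Finset.mem_union_left _ h

lemma mem_monos2_right {N : ℕ} {v : HH} (h : v ∈ monos N) : v ∈ monos2 N := by
  classical
  exact Finset.mem_union_right _ h

/-- multiplication by `|x|^2` does not change the restriction to the sphere -/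
lemma Pl_nsq (p : Pol) : Pl (nsq * p) = Pl p := by
  show toH (pf (nsq * p)) (continuous_pf _) = toH (pf p) (continuous_pf _)
  unfold toH
  congr 1
  ext x
  show pf (nsq * p) x = pf p x
  rw [pf_mul, pf_nsq, one_mul]

lemma Pl_raise (d : Fin 4 →₀ ℕ) :
    Pl (monomial d 1) = ∑ i : Fin 4, Pl (monomial (d + Finsupp.single i 2) 1) := by
  rw [← map_sum, ← Pl_nsq (monomial d 1)]
  congr 1
  unfold nsq
  rw [Finset.sum_mul]
  refine Finset.sum_congr rfl fun i _ => ?_
  rw [X_pow_eq_monomial, monomial_mul, one_mul, add_comm]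

lemma mono_span (N : ℕ) : ∀ (j : ℕ) (d : Fin 4 →₀ ℕ), d.degree + j = N + 1 →
    Pl (monomial d 1) ∈ Submodule.span ℝ (monos2 N : Set HH) := by
  intro j
  induction j using Nat.strong_induction_on with
  | _ j ih =>
    intro d hd
    rcases j with _ | _ | j
    · apply Submodule.subset_span
      exact mem_monos2_left (mem_monos (by omega))
    · apply Submodule.subset_span
      exact mem_monos2_right (mem_monos (by omega))
    · rw [Pl_raise]
      refine Submodule.sum_mem _ fun i _ => ih j (by omega) _ ?_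
      rw [map_add, Finsupp.degree_single]
      omega

lemma Vd_le (N : ℕ) :
    Vd (N + 1) ≤ Submodule.span ℝ (monos2 N : Set HH) := by
  rintro _ ⟨p, hp, rfl⟩
  rw [p.as_sum, map_sum]
  refine Submodule.sum_mem _ fun d hd => ?_
  have e : monomial d (coeff d p) = (coeff d p) • (monomial d (1 : ℝ)) := by
    rw [smul_monomial, smul_eq_mul, mul_one]
  rw [e, map_smul]
  apply Submodule.smul_mem
  have h1 : d.degree ≤ N + 1 := by
    have h2 := mem_Pd.1 hp
    have h3 := le_totalDegree hd
    have h4 : (d.sum fun _ e => e) = d.degree := rfl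
    omega
  exact mono_span N (N + 1 - d.degree) d (by omega)

lemma Vd_zero_le : Vd 0 ≤ Submodule.span ℝ ((monos 0 : Finset HH) : Set HH) := by
  classical
  rintro _ ⟨p, hp, rfl⟩
  have h0 : p.totalDegree = 0 := Nat.le_zero.1 (mem_Pd.1 hp)
  rw [totalDegree_eq_zero_iff_eq_C] at h0
  have e : p = (coeff 0 p) • (monomial 0 (1 : ℝ)) := by
    rw [smul_monomial, smul_eq_mul, mul_one]
    exact h0
  rw [e, map_smul]
  apply Submodule.smul_mem
  apply Submodule.subset_span
  exact mem_monos (by simp)

/-- the number of eigenvalues below `(m + 1)^2 - 1/4` -/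
def BB (m : ℕ) : ℕ := (m + 2).choose 3 + (m + 1).choose 3

lemma finrank_Vd (m : ℕ) : Module.finrank ℝ (Vd m) ≤ BB (m + 1) := by
  classical
  rcases m with _ | N
  · refine (Submodule.finrank_mono Vd_zero_le).trans ((finrank_span_finset_le_card _).trans ?_)
    exact (card_monos 0).trans (by decide)
  · refine (Submodule.finrank_mono (Vd_le N)).trans ((finrank_span_finset_le_card _).trans ?_)
    exact card_monos2 N

lemma BB_succ (m : ℕ) : BB (m + 1) = BB m + (m + 1) ^ 2 := by
  unfold BB
  have h1 : (m + 1 + 2).choose 3 = (m + 2).choose 2 + (m + 2).choose 3 := Nat.choose_succ_succ _ _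
  have h2 : (m + 1 + 1).choose 3 = (m + 1).choose 2 + (m + 1).choose 3 := Nat.choose_succ_succ _ _
  have h3 : (m + 2).choose 2 + (m + 1).choose 2 = (m + 1) ^ 2 := by
    have e1 : (m + 2).choose 2 = (m + 1).choose 1 + (m + 1).choose 2 := Nat.choose_succ_succ _ _
    rw [e1, Nat.choose_one_right]
    have e2 := Nat.choose_two_right (m + 1)
    obtain ⟨c, hc⟩ := Nat.even_mul_succ_self m
    have hc' : (m + 1) * (m + 1 - 1) = 2 * c := by
      simp only [Nat.add_sub_cancel]
      nlinarith
    rw [hc', Nat.mul_div_cancel_left _ (by norm_num)] at e2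
    rw [e2]
    nlinarith
  omega

end Pool.Agent.Helper974.Heat
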