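import Mathlib
import Pool.Agent.Helper974.HeatDim

namespace Pool.Agent.Helper974.Heat

open MeasureTheory Metric Set MvPolynomial
open scoped ENNReal ContDiff Topology

lemma ip_area {f : EE 3 → ℝ} {η : ℝ} (hη : 0 ≤ η) (hf : Continuous f)
    (h : ∀ x : SS 3, |f x| ≤ η) : ip f f ≤ η ^ 2 * area := by
  unfold ip area
  rw [← integral_const_mul]
  refine integral_mono (integrable_sph (f := fun x => f x * f x) (hf.mul hf))
    (integrable_sph (f := fun _ => η ^ 2 * 1) continuous_const) fun x => ?_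
  have h1 := h x
  have h2 : f x * f x = |f x| ^ 2 := by rw [sq_abs, sq]
  simp only
  rw [h2, mul_one]
  exact pow_le_pow_left₀ (abs_nonneg _) h1 2

theorem low_fun (m : ℕ) {f : EE 3 → ℝ} (hf : ContDiff ℝ 1 f)
    (h : ∀ q ∈ Pd m, inner ℝ (toH f hf.continuous) (Pl q) = 0) :
    (((m + 1 : ℕ) : ℝ) * (((m + 1 : ℕ) : ℝ) + 2)) * ip f f ≤ dir f f := by
  set F := toH f hf.continuous with hF
  set c : ℝ := ((m + 1 : ℕ) : ℝ) * (((m + 1 : ℕ) : ℝ) + 2) with hc
  have hcpos : 0 < c := by rw [hc]; positivity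
  refine le_of_forall_pos_le_add fun ε hε => ?_
  obtain ⟨η, hη, hηε⟩ : ∃ η : ℝ, 0 < η ∧ c * (η ^ 2 * area) ≤ ε := by
    have ha := area_pos
    refine ⟨√(ε / (c * area)), Real.sqrt_pos.2 (by positivity), ?_⟩
    rw [Real.sq_sqrt (by positivity)]
    have : c * (ε / (c * area) * area) = ε := by field_simp
    rw [this]
  obtain ⟨r, hr⟩ := dens hf.continuous hη
  set N := r.totalDegree with hN
  have hrN : r ∈ Pd (m + N) := mem_Pd.2 (by omega)
  obtain ⟨p, hp, hproj⟩ := exists_proj F (m + N)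
  -- the projection is orthogonal to `Pd m`
  have hpo : ∀ q ∈ Pd m, inner ℝ (Pl p) (Pl q) = 0 := by
    intro q hq
    have h1 := hproj q (Pd_mono (Nat.le_add_right _ _) hq)
    rw [inner_sub_left, h q hq, zero_sub, neg_eq_zero] at h1
    exact h1
  have hlow := low_poly m N p hp hpo
  -- the error
  have e1 : inner ℝ F F = inner ℝ (Pl p) (Pl p) + inner ℝ (F - Pl p) (F - Pl p) := by
    have h1 := hproj p hp
    rw [inner_sub_left] at h1
    rw [inner_sub_left, inner_sub_right, inner_sub_right, real_inner_comm F (Pl p)]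
    linarith
  have e2 : inner ℝ (F - Pl p) (F - Pl p) ≤ η ^ 2 * area := by
    have h1 : inner ℝ (F - Pl r) (F - Pl r)
        = inner ℝ (F - Pl p) (F - Pl p) + inner ℝ (Pl (p - r)) (Pl (p - r)) := by
      have h2 := hproj (p - r) (Submodule.sub_mem _ hp hrN)
      have h3 : F - Pl r = (F - Pl p) + Pl (p - r) := by rw [map_sub]; abel
      rw [h3, inner_add_left, inner_add_right, inner_add_right, h2,
        real_inner_comm (F - Pl p) (Pl (p - r)), h2]
      ring
    have h4 : F - Pl r = toH (fun x => f x - pf r x) (hf.continuous.sub (continuous_pf r)) := by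
      show toH f _ - toH (pf r) (continuous_pf r) = _
      unfold toH
      rw [← map_sub]
      rfl
    have h5 : inner ℝ (F - Pl r) (F - Pl r) ≤ η ^ 2 * area := by
      rw [h4, inner_toH]
      refine ip_area hη.le (hf.continuous.sub (continuous_pf r)) fun x => ?_
      rw [abs_sub_comm]
      exact hr x
    have h6 : (0 : ℝ) ≤ inner ℝ (Pl (p - r)) (Pl (p - r)) := real_inner_self_nonneg
    linarith
  have e3 : inner ℝ (Pl p) (Pl (Ap p)) ≤ dir f f := by
    have h1 := dir_nonneg (fun x => f x - pf p x)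
    rw [dir_sub hf (contDiff_pf p), green hf p, green (contDiff_pf p) p] at h1
    have h2 : ip f (pf (Ap p)) = inner ℝ F (Pl (Ap p)) :=
      (inner_toH hf.continuous (continuous_pf _)).symm
    rw [h2, ← inner_Pl] at h1
    have h3 := hproj (Ap p) (Ap_mem hp)
    rw [inner_sub_left] at h3
    linarith
  have e4 : ip f f = inner ℝ F F := (inner_toH hf.continuous hf.continuous).symm
  rw [e4, e1, mul_add]
  have e5 : c * inner ℝ (F - Pl p) (F - Pl p) ≤ c * (η ^ 2 * area) :=
    mul_le_mul_of_nonneg_left e2 hcpos.le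
  linarith

/-- the sum of the functions of a tuple -/
noncomputable def comb {k : ℕ} (f : Fin (k + 1) → EE 3 → ℝ) (c : Fin (k + 1) → ℝ) (x : EE 3) : ℝ :=
  ∑ i, c i * f i x

lemma contDiff_comb {k : ℕ} {f : Fin (k + 1) → EE 3 → ℝ} (hf : ∀ i, ContDiff ℝ ∞ (f i))
    (c : Fin (k + 1) → ℝ) : ContDiff ℝ ∞ (comb f c) :=
  ContDiff.sum fun i _ => contDiff_const.mul (hf i)

/-- the `L^2` class of a combination, as a linear map -/
noncomputable def combL {k : ℕ} (f : Fin (k + 1) → EE 3 → ℝ) (hf : ∀ i, Continuous (f i)) :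
    (Fin (k + 1) → ℝ) →ₗ[ℝ] HH :=
  ∑ i, (LinearMap.proj i : (Fin (k + 1) → ℝ) →ₗ[ℝ] ℝ).smulRight (toH (f i) (hf i))

lemma combL_apply {k : ℕ} {f : Fin (k + 1) → EE 3 → ℝ} (hf : ∀ i, ContDiff ℝ ∞ (f i))
    (c : Fin (k + 1) → ℝ) : combL f (fun i => (hf i).continuous) c
      = toH (comb f c) (contDiff_comb hf c).continuous := by
  unfold combL
  rw [LinearMap.sum_apply]
  simp only [LinearMap.smulRight_apply, LinearMap.proj_apply]
  unfold toH
  have h : ∀ i, c i • (ContinuousMap.toLp 2 (surf 3) ℝ) (⟨fun x : SS 3 => f i x,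
      (hf i).continuous.comp continuous_subtype_val⟩ : C(SS 3, ℝ))
      = (ContinuousMap.toLp 2 (surf 3) ℝ) (c i • (⟨fun x : SS 3 => f i x,
      (hf i).continuous.comp continuous_subtype_val⟩ : C(SS 3, ℝ))) := fun i => by rw [map_smul]
  simp only [h]
  rw [← map_sum]
  congr 1
  ext x
  simp [comb]

/-- lower bounds for the eigenvalues of the round sphere -/
lemma lower_of_mem {k m : ℕ} (hk : BB m ≤ k) {L : ℝ} {f : Fin (k + 1) → EE 3 → ℝ}
    (hf : ∀ i, ContDiff ℝ ∞ (f i))
    (hL : ∀ c : Fin (k + 1) → ℝ, c ≠ 0 → 0 < mass (fun _ => 1) (fun x => ∑ i, c i * f i x) ∧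
      energy (fun x => ∑ i, c i * f i x) ≤ L * mass (fun _ => 1) (fun x => ∑ i, c i * f i x)) :
    ((m + 1 : ℕ) : ℝ) ^ 2 - 1 / 4 ≤ L := by
  have hmass : ∀ g : EE 3 → ℝ, mass (fun _ => 1) g = ip g g := by
    intro g
    unfold mass ip
    refine integral_congr_ae (Filter.Eventually.of_forall fun x => ?_)
    simp only
    ring
  -- a combination orthogonal to the polynomials of degree `< m`
  obtain ⟨c, hc, hdir⟩ : ∃ c : Fin (k + 1) → ℝ, c ≠ 0 ∧
      ((m : ℝ) * ((m : ℝ) + 2)) * ip (comb f c) (comb f c) ≤ dir (comb f c) (comb f c) := by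
    rcases m with _ | m
    · refine ⟨fun _ => 1, fun h => one_ne_zero (congrFun h 0), ?_⟩
      simp only [Nat.cast_zero, zero_mul]
      exact dir_nonneg _
    · let T : (Fin (k + 1) → ℝ) →ₗ[ℝ] Vd m :=
        (Vd m).orthogonalProjectionOnto.toLinearMap ∘ₗ combL f (fun i => (hf i).continuous)
      have hlt : Module.finrank ℝ (Vd m) < Module.finrank ℝ (Fin (k + 1) → ℝ) := by
        rw [Module.finrank_fin_fun]
        have := finrank_Vd m
        omega
      obtain ⟨c, hc1, hc2⟩ := (Submodule.ne_bot_iff _).1 (LinearMap.ker_ne_bot_of_finrank_lt (f := T) hlt)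
      refine ⟨c, hc2, ?_⟩
      have hcd : ContDiff ℝ 1 (comb f c) := (contDiff_comb hf c).of_le (by exact_mod_cast le_top)
      apply low_fun m hcd
      intro q hq
      have h1 : (Vd m).orthogonalProjectionOnto (combL f (fun i => (hf i).continuous) c) = 0 :=
        LinearMap.mem_ker.1 hc1
      rw [Submodule.orthogonalProjectionOnto_eq_zero_iff] at h1
      have h2 := (Submodule.mem_orthogonal' _ _).1 h1 (Pl q) ⟨q, hq, rfl⟩
      rw [combL_apply hf c] at h2
      exact h2
  obtain ⟨h1, h2⟩ := hL c hc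
  have e : (fun x => ∑ i, c i * f i x) = comb f c := rfl
  rw [e, hmass] at h1 h2
  have hcd : ContDiff ℝ 1 (comb f c) := (contDiff_comb hf c).of_le (by exact_mod_cast le_top)
  rw [energy_eq hcd] at h2
  have h3 : ((m : ℝ) * ((m : ℝ) + 2) + 3 / 4) * ip (comb f c) (comb f c)
      ≤ L * ip (comb f c) (comb f c) := by linarith
  have h4 := le_of_mul_le_mul_right h3 h1
  push_cast
  nlinarith

end Pool.Agent.Helper974.Heat
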