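import Mathlib

/-! Numerical bound for the heat trace of the conformal Laplacian of the round three-sphere. -/

namespace Pool.Agent.Helper974.Heat
open Real

/-- the sum over positive integers of `exp (-s n^2)` -/
noncomputable def TT (s : ℝ) : ℝ := ∑' n : ℕ, Real.exp (-s * ((n : ℝ) + 1) ^ 2)

/-- the sum over positive integers of `n^2 exp (-s n^2)` -/
noncomputable def SQ (s : ℝ) : ℝ := ∑' n : ℕ, ((n : ℝ) + 1) ^ 2 * Real.exp (-s * ((n : ℝ) + 1) ^ 2)

lemma le_geo {s : ℝ} (hs : 0 < s) (n : ℕ) :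
    Real.exp (-s * ((n : ℝ) + 1) ^ 2) ≤ Real.exp (-s) * Real.exp (-s) ^ n := by
  rw [← Real.exp_nat_mul, ← Real.exp_add]
  apply Real.exp_le_exp.mpr
  have : (0 : ℝ) ≤ n := Nat.cast_nonneg n
  nlinarith [mul_nonneg hs.le this, mul_nonneg hs.le (mul_nonneg this this)]

lemma exp_neg_lt_one {s : ℝ} (hs : 0 < s) : Real.exp (-s) < 1 := by
  rw [Real.exp_lt_one_iff]; linarith

lemma summable_TT {s : ℝ} (hs : 0 < s) :
    Summable fun n : ℕ => Real.exp (-s * ((n : ℝ) + 1) ^ 2) := by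
  refine Summable.of_nonneg_of_le (fun _ => (Real.exp_pos _).le) (le_geo hs) ?_
  exact (summable_geometric_of_lt_one (Real.exp_pos _).le (exp_neg_lt_one hs)).mul_left _

lemma TT_nonneg (s : ℝ) : 0 ≤ TT s := tsum_nonneg fun _ => (Real.exp_pos _).le

lemma TT_le {s : ℝ} (hs : 0 < s) : TT s ≤ Real.exp (-s) / (1 - Real.exp (-s)) := by
  have h := Summable.tsum_le_tsum (le_geo hs) (summable_TT hs)
    ((summable_geometric_of_lt_one (Real.exp_pos _).le (exp_neg_lt_one hs)).mul_left _)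
  rw [tsum_mul_left, tsum_geometric_of_lt_one (Real.exp_pos _).le (exp_neg_lt_one hs)] at h
  rw [div_eq_mul_inv]
  exact h

lemma theta_eq {s : ℝ} (hs : 0 < s) : ∑' n : ℤ, Real.exp (-s * (n : ℝ) ^ 2) = 1 + 2 * TT s := by
  have h1 := summable_TT hs
  have h0 : Summable fun n : ℕ => Real.exp (-s * (((n : ℕ) : ℤ) : ℝ) ^ 2) := by
    rw [← summable_nat_add_iff 1]
    refine h1.congr fun n => ?_
    push_cast; rfl
  have h2 : Summable fun n : ℕ => Real.exp (-s * ((-((n : ℤ) + 1) : ℤ) : ℝ) ^ 2) := by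
    refine h1.congr fun n => ?_
    push_cast; congr 1; ring
  have := tsum_of_nat_of_neg_add_one (f := fun n : ℤ => Real.exp (-s * (n : ℝ) ^ 2)) h0 h2
  rw [this, h0.tsum_eq_zero_add]
  have e1 : ∑' n : ℕ, Real.exp (-s * (((n + 1 : ℕ) : ℤ) : ℝ) ^ 2) = TT s := by
    unfold TT; congr 1; ext n; push_cast; rfl
  have e2 : ∑' n : ℕ, Real.exp (-s * ((-((n : ℤ) + 1) : ℤ) : ℝ) ^ 2) = TT s := by
    unfold TT; congr 1; ext n; push_cast; congr 1; ring
  rw [e1, e2]; simp; ring

lemma poisson {s : ℝ} (hs : 0 < s) :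
    1 + 2 * TT s = √(π / s) * (1 + 2 * TT (π ^ 2 / s)) := by
  have h := Real.tsum_exp_neg_mul_int_sq (a := s / π) (by positivity)
  have e1 : ∀ n : ℤ, Real.exp (-π * (s / π) * (n : ℝ) ^ 2) = Real.exp (-s * (n : ℝ) ^ 2) := by
    intro n; congr 1; field_simp
  have e2 : ∀ n : ℤ, Real.exp (-π / (s / π) * (n : ℝ) ^ 2) = Real.exp (-(π ^ 2 / s) * (n : ℝ) ^ 2) := by
    intro n; congr 1; field_simp
  simp_rw [e1, e2] at h
  rw [theta_eq hs, theta_eq (by positivity)] at h
  rw [h, ← Real.sqrt_eq_rpow, ← one_div_div π s, Real.sqrt_div' 1 (by positivity)]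
  simp

lemma summable_SQ {s : ℝ} (hs : 0 < s) :
    Summable fun n : ℕ => ((n : ℝ) + 1) ^ 2 * Real.exp (-s * ((n : ℝ) + 1) ^ 2) := by
  have h := (summable_nat_add_iff 1).mpr (Real.summable_pow_mul_exp_neg_nat_mul 2 hs)
  refine Summable.of_nonneg_of_le (fun _ => by positivity) (fun n => ?_) h
  push_cast
  refine mul_le_mul_of_nonneg_left ?_ (by positivity)
  apply Real.exp_le_exp.mpr
  have : (0 : ℝ) ≤ n := Nat.cast_nonneg n
  nlinarith [mul_nonneg hs.le this, mul_nonneg hs.le (mul_nonneg this this)]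

lemma SQ_le {t h : ℝ} (hh : 0 < h) (hht : h < t) : h * SQ t ≤ TT (t - h) - TT t := by
  unfold SQ TT
  rw [← tsum_mul_left, ← (summable_TT (by linarith : (0:ℝ) < t - h)).tsum_sub
    (summable_TT (by linarith : (0:ℝ) < t))]
  refine Summable.tsum_le_tsum (fun n => ?_) ((summable_SQ (by linarith)).mul_left _)
    ((summable_TT (by linarith)).sub (summable_TT (by linarith)))
  have e : Real.exp (-(t - h) * ((n : ℝ) + 1) ^ 2)
      = Real.exp (-t * ((n : ℝ) + 1) ^ 2) * Real.exp (h * ((n : ℝ) + 1) ^ 2) := by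
    rw [← Real.exp_add]; congr 1; ring
  rw [e]
  have h1 := Real.add_one_le_exp (h * ((n : ℝ) + 1) ^ 2)
  have h2 := Real.exp_pos (-t * ((n : ℝ) + 1) ^ 2)
  nlinarith [mul_le_mul_of_nonneg_left h1 h2.le]

lemma exp_neg_le_of {x c : ℝ} (hx : 0 ≤ x) (hc : 0 < c) (n : ℕ)
    (h : c ≤ ∑ i ∈ Finset.range n, x ^ i / i.factorial) : Real.exp (-x) ≤ 1 / c := by
  rw [Real.exp_neg, inv_eq_one_div]
  exact one_div_le_one_div_of_le hc (h.trans (Real.sum_le_exp_of_nonneg hx n))

/-- small times -/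
lemma partA {t : ℝ} (ht : 0 < t) (ht2 : t ≤ 6 / 5) :
    (t * √t) * (Real.exp (t / 4) * SQ t) ≤ 13 / 20 := by
  have hh : 0 < t / 25 := by positivity
  have h1 := SQ_le (t := t) (h := t / 25) hh (by linarith)
  set τ : ℝ := t - t / 25 with hτ
  have hτ0 : 0 < τ := by rw [hτ]; linarith
  have hp1 := poisson ht
  have hp2 := poisson hτ0
  have hTn := TT_nonneg (π ^ 2 / t)
  have hr : (8 : ℝ) ≤ π ^ 2 / τ := by
    rw [le_div_iff₀ hτ0]
    have := Real.pi_gt_d2
    have : τ ≤ 1.152 := by rw [hτ]; linarith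
    nlinarith
  have hη : 2 * TT (π ^ 2 / τ) ≤ 0.0007 := by
    have h2 := TT_le (s := π ^ 2 / τ) (by positivity)
    have h3 : Real.exp (-(π ^ 2 / τ)) ≤ 1 / 2900 := by
      refine (Real.exp_le_exp.mpr (by linarith : -(π ^ 2 / τ) ≤ -8)).trans ?_
      refine exp_neg_le_of (by norm_num) (by norm_num) 22 ?_
      norm_num [Finset.sum_range_succ, Nat.factorial]
    have h4 : Real.exp (-(π ^ 2 / τ)) / (1 - Real.exp (-(π ^ 2 / τ))) ≤ 0.00035 := by
      rw [div_le_iff₀ (by linarith)]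
      linarith
    linarith
  have hs1 : √(π / τ) * √t = √(25 / 24) * √π := by
    rw [← Real.sqrt_mul (by positivity), ← Real.sqrt_mul (by positivity)]
    congr 1
    rw [hτ]; field_simp; ring
  have hs2 : √(π / t) * √t = √π := by
    rw [← Real.sqrt_mul (by positivity)]
    congr 1
    field_simp
  have hst : 0 < √t := Real.sqrt_pos.mpr ht
  have hsπ : √π ≤ 1.7725 := by
    rw [Real.sqrt_le_left (by norm_num)]
    have := Real.pi_lt_d4
    norm_num; linarith
  have hsπ0 : 0 < √π := Real.sqrt_pos.mpr Real.pi_pos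
  have hs25 : √(25 / 24 : ℝ) ≤ 1.02063 := by
    rw [Real.sqrt_le_left (by norm_num)]
    norm_num
  have hs250 : 0 < √(25 / 24 : ℝ) := Real.sqrt_pos.mpr (by norm_num)
  -- the bound on the sum
  have hmain : (t * √t) * SQ t ≤ 0.4735 := by
    have h5 : t * SQ t ≤ 25 * (TT τ - TT t) := by linarith
    have h6 : 2 * ((t * √t) * SQ t) ≤ 25 * (√t * (1 + 2 * TT τ) - √t * (1 + 2 * TT t)) := by
      nlinarith [mul_le_mul_of_nonneg_left h5 hst.le]
    have h7 : √t * (1 + 2 * TT τ) ≤ √(25 / 24) * √π * 1.0007 := by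
      rw [hp2]
      calc √t * (√(π / τ) * (1 + 2 * TT (π ^ 2 / τ)))
          = (√(π / τ) * √t) * (1 + 2 * TT (π ^ 2 / τ)) := by ring
        _ = (√(25 / 24) * √π) * (1 + 2 * TT (π ^ 2 / τ)) := by rw [hs1]
        _ ≤ (√(25 / 24) * √π) * 1.0007 :=
            mul_le_mul_of_nonneg_left (by linarith) (by positivity)
    have h8 : √π ≤ √t * (1 + 2 * TT t) := by
      rw [hp1]
      calc √π = (√(π / t) * √t) * 1 := by rw [hs2, mul_one]
        _ ≤ (√(π / t) * √t) * (1 + 2 * TT (π ^ 2 / t)) :=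
            mul_le_mul_of_nonneg_left (by linarith) (by positivity)
        _ = √t * (√(π / t) * (1 + 2 * TT (π ^ 2 / t))) := by ring
    have h9 : 2 * ((t * √t) * SQ t) ≤ 25 * (√π * (√(25 / 24) * 1.0007 - 1)) := by nlinarith
    have h10 : √(25 / 24 : ℝ) * 1.0007 - 1 ≤ 0.021345 := by linarith
    have h11 : √π * (√(25 / 24) * 1.0007 - 1) ≤ 1.7725 * 0.021345 := by
      refine mul_le_mul hsπ h10 ?_ (by norm_num)
      have : (1 : ℝ) ≤ √(25 / 24) := by
        rw [Real.one_le_sqrt]; norm_num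
      linarith
    linarith
  have hexp : Real.exp (t / 4) ≤ 1.3505 := by
    have h12 : Real.exp (t / 4) ≤ Real.exp 0.3 := Real.exp_le_exp.mpr (by linarith)
    refine h12.trans ?_
    have h13 := Real.exp_bound (x := 0.3) (by norm_num [abs_of_pos]) (n := 4) (by norm_num)
    have h14 := (abs_le.mp h13).2
    have h15 : ∑ m ∈ Finset.range 4, (0.3 : ℝ) ^ m / (m.factorial : ℝ) = 1.3495 := by
      norm_num [Finset.sum_range_succ, Nat.factorial]
    rw [h15] at h14
    have h16 : |(0.3 : ℝ)| ^ 4 * ((Nat.succ 4 : ℕ) / ((Nat.factorial 4 : ℕ) * (4 : ℕ)) : ℝ) ≤ 0.0005 := by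
      rw [abs_of_pos (by norm_num)]
      norm_num [Nat.factorial]
    linarith
  have hS0 : 0 ≤ SQ t := tsum_nonneg fun _ => by positivity
  calc (t * √t) * (Real.exp (t / 4) * SQ t) = Real.exp (t / 4) * ((t * √t) * SQ t) := by ring
    _ ≤ 1.3505 * 0.4735 := mul_le_mul hexp hmain (by positivity) (by norm_num)
    _ ≤ 13 / 20 := by norm_num

/-- the tail `R` beyond the first term -/
lemma tail_le {t : ℝ} (ht : 1 ≤ t) :
    Real.exp t * SQ t ≤ 1 + (4 * Real.exp (-(3 * t)) + 10 * Real.exp (-(8 * t))) := by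
  have ht0 : 0 < t := by linarith
  have hsum := summable_SQ ht0
  have hs1 := (summable_nat_add_iff 1).mpr hsum
  unfold SQ
  rw [hsum.tsum_eq_zero_add, hs1.tsum_eq_zero_add]
  have hr : Real.exp (-(6 * t)) ≤ 1 / 400 := by
    refine (Real.exp_le_exp.mpr (by linarith : -(6 * t) ≤ -6)).trans ?_
    refine exp_neg_le_of (by norm_num) (by norm_num) 22 ?_
    norm_num [Finset.sum_range_succ, Nat.factorial]
  -- termwise bound
  have hterm : ∀ n : ℕ, (((n + 1 + 1 : ℕ) : ℝ) + 1) ^ 2 * Real.exp (-t * (((n + 1 + 1 : ℕ) : ℝ) + 1) ^ 2)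
      ≤ (9 * Real.exp (-(9 * t))) * (1 / 100) ^ n := by
    intro n
    have e1 : Real.exp (-t * (((n + 1 + 1 : ℕ) : ℝ) + 1) ^ 2)
        ≤ Real.exp (-(9 * t)) * (Real.exp (-(6 * t))) ^ n := by
      rw [← Real.exp_nat_mul, ← Real.exp_add]
      apply Real.exp_le_exp.mpr
      push_cast
      have : (0 : ℝ) ≤ n := Nat.cast_nonneg n
      nlinarith [mul_nonneg ht0.le (mul_nonneg this this)]
    have e2 : (((n + 1 + 1 : ℕ) : ℝ) + 1) ^ 2 ≤ 9 * 4 ^ n := by
      have : ∀ n : ℕ, ((n : ℝ) + 3) ^ 2 ≤ 9 * 4 ^ n := by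
        intro n
        induction n with
        | zero => norm_num
        | succ k ih =>
          push_cast
          rw [pow_succ (4 : ℝ)]
          have hk : (0 : ℝ) ≤ k := Nat.cast_nonneg k
          nlinarith
      have h := this n
      push_cast
      convert h using 1
      ring
    calc (((n + 1 + 1 : ℕ) : ℝ) + 1) ^ 2 * Real.exp (-t * (((n + 1 + 1 : ℕ) : ℝ) + 1) ^ 2)
        ≤ (9 * 4 ^ n) * (Real.exp (-(9 * t)) * (1 / 400) ^ n) := by
          refine mul_le_mul e2 (e1.trans ?_) (Real.exp_pos _).le (by positivity)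
          exact mul_le_mul_of_nonneg_left (pow_le_pow_left₀ (Real.exp_pos _).le hr n)
            (Real.exp_pos _).le
      _ = (9 * Real.exp (-(9 * t))) * (4 * (1 / 400)) ^ n := by rw [mul_pow]; ring
      _ = (9 * Real.exp (-(9 * t))) * (1 / 100) ^ n := by norm_num
  have hgs : Summable fun n : ℕ => (9 * Real.exp (-(9 * t))) * (1 / 100 : ℝ) ^ n :=
    (summable_geometric_of_lt_one (by norm_num) (by norm_num)).mul_left _
  have htail := Summable.tsum_le_tsum hterm ((summable_nat_add_iff 1).mpr hs1) hgs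
  rw [tsum_mul_left, tsum_geometric_of_lt_one (by norm_num) (by norm_num)] at htail
  have h9 : (9 * Real.exp (-(9 * t))) * (1 - 1 / 100 : ℝ)⁻¹ ≤ 10 * Real.exp (-(9 * t)) := by
    have := Real.exp_pos (-(9 * t))
    norm_num
    linarith
  have k0 : Real.exp t * ((((0 : ℕ) : ℝ) + 1) ^ 2 * Real.exp (-t * (((0 : ℕ) : ℝ) + 1) ^ 2)) = 1 := by
    have : Real.exp t * Real.exp (-t) = 1 := by rw [← Real.exp_add]; simp
    push_cast
    norm_num
    exact this
  have k1 : Real.exp t * ((((0 + 1 : ℕ) : ℝ) + 1) ^ 2 * Real.exp (-t * (((0 + 1 : ℕ) : ℝ) + 1) ^ 2))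
      = 4 * Real.exp (-(3 * t)) := by
    have : Real.exp t * Real.exp (-t * 4) = Real.exp (-(3 * t)) := by
      rw [← Real.exp_add]; congr 1; ring
    rw [← this]
    push_cast
    norm_num
    ring
  have k2 : Real.exp t * (10 * Real.exp (-(9 * t))) = 10 * Real.exp (-(8 * t)) := by
    have : Real.exp t * Real.exp (-(9 * t)) = Real.exp (-(8 * t)) := by
      rw [← Real.exp_add]; congr 1; ring
    rw [← this]; ring
  have hfin := mul_le_mul_of_nonneg_left (htail.trans h9) (Real.exp_pos t).le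
  rw [k2] at hfin
  rw [mul_add, mul_add, k0, k1]
  linarith

/-- `t exp (-t/2)` is increasing before `2` -/
lemma mono_X {t b : ℝ} (ht : 0 < t) (htb : t ≤ b) (hb : b ≤ 2) :
    t * Real.exp (-(t / 2)) ≤ b * Real.exp (-(b / 2)) := by
  -- t/b ≤ exp (t/b - 1) ≤ exp (-(b-t)/2)
  have hb0 : 0 < b := by linarith
  have h1 := Real.add_one_le_exp (t / b - 1)
  have h2 : t / b ≤ Real.exp (-((b - t) / 2)) := by
    refine le_trans (by linarith) (Real.exp_le_exp.mpr ?_ : Real.exp (t / b - 1) ≤ _)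
    have : t / b - 1 = -((b - t) / b) := by field_simp; ring
    rw [this]
    have : (b - t) / 2 ≤ (b - t) / b := div_le_div_of_nonneg_left (by linarith) hb0 hb
    linarith
  have h3 : Real.exp (-(b / 2)) = Real.exp (-(t / 2)) * Real.exp (-((b - t) / 2)) := by
    rw [← Real.exp_add]; congr 1; ring
  rw [h3]
  rw [div_le_iff₀ hb0] at h2
  have := Real.exp_pos (-(t / 2))
  nlinarith [mul_le_mul_of_nonneg_left h2 this.le]

lemma max_X (t : ℝ) : t * Real.exp (-(t / 2)) ≤ 2 * Real.exp (-1) := by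
  have h1 := Real.add_one_le_exp (t / 2 - 1)
  have h2 : Real.exp (-1) = Real.exp (-(t / 2)) * Real.exp (t / 2 - 1) := by
    rw [← Real.exp_add]; congr 1; ring
  rw [h2]
  have := Real.exp_pos (-(t / 2))
  nlinarith [mul_le_mul_of_nonneg_left h1 this.le]

lemma partB_core {t X Y : ℝ} (ht : 1 ≤ t) (hX : t * Real.exp (-(t / 2)) ≤ X)
    (hY : 1 + (4 * Real.exp (-(3 * t)) + 10 * Real.exp (-(8 * t))) ≤ Y)
    (hXY : X ^ 3 * Y ^ 2 ≤ 0.4225) :
    (t * √t) * (Real.exp (t / 4) * SQ t) ≤ 13 / 20 := by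
  have ht0 : 0 < t := by linarith
  have hS0 : 0 ≤ SQ t := tsum_nonneg fun _ => by positivity
  have h1 := (tail_le ht).trans hY
  have e : Real.exp (t / 4) * SQ t = Real.exp (-(3 * t / 4)) * (Real.exp t * SQ t) := by
    rw [← mul_assoc, ← Real.exp_add]; congr 2; ring
  have h2 : (t * √t) * (Real.exp (t / 4) * SQ t) ≤ ((t * √t) * Real.exp (-(3 * t / 4))) * Y := by
    rw [e]
    calc t * √t * (Real.exp (-(3 * t / 4)) * (Real.exp t * SQ t))
        = (t * √t * Real.exp (-(3 * t / 4))) * (Real.exp t * SQ t) := by ring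
      _ ≤ _ := mul_le_mul_of_nonneg_left h1 (by positivity)
  have hY0 : 0 ≤ Y := le_trans (by positivity) h1
  have h3 : ((t * √t) * (Real.exp (t / 4) * SQ t)) ^ 2 ≤ 0.4225 := by
    calc ((t * √t) * (Real.exp (t / 4) * SQ t)) ^ 2
        ≤ (((t * √t) * Real.exp (-(3 * t / 4))) * Y) ^ 2 :=
          pow_le_pow_left₀ (by positivity) h2 2
      _ = (t * Real.exp (-(t / 2))) ^ 3 * Y ^ 2 := by
          have e1 : (√t) ^ 2 = t := Real.sq_sqrt ht0.le
          have e2 : Real.exp (-(3 * t / 4)) ^ 2 = Real.exp (-(t / 2)) ^ 3 := by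
            rw [← Real.exp_nat_mul, ← Real.exp_nat_mul]; congr 1; push_cast; ring
          rw [mul_pow, mul_pow, mul_pow, mul_pow, e1, e2]; ring
      _ ≤ X ^ 3 * Y ^ 2 := by
          refine mul_le_mul_of_nonneg_right ?_ (by positivity)
          exact pow_le_pow_left₀ (by positivity) hX 3
      _ ≤ 0.4225 := hXY
  nlinarith [h3, mul_nonneg (mul_nonneg ht0.le (Real.sqrt_nonneg t)) (mul_nonneg (Real.exp_pos (t / 4)).le hS0)]

lemma partB {t : ℝ} (ht : 6 / 5 ≤ t) :
    (t * √t) * (Real.exp (t / 4) * SQ t) ≤ 13 / 20 := by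
  have ht0 : 0 < t := by linarith
  have key : ∀ a : ℝ, a ≤ t → ∀ p q : ℝ, Real.exp (-(3 * a)) ≤ p → Real.exp (-(8 * a)) ≤ q →
      1 + (4 * Real.exp (-(3 * t)) + 10 * Real.exp (-(8 * t))) ≤ 1 + (4 * p + 10 * q) := by
    intro a ha p q hp hq
    have h1 : Real.exp (-(3 * t)) ≤ Real.exp (-(3 * a)) := Real.exp_le_exp.mpr (by linarith)
    have h2 : Real.exp (-(8 * t)) ≤ Real.exp (-(8 * a)) := Real.exp_le_exp.mpr (by linarith)
    linarith
  rcases le_or_gt t 1.35 with h1 | h1
  · refine partB_core (X := 0.688) (Y := 1 + (4 * 0.0274 + 10 * 0.0001)) (by linarith) ?_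
      (key 1.2 (by linarith) 0.0274 0.0001 ?_ ?_) (by norm_num)
    · refine (mono_X ht0 h1 (by norm_num)).trans ?_
      have : Real.exp (-(1.35 / 2)) ≤ 1 / 1.9638 := by
        refine exp_neg_le_of (by norm_num) (by norm_num) 10 ?_
        norm_num [Finset.sum_range_succ, Nat.factorial]
      have h2 := mul_le_mul_of_nonneg_left this (by norm_num : (0 : ℝ) ≤ 1.35)
      refine h2.trans (by norm_num)
    · refine (exp_neg_le_of (c := 36.59) (by norm_num) (by norm_num) 16 ?_).trans (by norm_num)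
      norm_num [Finset.sum_range_succ, Nat.factorial]
    · refine (exp_neg_le_of (c := 14000) (by norm_num) (by norm_num) 28 ?_).trans (by norm_num)
      norm_num [Finset.sum_range_succ, Nat.factorial]
  rcases le_or_gt t 1.55 with h2 | h2
  · refine partB_core (X := 0.7145) (Y := 1 + (4 * 0.01745 + 10 * 0.00003)) (by linarith) ?_
      (key 1.35 (by linarith) 0.01745 0.00003 ?_ ?_) (by norm_num)
    · refine (mono_X ht0 h2 (by norm_num)).trans ?_
      have : Real.exp (-(1.55 / 2)) ≤ 1 / 2.1704 := by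
        refine exp_neg_le_of (by norm_num) (by norm_num) 10 ?_
        norm_num [Finset.sum_range_succ, Nat.factorial]
      have h2 := mul_le_mul_of_nonneg_left this (by norm_num : (0 : ℝ) ≤ 1.55)
      refine h2.trans (by norm_num)
    · refine (exp_neg_le_of (c := 57.35) (by norm_num) (by norm_num) 18 ?_).trans (by norm_num)
      norm_num [Finset.sum_range_succ, Nat.factorial]
    · refine (exp_neg_le_of (c := 45000) (by norm_num) (by norm_num) 30 ?_).trans (by norm_num)
      norm_num [Finset.sum_range_succ, Nat.factorial]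
  rcases le_or_gt t 1.7 with h3 | h3
  · refine partB_core (X := 0.727) (Y := 1 + (4 * 0.00958 + 10 * 0.00001)) (by linarith) ?_
      (key 1.55 (by linarith) 0.00958 0.00001 ?_ ?_) (by norm_num)
    · refine (mono_X ht0 h3 (by norm_num)).trans ?_
      have : Real.exp (-(1.7 / 2)) ≤ 1 / 2.3396 := by
        refine exp_neg_le_of (by norm_num) (by norm_num) 11 ?_
        norm_num [Finset.sum_range_succ, Nat.factorial]
      have h2 := mul_le_mul_of_nonneg_left this (by norm_num : (0 : ℝ) ≤ 1.7)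
      refine h2.trans (by norm_num)
    · refine (exp_neg_le_of (c := 104.5) (by norm_num) (by norm_num) 20 ?_).trans (by norm_num)
      norm_num [Finset.sum_range_succ, Nat.factorial]
    · refine (exp_neg_le_of (c := 150000) (by norm_num) (by norm_num) 32 ?_).trans (by norm_num)
      norm_num [Finset.sum_range_succ, Nat.factorial]
  · refine partB_core (X := 0.736) (Y := 1 + (4 * 0.0062 + 10 * 0.00001)) (by linarith) ?_
      (key 1.7 (by linarith) 0.0062 0.00001 ?_ ?_) (by norm_num)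
    · refine (max_X t).trans ?_
      have : Real.exp (-1) ≤ 1 / 2.7182 := by
        refine exp_neg_le_of (by norm_num) (by norm_num) 11 ?_
        norm_num [Finset.sum_range_succ, Nat.factorial]
      refine (mul_le_mul_of_nonneg_left this (by norm_num : (0 : ℝ) ≤ 2)).trans (by norm_num)
    · refine (exp_neg_le_of (c := 162) (by norm_num) (by norm_num) 20 ?_).trans (by norm_num)
      norm_num [Finset.sum_range_succ, Nat.factorial]
    · refine (exp_neg_le_of (c := 150000) (by norm_num) (by norm_num) 32 ?_).trans (by norm_num)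
      norm_num [Finset.sum_range_succ, Nat.factorial]

/-- The function of `t` for the round three-sphere is at most `13/20`. -/
lemma num_bound {t : ℝ} (ht : 0 < t) :
    (t * √t) * (Real.exp (t / 4) * SQ t) ≤ 13 / 20 := by
  rcases le_or_gt t (6 / 5) with h | h
  · exact partA ht h
  · exact partB h.le

end Pool.Agent.Helper974.Heat
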