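import Mathlib
import Pool.Agent.Helper974.HeatGreen

namespace Pool.Agent.Helper974.Heat

open MeasureTheory Metric Set
open scoped ENNReal ContDiff Topology

/-! ### sine sums -/

/-- a sine sum -/
noncomputable def PP {k : ℕ} (a : Fin (k + 1) → ℝ) (x : ℝ) : ℝ :=
  ∑ i : Fin (k + 1), a i * Real.sin (((i : ℕ) + 1 : ℝ) * x)

/-- its derivative -/
noncomputable def PD {k : ℕ} (a : Fin (k + 1) → ℝ) (x : ℝ) : ℝ :=
  ∑ i : Fin (k + 1), a i * (((i : ℕ) + 1 : ℝ) * Real.cos (((i : ℕ) + 1 : ℝ) * x))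

lemma hasDerivAt_PP {k : ℕ} (a : Fin (k + 1) → ℝ) (x : ℝ) : HasDerivAt (PP a) (PD a x) x := by
  unfold PP PD
  refine HasDerivAt.fun_sum fun i _ => ?_
  have h1 : HasDerivAt (fun x : ℝ => (((i : ℕ) + 1 : ℝ) * x)) ((i : ℕ) + 1 : ℝ) x := by
    simpa using (hasDerivAt_id x).const_mul (((i : ℕ) + 1 : ℝ))
  have h2 := (Real.hasDerivAt_sin _).comp x h1
  refine (h2.const_mul (a i)).congr_deriv ?_
  ring

lemma continuous_PD {k : ℕ} (a : Fin (k + 1) → ℝ) : Continuous (PD a) := by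
  unfold PD; fun_prop

lemma contDiff_PP {k : ℕ} (a : Fin (k + 1) → ℝ) {m : WithTop ℕ∞} : ContDiff ℝ m (PP a) := by
  unfold PP
  refine ContDiff.sum fun i _ => ?_
  exact contDiff_const.mul (Real.contDiff_sin.comp (contDiff_const.mul contDiff_id))

lemma PP_zero {k : ℕ} (a : Fin (k + 1) → ℝ) : PP a 0 = 0 := by
  unfold PP; simp

lemma PP_pi {k : ℕ} (a : Fin (k + 1) → ℝ) : PP a Real.pi = 0 := by
  unfold PP
  refine Finset.sum_eq_zero fun i _ => ?_
  have : Real.sin (((i : ℕ) + 1 : ℝ) * Real.pi) = 0 := by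
    have := Real.sin_nat_mul_pi ((i : ℕ) + 1)
    push_cast at this
    exact this
  rw [this, mul_zero]

lemma int_cos_nat {N : ℤ} (hN : N ≠ 0) : ∫ x in (0 : ℝ)..Real.pi, Real.cos ((N : ℝ) * x) = 0 := by
  have hN' : (N : ℝ) ≠ 0 := by exact_mod_cast hN
  rw [intervalIntegral.integral_comp_mul_left (f := Real.cos) hN']
  rw [integral_cos]
  simp [Real.sin_int_mul_pi]

lemma int_cos_cos (i j : ℕ) : ∫ x in (0 : ℝ)..Real.pi,
    Real.cos ((i + 1 : ℝ) * x) * Real.cos ((j + 1 : ℝ) * x) = if i = j then Real.pi / 2 else 0 := by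
  have e : ∀ x : ℝ, Real.cos ((i + 1 : ℝ) * x) * Real.cos ((j + 1 : ℝ) * x)
      = (1 / 2 : ℝ) * (Real.cos ((((i : ℤ) - j : ℤ) : ℝ) * x)
        + Real.cos ((((i : ℤ) + j + 2 : ℤ) : ℝ) * x)) := by
    intro x
    push_cast
    rw [show ((i : ℝ) - j) * x = (i + 1 : ℝ) * x - (j + 1 : ℝ) * x by ring,
      show ((i : ℝ) + j + 2) * x = (i + 1 : ℝ) * x + (j + 1 : ℝ) * x by ring,
      Real.cos_sub, Real.cos_add]
    ring
  simp_rw [e]
  rw [intervalIntegral.integral_const_mul, intervalIntegral.integral_add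
    (by apply Continuous.intervalIntegrable; fun_prop) (by apply Continuous.intervalIntegrable; fun_prop),
    int_cos_nat (N := (i : ℤ) + j + 2) (by omega)]
  split_ifs with h
  · subst h; simp; ring
  · rw [int_cos_nat (by omega)]; simp

lemma int_sin_sin (i j : ℕ) : ∫ x in (0 : ℝ)..Real.pi,
    Real.sin ((i + 1 : ℝ) * x) * Real.sin ((j + 1 : ℝ) * x) = if i = j then Real.pi / 2 else 0 := by
  have e : ∀ x : ℝ, Real.sin ((i + 1 : ℝ) * x) * Real.sin ((j + 1 : ℝ) * x)
      = (1 / 2 : ℝ) * (Real.cos ((((i : ℤ) - j : ℤ) : ℝ) * x)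
        - Real.cos ((((i : ℤ) + j + 2 : ℤ) : ℝ) * x)) := by
    intro x
    push_cast
    rw [show ((i : ℝ) - j) * x = (i + 1 : ℝ) * x - (j + 1 : ℝ) * x by ring,
      show ((i : ℝ) + j + 2) * x = (i + 1 : ℝ) * x + (j + 1 : ℝ) * x by ring,
      Real.cos_sub, Real.cos_add]
    ring
  simp_rw [e]
  rw [intervalIntegral.integral_const_mul, intervalIntegral.integral_sub
    (by apply Continuous.intervalIntegrable; fun_prop) (by apply Continuous.intervalIntegrable; fun_prop),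
    int_cos_nat (N := (i : ℤ) + j + 2) (by omega)]
  split_ifs with h
  · subst h; simp; ring
  · rw [int_cos_nat (by omega)]; simp

lemma int_PP {k : ℕ} (a : Fin (k + 1) → ℝ) :
    ∫ x in (0 : ℝ)..Real.pi, PP a x ^ 2 = Real.pi / 2 * ∑ i, a i ^ 2 := by
  have e : ∀ x : ℝ, PP a x ^ 2 = ∑ i : Fin (k + 1), ∑ j : Fin (k + 1),
      (a i * a j) * (Real.sin (((i : ℕ) + 1 : ℝ) * x) * Real.sin (((j : ℕ) + 1 : ℝ) * x)) := by
    intro x
    unfold PP
    rw [sq, Finset.sum_mul_sum]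
    exact Finset.sum_congr rfl fun i _ => Finset.sum_congr rfl fun j _ => by ring
  simp_rw [e]
  rw [intervalIntegral.integral_finsetSum (fun i _ => by apply Continuous.intervalIntegrable; fun_prop)]
  rw [Finset.mul_sum]
  refine Finset.sum_congr rfl fun i _ => ?_
  rw [intervalIntegral.integral_finsetSum (fun j _ => by apply Continuous.intervalIntegrable; fun_prop)]
  simp_rw [intervalIntegral.integral_const_mul, int_sin_sin]
  rw [Finset.sum_eq_single i]
  · simp; ring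
  · intro j _ hj
    rw [if_neg (fun h => hj (Fin.ext h.symm)), mul_zero]
  · simp

lemma int_PD {k : ℕ} (a : Fin (k + 1) → ℝ) :
    ∫ x in (0 : ℝ)..Real.pi, PD a x ^ 2 = Real.pi / 2 * ∑ i : Fin (k + 1), (((i : ℕ) + 1 : ℝ) * a i) ^ 2 := by
  have e : ∀ x : ℝ, PD a x ^ 2 = ∑ i : Fin (k + 1), ∑ j : Fin (k + 1),
      ((a i * a j) * ((((i : ℕ) + 1 : ℝ)) * (((j : ℕ) + 1 : ℝ)))) *
        (Real.cos (((i : ℕ) + 1 : ℝ) * x) * Real.cos (((j : ℕ) + 1 : ℝ) * x)) := by
    intro x
    unfold PD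
    rw [sq, Finset.sum_mul_sum]
    exact Finset.sum_congr rfl fun i _ => Finset.sum_congr rfl fun j _ => by ring
  simp_rw [e]
  rw [intervalIntegral.integral_finsetSum (fun i _ => by apply Continuous.intervalIntegrable; fun_prop)]
  rw [Finset.mul_sum]
  refine Finset.sum_congr rfl fun i _ => ?_
  rw [intervalIntegral.integral_finsetSum (fun j _ => by apply Continuous.intervalIntegrable; fun_prop)]
  simp_rw [intervalIntegral.integral_const_mul, int_cos_cos]
  rw [Finset.sum_eq_single i]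
  · simp; ring
  · intro j _ hj
    rw [if_neg (fun h => hj (Fin.ext h.symm)), mul_zero]
  · simp

lemma int_PD_le {k : ℕ} (a : Fin (k + 1) → ℝ) :
    ∫ x in (0 : ℝ)..Real.pi, PD a x ^ 2
      ≤ ((k : ℝ) + 1) ^ 2 * ∫ x in (0 : ℝ)..Real.pi, PP a x ^ 2 := by
  rw [int_PP, int_PD, ← mul_assoc, mul_comm _ (Real.pi / 2), mul_assoc]
  refine mul_le_mul_of_nonneg_left ?_ (by positivity)
  rw [Finset.mul_sum]
  refine Finset.sum_le_sum fun i _ => ?_
  rw [mul_pow]
  refine mul_le_mul_of_nonneg_right ?_ (sq_nonneg _)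
  have : ((i : ℕ) : ℝ) ≤ k := by exact_mod_cast Nat.lt_succ_iff.1 i.2
  gcongr

lemma int_PP_pos {k : ℕ} {a : Fin (k + 1) → ℝ} (ha : a ≠ 0) :
    0 < ∫ x in (0 : ℝ)..Real.pi, PP a x ^ 2 := by
  rw [int_PP]
  obtain ⟨i, hi⟩ := Function.ne_iff.1 ha
  have : 0 < ∑ i, a i ^ 2 :=
    Finset.sum_pos' (fun i _ => sq_nonneg _) ⟨i, Finset.mem_univ _, by
      have : a i ≠ 0 := hi
      positivity⟩
  positivity

/-! ### the plateau function and the change of variable -/

/-- smooth functions vanishing near `±1`, times functions smooth inside `(-1, 1)` -/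
lemma cut {r : ℝ} (hr : 0 < r) {u v : ℝ → ℝ} {k : WithTop ℕ∞} (hu : ContDiff ℝ k u)
    (h0 : ∀ c, 1 - r ≤ |c| → u c = 0) (hv : ∀ c, |c| < 1 → ContDiffAt ℝ k v c) :
    ContDiff ℝ k (fun c => u c * v c) := by
  rw [contDiff_iff_contDiffAt]
  intro c
  rcases lt_or_ge |c| 1 with h | h
  · exact hu.contDiffAt.mul (hv c h)
  · have h2 : ∀ᶠ y in 𝓝 c, 1 - r < |y| :=
      continuous_abs.continuousAt.eventually (lt_mem_nhds (by linarith))
    have : (fun c => u c * v c) =ᶠ[𝓝 c] fun _ => 0 := by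
      filter_upwards [h2] with y hy
      rw [h0 y hy.le, zero_mul]
    exact contDiffAt_const.congr_of_eventuallyEq this

lemma one_sub_sq_pos {c : ℝ} (h : |c| < 1) : 0 < 1 - c ^ 2 := by
  have := abs_lt.1 h
  nlinarith

lemma contDiffAt_inv {c : ℝ} (h : |c| < 1) {k : WithTop ℕ∞} :
    ContDiffAt ℝ k (fun c : ℝ => (1 - c ^ 2)⁻¹) c :=
  ((contDiff_const.sub (contDiff_id.pow 2)).contDiffAt (x := c)).inv (one_sub_sq_pos h).ne'

lemma contDiffAt_rpow {c : ℝ} (h : |c| < 1) (s : ℝ) {k : WithTop ℕ∞} :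
    ContDiffAt ℝ k (fun c : ℝ => (1 - c ^ 2) ^ s) c :=
  ((contDiff_const.sub (contDiff_id.pow 2)).contDiffAt (x := c)).rpow_const_of_ne (one_sub_sq_pos h).ne'

structure Plat (r : ℝ) where
  η : ℝ → ℝ
  pos : 0 < r
  lt : r < 1 / 2
  smooth : ContDiff ℝ ∞ η
  nonneg : ∀ c, 0 ≤ η c
  le_one : ∀ c, η c ≤ 1
  one : ∀ c, |c| ≤ 1 - 2 * r → η c = 1
  zero : ∀ c, 1 - r ≤ |c| → η c = 0

lemma exists_plat {r : ℝ} (h0 : 0 < r) (h1 : r < 1 / 2) : Nonempty (Plat r) := by
  let b : ContDiffBump (0 : ℝ) := ⟨1 - 2 * r, 1 - r, by linarith, by linarith⟩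
  exact ⟨⟨b, h0, h1, b.contDiff, fun c => b.nonneg, fun c => b.le_one, fun c hc =>
    b.one_of_mem_closedBall (by simpa [mem_closedBall, Real.dist_eq] using hc), fun c hc =>
    b.zero_of_le_dist (by rw [Real.dist_eq, sub_zero]; exact hc)⟩⟩

namespace Plat

variable {r : ℝ} (p : Plat r)

noncomputable def w (c : ℝ) : ℝ := p.η c * (1 - c ^ 2)⁻¹

lemma contDiff_w : ContDiff ℝ ∞ p.w := cut p.pos p.smooth p.zero fun _ h => contDiffAt_inv h

lemma continuous_w : Continuous p.w := p.contDiff_w.continuous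

lemma w_zero {c : ℝ} (h : 1 - r ≤ |c|) : p.w c = 0 := by
  unfold w; rw [p.zero c h, zero_mul]

lemma w_nonneg (c : ℝ) : 0 ≤ p.w c := by
  rcases lt_or_ge |c| 1 with h | h
  · exact mul_nonneg (p.nonneg c) (inv_nonneg.2 (one_sub_sq_pos h).le)
  · rw [p.w_zero (by have := p.pos; linarith)]

noncomputable def Lam : ℝ := ∫ c in (-1 : ℝ)..1, p.w c

lemma log_le_Lam : Real.log (1 / (2 * r)) ≤ p.Lam := by
  have hr := p.pos
  have hr2 := p.lt
  set b : ℝ := 1 - 2 * r with hb
  have hb0 : 0 < b := by rw [hb]; linarith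
  have h1 : ∫ c in (-b)..b, p.w c ≤ p.Lam := by
    unfold Lam
    exact intervalIntegral.integral_mono_interval (by linarith) (by linarith) (by linarith)
      (Filter.Eventually.of_forall p.w_nonneg) (p.continuous_w.intervalIntegrable _ _)
  have h2 : ∫ c in (-b)..b, p.w c = (1 / 2 * (Real.log (1 + b) - Real.log (1 - b)))
      - (1 / 2 * (Real.log (1 + (-b)) - Real.log (1 - (-b)))) := by
    have hd : ∀ c ∈ uIcc (-b) b, HasDerivAt (fun c : ℝ => 1 / 2 * (Real.log (1 + c) - Real.log (1 - c)))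
        (p.w c) c := by
      intro c hc
      rw [uIcc_of_le (by linarith)] at hc
      have hc1 : |c| ≤ b := abs_le.2 hc
      have hw : p.w c = (1 - c ^ 2)⁻¹ := by
        unfold w; rw [p.one c hc1, one_mul]
      have h3 : 0 < 1 + c := by linarith [hc.1]
      have h4 : 0 < 1 - c := by linarith [hc.2]
      have h5 : HasDerivAt (fun c : ℝ => Real.log (1 + c)) (1 / (1 + c)) c :=
        ((hasDerivAt_id c).const_add 1).log h3.ne'
      have h6 : HasDerivAt (fun c : ℝ => Real.log (1 - c)) ((-1) / (1 - c)) c :=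
        ((hasDerivAt_id c).const_sub 1).log h4.ne'
      refine ((h5.sub h6).const_mul (1 / 2)).congr_deriv ?_
      rw [hw]
      have : 1 - c ^ 2 = (1 - c) * (1 + c) := by ring
      rw [this]
      field_simp
      ring
    exact intervalIntegral.integral_eq_sub_of_hasDerivAt hd (p.continuous_w.intervalIntegrable _ _)
  rw [h2] at h1
  have h3 : Real.log (1 / (2 * r)) ≤ Real.log (1 + b) - Real.log (1 - b) := by
    rw [← Real.log_div (by linarith) (by linarith)]
    apply Real.log_le_log (by positivity)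
    rw [div_le_div_iff₀ (by positivity) (by linarith)]
    nlinarith
  have h4 : (1 + -b) = 1 - b := by ring
  have h5 : (1 - -b) = 1 + b := by ring
  rw [h4, h5] at h1
  linarith

lemma Lam_pos : 0 < p.Lam := by
  refine lt_of_lt_of_le (Real.log_pos ?_) p.log_le_Lam
  have hr := p.pos
  have hr2 := p.lt
  rw [lt_div_iff₀ (by positivity)]
  linarith

noncomputable def MM : ℝ := Real.pi / p.Lam

lemma MM_pos : 0 < p.MM := div_pos Real.pi_pos p.Lam_pos

noncomputable def om (c : ℝ) : ℝ := p.MM * ∫ s in (-1 : ℝ)..c, p.w s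

lemma hasDerivAt_om (c : ℝ) : HasDerivAt p.om (p.MM * p.w c) c :=
  (intervalIntegral.integral_hasDerivAt_right (p.continuous_w.intervalIntegrable _ _)
    p.continuous_w.aestronglyMeasurable.stronglyMeasurableAtFilter p.continuous_w.continuousAt).const_mul _

lemma contDiff_om : ContDiff ℝ ∞ p.om := by
  rw [contDiff_infty_iff_deriv]
  refine ⟨fun c => (p.hasDerivAt_om c).differentiableAt, ?_⟩
  have : deriv p.om = fun c => p.MM * p.w c := funext fun c => (p.hasDerivAt_om c).deriv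
  rw [this]
  exact contDiff_const.mul p.contDiff_w

lemma om_left {c : ℝ} (h : c ≤ -(1 - r)) : p.om c = 0 := by
  unfold om
  have hr := p.pos
  have : ∫ s in (-1 : ℝ)..c, p.w s = ∫ s in (-1 : ℝ)..c, (0 : ℝ) := by
    refine intervalIntegral.integral_congr fun s hs => ?_
    apply p.w_zero
    have h1 : s ≤ -(1 - r) := by
      rcases mem_uIcc.1 hs with h | h
      · linarith [h.2]
      · linarith [h.2]
    rw [abs_of_nonpos (by have := p.lt; linarith)]
    linarith
  rw [this]; simp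

lemma om_right {c : ℝ} (h : 1 - r ≤ c) : p.om c = Real.pi := by
  unfold om
  have hr := p.pos
  have h1 : ∫ s in (1 : ℝ)..c, p.w s = ∫ s in (1 : ℝ)..c, (0 : ℝ) := by
    refine intervalIntegral.integral_congr fun s hs => ?_
    apply p.w_zero
    have h1 : 1 - r ≤ s := by
      rcases mem_uIcc.1 hs with h | h
      · linarith [h.1]
      · linarith [h.1]
    rw [abs_of_nonneg (by have := p.lt; linarith)]
    linarith
  have h2 := intervalIntegral.integral_add_adjacent_intervals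
    (p.continuous_w.intervalIntegrable (-1) 1) (p.continuous_w.intervalIntegrable 1 c)
      (μ := volume)
  rw [h1] at h2
  rw [← h2]
  have : ∫ s in (-1 : ℝ)..1, p.w s = p.Lam := rfl
  rw [this]
  unfold MM
  have := p.Lam_pos.ne'
  simp
  field_simp

end Plat

end Pool.Agent.Helper974.Heat
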