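import Mathlib
import Pool.Agent.Helper974.HeatTrialA

namespace Pool.Agent.Helper974.Heat

open MeasureTheory Metric Set
open scoped ENNReal ContDiff Topology

lemma gradSq_lift {G : ℝ → ℝ} {g : ℝ} {x : EE 3} (hG : HasDerivAt G g (x 3)) :
    gradSq (fun y : EE 3 => G (y 3)) x = g ^ 2 * (1 - (x 3) ^ 2) := by
  have h : HasFDerivAt (fun y : EE 3 => G (y 3))
      (g • (EuclideanSpace.proj (𝕜 := ℝ) 3 : EE 3 →L[ℝ] ℝ)) x :=
    hG.comp_hasFDerivAt x (hasFDerivAt_coord (n := 3) 3 x)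
  unfold gradSq
  rw [h.fderiv]
  have e : ∀ i : Fin 4, ((g • (EuclideanSpace.proj (𝕜 := ℝ) 3 : EE 3 →L[ℝ] ℝ))
      (EuclideanSpace.single i (1 : ℝ))) = if i = 3 then g else 0 := by
    intro i
    simp [PiLp.single_apply, eq_comm]
  have e2 : ∑ i : Fin (3 + 1), ((g • (EuclideanSpace.proj (𝕜 := ℝ) 3 : EE 3 →L[ℝ] ℝ))
      (EuclideanSpace.single i (1 : ℝ))) ^ 2 = g ^ 2 := by
    rw [Finset.sum_eq_single (3 : Fin 4)]
    · rw [e]; simp
    · intro i _ hi
      rw [e, if_neg hi]; ring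
    · simp
  rw [e2]
  have e3 : (g • (EuclideanSpace.proj (𝕜 := ℝ) 3 : EE 3 →L[ℝ] ℝ)) x = g * x 3 := by simp
  rw [e3]
  ring

namespace Plat

variable {r : ℝ} (p : Plat r) {k : ℕ} (a : Fin (k + 1) → ℝ)

noncomputable def psi (c : ℝ) : ℝ := PP a (p.om c)

noncomputable def psi' (c : ℝ) : ℝ := PD a (p.om c) * (p.MM * p.w c)

lemma hasDerivAt_psi (c : ℝ) : HasDerivAt (p.psi a) (p.psi' a c) c :=
  (hasDerivAt_PP a _).comp c (p.hasDerivAt_om c)

lemma contDiff_psi : ContDiff ℝ ∞ (p.psi a) := (contDiff_PP a).comp p.contDiff_om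

lemma continuous_psi' : Continuous (p.psi' a) := by
  unfold psi'
  exact ((continuous_PD a).comp p.contDiff_om.continuous).mul
    (continuous_const.mul p.continuous_w)

lemma psi_zero {c : ℝ} (h : 1 - r ≤ |c|) : p.psi a c = 0 := by
  unfold psi
  rcases le_abs.1 h with h | h
  · rw [p.om_right h, PP_pi]
  · rw [p.om_left (by linarith), PP_zero]

lemma psi_zero' {c : ℝ} (h : 1 ≤ |c|) : p.psi a c = 0 :=
  p.psi_zero a (by have := p.pos; linarith)

/-- the trial function of the last coordinate -/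
noncomputable def FF (c : ℝ) : ℝ := p.psi a c * (1 - c ^ 2) ^ (-(1 / 4) : ℝ)

lemma contDiff_FF : ContDiff ℝ ∞ (p.FF a) :=
  cut p.pos (p.contDiff_psi a) (fun _ => p.psi_zero a) fun _ h => contDiffAt_rpow h _

lemma FF_zero {c : ℝ} (h : 1 - r ≤ |c|) : p.FF a c = 0 := by
  unfold FF; rw [p.psi_zero a h, zero_mul]

noncomputable def AA : ℝ := ∫ c in (-1 : ℝ)..1, p.psi a c ^ 2 * (1 - c ^ 2)⁻¹

lemma continuous_A : Continuous fun c => p.psi a c ^ 2 * (1 - c ^ 2)⁻¹ :=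
  (cut p.pos ((p.contDiff_psi a).pow 2) (fun _ h => by rw [p.psi_zero a h]; ring)
    fun _ h => contDiffAt_inv h).continuous

lemma change {G : ℝ → ℝ} (hG : Continuous G) :
    ∫ c in (-1 : ℝ)..1, G (p.om c) * (p.MM * p.w c) = ∫ x in (0 : ℝ)..Real.pi, G x := by
  have h := intervalIntegral.integral_comp_mul_deriv (a := (-1 : ℝ)) (b := 1)
    (fun x _ => p.hasDerivAt_om x) (continuous_const.mul p.continuous_w).continuousOn hG
  have hr := p.pos
  rw [p.om_left (by linarith), p.om_right (by linarith)] at h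
  exact h

lemma PP_le_AA : ∫ x in (0 : ℝ)..Real.pi, PP a x ^ 2 ≤ p.MM * p.AA a := by
  have hcP : Continuous (PP a) := (contDiff_PP a (m := 0)).continuous
  rw [← p.change (G := fun x => PP a x ^ 2) (hcP.pow 2)]
  unfold AA
  rw [← intervalIntegral.integral_const_mul]
  refine intervalIntegral.integral_mono_on (by norm_num) ?_ ?_ ?_
  · exact (((hcP.comp p.contDiff_om.continuous).pow 2).mul
      (continuous_const.mul p.continuous_w)).intervalIntegrable _ _
  · exact (continuous_const.mul (p.continuous_A a)).intervalIntegrable _ _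
  · intro c hc
    have hM := p.MM_pos
    have e : PP a (p.om c) ^ 2 * (p.MM * p.w c) = p.η c * (p.MM * (p.psi a c ^ 2 * (1 - c ^ 2)⁻¹)) := by
      unfold w psi; ring
    rw [e]
    have h0 : 0 ≤ p.MM * (p.psi a c ^ 2 * (1 - c ^ 2)⁻¹) := by
      have h1 : 0 ≤ 1 - c ^ 2 := by nlinarith [hc.1, hc.2]
      positivity
    calc p.η c * (p.MM * (p.psi a c ^ 2 * (1 - c ^ 2)⁻¹))
        ≤ 1 * (p.MM * (p.psi a c ^ 2 * (1 - c ^ 2)⁻¹)) := mul_le_mul_of_nonneg_right (p.le_one c) h0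
      _ = _ := one_mul _

lemma AA_pos (ha : a ≠ 0) : 0 < p.AA a := by
  have h1 := int_PP_pos ha
  have h2 := p.PP_le_AA a
  have hM := p.MM_pos
  by_contra h
  have : p.MM * p.AA a ≤ 0 := mul_nonpos_of_nonneg_of_nonpos hM.le (not_lt.1 h)
  linarith

lemma psi'_le : ∫ c in (-1 : ℝ)..1, (1 - c ^ 2) * p.psi' a c ^ 2
    ≤ (p.MM ^ 2 * ((k : ℝ) + 1) ^ 2) * p.AA a := by
  have hM := p.MM_pos
  have h1 : ∫ c in (-1 : ℝ)..1, (1 - c ^ 2) * p.psi' a c ^ 2
      ≤ ∫ c in (-1 : ℝ)..1, p.MM * (PD a (p.om c) ^ 2 * (p.MM * p.w c)) := by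
    refine intervalIntegral.integral_mono_on (by norm_num) ?_ ?_ ?_
    · apply Continuous.intervalIntegrable
      exact (by fun_prop : Continuous fun c : ℝ => 1 - c ^ 2).mul ((p.continuous_psi' a).pow 2)
    · apply Continuous.intervalIntegrable
      exact continuous_const.mul ((((continuous_PD a).comp p.contDiff_om.continuous).pow 2).mul
        (continuous_const.mul p.continuous_w))
    · intro c hc
      have h2 : (1 - c ^ 2) * p.w c ≤ 1 := by
        rcases lt_or_ge |c| 1 with h | h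
        · have := (one_sub_sq_pos h).ne'
          unfold w
          rw [mul_comm (p.η c), ← mul_assoc, mul_inv_cancel₀ this, one_mul]
          exact p.le_one c
        · rw [p.w_zero (by have := p.pos; linarith)]; norm_num
      have h3 : 0 ≤ PD a (p.om c) ^ 2 * (p.MM * p.w c) * p.MM := by
        have := p.w_nonneg c
        positivity
      calc (1 - c ^ 2) * p.psi' a c ^ 2
          = (PD a (p.om c) ^ 2 * (p.MM * p.w c) * p.MM) * ((1 - c ^ 2) * p.w c) := by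
            unfold psi'; ring
        _ ≤ (PD a (p.om c) ^ 2 * (p.MM * p.w c) * p.MM) * 1 := mul_le_mul_of_nonneg_left h2 h3
        _ = _ := by ring
  rw [intervalIntegral.integral_const_mul, p.change (G := fun x => PD a x ^ 2)
    ((continuous_PD a).pow 2)] at h1
  have h4 := int_PD_le a
  have h5 := p.PP_le_AA a
  calc _ ≤ p.MM * ∫ x in (0 : ℝ)..Real.pi, PD a x ^ 2 := h1
    _ ≤ p.MM * (((k : ℝ) + 1) ^ 2 * ∫ x in (0 : ℝ)..Real.pi, PP a x ^ 2) :=
      mul_le_mul_of_nonneg_left h4 hM.le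
    _ ≤ p.MM * (((k : ℝ) + 1) ^ 2 * (p.MM * p.AA a)) := by gcongr
    _ = _ := by ring

lemma hasDerivAt_FF {c : ℝ} (h : |c| < 1) : HasDerivAt (p.FF a)
    ((p.psi' a c + p.psi a c * (c / 2) / (1 - c ^ 2)) * (1 - c ^ 2) ^ (-(1 / 4) : ℝ)) c := by
  have hpos := one_sub_sq_pos h
  have h1 : HasDerivAt (fun c : ℝ => 1 - c ^ 2) (-(2 * c)) c := by
    simpa using (hasDerivAt_pow 2 c).const_sub 1
  have h2 := h1.rpow_const (p := (-(1 / 4) : ℝ)) (Or.inl hpos.ne')
  refine ((p.hasDerivAt_psi a c).mul h2).congr_deriv ?_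
  rw [Real.rpow_sub_one hpos.ne']
  field_simp
  ring

lemma deriv_FF (c : ℝ) : HasDerivAt (p.FF a) (deriv (p.FF a) c) c :=
  ((p.contDiff_FF a).differentiable (by norm_num) c).hasDerivAt

lemma energy_id {c : ℝ} (hc : |c| ≤ 1) :
    (deriv (p.FF a) c ^ 2 * (1 - c ^ 2) + 3 / 4 * p.FF a c ^ 2) * √(1 - c ^ 2)
      = (1 - c ^ 2) * p.psi' a c ^ 2 + 1 / 4 * (p.psi a c ^ 2 * (1 - c ^ 2)⁻¹)
        + (1 / 2 * p.psi a c ^ 2 + c * (p.psi a c * p.psi' a c)) := by
  rcases lt_or_eq_of_le hc with h | h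
  · have hpos := one_sub_sq_pos h
    rw [(p.hasDerivAt_FF a h).deriv]
    unfold FF
    set q := (1 - c ^ 2) ^ (-(1 / 4) : ℝ) with hq
    have hq2 : q ^ 2 * √(1 - c ^ 2) = 1 := by
      rw [hq, Real.sqrt_eq_rpow, ← Real.rpow_natCast, ← Real.rpow_mul hpos.le, ← Real.rpow_add hpos]
      norm_num
    have e : (((p.psi' a c + p.psi a c * (c / 2) / (1 - c ^ 2)) * q) ^ 2 * (1 - c ^ 2)
        + 3 / 4 * (p.psi a c * q) ^ 2) * √(1 - c ^ 2)
        = ((p.psi' a c + p.psi a c * (c / 2) / (1 - c ^ 2)) ^ 2 * (1 - c ^ 2)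
        + 3 / 4 * (p.psi a c) ^ 2) * (q ^ 2 * √(1 - c ^ 2)) := by ring
    rw [e, hq2, mul_one]
    field_simp
    ring
  · have h2 : 1 - c ^ 2 = 0 := by rw [← sq_abs, h]; ring
    rw [h2, p.psi_zero' a h.ge]
    simp

/-- the energy of a trial function -/
lemma energy_FF : energy (fun x : EE 3 => p.FF a (x 3)) = area * (2 / Real.pi) *
    ((∫ c in (-1 : ℝ)..1, (1 - c ^ 2) * p.psi' a c ^ 2) + 1 / 4 * p.AA a) := by
  have hcd : Continuous (deriv (p.FF a)) := (p.contDiff_FF a).continuous_deriv (by norm_num)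
  have hcF := (p.contDiff_FF a).continuous
  have e1 : energy (fun x : EE 3 => p.FF a (x 3)) = ∫ x : SS 3,
      (fun c => deriv (p.FF a) c ^ 2 * (1 - c ^ 2) + 3 / 4 * p.FF a c ^ 2) ((x : EE 3) 3) ∂(surf 3) := by
    unfold energy
    refine integral_congr_ae (Filter.Eventually.of_forall fun x => ?_)
    simp only
    rw [gradSq_lift (p.deriv_FF a _)]
    norm_num
  have hlaw := law (G := fun c => deriv (p.FF a) c ^ 2 * (1 - c ^ 2) + 3 / 4 * p.FF a c ^ 2) (by
    apply Continuous.continuousOn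
    exact ((hcd.pow 2).mul (by fun_prop)).add (continuous_const.mul (hcF.pow 2)))
  rw [e1]
  refine hlaw.trans ?_
  congr 1
  have e2 : ∫ c in (-1 : ℝ)..1, (deriv (p.FF a) c ^ 2 * (1 - c ^ 2) + 3 / 4 * p.FF a c ^ 2) * √(1 - c ^ 2)
      = ∫ c in (-1 : ℝ)..1, ((1 - c ^ 2) * p.psi' a c ^ 2 + 1 / 4 * (p.psi a c ^ 2 * (1 - c ^ 2)⁻¹)
        + (1 / 2 * p.psi a c ^ 2 + c * (p.psi a c * p.psi' a c))) := by
    refine intervalIntegral.integral_congr fun c hc => ?_
    rw [uIcc_of_le (by norm_num)] at hc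
    exact p.energy_id a (abs_le.2 hc)
  rw [e2]
  have c1 : Continuous fun c => (1 - c ^ 2) * p.psi' a c ^ 2 :=
    (by fun_prop : Continuous fun c : ℝ => 1 - c ^ 2).mul ((p.continuous_psi' a).pow 2)
  have c2 : Continuous fun c => 1 / 4 * (p.psi a c ^ 2 * (1 - c ^ 2)⁻¹) :=
    continuous_const.mul (p.continuous_A a)
  have c3 : Continuous fun c => (1 / 2 * p.psi a c ^ 2 + c * (p.psi a c * p.psi' a c)) :=
    (continuous_const.mul ((p.contDiff_psi a).continuous.pow 2)).add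
      (continuous_id.mul ((p.contDiff_psi a).continuous.mul (p.continuous_psi' a)))
  have c12 : Continuous fun c => (1 - c ^ 2) * p.psi' a c ^ 2 + 1 / 4 * (p.psi a c ^ 2 * (1 - c ^ 2)⁻¹) :=
    c1.add c2
  rw [intervalIntegral.integral_add (c12.intervalIntegrable _ _) (c3.intervalIntegrable _ _),
    intervalIntegral.integral_add (c1.intervalIntegrable _ _) (c2.intervalIntegrable _ _),
    intervalIntegral.integral_const_mul]
  have e3 : ∫ c in (-1 : ℝ)..1, (1 / 2 * p.psi a c ^ 2 + c * (p.psi a c * p.psi' a c))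
      = 1 / 2 * (1 * p.psi a 1 ^ 2) - 1 / 2 * ((-1) * p.psi a (-1) ^ 2) := by
    have hd : ∀ c ∈ uIcc (-1 : ℝ) 1, HasDerivAt (fun c => 1 / 2 * (c * p.psi a c ^ 2))
        (1 / 2 * p.psi a c ^ 2 + c * (p.psi a c * p.psi' a c)) c := by
      intro c _
      have h := (((hasDerivAt_id c).mul ((p.hasDerivAt_psi a c).pow 2)).const_mul (1 / 2 : ℝ))
      refine h.congr_deriv ?_
      simp only [id, Pi.pow_apply]
      ring
    exact intervalIntegral.integral_eq_sub_of_hasDerivAt hd (c3.intervalIntegrable _ _)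
  rw [e3, p.psi_zero' a (by simp), p.psi_zero' a (by simp)]
  unfold AA
  ring

/-- the weighted mass of a trial function -/
lemma mass_FF {W : EE 3 → ℝ} (hW : Continuous W) {κ : ℝ}
    (h : ∀ x : SS 3, |(x : EE 3) 3| ≤ 1 - r → κ ≤ W x * (1 - (x : EE 3) 3 ^ 2)) :
    κ * (area * (2 / Real.pi) * p.AA a) ≤ mass W (fun x : EE 3 => p.FF a (x 3)) := by
  have hcF := (p.contDiff_FF a).continuous
  have hcG : Continuous fun c => p.FF a c ^ 2 * (1 - c ^ 2)⁻¹ :=
    (cut p.pos ((p.contDiff_FF a).pow 2) (fun _ h => by rw [p.FF_zero a h]; ring)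
      fun _ h => contDiffAt_inv h).continuous
  have e1 : area * (2 / Real.pi) * p.AA a = ∫ x : SS 3,
      (fun c => p.FF a c ^ 2 * (1 - c ^ 2)⁻¹) ((x : EE 3) 3) ∂(surf 3) := by
    rw [law hcG.continuousOn]
    unfold AA
    congr 1
    refine intervalIntegral.integral_congr fun c hc => ?_
    rw [uIcc_of_le (by norm_num)] at hc
    rcases lt_or_eq_of_le (abs_le.2 hc) with h | h
    · have hpos := one_sub_sq_pos h
      have hq2 : ((1 - c ^ 2) ^ (-(1 / 4) : ℝ)) ^ 2 * √(1 - c ^ 2) = 1 := by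
        rw [Real.sqrt_eq_rpow, ← Real.rpow_natCast, ← Real.rpow_mul hpos.le, ← Real.rpow_add hpos]
        norm_num
      unfold FF
      linear_combination (-(p.psi a c ^ 2 * (1 - c ^ 2)⁻¹)) * hq2
    · have h2 : 1 - c ^ 2 = 0 := by rw [← sq_abs, h]; ring
      rw [h2]; simp
  rw [e1, ← integral_const_mul]
  unfold mass
  refine integral_mono (integrable_sph (f := fun x => κ * (p.FF a (x 3) ^ 2 * (1 - x 3 ^ 2)⁻¹))
    (continuous_const.mul (hcG.comp (continuous_coord 3))))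
    (integrable_sph (f := fun x => W x * p.FF a (x 3) ^ 2)
      (hW.mul ((hcF.comp (continuous_coord 3)).pow 2))) fun x => ?_
  simp only
  rcases le_or_gt |(x : EE 3) 3| (1 - r) with h1 | h1
  · have hpos := one_sub_sq_pos (lt_of_le_of_lt h1 (by have := p.pos; linarith))
    have h2 := h x h1
    have h3 : κ * (1 - (x : EE 3) 3 ^ 2)⁻¹ ≤ W x := by
      rw [← div_eq_mul_inv, div_le_iff₀ hpos]
      exact h2
    have h4 := mul_le_mul_of_nonneg_right h3 (sq_nonneg (p.FF a ((x : EE 3) 3)))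
    linarith
  · rw [p.FF_zero a h1.le]
    simp

end Plat

lemma energy_nonneg (f : EE 3 → ℝ) : 0 ≤ energy f := by
  unfold energy
  refine integral_nonneg fun x => ?_
  simp only [Pi.zero_apply]
  rw [gradSq_eq]
  have := tg_nonneg f x
  push_cast
  nlinarith [sq_nonneg (f x)]

/-- the set in the definition of the eigenvalues -/
def ES (W : EE 3 → ℝ) (k : ℕ) : Set ℝ :=
  {L : ℝ | ∃ f : Fin (k + 1) → EE 3 → ℝ, (∀ i, ContDiff ℝ ∞ (f i)) ∧
    ∀ c : Fin (k + 1) → ℝ, c ≠ 0 → 0 < mass W (fun x => ∑ i, c i * f i x) ∧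
      energy (fun x => ∑ i, c i * f i x) ≤ L * mass W (fun x => ∑ i, c i * f i x)}

lemma eig_eq (W : EE 3 → ℝ) (k : ℕ) : eig W k = sInf (ES W k) := rfl

lemma ES_bdd (W : EE 3 → ℝ) (k : ℕ) : BddBelow (ES W k) := by
  refine ⟨0, ?_⟩
  rintro L ⟨f, _, hf⟩
  obtain ⟨h1, h2⟩ := hf (fun _ => 1) (fun h => one_ne_zero (congrFun h 0))
  have h3 := energy_nonneg (fun x => ∑ i, (1 : ℝ) * f i x)
  by_contra h
  have := mul_neg_of_neg_of_pos (not_le.1 h) h1
  linarith

lemma ES_mem {r : ℝ} (p : Plat r) {W : EE 3 → ℝ} (hW : Continuous W) {κ : ℝ} (hκ : 0 < κ)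
    (h : ∀ x : SS 3, |(x : EE 3) 3| ≤ 1 - r → κ ≤ W x * (1 - (x : EE 3) 3 ^ 2)) (k : ℕ) :
    (p.MM ^ 2 * ((k : ℝ) + 1) ^ 2 + 1 / 4) / κ ∈ ES W k := by
  refine ⟨fun i x => p.FF (Pi.single i 1 : Fin (k + 1) → ℝ) (x 3), fun i =>
    (p.contDiff_FF _).comp (contDiff_coord (n := 3) 3), fun a ha => ?_⟩
  have e : (fun x : EE 3 => ∑ i, a i * p.FF (Pi.single i 1 : Fin (k + 1) → ℝ) (x 3))
      = fun x : EE 3 => p.FF a (x 3) := by
    funext x
    unfold Plat.FF Plat.psi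
    simp only [← mul_assoc, ← Finset.sum_mul]
    congr 1
    unfold PP
    refine Finset.sum_congr rfl fun i _ => ?_
    rw [Finset.sum_eq_single i]
    · simp
    · intro j _ hj
      rw [Pi.single_eq_of_ne hj, zero_mul]
    · simp
  rw [e]
  have h1 := p.mass_FF a hW h
  have h2 := p.AA_pos a ha
  have h3 := p.psi'_le a
  have harea := area_pos
  have hpi := Real.pi_pos
  have hC : 0 < area * (2 / Real.pi) := by positivity
  refine ⟨lt_of_lt_of_le (by positivity) h1, ?_⟩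
  rw [p.energy_FF a]
  calc area * (2 / Real.pi) * ((∫ c in (-1 : ℝ)..1, (1 - c ^ 2) * p.psi' a c ^ 2) + 1 / 4 * p.AA a)
      ≤ area * (2 / Real.pi) * ((p.MM ^ 2 * ((k : ℝ) + 1) ^ 2) * p.AA a + 1 / 4 * p.AA a) := by
        refine mul_le_mul_of_nonneg_left ?_ hC.le
        linarith
    _ = (p.MM ^ 2 * ((k : ℝ) + 1) ^ 2 + 1 / 4) / κ * (κ * (area * (2 / Real.pi) * p.AA a)) := by
        field_simp
    _ ≤ _ := mul_le_mul_of_nonneg_left h1 (by positivity)

end Pool.Agent.Helper974.Heat
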