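import Mathlib
import Pool.Agent.Helper974.HeatTrialB
import Pool.Agent.Helper974.HeatLow
import Pool.Agent.Helper974.HeatNum

namespace Pool.Agent.Helper974.Heat

open MeasureTheory Metric Set
open scoped ENNReal ContDiff Topology

/-- the eigenvalues of the round sphere -/
lemma eig_one_ge {k m : ℕ} (hk : BB m ≤ k) :
    ((m : ℝ) + 1) ^ 2 - 1 / 4 ≤ eig (fun _ : EE 3 => (1 : ℝ)) k := by
  rw [eig_eq]
  obtain ⟨p⟩ := exists_plat (r := 1 / 4) (by norm_num) (by norm_num)
  refine le_csInf ⟨_, ES_mem p (W := fun _ => 1) continuous_const (κ := 1 - (1 - 1 / 4 : ℝ) ^ 2)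
    (by norm_num) (fun x hx => ?_) k⟩ ?_
  · rw [one_mul]
    have := abs_le.1 hx
    nlinarith
  · rintro L ⟨f, hf, hL⟩
    have := lower_of_mem hk hf hL
    push_cast at this
    exact this

lemma BB_zero' : BB 0 = 0 := by
  unfold BB; norm_num [Nat.choose]

lemma le_BB (N : ℕ) : N ≤ BB N := by
  induction N with
  | zero => exact Nat.zero_le _
  | succ N ih =>
    rw [BB_succ]
    have : 1 ≤ (N + 1) ^ 2 := Nat.one_le_pow _ _ (by omega)
    omega

/-- grouping a series in blocks -/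
lemma group_le (a g : ℕ → ℝ≥0∞) (h : ∀ m k, BB m ≤ k → a k ≤ g m) :
    ∑' k, a k ≤ ∑' m : ℕ, ((((m + 1) ^ 2 : ℕ)) : ℝ≥0∞) * g m := by
  have key : ∀ N, ∑ k ∈ Finset.range (BB N), a k
      ≤ ∑ m ∈ Finset.range N, ((((m + 1) ^ 2 : ℕ)) : ℝ≥0∞) * g m := by
    intro N
    induction N with
    | zero => simp [BB_zero']
    | succ N ih =>
      rw [Finset.sum_range_succ, BB_succ, Finset.sum_range_add]
      refine add_le_add ih ?_
      refine (Finset.sum_le_card_nsmul _ _ (g N) fun x _ => h N _ (by omega)).trans ?_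
      rw [Finset.card_range, nsmul_eq_mul]
  rw [ENNReal.tsum_eq_iSup_nat]
  refine iSup_le fun N => ?_
  refine (Finset.sum_le_sum_of_subset (Finset.range_mono (le_BB N))).trans ?_
  exact (key N).trans (ENNReal.sum_le_tsum _)

lemma heatTrace_one_le {t : ℝ} (ht : 0 < t) :
    heatTrace (fun _ : EE 3 => (1 : ℝ)) t ≤ ENNReal.ofReal (Real.exp (t / 4) * SQ t) := by
  unfold heatTrace
  have h1 := group_le (fun k => ENNReal.ofReal (Real.exp (-t * eig (fun _ : EE 3 => (1 : ℝ)) k)))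
    (fun m => ENNReal.ofReal (Real.exp (-t * (((m : ℝ) + 1) ^ 2 - 1 / 4)))) (fun m k hk => by
      apply ENNReal.ofReal_le_ofReal
      apply Real.exp_le_exp.mpr
      have := eig_one_ge hk
      nlinarith)
  refine h1.trans (le_of_eq ?_)
  have hs := summable_SQ ht
  unfold SQ
  rw [← tsum_mul_left, ENNReal.ofReal_tsum_of_nonneg (fun n => by positivity) (hs.mul_left _)]
  refine tsum_congr fun m => ?_
  rw [← ENNReal.ofReal_natCast, ← ENNReal.ofReal_mul (by positivity)]
  congr 1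
  have : Real.exp (-t * (((m : ℝ) + 1) ^ 2 - 1 / 4))
      = Real.exp (t / 4) * Real.exp (-t * ((m : ℝ) + 1) ^ 2) := by
    rw [← Real.exp_add]; congr 1; ring
  rw [this]
  push_cast
  ring

lemma rpow_three {t : ℝ} (ht : 0 < t) : t ^ (((3 : ℕ) : ℝ) / 2) = t * √t := by
  rw [Real.sqrt_eq_rpow]
  nth_rewrite 2 [← Real.rpow_one t]
  rw [← Real.rpow_add ht]
  congr 1
  norm_num

theorem supTrace_one_le : supTrace (fun _ : EE 3 => (1 : ℝ)) ≤ ENNReal.ofReal (13 / 20) := by
  unfold supTrace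
  refine iSup_le fun t => iSup_le fun ht => ?_
  rw [rpow_three ht]
  refine (mul_le_mul_right (heatTrace_one_le ht) _).trans ?_
  rw [← ENNReal.ofReal_mul (by positivity)]
  exact ENNReal.ofReal_le_ofReal (num_bound ht)

end Pool.Agent.Helper974.Heat
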