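import Mathlib
import Pool.Agent.Helper974.HeatOne

namespace Pool.Agent.Helper974.Heat

open MeasureTheory Metric Set
open scoped ENNReal ContDiff Topology

/-- the unnormalised weight -/
noncomputable def W0 (d : ℝ) (x : EE 3) : ℝ := (x 0 ^ 2 + x 1 ^ 2 + x 2 ^ 2 + (2 * d + d ^ 2))⁻¹

lemma W0_den_pos {d : ℝ} (hd : 0 < d) (x : EE 3) :
    0 < x 0 ^ 2 + x 1 ^ 2 + x 2 ^ 2 + (2 * d + d ^ 2) := by positivity

lemma contDiff_W0 {d : ℝ} (hd : 0 < d) : ContDiff ℝ ∞ (W0 d) := by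
  unfold W0
  refine ContDiff.inv ?_ fun x => (W0_den_pos hd x).ne'
  exact ((((contDiff_coord (n := 3) 0).pow 2).add ((contDiff_coord 1).pow 2)).add
    ((contDiff_coord 2).pow 2)).add contDiff_const

lemma W0_pos {d : ℝ} (hd : 0 < d) (x : EE 3) : 0 < W0 d x := inv_pos.2 (W0_den_pos hd x)

lemma W0_sph (d : ℝ) (x : SS 3) : W0 d x = ((1 + d) ^ 2 - (x : EE 3) 3 ^ 2)⁻¹ := by
  unfold W0
  have h := sum_sq x
  congr 1
  linarith

/-- the integral of the weight to the power `3/2` -/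
noncomputable def II (d : ℝ) : ℝ := ∫ x : SS 3, W0 d x ^ (((3 : ℕ) : ℝ) / 2) ∂(surf 3)

lemma continuous_W0_rpow {d : ℝ} (hd : 0 < d) : Continuous fun x : EE 3 => W0 d x ^ (((3 : ℕ) : ℝ) / 2) :=
  (contDiff_W0 hd).continuous.rpow_const fun x => Or.inl (W0_pos hd x).ne'

lemma II_pos {d : ℝ} (hd : 0 < d) : 0 < II d := by
  unfold II
  have hK : IsCompact (sphere (0 : EE 3) 1) := isCompact_sphere _ _
  have hne : (sphere (0 : EE 3) 1).Nonempty := ⟨EuclideanSpace.single 0 1, by simp⟩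
  obtain ⟨y, hy, hmin⟩ := hK.exists_isMinOn hne (continuous_W0_rpow hd).continuousOn
  have hpos : 0 < W0 d y ^ (((3 : ℕ) : ℝ) / 2) := Real.rpow_pos_of_pos (W0_pos hd y) _
  have h1 : ∫ x : SS 3, W0 d y ^ (((3 : ℕ) : ℝ) / 2) * 1 ∂(surf 3)
      ≤ ∫ x : SS 3, W0 d x ^ (((3 : ℕ) : ℝ) / 2) ∂(surf 3) := by
    refine integral_mono (integrable_sph (f := fun _ => W0 d y ^ (((3 : ℕ) : ℝ) / 2) * 1)
      continuous_const) (integrable_sph (continuous_W0_rpow hd)) fun x => ?_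
    simp only [mul_one]
    exact hmin x.2
  rw [integral_const_mul] at h1
  have h2 : ∫ x : SS 3, (1 : ℝ) ∂(surf 3) = area := rfl
  rw [h2] at h1
  have := area_pos
  exact lt_of_lt_of_le (by positivity) h1

lemma V_le {d : ℝ} (hd : 0 < d) (hd1 : d ≤ 1) :
    ∫ c in (-1 : ℝ)..1, ((1 + d) ^ 2 - c ^ 2)⁻¹ ≤ Real.log (3 / d) := by
  have hdc : ∀ c ∈ uIcc (-1 : ℝ) 1, HasDerivAt
      (fun c : ℝ => 1 / (2 * (1 + d)) * (Real.log (1 + d + c) - Real.log (1 + d - c)))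
      (((1 + d) ^ 2 - c ^ 2)⁻¹) c := by
    intro c hc
    rw [uIcc_of_le (by norm_num)] at hc
    have h3 : 0 < 1 + d + c := by linarith [hc.1]
    have h4 : 0 < 1 + d - c := by linarith [hc.2]
    have h5 : HasDerivAt (fun c : ℝ => Real.log (1 + d + c)) (1 / (1 + d + c)) c :=
      ((hasDerivAt_id c).const_add (1 + d)).log h3.ne'
    have h6 : HasDerivAt (fun c : ℝ => Real.log (1 + d - c)) ((-1) / (1 + d - c)) c :=
      ((hasDerivAt_id c).const_sub (1 + d)).log h4.ne'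
    refine ((h5.sub h6).const_mul (1 / (2 * (1 + d)))).congr_deriv ?_
    have : (1 + d) ^ 2 - c ^ 2 = (1 + d - c) * (1 + d + c) := by ring
    rw [this]
    field_simp
    ring
  have hcont : ContinuousOn (fun c : ℝ => ((1 + d) ^ 2 - c ^ 2)⁻¹) (uIcc (-1) 1) := by
    rw [uIcc_of_le (by norm_num)]
    refine ContinuousOn.inv₀ (by fun_prop) fun c hc => ?_
    have : 0 < (1 + d) ^ 2 - c ^ 2 := by nlinarith [hc.1, hc.2]
    exact this.ne'
  rw [intervalIntegral.integral_eq_sub_of_hasDerivAt hdc hcont.intervalIntegrable]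
  have e1 : (1 + d + -1) = d := by ring
  have e2 : (1 + d - -1) = 1 + d + 1 := by ring
  have e3 : (1 + d - 1) = d := by ring
  rw [e1, e2, e3]
  have e4 : 1 / (2 * (1 + d)) * (Real.log (1 + d + 1) - Real.log d)
      - 1 / (2 * (1 + d)) * (Real.log d - Real.log (1 + d + 1))
      = (1 / (1 + d)) * (Real.log (1 + d + 1) - Real.log d) := by
    field_simp
    ring
  rw [e4, Real.log_div (by norm_num) hd.ne']
  have h5 : Real.log (1 + d + 1) ≤ Real.log 3 := Real.log_le_log (by linarith) (by linarith)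
  have h6 : 0 ≤ Real.log (1 + d + 1) - Real.log d := by
    have : Real.log d ≤ Real.log (1 + d + 1) := Real.log_le_log hd (by linarith)
    linarith
  have h7 : 1 / (1 + d) ≤ 1 := by
    rw [div_le_one (by linarith)]; linarith
  calc 1 / (1 + d) * (Real.log (1 + d + 1) - Real.log d)
      ≤ 1 * (Real.log (1 + d + 1) - Real.log d) := mul_le_mul_of_nonneg_right h7 h6
    _ ≤ _ := by linarith

lemma II_le {d : ℝ} (hd : 0 < d) (hd1 : d ≤ 1) :
    II d ≤ area * (2 / Real.pi) * Real.log (3 / d) := by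
  have hden : ∀ c ∈ Icc (-1 : ℝ) 1, 0 < (1 + d) ^ 2 - c ^ 2 := fun c hc => by nlinarith [hc.1, hc.2]
  have hcont : ContinuousOn (fun c : ℝ => ((1 + d) ^ 2 - c ^ 2)⁻¹) (Icc (-1) 1) :=
    ContinuousOn.inv₀ (by fun_prop) fun c hc => (hden c hc).ne'
  have hcont2 : ContinuousOn (fun c : ℝ => (((1 + d) ^ 2 - c ^ 2)⁻¹) ^ (((3 : ℕ) : ℝ) / 2)) (Icc (-1) 1) :=
    hcont.rpow_const fun c hc => Or.inl (inv_pos.2 (hden c hc)).ne'
  have e1 : II d = ∫ x : SS 3, (fun c : ℝ => (((1 + d) ^ 2 - c ^ 2)⁻¹) ^ (((3 : ℕ) : ℝ) / 2))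
      ((x : EE 3) 3) ∂(surf 3) := by
    unfold II
    refine integral_congr_ae (Filter.Eventually.of_forall fun x => ?_)
    simp only
    rw [W0_sph]
  rw [e1, law hcont2]
  have harea := area_pos
  have hpi := Real.pi_pos
  refine mul_le_mul_of_nonneg_left ?_ (by positivity)
  refine le_trans ?_ (V_le hd hd1)
  refine intervalIntegral.integral_mono_on (by norm_num) ?_ ?_ ?_
  · apply ContinuousOn.intervalIntegrable
    rw [uIcc_of_le (by norm_num)]
    exact hcont2.mul (by fun_prop)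
  · apply ContinuousOn.intervalIntegrable
    rw [uIcc_of_le (by norm_num)]
    exact hcont
  · intro c hc
    set y := (1 + d) ^ 2 - c ^ 2 with hy
    have hy0 : 0 < y := hden c hc
    have h1 : √(1 - c ^ 2) ≤ √y := Real.sqrt_le_sqrt (by rw [hy]; nlinarith)
    rw [rpow_three (inv_pos.2 hy0)]
    have h2 : √(y⁻¹) * √(1 - c ^ 2) ≤ 1 := by
      calc √(y⁻¹) * √(1 - c ^ 2) ≤ √(y⁻¹) * √y := mul_le_mul_of_nonneg_left h1 (Real.sqrt_nonneg _)
        _ = 1 := by rw [← Real.sqrt_mul (inv_pos.2 hy0).le, inv_mul_cancel₀ hy0.ne', Real.sqrt_one]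
    calc y⁻¹ * √(y⁻¹) * √(1 - c ^ 2) = y⁻¹ * (√(y⁻¹) * √(1 - c ^ 2)) := by ring
      _ ≤ y⁻¹ * 1 := mul_le_mul_of_nonneg_left h2 (inv_pos.2 hy0).le
      _ = y⁻¹ := mul_one _

/-- the normalising constant -/
noncomputable def aa (d : ℝ) : ℝ := (area / II d) ^ (2 / 3 : ℝ)

lemma aa_pos {d : ℝ} (hd : 0 < d) : 0 < aa d :=
  Real.rpow_pos_of_pos (div_pos area_pos (II_pos hd)) _

lemma aa_rpow {d : ℝ} (hd : 0 < d) : aa d ^ (((3 : ℕ) : ℝ) / 2) = area / II d := by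
  unfold aa
  rw [← Real.rpow_mul (div_pos area_pos (II_pos hd)).le]
  norm_num

/-- the weight -/
noncomputable def Wd (d : ℝ) (x : EE 3) : ℝ := aa d * W0 d x

lemma isWeight_Wd {d : ℝ} (hd : 0 < d) : IsWeight (Wd d) where
  smooth := contDiff_const.mul (contDiff_W0 hd)
  pos x := mul_pos (aa_pos hd) (W0_pos hd x)
  norm := by
    have e : ∀ x : SS 3, Wd d x ^ (((3 : ℕ) : ℝ) / 2)
        = (area / II d) * W0 d x ^ (((3 : ℕ) : ℝ) / 2) := by
      intro x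
      unfold Wd
      rw [Real.mul_rpow (aa_pos hd).le (W0_pos hd x).le, aa_rpow hd]
    simp_rw [e]
    rw [integral_const_mul]
    have h1 : ∫ x : SS 3, W0 d x ^ (((3 : ℕ) : ℝ) / 2) ∂(surf 3) = II d := rfl
    have h2 : ∫ x : SS 3, (1 : ℝ) ∂(surf 3) = area := rfl
    rw [h1, h2]
    exact div_mul_cancel₀ _ (II_pos hd).ne'

/-- lower bound for the heat trace of a weight -/
lemma heatTrace_ge {r : ℝ} (p : Plat r) {W : EE 3 → ℝ} (hW : Continuous W) {κ : ℝ} (hκ : 0 < κ)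
    (h : ∀ x : SS 3, |(x : EE 3) 3| ≤ 1 - r → κ ≤ W x * (1 - (x : EE 3) 3 ^ 2)) :
    ENNReal.ofReal (Real.exp (-1) * TT (4 * p.MM ^ 2)) ≤ heatTrace W (4 * κ) := by
  have hM := p.MM_pos
  have hs := summable_TT (s := 4 * p.MM ^ 2) (by positivity)
  unfold TT heatTrace
  rw [← tsum_mul_left, ENNReal.ofReal_tsum_of_nonneg (fun n => by positivity) (hs.mul_left _)]
  refine ENNReal.tsum_le_tsum fun k => ENNReal.ofReal_le_ofReal ?_
  rw [← Real.exp_add]
  apply Real.exp_le_exp.mpr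
  have h1 : eig W k ≤ (p.MM ^ 2 * ((k : ℝ) + 1) ^ 2 + 1 / 4) / κ :=
    csInf_le (ES_bdd W k) (ES_mem p hW hκ h k)
  rw [le_div_iff₀ hκ] at h1
  nlinarith

end Pool.Agent.Helper974.Heat
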