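import Mathlib
import Pool.Agent.Helper974.HeatW

namespace Pool.Agent.Helper974.Heat

open MeasureTheory Metric Set
open scoped ENNReal ContDiff Topology

lemma TT_ge {s : ℝ} (hs : 0 < s) : (√(Real.pi / s) - 1) / 2 ≤ TT s := by
  have h := poisson hs
  have h1 := TT_nonneg (Real.pi ^ 2 / s)
  have h2 : 0 ≤ √(Real.pi / s) := Real.sqrt_nonneg _
  nlinarith [mul_nonneg h2 h1]

/-- the final numerical estimate -/
lemma final_num {κ a V Λ T : ℝ} (hκ : 0 < κ) (ha : a = κ * (1 + 1 / 1000))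
    (hV0 : 0 < V) (hV : V ≤ 20010) (haV : Real.pi / (2 * V) ≤ a * √a) (hΛ : 19999 ≤ Λ)
    (hT : (√(Real.pi / (4 * (Real.pi / Λ) ^ 2)) - 1) / 2 ≤ T) :
    13 / 20 < ((4 * κ) * √(4 * κ)) * (Real.exp (-1) * T) := by
  set s := √Real.pi with hs
  have hpi := Real.pi_pos
  have hs2 : s ^ 2 = Real.pi := Real.sq_sqrt hpi.le
  have hs0 : 0 < s := Real.sqrt_pos.2 hpi
  have hs_lo : 1.7724 ≤ s := by
    rw [hs]; apply Real.le_sqrt_of_sq_le
    have := Real.pi_gt_d4
    norm_num at this ⊢; linarith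
  have hs_hi : s ≤ 1.7725 := by
    rw [hs, Real.sqrt_le_left (by norm_num)]
    have := Real.pi_lt_d4
    norm_num at this ⊢; linarith
  have hΛ0 : 0 < Λ := by linarith
  -- the root
  have e1 : √(Real.pi / (4 * (Real.pi / Λ) ^ 2)) = Λ / (2 * s) := by
    rw [Real.sqrt_eq_iff_mul_self_eq (by positivity) (by positivity)]
    rw [← hs2]
    field_simp
    ring
  rw [e1] at hT
  have hT2 : (19999 / (2 * s) - 1) / 2 ≤ T := by
    have : 19999 / (2 * s) ≤ Λ / (2 * s) := div_le_div_of_nonneg_right hΛ (by positivity)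
    linarith
  have e2 : √(4 * κ) = 2 * √κ := by
    rw [Real.sqrt_mul (by norm_num), show (4 : ℝ) = 2 ^ 2 by norm_num, Real.sqrt_sq (by norm_num)]
  rw [e2]
  -- `κ √κ (1.001)^2 ≥ a √a`
  have h3 : a * √a ≤ (κ * √κ) * (1.001 ^ 2) := by
    rw [ha, Real.sqrt_mul hκ.le]
    have h4 : √(1 + 1 / 1000 : ℝ) ≤ 1.001 := by
      rw [Real.sqrt_le_left (by norm_num)]; norm_num
    have h5 : 0 ≤ κ * √κ := by positivity
    calc κ * (1 + 1 / 1000) * (√κ * √(1 + 1 / 1000)) = (κ * √κ) * (1.001 * √(1 + 1 / 1000)) := by ring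
      _ ≤ (κ * √κ) * (1.001 * 1.001) := by gcongr
      _ = _ := by ring
  have h6 : s ^ 2 / 40020 ≤ Real.pi / (2 * V) := by
    rw [hs2]
    apply div_le_div_of_nonneg_left hpi.le (by positivity) (by linarith)
  have h7 : s ^ 2 / (40020 * 1.001 ^ 2) ≤ κ * √κ := by
    rw [div_le_iff₀ (by norm_num)]
    have := h6.trans (haV.trans h3)
    rw [div_le_iff₀ (by norm_num)] at this
    linarith
  have h8 : (1 : ℝ) / 2.7182818286 ≤ Real.exp (-1) := by
    rw [Real.exp_neg, inv_eq_one_div]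
    exact one_div_le_one_div_of_le (Real.exp_pos _) Real.exp_one_lt_d9.le
  have hT0 : 0 < (19999 / (2 * s) - 1) / 2 := by
    have : 1 < 19999 / (2 * s) := by rw [lt_div_iff₀ (by positivity)]; linarith
    linarith
  calc (13 / 20 : ℝ) < 8 * (s ^ 2 / (40020 * 1.001 ^ 2)) * (1 / 2.7182818286 * ((19999 / (2 * s) - 1) / 2)) := by
        have e3 : 8 * (s ^ 2 / (40020 * 1.001 ^ 2)) * (1 / 2.7182818286 * ((19999 / (2 * s) - 1) / 2))
            = 2 * s * (19999 - 2 * s) / (40020 * 1.001 ^ 2 * 2.7182818286) := by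
          field_simp
          ring
        rw [e3, lt_div_iff₀ (by norm_num)]
        nlinarith
    _ ≤ 8 * (κ * √κ) * (Real.exp (-1) * T) := by gcongr
    _ = (4 * κ * (2 * √κ)) * (Real.exp (-1) * T) := by ring

theorem main : ∃ W : EE 3 → ℝ, IsWeight W ∧ supTrace (fun _ : EE 3 => (1 : ℝ)) < supTrace W := by
  set r : ℝ := Real.exp (-20000) with hr
  have hr0 : 0 < r := Real.exp_pos _
  have hr1 : r < 1 / 4 := by
    have h1 : (20000 : ℝ) + 1 ≤ Real.exp 20000 := Real.add_one_le_exp _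
    rw [hr, Real.exp_neg, inv_eq_one_div]
    apply one_div_lt_one_div_of_lt (by norm_num)
    linarith
  obtain ⟨p⟩ := exists_plat hr0 (by linarith)
  set d : ℝ := r / 3000 with hd
  have hd0 : 0 < d := by positivity
  have hd1 : d ≤ 1 := by rw [hd]; linarith
  refine ⟨Wd d, isWeight_Wd hd0, lt_of_le_of_lt supTrace_one_le ?_⟩
  set κ : ℝ := aa d / (1 + 1 / 1000) with hκ
  have hκ0 : 0 < κ := div_pos (aa_pos hd0) (by norm_num)
  have hW : Continuous (Wd d) := (isWeight_Wd hd0).smooth.continuous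
  have hcond : ∀ x : SS 3, |(x : EE 3) 3| ≤ 1 - r → κ ≤ Wd d x * (1 - (x : EE 3) 3 ^ 2) := by
    intro x hx
    unfold Wd
    rw [W0_sph]
    have h1 := abs_le.1 hx
    have h2 : r ≤ 1 - (x : EE 3) 3 ^ 2 := by nlinarith [h1.1, h1.2]
    have h3 : 0 < (1 + d) ^ 2 - (x : EE 3) 3 ^ 2 := by nlinarith
    have h4 : (1 + d) ^ 2 - (x : EE 3) 3 ^ 2 ≤ (1 + 1 / 1000) * (1 - (x : EE 3) 3 ^ 2) := by
      have h5 : 2 * d + d ^ 2 ≤ r / 1000 := by
        have : d ^ 2 ≤ d := by nlinarith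
        have h6 : 3 * d = r / 1000 := by rw [hd]; ring
        linarith
      nlinarith
    have ha := aa_pos hd0
    rw [hκ, div_le_iff₀ (by norm_num)]
    rw [mul_assoc, mul_assoc]
    refine le_mul_of_one_le_right ha.le ?_
    rw [inv_mul_eq_div, one_le_div h3]
    linarith
  have hge := heatTrace_ge p hW hκ0 hcond
  have hpos4 : 0 < 4 * κ := by positivity
  have hlow : ENNReal.ofReal (((4 * κ) * √(4 * κ)) * (Real.exp (-1) * TT (4 * p.MM ^ 2)))
      ≤ supTrace (Wd d) := by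
    rw [ENNReal.ofReal_mul (by positivity)]
    refine le_trans ?_ (le_iSup₂ (f := fun (t : ℝ) (_ : 0 < t) =>
      ENNReal.ofReal (t ^ (((3 : ℕ) : ℝ) / 2)) * heatTrace (Wd d) t) (4 * κ) hpos4)
    rw [rpow_three hpos4]
    exact mul_le_mul_right hge _
  refine lt_of_lt_of_le ?_ hlow
  rw [ENNReal.ofReal_lt_ofReal_iff_of_nonneg (by norm_num)]
  have hlog : Real.log (1 / r) = 20000 := by
    rw [one_div, Real.log_inv, hr, Real.log_exp]; norm_num
  have hII := II_le hd0 hd1
  have hIIpos := II_pos hd0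
  have harea := area_pos
  have hpi := Real.pi_pos
  refine final_num (V := Real.log (3 / d)) (Λ := p.Lam) (a := aa d) hκ0 ?_ ?_ ?_ ?_ ?_ (TT_ge ?_)
  · rw [hκ]; exact (div_mul_cancel₀ _ (by norm_num)).symm
  · apply Real.log_pos
    rw [lt_div_iff₀ hd0]; linarith
  · have e : 3 / d = 9000 * (1 / r) := by rw [hd]; field_simp; norm_num
    rw [e, Real.log_mul (by norm_num) (by positivity), hlog]
    have : Real.log 9000 ≤ 10 := by
      rw [Real.log_le_iff_le_exp (by norm_num)]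
      refine le_trans ?_ (Real.sum_le_exp_of_nonneg (by norm_num) 12)
      norm_num [Finset.sum_range_succ, Nat.factorial]
    linarith
  · rw [← rpow_three (aa_pos hd0), aa_rpow hd0]
    have hlogpos : 0 < Real.log (3 / d) := by
      apply Real.log_pos
      rw [lt_div_iff₀ hd0]; linarith
    rw [div_le_div_iff₀ (by positivity) hIIpos]
    calc Real.pi * II d ≤ Real.pi * (area * (2 / Real.pi) * Real.log (3 / d)) :=
          mul_le_mul_of_nonneg_left hII hpi.le
      _ = area * (2 * Real.log (3 / d)) := by field_simp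
  · refine le_trans ?_ p.log_le_Lam
    have e : 1 / (2 * r) = (1 / r) * (1 / 2) := by field_simp
    rw [e, Real.log_mul (by positivity) (by norm_num), hlog, one_div, Real.log_inv]
    have := Real.log_two_lt_d9
    linarith
  · have := p.MM_pos
    show 0 < 4 * p.MM ^ 2
    positivity

end Pool.Agent.Helper974.Heat
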