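import Mathlib

/-! Definitions for systems `u_xy = F(x, y, u, u_x, u_y)`: jets, total derivatives on solutions,
the chain of Laplace invariants, systems of Liouville type, Darboux integrability. -/

namespace Pool.Agent.Helper974.JetGerm

open Filter Topology

variable {𝕜 : Type} [RCLike 𝕜] {ι : Type} [DecidableEq ι]

/-- near `p`, `f` is an analytic function of finitely many coordinates -/
def IsFn (p : ι → 𝕜) (f : (ι → 𝕜) → 𝕜) : Prop :=
  ∃ (S : Finset ι) (g : (S → 𝕜) → 𝕜), AnalyticAt 𝕜 g (fun a => p a) ∧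
    ∀ᶠ q in 𝓝 p, f q = g (fun a => q a)

/-- the derivative of `f` in the coordinate `a`, `∂f/∂a` -/
noncomputable def pdf (a : ι) (f : (ι → 𝕜) → 𝕜) (q : ι → 𝕜) : 𝕜 :=
  deriv (fun t => f (Function.update q a t)) (q a)

/-- the derivative of `f` along the vector field with components `c`, `∑ c_a ∂f/∂a` -/
noncomputable def along (c : ι → (ι → 𝕜) → 𝕜) (f : (ι → 𝕜) → 𝕜) (q : ι → 𝕜) : 𝕜 :=
  ∑ᶠ a, c a q * pdf a f q

end Pool.Agent.Helper974.JetGerm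

namespace Pool.Agent.Helper974.Hyp

open Filter Topology Matrix
open Pool.Agent.Helper974.JetGerm

variable {𝕜 : Type} [RCLike 𝕜] {N : ℕ}

/-! ### jets and total derivatives -/

/-- coordinates on the jet space: `Sum.inl false` is `x`, `Sum.inl true` is `y`,
`Sum.inr (i, k)` is the `k`-th `x`-derivative of `u^i` for `k ≥ 0` and the `-k`-th `y`-derivative
of `u^i` for `k ≤ 0` -/
abbrev Var (N : ℕ) := Bool ⊕ (Fin N × ℤ)

/-- the coordinate `x` -/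
abbrev vx : Var N := Sum.inl false
/-- the coordinate `y` -/
abbrev vy : Var N := Sum.inl true
/-- the derivatives of `u^i` -/
abbrev vu (i : Fin N) (k : ℤ) : Var N := Sum.inr (i, k)

/-- points of the jet space -/
abbrev Jet (𝕜 : Type) (N : ℕ) := Var N → 𝕜

/-- the arguments `(x, y, u, u_x, u_y)` of the right-hand side -/
abbrev Arg (𝕜 : Type) (N : ℕ) := 𝕜 × 𝕜 × (Fin N → 𝕜) × (Fin N → 𝕜) × (Fin N → 𝕜)

/-- the arguments of the right-hand side at a jet -/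
def base (q : Jet 𝕜 N) : Arg 𝕜 N :=
  (q vx, q vy, fun i => q (vu i 0), fun i => q (vu i 1), fun i => q (vu i (-1)))

/-- the right-hand side `F^i` as a function on the jet space -/
def rhs (F : Arg 𝕜 N → Fin N → 𝕜) (i : Fin N) (q : Jet 𝕜 N) : 𝕜 := F (base q) i

/-- components of the total `x`-derivative on functions of `x, y, u`, the `x`-derivatives
and `u_y` -/
def compX0 (F : Arg 𝕜 N → Fin N → 𝕜) : Var N → Jet 𝕜 N → 𝕜
  | Sum.inl false => fun _ => 1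
  | Sum.inl true => fun _ => 0
  | Sum.inr (i, k) =>
    if 0 ≤ k then fun q => q (vu i (k + 1)) else if k = -1 then rhs F i else fun _ => 0

/-- components of the total `y`-derivative on functions of `x, y, u`, the `y`-derivatives
and `u_x` -/
def compY0 (F : Arg 𝕜 N → Fin N → 𝕜) : Var N → Jet 𝕜 N → 𝕜
  | Sum.inl false => fun _ => 0
  | Sum.inl true => fun _ => 1
  | Sum.inr (i, k) =>
    if k ≤ 0 then fun q => q (vu i (k - 1)) else if k = 1 then rhs F i else fun _ => 0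

/-- components of the total `x`-derivative `D`: `D x = 1`, `D y = 0`, `D u_k = u_{k+1}`,
`D (∂_y^{l+1} u) = (∂_y)^l F` -/
noncomputable def compX (F : Arg 𝕜 N → Fin N → 𝕜) : Var N → Jet 𝕜 N → 𝕜
  | Sum.inl false => fun _ => 1
  | Sum.inl true => fun _ => 0
  | Sum.inr (i, k) =>
    if 0 ≤ k then fun q => q (vu i (k + 1)) else (along (compY0 F))^[(-k - 1).toNat] (rhs F i)

/-- components of the total `y`-derivative `D̄`: `D̄ x = 0`, `D̄ y = 1`, `D̄ ū_k = ū_{k+1}`,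
`D̄ (∂_x^{l+1} u) = (∂_x)^l F` -/
noncomputable def compY (F : Arg 𝕜 N → Fin N → 𝕜) : Var N → Jet 𝕜 N → 𝕜
  | Sum.inl false => fun _ => 0
  | Sum.inl true => fun _ => 1
  | Sum.inr (i, k) =>
    if k ≤ 0 then fun q => q (vu i (k - 1)) else (along (compX0 F))^[(k - 1).toNat] (rhs F i)

/-- the total `x`-derivative `D` on solutions -/
noncomputable def DX (F : Arg 𝕜 N → Fin N → 𝕜) (f : Jet 𝕜 N → 𝕜) : Jet 𝕜 N → 𝕜 :=
  along (compX F) f

/-- the total `y`-derivative `D̄` on solutions -/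
noncomputable def DY (F : Arg 𝕜 N → Fin N → 𝕜) (f : Jet 𝕜 N → 𝕜) : Jet 𝕜 N → 𝕜 :=
  along (compY F) f

/-! ### the chain of Laplace invariants -/

/-- matrices of functions on the jet space -/
abbrev MatF (𝕜 : Type) (N : ℕ) := Matrix (Fin N) (Fin N) (Jet 𝕜 N → 𝕜)

/-- `a = -∂F/∂u_x` -/
noncomputable def aM (F : Arg 𝕜 N → Fin N → 𝕜) : MatF 𝕜 N := fun i j => -pdf (vu j 1) (rhs F i)

/-- `b = -∂F/∂u_y` -/
noncomputable def bM (F : Arg 𝕜 N → Fin N → 𝕜) : MatF 𝕜 N := fun i j => -pdf (vu j (-1)) (rhs F i)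

/-- `c = -∂F/∂u` -/
noncomputable def cM (F : Arg 𝕜 N → Fin N → 𝕜) : MatF 𝕜 N := fun i j => -pdf (vu j 0) (rhs F i)

/-- `HP F A k = H_{k+1}`, where `A k` stands for `a_k` (`k ≥ 1`):
`H_1 = D(a) + b a - c`, `H_{k+1} = D(a_k) + b a_k - D̄(b) - a_k b + H_k` -/
noncomputable def HP (F : Arg 𝕜 N → Fin N → 𝕜) (A : ℕ → MatF 𝕜 N) : ℕ → MatF 𝕜 N
  | 0 => (aM F).map (DX F) + bM F * aM F - cM F
  | k + 1 => (A (k + 1)).map (DX F) + bM F * A (k + 1) - (bM F).map (DY F) - A (k + 1) * bM F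
      + HP F A k

/-- `ZP F A k = Z_{k+1} = H_{k+1} ⋯ H_1` -/
noncomputable def ZP (F : Arg 𝕜 N → Fin N → 𝕜) (A : ℕ → MatF 𝕜 N) : ℕ → MatF 𝕜 N
  | 0 => HP F A 0
  | k + 1 => HP F A (k + 1) * ZP F A k

/-- `b_0 = b` and `b_{-k} = B k` for `k ≥ 1` -/
noncomputable def bs (F : Arg 𝕜 N → Fin N → 𝕜) (B : ℕ → MatF 𝕜 N) : ℕ → MatF 𝕜 N
  | 0 => bM F
  | k + 1 => B (k + 1)

/-- `HN F B k = H_{1-k}`, where `B k` stands for `b_{-k}` (`k ≥ 1`):
`H_1 = D(a) + b a - c`, `H_0 = D̄(b) + a b - c`,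
`H_{-i} = 2 H_{1-i} + D̄(b_{-i} - b_{1-i}) + [a, b_{-i} - b_{1-i}] - H_{2-i}` -/
noncomputable def HN (F : Arg 𝕜 N → Fin N → 𝕜) (B : ℕ → MatF 𝕜 N) : ℕ → MatF 𝕜 N
  | 0 => (aM F).map (DX F) + bM F * aM F - cM F
  | 1 => (bM F).map (DY F) + aM F * bM F - cM F
  | k + 2 => 2 • HN F B (k + 1) + (bs F B (k + 1) - bs F B k).map (DY F)
      + (aM F * (bs F B (k + 1) - bs F B k) - (bs F B (k + 1) - bs F B k) * aM F) - HN F B k

/-- `ZN F B k = Z_{-k} = H_{-k} ⋯ H_0` -/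
noncomputable def ZN (F : Arg 𝕜 N → Fin N → 𝕜) (B : ℕ → MatF 𝕜 N) : ℕ → MatF 𝕜 N
  | 0 => HN F B 1
  | k + 1 => HN F B (k + 2) * ZN F B k

/-! ### systems of Liouville type -/

/-- equality of matrix functions near `p` -/
def Near (p : Jet 𝕜 N) (M M' : MatF 𝕜 N) : Prop := ∀ i j, M i j =ᶠ[𝓝 p] M' i j

/-- the entries are functions of finitely many jet variables, analytic near `p` -/
def IsMat (p : Jet 𝕜 N) (M : MatF 𝕜 N) : Prop := ∀ i j, IsFn p (M i j)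

/-- `(δ + m)(ker Z) ⊂ ker Z`, for germs at `p` -/
def KerInv (p : Jet 𝕜 N) (δ : (Jet 𝕜 N → 𝕜) → Jet 𝕜 N → 𝕜) (m Z : MatF 𝕜 N) : Prop :=
  ∀ v : Fin N → Jet 𝕜 N → 𝕜, (∀ i, IsFn p (v i)) → (∀ i, (Z *ᵥ v) i =ᶠ[𝓝 p] 0) →
    ∀ i, (Z *ᵥ (fun j => δ (v j) + (m *ᵥ v) j)) i =ᶠ[𝓝 p] 0

/-- The matrices `a_k = A k` exist, `Z_k (D̄ + a) = (D̄ + a_k) Z_k` for `k ≥ 1`, and the first two
invariance conditions hold for all `i ≥ 1`. -/
structure ChainUp (F : Arg 𝕜 N → Fin N → 𝕜) (p : Jet 𝕜 N) (A : ℕ → MatF 𝕜 N) : Prop where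
  fn : ∀ k, IsMat p (A k)
  rel : ∀ k, Near p (ZP F A k * aM F) ((ZP F A k).map (DY F) + A (k + 1) * ZP F A k)
  inv : ∀ k, KerInv p (DY F) (aM F) (ZP F A k)
  invT : ∀ k, KerInv p (DX F) (-(bM F)ᵀ) (ZP F A k)ᵀ

/-- The matrices `b_{-k} = B k` exist, `D(Z_{1-i}) - Z_{1-i} b + b_{-i} Z_{1-i} = 0` for `i ≥ 1`,
the last two invariance conditions hold for all `i ≥ 1`, and (`wd`) the matrix `Z_{-1}` is well
defined: it is the same for every matrix `b_{-1}` with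
`D(Z_0) - Z_0 b + b_{-1} Z_0 = 0`. -/
structure ChainDown (F : Arg 𝕜 N → Fin N → 𝕜) (p : Jet 𝕜 N) (B : ℕ → MatF 𝕜 N) : Prop where
  fn : ∀ k, IsMat p (B k)
  rel : ∀ k, Near p ((ZN F B k).map (DX F) - ZN F B k * bM F + B (k + 1) * ZN F B k) 0
  inv : ∀ k, KerInv p (DX F) (bM F) (ZN F B (k + 1))
  invT : ∀ k, KerInv p (DY F) (-(aM F)ᵀ) (ZN F B (k + 1))ᵀ
  wd : ∀ B' : MatF 𝕜 N, IsMat p B' →
    Near p ((ZN F B 0).map (DX F) - ZN F B 0 * bM F + B' * ZN F B 0) 0 →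
    Near p (ZN F (fun _ => B') 1) (ZN F B 1)

/-- The system is of Liouville type near the jet `p`: both chains exist, satisfy the invariance
conditions, and `Z_r = 0`, `Z_{-s} = 0` near `p` for some `r ≥ 1`, `s ≥ 0`. -/
def LiouvilleType (F : Arg 𝕜 N → Fin N → 𝕜) (p : Jet 𝕜 N) : Prop :=
  (∃ A : ℕ → MatF 𝕜 N, ChainUp F p A ∧ ∃ r, Near p (ZP F A r) 0) ∧
    ∃ B : ℕ → MatF 𝕜 N, ChainDown F p B ∧ ∃ s, Near p (ZN F B s) 0

/-! ### Darboux integrability -/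

/-- `W` is an `x`-integral near `q`: a function of `x, y, u` and the `y`-derivatives with
`D W = 0` which is not a function of `y` alone -/
structure IsXIntegral (F : Arg 𝕜 N → Fin N → 𝕜) (q : Jet 𝕜 N) (W : Jet 𝕜 N → 𝕜) : Prop where
  fn : IsFn q W
  dep : ∀ (i : Fin N) (k : ℤ), 0 < k → pdf (vu i k) W =ᶠ[𝓝 q] 0
  zero : DX F W =ᶠ[𝓝 q] 0
  nontriv : ∃ a, a ≠ vy ∧ ¬ pdf a W =ᶠ[𝓝 q] 0

/-- `W` is a `y`-integral near `q`: a function of `x, y, u` and the `x`-derivatives with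
`D̄ W = 0` which is not a function of `x` alone -/
structure IsYIntegral (F : Arg 𝕜 N → Fin N → 𝕜) (q : Jet 𝕜 N) (W : Jet 𝕜 N → 𝕜) : Prop where
  fn : IsFn q W
  dep : ∀ (i : Fin N) (k : ℤ), k < 0 → pdf (vu i k) W =ᶠ[𝓝 q] 0
  zero : DY F W =ᶠ[𝓝 q] 0
  nontriv : ∃ a, a ≠ vx ∧ ¬ pdf a W =ᶠ[𝓝 q] 0

/-- functional independence at `q`: the differentials at `q` are linearly independent -/
def FunIndep {κ : Type} (q : Jet 𝕜 N) (f : κ → Jet 𝕜 N → 𝕜) : Prop :=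
  LinearIndependent 𝕜 fun (m : κ) (a : Var N) => pdf a (f m) q

/-- `N` independent `x`-integrals near `q`: all the `D̄^j W_i` are functionally independent -/
def HasXIntegrals (F : Arg 𝕜 N → Fin N → 𝕜) (q : Jet 𝕜 N) : Prop :=
  ∃ W : Fin N → Jet 𝕜 N → 𝕜, (∀ i, IsXIntegral F q (W i)) ∧
    FunIndep q fun m : Fin N × ℕ => (DY F)^[m.2] (W m.1)

/-- `N` independent `y`-integrals near `q`: all the `D^j W_i` are functionally independent -/
def HasYIntegrals (F : Arg 𝕜 N → Fin N → 𝕜) (q : Jet 𝕜 N) : Prop :=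
  ∃ W : Fin N → Jet 𝕜 N → 𝕜, (∀ i, IsYIntegral F q (W i)) ∧
    FunIndep q fun m : Fin N × ℕ => (DX F)^[m.2] (W m.1)

/-- the system is Darboux integrable near the jet `q` -/
def DarbouxIntegrable (F : Arg 𝕜 N → Fin N → 𝕜) (q : Jet 𝕜 N) : Prop :=
  HasYIntegrals F q ∧ HasXIntegrals F q

end Pool.Agent.Helper974.Hyp
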