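import Mathlib

namespace Pool.Agent.Helper974.Liou

open Matrix

/-- an algebra of functions of the variables `X a`, each function depending on finitely many -/
structure VarAlg (𝕜 ι V : Type) [Field 𝕜] [CommRing V] [Algebra 𝕜 V] [DecidableEq ι] where
  pd : ι → Derivation 𝕜 V V
  X : ι → V
  pd_X : ∀ a b, pd a (X b) = if a = b then 1 else 0
  pd_comm : ∀ a b f, pd a (pd b f) = pd b (pd a f)
  fin : ∀ f, ∃ S : Finset ι, ∀ a ∉ S, pd a f = 0

variable {𝕜 V ι : Type} [Field 𝕜] [CommRing V] [Algebra 𝕜 V] [DecidableEq ι]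

namespace VarAlg

variable (A : VarAlg 𝕜 ι V)

/-- vector fields: derivations given by their values on the coordinates -/
def IsVF (ζ : Derivation 𝕜 V V) : Prop :=
  ∀ (f : V) (S : Finset ι), (∀ a ∉ S, A.pd a f = 0) → ζ f = ∑ a ∈ S, ζ (A.X a) * A.pd a f

variable {A}

lemma IsVF.of_some {ζ : Derivation 𝕜 V V}
    (h : ∀ f : V, ∃ T : Finset ι, (∀ a ∉ T, A.pd a f = 0) ∧
      ζ f = ∑ a ∈ T, ζ (A.X a) * A.pd a f) : A.IsVF ζ := by
  intro f S hS
  obtain ⟨T, hT, e⟩ := h f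
  rw [e]
  have h1 : ∑ a ∈ T, ζ (A.X a) * A.pd a f = ∑ a ∈ S ∪ T, ζ (A.X a) * A.pd a f :=
    Finset.sum_subset Finset.subset_union_right fun a _ ha => by rw [hT a ha, mul_zero]
  have h2 : ∑ a ∈ S, ζ (A.X a) * A.pd a f = ∑ a ∈ S ∪ T, ζ (A.X a) * A.pd a f :=
    Finset.sum_subset Finset.subset_union_left fun a _ ha => by rw [hS a ha, mul_zero]
  rw [h1, h2]

lemma isVF_pd (b : ι) : A.IsVF (A.pd b) := by
  intro f S hS
  simp only [A.pd_X, ite_mul, one_mul, zero_mul]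
  rw [Finset.sum_ite_eq]
  split_ifs with h
  · rfl
  · exact hS b h

lemma IsVF.ext {ζ η : Derivation 𝕜 V V} (h : A.IsVF ζ) (h' : A.IsVF η)
    (e : ∀ a, ζ (A.X a) = η (A.X a)) : ζ = η := by
  ext f
  obtain ⟨S, hS⟩ := A.fin f
  rw [h f S hS, h' f S hS]
  exact Finset.sum_congr rfl fun a _ => by rw [e]

lemma IsVF.add {ζ η : Derivation 𝕜 V V} (h : A.IsVF ζ) (h' : A.IsVF η) : A.IsVF (ζ + η) := by
  intro f S hS
  simp only [Derivation.add_apply]
  rw [h f S hS, h' f S hS, ← Finset.sum_add_distrib]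
  exact Finset.sum_congr rfl fun a _ => by ring

lemma IsVF.smul {ζ : Derivation 𝕜 V V} (h : A.IsVF ζ) (c : V) : A.IsVF (c • ζ) := by
  intro f S hS
  simp only [Derivation.smul_apply, smul_eq_mul]
  rw [h f S hS, Finset.mul_sum]
  exact Finset.sum_congr rfl fun a _ => by ring

lemma isVF_zero : A.IsVF (0 : Derivation 𝕜 V V) := by
  intro f S hS
  simp

lemma IsVF.sum {κ : Type} (s : Finset κ) {ζ : κ → Derivation 𝕜 V V}
    (h : ∀ i ∈ s, A.IsVF (ζ i)) : A.IsVF (∑ i ∈ s, ζ i) := by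
  classical
  induction s using Finset.induction_on with
  | empty => simpa using isVF_zero
  | insert i s hi ih =>
    rw [Finset.sum_insert hi]
    exact (h i (Finset.mem_insert_self _ _)).add
      (ih fun j hj => h j (Finset.mem_insert_of_mem hj))

lemma IsVF.lie {ζ η : Derivation 𝕜 V V} (h : A.IsVF ζ) (h' : A.IsVF η) : A.IsVF ⁅ζ, η⁆ := by
  classical
  refine IsVF.of_some fun f => ?_
  obtain ⟨S, hS⟩ := A.fin f
  choose U hU using fun a : ι => A.fin (A.pd a f)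
  let T : Finset ι := S ∪ S.biUnion U
  have hT : ∀ a ∉ T, A.pd a f = 0 := fun a ha =>
    hS a fun h => ha (Finset.mem_union_left _ h)
  have hTT : ∀ a, ∀ b ∉ T, A.pd b (A.pd a f) = 0 := by
    intro a b hb
    by_cases ha : a ∈ S
    · exact hU a b fun h => hb (Finset.mem_union_right _ (Finset.mem_biUnion.2 ⟨a, ha, h⟩))
    · rw [hS a ha, map_zero]
  refine ⟨T, hT, ?_⟩
  have key : ∀ {ζ η : Derivation 𝕜 V V}, A.IsVF ζ → A.IsVF η → ζ (η f)
      = ∑ a ∈ T, ζ (η (A.X a)) * A.pd a f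
        + ∑ a ∈ T, ∑ b ∈ T, η (A.X a) * ζ (A.X b) * A.pd b (A.pd a f) := by
    intro ζ η h h'
    rw [h' f T hT, map_sum, ← Finset.sum_add_distrib]
    refine Finset.sum_congr rfl fun a _ => ?_
    rw [Derivation.leibniz, h (A.pd a f) T (hTT a), smul_eq_mul, smul_eq_mul, Finset.mul_sum,
      add_comm, mul_comm (A.pd a f)]
    congr 1
    exact Finset.sum_congr rfl fun b _ => by ring
  rw [Derivation.commutator_apply, key h h', key h' h]
  have hsw : ∑ a ∈ T, ∑ b ∈ T, ζ (A.X a) * η (A.X b) * A.pd b (A.pd a f)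
      = ∑ a ∈ T, ∑ b ∈ T, η (A.X a) * ζ (A.X b) * A.pd b (A.pd a f) := by
    rw [Finset.sum_comm]
    refine Finset.sum_congr rfl fun a _ => Finset.sum_congr rfl fun b _ => ?_
    rw [A.pd_comm]
    ring
  rw [hsw]
  simp only [Derivation.commutator_apply, sub_mul, Finset.sum_sub_distrib]
  ring

variable (A) in
lemma tot_aux (c : ι → V) (f : V) (S : Finset ι) (hS : ∀ a ∉ S, A.pd a f = 0) :
    ∑ᶠ a, c a * A.pd a f = ∑ a ∈ S, c a * A.pd a f := by
  apply finsum_eq_sum_of_support_subset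
  intro a ha
  rw [Function.mem_support] at ha
  by_contra h
  exact ha (by rw [hS a h, mul_zero])

variable (A) in
/-- the vector field with components `c` -/
noncomputable def tot (c : ι → V) : Derivation 𝕜 V V :=
  Derivation.mk'
    { toFun := fun f => ∑ᶠ a, c a * A.pd a f
      map_add' := by
        classical
        intro f g
        obtain ⟨S, hS⟩ := A.fin f
        obtain ⟨T, hT⟩ := A.fin g
        have h1 : ∀ a ∉ S ∪ T, A.pd a f = 0 := fun a ha =>
          hS a fun h => ha (Finset.mem_union_left _ h)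
        have h2 : ∀ a ∉ S ∪ T, A.pd a g = 0 := fun a ha =>
          hT a fun h => ha (Finset.mem_union_right _ h)
        rw [A.tot_aux c f _ h1, A.tot_aux c g _ h2, A.tot_aux c (f + g) (S ∪ T)
          (fun a ha => by rw [map_add, h1 a ha, h2 a ha, add_zero]), ← Finset.sum_add_distrib]
        exact Finset.sum_congr rfl fun a _ => by rw [map_add, mul_add]
      map_smul' := by
        intro r f
        obtain ⟨S, hS⟩ := A.fin f
        rw [A.tot_aux c f _ hS, A.tot_aux c (r • f) S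
          (fun a ha => by rw [Derivation.map_smul, hS a ha, smul_zero]), RingHom.id_apply,
          Finset.smul_sum]
        exact Finset.sum_congr rfl fun a _ => by rw [Derivation.map_smul, mul_smul_comm] }
    (by
      classical
      intro f g
      obtain ⟨S, hS⟩ := A.fin f
      obtain ⟨T, hT⟩ := A.fin g
      have h1 : ∀ a ∉ S ∪ T, A.pd a f = 0 := fun a ha =>
        hS a fun h => ha (Finset.mem_union_left _ h)
      have h2 : ∀ a ∉ S ∪ T, A.pd a g = 0 := fun a ha =>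
        hT a fun h => ha (Finset.mem_union_right _ h)
      simp only [LinearMap.coe_mk, AddHom.coe_mk]
      rw [A.tot_aux c f _ h1, A.tot_aux c g _ h2, A.tot_aux c (f * g) (S ∪ T)
        (fun a ha => by rw [Derivation.leibniz, h1 a ha, h2 a ha, smul_zero, smul_zero, add_zero]),
        smul_eq_mul, smul_eq_mul, Finset.mul_sum, Finset.mul_sum, ← Finset.sum_add_distrib]
      refine Finset.sum_congr rfl fun a _ => ?_
      rw [Derivation.leibniz, smul_eq_mul, smul_eq_mul]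
      ring)

lemma tot_eq (c : ι → V) (f : V) (S : Finset ι) (hS : ∀ a ∉ S, A.pd a f = 0) :
    A.tot c f = ∑ a ∈ S, c a * A.pd a f := A.tot_aux c f S hS

lemma tot_X (c : ι → V) (b : ι) : A.tot c (A.X b) = c b := by
  rw [tot_eq c (A.X b) {b} (fun a ha => by
    rw [A.pd_X, if_neg (by simpa using ha)]), Finset.sum_singleton, A.pd_X, if_pos rfl, mul_one]

lemma isVF_tot (c : ι → V) : A.IsVF (A.tot c) := by
  intro f S hS
  rw [tot_eq c f S hS]
  exact Finset.sum_congr rfl fun a _ => by rw [tot_X]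

end VarAlg

/-! ### vectors and matrices -/

section Mat

variable {N : ℕ} (δ : Derivation 𝕜 V V)

/-- a derivation applied to the entries of a vector -/
def dv (v : Fin N → V) : Fin N → V := fun i => δ (v i)

lemma dv_add (v w : Fin N → V) : dv δ (v + w) = dv δ v + dv δ w := by
  funext i; simp [dv]

lemma dv_sub (v w : Fin N → V) : dv δ (v - w) = dv δ v - dv δ w := by
  funext i; simp [dv]

lemma dv_mulVec (M : Matrix (Fin N) (Fin N) V) (v : Fin N → V) :
    dv δ (M *ᵥ v) = M.map δ *ᵥ v + M *ᵥ dv δ v := by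
  funext i
  simp only [dv, mulVec, dotProduct, map_sum, Derivation.leibniz, Pi.add_apply, map_apply,
    smul_eq_mul]
  rw [Finset.sum_add_distrib, add_comm]
  congr 1
  exact Finset.sum_congr rfl fun j _ => mul_comm _ _

lemma dv_vecMul (M : Matrix (Fin N) (Fin N) V) (v : Fin N → V) :
    dv δ (v ᵥ* M) = dv δ v ᵥ* M + v ᵥ* M.map δ := by
  funext i
  simp only [dv, vecMul, dotProduct, map_sum, Derivation.leibniz, Pi.add_apply, map_apply,
    smul_eq_mul]
  rw [Finset.sum_add_distrib, add_comm]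
  congr 1
  exact Finset.sum_congr rfl fun j _ => mul_comm _ _

lemma map_mul' (M M' : Matrix (Fin N) (Fin N) V) :
    (M * M').map δ = M.map δ * M' + M * M'.map δ := by
  ext i j
  simp only [Matrix.mul_apply, map_apply, map_sum, Derivation.leibniz, Matrix.add_apply,
    smul_eq_mul]
  rw [Finset.sum_add_distrib, add_comm]
  congr 1
  exact Finset.sum_congr rfl fun j _ => mul_comm _ _

lemma d_dot (v w : Fin N → V) : δ (v ⬝ᵥ w) = dv δ v ⬝ᵥ w + v ⬝ᵥ dv δ w := by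
  simp only [dv, dotProduct, map_sum, Derivation.leibniz, smul_eq_mul]
  rw [Finset.sum_add_distrib, add_comm]
  congr 1
  exact Finset.sum_congr rfl fun j _ => mul_comm _ _

end Mat

/-- the jet variables: `inl false = x`, `inl true = y`, `inr (i, k)` the derivatives of `u^i`
(in `x` for `k > 0`, in `y` for `k < 0`) -/
abbrev JVar (N : ℕ) := Bool ⊕ (Fin N × ℤ)

/-- total derivatives of a hyperbolic system -/
structure Sys {N : ℕ} (A : VarAlg 𝕜 (JVar N) V) where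
  F : Fin N → V
  D : Derivation 𝕜 V V
  Db : Derivation 𝕜 V V
  D_vf : A.IsVF D
  Db_vf : A.IsVF Db
  comm : ⁅D, Db⁆ = 0
  D_x : D (A.X (Sum.inl false)) = 1
  D_y : D (A.X (Sum.inl true)) = 0
  Db_x : Db (A.X (Sum.inl false)) = 0
  Db_y : Db (A.X (Sum.inl true)) = 1
  D_up : ∀ i (k : ℤ), 0 ≤ k → D (A.X (Sum.inr (i, k))) = A.X (Sum.inr (i, k + 1))
  Db_dn : ∀ i (k : ℤ), k ≤ 0 → Db (A.X (Sum.inr (i, k))) = A.X (Sum.inr (i, k - 1))
  D_m1 : ∀ i, D (A.X (Sum.inr (i, -1))) = F i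
  Db_1 : ∀ i, Db (A.X (Sum.inr (i, 1))) = F i
  F_dep : ∀ i j (k : ℤ), k ≠ 0 → k ≠ 1 → k ≠ -1 → A.pd (Sum.inr (j, k)) (F i) = 0

namespace Sys

variable {N : ℕ} {A : VarAlg 𝕜 (JVar N) V} (S : Sys A)

/-- `a = -∂F/∂u_x` -/
def a : Matrix (Fin N) (Fin N) V := fun i j => - A.pd (Sum.inr (j, 1)) (S.F i)

/-- `b = -∂F/∂u_y` -/
def b : Matrix (Fin N) (Fin N) V := fun i j => - A.pd (Sum.inr (j, -1)) (S.F i)

/-- `c = -∂F/∂u` -/
def c : Matrix (Fin N) (Fin N) V := fun i j => - A.pd (Sum.inr (j, 0)) (S.F i)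

/-- vector fields not moving `x` and `y` -/
def Good (ζ : Derivation 𝕜 V V) : Prop :=
  A.IsVF ζ ∧ ζ (A.X (Sum.inl false)) = 0 ∧ ζ (A.X (Sum.inl true)) = 0

/-- the type of vector fields not moving `x` and `y` -/
abbrev Gd (A : VarAlg 𝕜 (JVar N) V) := {ζ : Derivation 𝕜 V V // Good (A := A) ζ}

/-- `ζ ↦ [D, ζ]` -/
def LD (ζ : Gd A) : Gd A := ⟨⁅S.D, ζ.1⁆, S.D_vf.lie ζ.2.1, by
  rw [Derivation.commutator_apply, ζ.2.2.1, S.D_x]; simp, by
  rw [Derivation.commutator_apply, ζ.2.2.2, S.D_y]; simp⟩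

/-- `ζ ↦ [D̄, ζ]` -/
def LDb (ζ : Gd A) : Gd A := ⟨⁅S.Db, ζ.1⁆, S.Db_vf.lie ζ.2.1, by
  rw [Derivation.commutator_apply, ζ.2.2.1, S.Db_x]; simp, by
  rw [Derivation.commutator_apply, ζ.2.2.2, S.Db_y]; simp⟩

lemma LD_LDb (ζ : Gd A) : S.LD (S.LDb ζ) = S.LDb (S.LD ζ) := by
  apply Subtype.ext
  show ⁅S.D, ⁅S.Db, ζ.1⁆⁆ = ⁅S.Db, ⁅S.D, ζ.1⁆⁆
  rw [leibniz_lie, S.comm, zero_lie, zero_add]

/-- the forms `ω_k`: `ω_0 = du`, `ω_{k+1} = (D̄ + a_k) ω_k` -/
def om (am : ℕ → Matrix (Fin N) (Fin N) V) : ℕ → Gd A → (Fin N → V)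
  | 0, ζ => fun i => ζ.1 (A.X (Sum.inr (i, 0)))
  | k + 1, ζ => dv S.Db (om am k ζ) + am k *ᵥ om am k ζ - om am k (S.LDb ζ)

/-- `(D + b) ω_k - ω_k ∘ [D, ·]` -/
def G (am : ℕ → Matrix (Fin N) (Fin N) V) (k : ℕ) (ζ : Gd A) : Fin N → V :=
  dv S.D (S.om am k ζ) + S.b *ᵥ S.om am k ζ - S.om am k (S.LD ζ)

lemma D_Db (f : V) : S.D (S.Db f) = S.Db (S.D f) := by
  have h := congrArg (fun δ : Derivation 𝕜 V V => δ f) S.comm
  simp only [Derivation.commutator_apply, Derivation.zero_apply] at h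
  exact sub_eq_zero.1 h

lemma G_succ (am : ℕ → Matrix (Fin N) (Fin N) V) (k : ℕ) (ζ : Gd A) :
    S.G am (k + 1) ζ = ((am k).map S.D - S.b.map S.Db + S.b * am k - am k * S.b) *ᵥ S.om am k ζ
      + dv S.Db (S.G am k ζ) + am k *ᵥ S.G am k ζ - S.G am k (S.LDb ζ) := by
  unfold G
  simp only [om, dv_add, dv_sub, dv_mulVec, mulVec_add, mulVec_sub, sub_mulVec, add_mulVec,
    LD_LDb, mulVec_mulVec]
  have h : dv S.D (dv S.Db (S.om am k ζ)) = dv S.Db (dv S.D (S.om am k ζ)) := by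
    funext i; exact S.D_Db _
  rw [h]
  abel

lemma apply_F (ζ : Gd A) : (fun i => ζ.1 (S.F i)) =
    - (S.a *ᵥ fun i => ζ.1 (A.X (Sum.inr (i, 1)))) - (S.b *ᵥ fun i => ζ.1 (A.X (Sum.inr (i, -1))))
      - S.c *ᵥ fun i => ζ.1 (A.X (Sum.inr (i, 0))) := by
  funext i
  let T : Finset (JVar N) := {Sum.inl false, Sum.inl true} ∪
    (Finset.univ.image fun j => (Sum.inr (j, 1) : JVar N)) ∪
    (Finset.univ.image fun j => (Sum.inr (j, -1) : JVar N)) ∪
    (Finset.univ.image fun j => (Sum.inr (j, 0) : JVar N))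
  have hT : ∀ a ∉ T, A.pd a (S.F i) = 0 := by
    rintro (b | ⟨j, k⟩) ha
    · exfalso
      apply ha
      cases b <;> simp [T]
    · apply S.F_dep
      · rintro rfl; apply ha; simp [T]
      · rintro rfl; apply ha; simp [T]
      · rintro rfl; apply ha; simp [T]
  have h := ζ.2.1 (S.F i) T hT
  have e1 : ∀ k : ℤ, Function.Injective fun j : Fin N => (Sum.inr (j, k) : JVar N) := by
    intro k j j' h
    simpa using h
  rw [Finset.sum_union, Finset.sum_union, Finset.sum_union, Finset.sum_pair (by simp), ζ.2.2.1,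
    ζ.2.2.2, Finset.sum_image (fun _ _ _ _ h => e1 _ h), Finset.sum_image (fun _ _ _ _ h => e1 _ h),
    Finset.sum_image (fun _ _ _ _ h => e1 _ h)] at h
  · simp only [Pi.sub_apply, Pi.neg_apply, mulVec, dotProduct, a, b, c, neg_mul,
      Finset.sum_neg_distrib, neg_neg, sub_neg_eq_add]
    rw [h]
    simp only [zero_mul, zero_add, mul_comm]
  · rw [Finset.disjoint_left]
    intro a ha hb
    simp at ha hb
    aesop
  · rw [Finset.disjoint_left]
    intro a ha hb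
    simp at ha hb
    aesop
  · rw [Finset.disjoint_left]
    intro a ha hb
    simp at ha hb
    aesop

lemma G_one (am : ℕ → Matrix (Fin N) (Fin N) V) (h0 : am 0 = S.a) (ζ : Gd A) :
    S.G am 1 ζ = (S.a.map S.D + S.b * S.a - S.c) *ᵥ S.om am 0 ζ := by
  have h1 : ∀ ζ : Gd A, S.om am 1 ζ = (fun i => ζ.1 (A.X (Sum.inr (i, -1)))) +
      S.a *ᵥ fun i => ζ.1 (A.X (Sum.inr (i, 0))) := by
    intro ζ
    funext i
    simp only [om, h0, Pi.add_apply, Pi.sub_apply, dv, LDb, Derivation.commutator_apply]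
    rw [S.Db_dn i 0 le_rfl]
    simp only [zero_sub]
    ring
  unfold G
  rw [h1, h1]
  simp only [om, dv_add, dv_mulVec, mulVec_add, add_mulVec, sub_mulVec, mulVec_mulVec]
  have h2 : (fun i => (S.LD ζ).1 (A.X (Sum.inr (i, -1)))) =
      dv S.D (fun i => ζ.1 (A.X (Sum.inr (i, -1)))) - fun i => ζ.1 (S.F i) := by
    funext i
    simp only [LD, Derivation.commutator_apply, Pi.sub_apply, dv, S.D_m1]
  have h3 : (fun i => (S.LD ζ).1 (A.X (Sum.inr (i, 0)))) =
      dv S.D (fun i => ζ.1 (A.X (Sum.inr (i, 0)))) - fun i => ζ.1 (A.X (Sum.inr (i, 1))) := by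
    funext i
    simp only [LD, Derivation.commutator_apply, Pi.sub_apply, dv]
    rw [S.D_up i 0 le_rfl]
    simp
  rw [h2, h3, mulVec_sub, apply_F]
  abel

/-- the generalised Laplace chain, `Z 0 = 1`, `Z (k+1) = H (k+1) * Z k` -/
structure Chain (S : Sys A) where
  am : ℕ → Matrix (Fin N) (Fin N) V
  H : ℕ → Matrix (Fin N) (Fin N) V
  Z : ℕ → Matrix (Fin N) (Fin N) V
  am_zero : am 0 = S.a
  H_one : H 1 = S.a.map S.D + S.b * S.a - S.c
  H_succ : ∀ k, H (k + 2) = (am (k + 1)).map S.D - S.b.map S.Db + S.b * am (k + 1)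
    - am (k + 1) * S.b + H (k + 1)
  Z_zero : Z 0 = 1
  Z_succ : ∀ k, Z (k + 1) = H (k + 1) * Z k
  rel : ∀ k, (Z k).map S.Db + am k * Z k = Z k * S.a
  inv : ∀ k (v : Fin N → V), v ᵥ* Z k = 0 → (dv S.D v - v ᵥ* S.b) ᵥ* Z k = 0

variable {S} (C : S.Chain)

namespace Chain

lemma inv_b {k : ℕ} {v : Fin N → V} (h : v ᵥ* C.Z k = 0) :
    (dv S.Db v - v ᵥ* C.am k) ᵥ* C.Z k = 0 := by
  have h1 := congrArg (dv S.Db) h
  rw [dv_vecMul] at h1
  have h2 := C.rel k
  have h3 : (C.Z k).map S.Db = C.Z k * S.a - C.am k * C.Z k := by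
    rw [← h2]; abel
  have h4 : dv S.Db (0 : Fin N → V) = 0 := by funext i; simp [dv]
  rw [h3, h4, vecMul_sub, ← vecMul_vecMul, h, zero_vecMul, zero_sub, ← vecMul_vecMul] at h1
  rw [sub_vecMul, sub_eq_add_neg]
  exact h1

lemma curv {k : ℕ} {v : Fin N → V} (h : v ᵥ* C.Z k = 0) :
    (v ᵥ* ((C.am k).map S.D - S.b.map S.Db + S.b * C.am k - C.am k * S.b)) ᵥ* C.Z k = 0 := by
  have h1 := C.inv k _ (C.inv_b h)
  have h2 := C.inv_b (C.inv k v h)
  have e : v ᵥ* ((C.am k).map S.D - S.b.map S.Db + S.b * C.am k - C.am k * S.b)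
      = (dv S.Db (dv S.D v - v ᵥ* S.b) - (dv S.D v - v ᵥ* S.b) ᵥ* C.am k)
        - (dv S.D (dv S.Db v - v ᵥ* C.am k) - (dv S.Db v - v ᵥ* C.am k) ᵥ* S.b) := by
    have h3 : dv S.D (dv S.Db v) = dv S.Db (dv S.D v) := by
      funext i; exact S.D_Db _
    simp only [dv_sub, dv_vecMul, sub_vecMul, vecMul_add, vecMul_sub, vecMul_vecMul, h3]
    abel
  rw [e, sub_vecMul, h1, h2, sub_zero]

lemma mono : ∀ (k : ℕ) (v : Fin N → V), v ᵥ* C.Z k = 0 → v ᵥ* C.Z (k + 1) = 0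
  | 0, v, h => by
    rw [C.Z_zero, vecMul_one] at h
    rw [h, zero_vecMul]
  | k + 1, v, h => by
    rw [C.Z_succ (k + 1), ← vecMul_vecMul, C.H_succ k, vecMul_add, add_vecMul, C.curv h, zero_add]
    apply mono k
    rw [vecMul_vecMul, ← C.Z_succ k]
    exact h

/-- span of the forms `c · ω_j` with `c Z_j = 0` -/
def W : Submodule V (Gd A → V) :=
  Submodule.span V {φ | ∃ j c, c ᵥ* C.Z j = 0 ∧ φ = fun ζ => c ⬝ᵥ S.om C.am j ζ}

lemma W_gen {j : ℕ} {c : Fin N → V} (h : c ᵥ* C.Z j = 0) :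
    (fun ζ => c ⬝ᵥ S.om C.am j ζ) ∈ C.W := Submodule.subset_span ⟨j, c, h, rfl⟩

lemma W_Db {φ : Gd A → V} (h : φ ∈ C.W) : (fun ζ => S.Db (φ ζ) - φ (S.LDb ζ)) ∈ C.W := by
  induction h using Submodule.span_induction with
  | mem φ h =>
    obtain ⟨j, c, hc, rfl⟩ := h
    have e : (fun ζ => S.Db (c ⬝ᵥ S.om C.am j ζ) - c ⬝ᵥ S.om C.am j (S.LDb ζ))
        = (fun ζ => (dv S.Db c - c ᵥ* C.am j) ⬝ᵥ S.om C.am j ζ)
          + (fun ζ => c ⬝ᵥ S.om C.am (j + 1) ζ) := by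
      funext ζ
      simp only [om, Pi.add_apply, d_dot, sub_dotProduct, dotProduct_add, dotProduct_sub,
        dotProduct_mulVec]
      ring
    rw [e]
    exact C.W.add_mem (C.W_gen (C.inv_b hc)) (C.W_gen (C.mono j c hc))
  | zero =>
    have e : (fun ζ => S.Db ((0 : Gd A → V) ζ) - (0 : Gd A → V) (S.LDb ζ)) = 0 := by
      funext ζ; simp
    rw [e]
    exact C.W.zero_mem
  | add φ ψ _ _ h1 h2 =>
    have e : (fun ζ => S.Db ((φ + ψ) ζ) - (φ + ψ) (S.LDb ζ))
        = (fun ζ => S.Db (φ ζ) - φ (S.LDb ζ)) + (fun ζ => S.Db (ψ ζ) - ψ (S.LDb ζ)) := by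
      funext ζ; simp only [Pi.add_apply, map_add]; ring
    rw [e]
    exact C.W.add_mem h1 h2
  | smul f φ hφ h1 =>
    have e : (fun ζ => S.Db ((f • φ) ζ) - (f • φ) (S.LDb ζ))
        = f • (fun ζ => S.Db (φ ζ) - φ (S.LDb ζ)) + S.Db f • φ := by
      funext ζ
      simp only [Pi.add_apply, Pi.smul_apply, Derivation.leibniz, smul_eq_mul]
      ring
    rw [e]
    exact C.W.add_mem (C.W.smul_mem _ h1) (C.W.smul_mem _ hφ)

lemma W_mulVec {ψ : Gd A → Fin N → V} (h : ∀ i, (fun ζ => ψ ζ i) ∈ C.W)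
    (M : Matrix (Fin N) (Fin N) V) (i : Fin N) : (fun ζ => (M *ᵥ ψ ζ) i) ∈ C.W := by
  have e : (fun ζ => (M *ᵥ ψ ζ) i) = ∑ j, M i j • fun ζ => ψ ζ j := by
    funext ζ
    simp [mulVec, dotProduct, Finset.sum_apply]
  rw [e]
  exact C.W.sum_mem fun j _ => C.W.smul_mem _ (h j)

lemma rem_mem : ∀ (k : ℕ) (i : Fin N),
    (fun ζ => (S.G C.am (k + 1) ζ - C.H (k + 1) *ᵥ S.om C.am k ζ) i) ∈ C.W
  | 0, i => by
    have e : (fun ζ => (S.G C.am 1 ζ - C.H 1 *ᵥ S.om C.am 0 ζ) i) = 0 := by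
      funext ζ
      rw [S.G_one C.am C.am_zero, C.H_one, sub_self]
      rfl
    rw [e]
    exact C.W.zero_mem
  | k + 1, i => by
    set R : Gd A → Fin N → V := fun ζ => S.G C.am (k + 1) ζ - C.H (k + 1) *ᵥ S.om C.am k ζ
      with hR
    have hRi : ∀ i, (fun ζ => R ζ i) ∈ C.W := fun i => rem_mem k i
    have hG : ∀ ζ, S.G C.am (k + 1) ζ = C.H (k + 1) *ᵥ S.om C.am k ζ + R ζ := by
      intro ζ; simp [hR]
    set E := (C.H (k + 1)).map S.Db + C.am (k + 1) * C.H (k + 1) - C.H (k + 1) * C.am k with hE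
    have hEZ : E * C.Z k = 0 := by
      have h1 := C.rel (k + 1)
      rw [C.Z_succ k, map_mul'] at h1
      have h2 : (C.Z k).map S.Db = C.Z k * S.a - C.am k * C.Z k := by
        rw [← C.rel k]; abel
      rw [h2, mul_sub, ← mul_assoc, ← mul_assoc, ← mul_assoc] at h1
      rw [hE, sub_mul, add_mul]
      have h3 := sub_eq_zero.2 h1
      rw [← h3]
      abel
    have e : (fun ζ => (S.G C.am (k + 1 + 1) ζ - C.H (k + 1 + 1) *ᵥ S.om C.am (k + 1) ζ) i)
        = (fun ζ => (E i) ⬝ᵥ S.om C.am k ζ) + (fun ζ => S.Db (R ζ i) - R (S.LDb ζ) i)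
          + (fun ζ => (C.am (k + 1) *ᵥ R ζ) i) := by
      funext ζ
      have h1 : S.G C.am (k + 1 + 1) ζ - C.H (k + 1 + 1) *ᵥ S.om C.am (k + 1) ζ
          = E *ᵥ S.om C.am k ζ + (dv S.Db (R ζ) - R (S.LDb ζ)) + C.am (k + 1) *ᵥ R ζ := by
        rw [S.G_succ, hG, hG, C.H_succ k, add_mulVec, hE]
        simp only [om, dv_add, dv_mulVec, mulVec_add, mulVec_sub, add_mulVec, sub_mulVec,
          mulVec_mulVec]
        abel
      exact congrFun h1 i
    rw [e]
    refine C.W.add_mem (C.W.add_mem (C.W_gen ?_) (C.W_Db (hRi i))) (C.W_mulVec hRi _ i)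
    have h3 := congrFun hEZ i
    funext j
    have h4 := congrFun h3 j
    simpa [Matrix.mul_apply, vecMul, dotProduct] using h4

/-- iterated brackets of `D` with `∂/∂u_1^j` -/
def it (j : Fin N) : ℕ → Gd A
  | 0 => ⟨A.pd (Sum.inr (j, 1)), VarAlg.isVF_pd _, by rw [A.pd_X, if_neg (by simp)],
      by rw [A.pd_X, if_neg (by simp)]⟩
  | m + 1 => S.LD (it j m)

lemma om_vert (am : ℕ → Matrix (Fin N) (Fin N) V) : ∀ (k : ℕ) (ζ : Gd A),
    (∀ i, ∀ l : ℤ, l ≤ 0 → ζ.1 (A.X (Sum.inr (i, l))) = 0) → S.om am k ζ = 0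
  | 0, ζ, h => by
    funext i
    exact h i 0 le_rfl
  | k + 1, ζ, h => by
    have h1 := om_vert am k ζ h
    have h2 : S.om am k (S.LDb ζ) = 0 := by
      apply om_vert am k
      intro i l hl
      show ⁅S.Db, ζ.1⁆ _ = 0
      rw [Derivation.commutator_apply, h i l hl, map_zero, S.Db_dn i l hl,
        h i (l - 1) (by omega), sub_zero]
    rw [om, h1, h2, mulVec_zero]
    funext i
    simp [dv]

lemma kill (j : Fin N) : ∀ (m k : ℕ) (c : Fin N → V), c ᵥ* C.Z k = 0 →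
    c ⬝ᵥ S.om C.am k (it (S := S) j m) = 0
  | 0, k, c, _ => by
    rw [om_vert C.am k _ (fun i l hl => ?_), dotProduct_zero]
    show A.pd _ _ = 0
    rw [A.pd_X, if_neg]
    intro h
    simp only [Sum.inr.injEq, Prod.mk.injEq] at h
    omega
  | m + 1, 0, c, hc => by
    rw [C.Z_zero, vecMul_one] at hc
    rw [hc, zero_dotProduct]
  | m + 1, k + 1, c, hc => by
    set ζ := it (S := S) j m with hζ
    have hW : ∀ φ ∈ C.W, φ ζ = 0 := by
      intro φ hφ
      induction hφ using Submodule.span_induction with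
      | mem φ h =>
        obtain ⟨l, c, hc, rfl⟩ := h
        exact kill j m l c hc
      | zero => rfl
      | add φ ψ _ _ h1 h2 => rw [Pi.add_apply, h1, h2, add_zero]
      | smul f φ _ h1 => rw [Pi.smul_apply, h1, smul_zero]
    have hR : S.G C.am (k + 1) ζ = C.H (k + 1) *ᵥ S.om C.am k ζ := by
      funext i
      have := hW _ (C.rem_mem k i)
      exact sub_eq_zero.1 this
    have h1 : S.om C.am (k + 1) (S.LD ζ) = dv S.D (S.om C.am (k + 1) ζ)
        + S.b *ᵥ S.om C.am (k + 1) ζ - C.H (k + 1) *ᵥ S.om C.am k ζ := by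
      rw [← hR]
      unfold G
      abel
    show c ⬝ᵥ S.om C.am (k + 1) (S.LD ζ) = 0
    have h2 := kill j m (k + 1) c hc
    have h3 := kill j m (k + 1) _ (C.inv (k + 1) c hc)
    have h4 : (c ᵥ* C.H (k + 1)) ⬝ᵥ S.om C.am k ζ = 0 := by
      apply kill j m k
      rw [vecMul_vecMul, ← C.Z_succ]
      exact hc
    have h5 : S.D (c ⬝ᵥ S.om C.am (k + 1) ζ) = 0 := by rw [h2, map_zero]
    rw [d_dot] at h5
    rw [h1, dotProduct_sub, dotProduct_add, dotProduct_mulVec, dotProduct_mulVec, h4, sub_zero]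
    rw [sub_dotProduct] at h3
    linear_combination h5 - h3

lemma om_expand (am : ℕ → Matrix (Fin N) (Fin N) V) : ∀ k : ℕ,
    ∃ Ω : ℕ → Matrix (Fin N) (Fin N) V, ∀ ζ : Gd A,
      S.om am k ζ = (fun i => ζ.1 (A.X (Sum.inr (i, -(k : ℤ))))) +
        ∑ l ∈ Finset.range k, Ω l *ᵥ fun i => ζ.1 (A.X (Sum.inr (i, -(l : ℤ))))
  | 0 => ⟨0, fun ζ => by simp [om]⟩
  | k + 1 => by
    obtain ⟨Ω, hΩ⟩ := om_expand am k
    have hLD : ∀ (l : ℕ) (ζ : Gd A), (fun i => (S.LDb ζ).1 (A.X (Sum.inr (i, -(l : ℤ)))))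
        = dv S.Db (fun i => ζ.1 (A.X (Sum.inr (i, -(l : ℤ)))))
          - fun i => ζ.1 (A.X (Sum.inr (i, -((l + 1 : ℕ) : ℤ)))) := by
      intro l ζ
      funext i
      show ⁅S.Db, ζ.1⁆ _ = _
      rw [Derivation.commutator_apply, S.Db_dn i _ (by omega)]
      have : -(l : ℤ) - 1 = -((l + 1 : ℕ) : ℤ) := by push_cast; ring
      rw [this]
      rfl
    let Ω' : ℕ → Matrix (Fin N) (Fin N) V := fun l => if l = k then 1 else Ω l
    have hΩ' : ∀ ζ : Gd A, S.om am k ζ =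
        ∑ l ∈ Finset.range (k + 1), Ω' l *ᵥ fun i => ζ.1 (A.X (Sum.inr (i, -(l : ℤ)))) := by
      intro ζ
      rw [hΩ, Finset.sum_range_succ, add_comm]
      congr 1
      · refine Finset.sum_congr rfl fun l hl => ?_
        have : l ≠ k := (Finset.mem_range.1 hl).ne
        simp only [Ω', if_neg this]
      · simp only [Ω', if_pos rfl, one_mulVec]
    refine ⟨fun l => (Ω' l).map S.Db + am k * Ω' l + (if l = 0 then 0 else Ω' (l - 1)), ?_⟩
    intro ζ
    have hdv : ∀ (s : Finset ℕ) (f : ℕ → Fin N → V), dv S.Db (∑ l ∈ s, f l)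
        = ∑ l ∈ s, dv S.Db (f l) := by
      intro s f
      funext i
      simp [dv, Finset.sum_apply]
    have e1 : S.om am (k + 1) ζ = ∑ l ∈ Finset.range (k + 1),
        (((Ω' l).map S.Db + am k * Ω' l) *ᵥ (fun i => ζ.1 (A.X (Sum.inr (i, -(l : ℤ)))))
        + Ω' l *ᵥ fun i => ζ.1 (A.X (Sum.inr (i, -((l + 1 : ℕ) : ℤ))))) := by
      rw [om, hΩ' ζ, hΩ' (S.LDb ζ), hdv, mulVec_sum, ← Finset.sum_add_distrib,
        ← Finset.sum_sub_distrib]
      refine Finset.sum_congr rfl fun l _ => ?_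
      rw [hLD, dv_mulVec, mulVec_sub, add_mulVec, mulVec_mulVec]
      abel
    rw [e1, Finset.sum_add_distrib]
    have e2 : ∑ l ∈ Finset.range (k + 1),
        Ω' l *ᵥ (fun i => ζ.1 (A.X (Sum.inr (i, -((l + 1 : ℕ) : ℤ)))))
        = (fun i => ζ.1 (A.X (Sum.inr (i, -((k + 1 : ℕ) : ℤ)))))
          + ∑ l ∈ Finset.range (k + 1), (if l = 0 then 0 else Ω' (l - 1)) *ᵥ
            (fun i => ζ.1 (A.X (Sum.inr (i, -(l : ℤ))))) := by
      rw [Finset.sum_range_succ, Finset.sum_range_succ']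
      simp only [Ω', if_pos rfl, one_mulVec, zero_mulVec, add_zero, Nat.add_sub_cancel,
        Nat.succ_ne_zero, if_false, if_true]
      rw [add_comm]
    rw [e2]
    simp only [add_mulVec, Finset.sum_add_distrib]
    abel

/-- **Formal integrals.**  If `Z_r = 0` then the top components of all iterated brackets are
fixed linear combinations of the lower ones. -/
theorem top {r : ℕ} (hr : C.Z r = 0) : ∃ Ω : ℕ → Matrix (Fin N) (Fin N) V,
    ∀ (j : Fin N) (m : ℕ), (fun i => (it (S := S) j m).1 (A.X (Sum.inr (i, -(r : ℤ))))) +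
      ∑ l ∈ Finset.range r, Ω l *ᵥ (fun i => (it (S := S) j m).1 (A.X (Sum.inr (i, -(l : ℤ)))))
        = 0 := by
  obtain ⟨Ω, hΩ⟩ := om_expand (S := S) C.am r
  refine ⟨Ω, fun j m => ?_⟩
  rw [← hΩ]
  funext i
  have h := C.kill j m r (Pi.single i 1) (by rw [hr, vecMul_zero])
  simpa using h

end Chain

end Sys

end Pool.Agent.Helper974.Liou
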