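import Mathlib
import Pool.Agent.Helper974.LiouA
import Pool.Agent.Helper974.HypDefs

namespace Pool.Agent.Helper974.JetGerm

open Filter Topology
open Pool.Agent.Helper974.Liou (VarAlg)

variable {𝕜 : Type} [RCLike 𝕜] {ι : Type} [DecidableEq ι]

/-- the coordinates in `S` -/
def tr (S : Finset ι) (q : ι → 𝕜) : S → 𝕜 := fun a => q a

section Calc

variable {p : ι → 𝕜} {S T : Finset ι}

omit [DecidableEq ι] in
lemma continuous_tr : Continuous (tr S : (ι → 𝕜) → _) :=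
  continuous_pi fun _ => continuous_apply _

lemma tr_update (x : ι → 𝕜) (a : ι) (t : 𝕜) :
    tr S (Function.update x a t) = tr S x + (t - x a) • tr S (Pi.single a 1) := by
  funext b
  simp only [tr, Pi.add_apply, Pi.smul_apply, smul_eq_mul, Function.update_apply, Pi.single_apply]
  split_ifs with h
  · rw [h]; ring
  · ring

lemma continuous_update (x : ι → 𝕜) (a : ι) :
    Continuous (fun t : 𝕜 => Function.update x a t) :=
  continuous_const.update a continuous_id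

lemma tendsto_update (x : ι → 𝕜) (a : ι) :
    Tendsto (fun t : 𝕜 => Function.update x a t) (𝓝 (x a)) (𝓝 x) := by
  have := (continuous_update x a).tendsto (x a)
  rwa [Function.update_eq_self] at this

lemma pdf_congr {f g : (ι → 𝕜) → 𝕜} (a : ι) (h : f =ᶠ[𝓝 p] g) :
    pdf a f =ᶠ[𝓝 p] pdf a g := by
  filter_upwards [h.eventually_nhds] with x hx
  exact Filter.EventuallyEq.deriv_eq ((tendsto_update x a).eventually hx)

lemma hasDeriv {f : (ι → 𝕜) → 𝕜} {g : (S → 𝕜) → 𝕜} {x : ι → 𝕜}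
    (hg : DifferentiableAt 𝕜 g (tr S x)) (hf : ∀ᶠ y in 𝓝 x, f y = g (tr S y))
    (a : ι) :
    HasDerivAt (fun t => f (Function.update x a t))
      (fderiv 𝕜 g (tr S x) (tr S (Pi.single a 1))) (x a) := by
  have h1 : HasDerivAt (fun t : 𝕜 => tr S x + (t - x a) • tr S (Pi.single a (1 : 𝕜)))
      ((1 : 𝕜) • tr S (Pi.single a 1)) (x a) :=
    (((hasDerivAt_id (x a)).sub_const (x a)).smul_const _).const_add _
  have hg' : HasFDerivAt g (fderiv 𝕜 g (tr S x))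
      (tr S x + (x a - x a) • tr S (Pi.single a (1 : 𝕜))) := by
    simpa using hg.hasFDerivAt
  have h2 := hg'.comp_hasDerivAt (x a) h1
  rw [one_smul] at h2
  refine h2.congr_of_eventuallyEq ?_
  filter_upwards [(tendsto_update x a).eventually hf] with t ht
  rw [ht, tr_update]
  rfl

/-- `f` is represented by `g` near `p` -/
def Rep (p : ι → 𝕜) (S : Finset ι) (f : (ι → 𝕜) → 𝕜) (g : (S → 𝕜) → 𝕜) : Prop :=
  AnalyticAt 𝕜 g (tr S p) ∧ ∀ᶠ x in 𝓝 p, f x = g (tr S x)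

omit [DecidableEq ι] in
lemma isFn_iff {f : (ι → 𝕜) → 𝕜} : IsFn p f ↔ ∃ S g, Rep p S f g := Iff.rfl

omit [DecidableEq ι] in
lemma Rep.near {f : (ι → 𝕜) → 𝕜} {g : (S → 𝕜) → 𝕜} (h : Rep p S f g) :
    ∀ᶠ x in 𝓝 p, Rep x S f g := by
  have h1 := (continuous_tr (S := S)).continuousAt.eventually h.1.eventually_analyticAt
  exact h1.and h.2.eventually_nhds

omit [DecidableEq ι] in
lemma IsFn.near {f : (ι → 𝕜) → 𝕜} (h : IsFn p f) : ∀ᶠ x in 𝓝 p, IsFn x f := by
  obtain ⟨S, g, h⟩ := h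
  filter_upwards [Rep.near (S := S) h] with x hx
  exact ⟨S, g, hx⟩

lemma Rep.hasDerivAt_self {f : (ι → 𝕜) → 𝕜} {g : (S → 𝕜) → 𝕜} (h : Rep p S f g)
    (a : ι) : HasDerivAt (fun t => f (Function.update p a t))
      (fderiv 𝕜 g (tr S p) (tr S (Pi.single a 1))) (p a) :=
  hasDeriv h.1.differentiableAt h.2 a

lemma Rep.hasDerivAt {f : (ι → 𝕜) → 𝕜} {g : (S → 𝕜) → 𝕜} (h : Rep p S f g)
    (a : ι) : ∀ᶠ x in 𝓝 p, HasDerivAt (fun t => f (Function.update x a t))
      (fderiv 𝕜 g (tr S x) (tr S (Pi.single a 1))) (x a) := by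
  filter_upwards [h.near] with x hx
  exact hx.hasDerivAt_self a

lemma Rep.pdf_eq {f : (ι → 𝕜) → 𝕜} {g : (S → 𝕜) → 𝕜} (h : Rep p S f g) (a : ι) :
    pdf a f p = fderiv 𝕜 g (tr S p) (tr S (Pi.single a 1)) := (h.hasDerivAt_self a).deriv

lemma Rep.pdf {f : (ι → 𝕜) → 𝕜} {g : (S → 𝕜) → 𝕜} (h : Rep p S f g)
    (a : ι) :
    Rep p S (pdf a f) (fun y => fderiv 𝕜 g y (tr S (Pi.single a 1))) := by
  constructor
  · exact ((ContinuousLinearMap.apply 𝕜 𝕜 (tr S (Pi.single a (1 : 𝕜)))).analyticAt _).comp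
      h.1.fderiv
  · filter_upwards [h.hasDerivAt a] with x hx
    exact hx.deriv

omit [DecidableEq ι] in
lemma Rep.mono {f : (ι → 𝕜) → 𝕜} {g : (S → 𝕜) → 𝕜} (h : Rep p S f g)
    (hST : S ⊆ T) :
    Rep p T f (fun y => g (fun a => y ⟨a, hST a.2⟩)) := by
  have e : ∀ x : ι → 𝕜, (fun a : S => tr T x ⟨a, hST a.2⟩) = tr S x := fun x => rfl
  constructor
  · have hL : AnalyticAt 𝕜 (fun y : T → 𝕜 => (fun a : S => y ⟨a, hST a.2⟩)) (tr T p) := by
      rw [analyticAt_pi_iff]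
      intro a
      exact (ContinuousLinearMap.proj (R := 𝕜) (φ := fun _ : T => 𝕜) ⟨a, hST a.2⟩).analyticAt _
    exact AnalyticAt.comp (g := g) (by rw [e]; exact h.1) hL
  · exact h.2

omit [DecidableEq ι] in
lemma Rep.add {f f' : (ι → 𝕜) → 𝕜} {g g' : (S → 𝕜) → 𝕜}
    (h : Rep p S f g) (h' : Rep p S f' g') : Rep p S (f + f') (g + g') := by
  refine ⟨h.1.add h'.1, ?_⟩
  filter_upwards [h.2, h'.2] with x h1 h2
  simp [h1, h2]

omit [DecidableEq ι] in
lemma Rep.mul {f f' : (ι → 𝕜) → 𝕜} {g g' : (S → 𝕜) → 𝕜}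
    (h : Rep p S f g) (h' : Rep p S f' g') : Rep p S (f * f') (g * g') := by
  refine ⟨h.1.mul h'.1, ?_⟩
  filter_upwards [h.2, h'.2] with x h1 h2
  simp [h1, h2]

omit [DecidableEq ι] in
lemma Rep.const (c : 𝕜) : Rep p ∅ (fun _ => c) (fun _ => c) :=
  ⟨analyticAt_const, Eventually.of_forall fun _ => rfl⟩

omit [DecidableEq ι] in
lemma Rep.coord (a : ι) : Rep p {a} (fun x => x a) (fun y => y ⟨a, Finset.mem_singleton_self a⟩) :=
  ⟨(ContinuousLinearMap.proj (R := 𝕜) (φ := fun _ : ({a} : Finset ι) => 𝕜)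
    ⟨a, Finset.mem_singleton_self a⟩).analyticAt _, Eventually.of_forall fun _ => rfl⟩

lemma IsFn.common {f f' : (ι → 𝕜) → 𝕜} (h : IsFn p f) (h' : IsFn p f') :
    ∃ S g g', Rep p S f g ∧ Rep p S f' g' := by
  obtain ⟨S, g, hg⟩ := h
  obtain ⟨T, g', hg'⟩ := h'
  exact ⟨S ∪ T, _, _, Rep.mono (S := S) hg Finset.subset_union_left,
    Rep.mono (S := T) hg' Finset.subset_union_right⟩

lemma IsFn.pdf {f : (ι → 𝕜) → 𝕜} (h : IsFn p f) (a : ι) : IsFn p (pdf a f) := by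
  obtain ⟨S, g, hg⟩ := h
  exact ⟨S, _, Rep.pdf (S := S) hg a⟩

lemma IsFn.add {f f' : (ι → 𝕜) → 𝕜} (h : IsFn p f) (h' : IsFn p f') : IsFn p (f + f') := by
  obtain ⟨S, g, g', hg, hg'⟩ := h.common h'
  exact ⟨S, _, hg.add hg'⟩

lemma IsFn.mul {f f' : (ι → 𝕜) → 𝕜} (h : IsFn p f) (h' : IsFn p f') : IsFn p (f * f') := by
  obtain ⟨S, g, g', hg, hg'⟩ := h.common h'
  exact ⟨S, _, hg.mul hg'⟩

omit [DecidableEq ι] in
lemma isFn_const (c : 𝕜) : IsFn p (fun _ => c) := ⟨∅, _, Rep.const c⟩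

omit [DecidableEq ι] in
lemma isFn_coord (a : ι) : IsFn p (fun x => x a) := ⟨{a}, _, Rep.coord a⟩

omit [DecidableEq ι] in
lemma IsFn.neg {f : (ι → 𝕜) → 𝕜} (h : IsFn p f) : IsFn p (-f) := by
  obtain ⟨S, g, hg⟩ := h
  refine ⟨S, -g, hg.1.neg, ?_⟩
  filter_upwards [hg.2] with x hx
  simp [hx]

omit [DecidableEq ι] in
lemma IsFn.congr {f f' : (ι → 𝕜) → 𝕜} (h : IsFn p f) (e : f' =ᶠ[𝓝 p] f) : IsFn p f' := by
  obtain ⟨S, g, hg⟩ := h
  refine ⟨S, g, hg.1, ?_⟩
  filter_upwards [hg.2, e] with x hx hx'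
  rw [hx', hx]

lemma pdf_add {f f' : (ι → 𝕜) → 𝕜} (h : IsFn p f) (h' : IsFn p f')
    (a : ι) : pdf a (f + f') =ᶠ[𝓝 p] pdf a f + pdf a f' := by
  obtain ⟨S, g, g', hg, hg'⟩ := h.common h'
  filter_upwards [hg.hasDerivAt a, hg'.hasDerivAt a] with x h1 h2
  have := (h1.add h2).deriv
  simp only [Pi.add_apply]
  unfold Pool.Agent.Helper974.JetGerm.pdf
  rw [h1.deriv, h2.deriv, ← this]
  rfl

lemma pdf_mul {f f' : (ι → 𝕜) → 𝕜} (h : IsFn p f) (h' : IsFn p f')
    (a : ι) : pdf a (f * f') =ᶠ[𝓝 p] f * pdf a f' + f' * pdf a f := by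
  obtain ⟨S, g, g', hg, hg'⟩ := h.common h'
  filter_upwards [hg.hasDerivAt a, hg'.hasDerivAt a] with x h1 h2
  have := (h1.mul h2).deriv
  simp only [Pi.add_apply, Pi.mul_apply]
  unfold Pool.Agent.Helper974.JetGerm.pdf
  rw [h1.deriv, h2.deriv]
  simp only [Function.update_eq_self] at this
  have e : (fun t => (f * f') (Function.update x a t))
    = (fun t => f (Function.update x a t)) * fun t => f' (Function.update x a t) := rfl
  rw [e, this]
  ring

lemma pdf_const_mul {f : (ι → 𝕜) → 𝕜} (c : 𝕜)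
    (a : ι) : pdf a ((fun _ => c) * f) =ᶠ[𝓝 p] (fun _ => c) * pdf a f := by
  refine Eventually.of_forall fun x => ?_
  unfold Pool.Agent.Helper974.JetGerm.pdf
  simp only [Pi.mul_apply]
  exact deriv_const_mul_field c

lemma Rep.pdf_zero {f : (ι → 𝕜) → 𝕜} {g : (S → 𝕜) → 𝕜} (h : Rep p S f g) :
    ∀ᶠ x in 𝓝 p, ∀ a, a ∉ S → JetGerm.pdf a f x = 0 := by
  filter_upwards [h.near] with x hx a ha
  have h2 : tr S (Pi.single a (1 : 𝕜)) = 0 := by
    funext b
    simp only [tr, Pi.single_apply, Pi.zero_apply]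
    rw [if_neg]
    rintro rfl
    exact ha b.2
  rw [hx.pdf_eq, h2, map_zero]

lemma pdf_comm {f : (ι → 𝕜) → 𝕜} (h : IsFn p f) (a b : ι) :
    pdf a (pdf b f) =ᶠ[𝓝 p] pdf b (pdf a f) := by
  obtain ⟨S, g, hg⟩ := h
  have hg : Rep p S f g := hg
  have h1 := (hg.pdf b).pdf a
  have h2 := (hg.pdf a).pdf b
  filter_upwards [h1.2, h2.2, hg.near] with x e1 e2 e3
  rw [e1, e2]
  have hA := e3.1
  have hd : DifferentiableAt 𝕜 (fderiv 𝕜 g) (tr S x) := hA.fderiv.differentiableAt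
  have s := (hA.contDiffAt (n := ⊤)).isSymmSndFDerivAt (by simp)
  have k : ∀ v w : S → 𝕜,
      fderiv 𝕜 (fun y => fderiv 𝕜 g y v) (tr S x) w = fderiv 𝕜 (fderiv 𝕜 g) (tr S x) w v := by
    intro v w
    have := (hd.hasFDerivAt.clm_apply (hasFDerivAt_const v (tr S x))).fderiv
    rw [this]
    simp
  rw [k, k]
  exact s _ _

lemma pdf_coord (a b : ι) (x : ι → 𝕜) :
    pdf a (fun x => x b) x = if a = b then 1 else 0 := by
  unfold Pool.Agent.Helper974.JetGerm.pdf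
  by_cases h : a = b
  · subst h
    simp
  · have : (fun t => Function.update x a t b) = fun _ => x b := by
      funext t
      rw [Function.update_of_ne (Ne.symm h)]
    rw [this, if_neg h]
    simp

end Calc

section Ring

variable (p : ι → 𝕜)

/-- germs at `p` of local analytic functions of finitely many coordinates -/
def VV : Subring (Germ (𝓝 p) 𝕜) where
  carrier := {φ | ∃ f, IsFn p f ∧ (f : Germ (𝓝 p) 𝕜) = φ}
  mul_mem' := by
    rintro _ _ ⟨f, hf, rfl⟩ ⟨f', hf', rfl⟩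
    exact ⟨f * f', hf.mul hf', rfl⟩
  one_mem' := ⟨fun _ => 1, isFn_const 1, rfl⟩
  add_mem' := by
    rintro _ _ ⟨f, hf, rfl⟩ ⟨f', hf', rfl⟩
    exact ⟨f + f', hf.add hf', rfl⟩
  zero_mem' := ⟨fun _ => 0, isFn_const 0, rfl⟩
  neg_mem' := by
    rintro _ ⟨f, hf, rfl⟩
    exact ⟨-f, hf.neg, rfl⟩

/-- the germ at `p` of a function -/
def mk (f : (ι → 𝕜) → 𝕜) (hf : IsFn p f) : VV p := ⟨(f : Germ (𝓝 p) 𝕜), f, hf, rfl⟩

variable {p}

lemma mk_eq_mk {f g : (ι → 𝕜) → 𝕜} (hf : IsFn p f) (hg : IsFn p g) :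
    mk p f hf = mk p g hg ↔ f =ᶠ[𝓝 p] g := by
  rw [Subtype.ext_iff]
  exact Germ.coe_eq

lemma exists_mk (φ : VV p) : ∃ f, ∃ hf : IsFn p f, φ = mk p f hf := by
  obtain ⟨_, f, hf, rfl⟩ := φ
  exact ⟨f, hf, rfl⟩

lemma mk_zero_iff {f : (ι → 𝕜) → 𝕜} (hf : IsFn p f) : mk p f hf = 0 ↔ f =ᶠ[𝓝 p] 0 :=
  mk_eq_mk hf (isFn_const 0)

/-- constants -/
def constHom (p : ι → 𝕜) : 𝕜 →+* VV p where
  toFun c := mk p (fun _ => c) (isFn_const c)
  map_one' := rfl
  map_mul' _ _ := rfl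
  map_zero' := rfl
  map_add' _ _ := rfl

noncomputable instance : Algebra 𝕜 (VV p) := (constHom p).toAlgebra

/-- the action of `∂/∂a` on germs -/
noncomputable def pdG (p : ι → 𝕜) (a : ι) : Germ (𝓝 p) 𝕜 → Germ (𝓝 p) 𝕜 :=
  Germ.map' (pdf a) (fun _ _ h => pdf_congr a h)

/-- `∂/∂a` as a derivation -/
noncomputable def pdV (p : ι → 𝕜) (a : ι) : Derivation 𝕜 (VV p) (VV p) :=
  Derivation.mk'
    { toFun := fun φ => ⟨pdG p a φ.1, by
        obtain ⟨_, f, hf, rfl⟩ := φ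
        exact ⟨pdf a f, hf.pdf a, rfl⟩⟩
      map_add' := by
        rintro ⟨_, f, hf, rfl⟩ ⟨_, f', hf', rfl⟩
        apply Subtype.ext
        exact Germ.coe_eq.2 (pdf_add hf hf' a)
      map_smul' := by
        rintro c ⟨_, f, hf, rfl⟩
        apply Subtype.ext
        exact Germ.coe_eq.2 (pdf_const_mul c a) }
    (by
      rintro ⟨_, f, hf, rfl⟩ ⟨_, f', hf', rfl⟩
      apply Subtype.ext
      exact Germ.coe_eq.2 (pdf_mul hf hf' a))

lemma pdV_mk (a : ι) {f : (ι → 𝕜) → 𝕜} (hf : IsFn p f) :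
    pdV p a (mk p f hf) = mk p (pdf a f) (hf.pdf a) := rfl

/-- the algebra of germs -/
noncomputable def germAlg (p : ι → 𝕜) : VarAlg 𝕜 ι (VV p) where
  pd := pdV p
  X a := mk p (fun x => x a) (isFn_coord a)
  pd_X := by
    intro a b
    by_cases h : a = b
    · rw [if_pos h]
      apply Subtype.ext
      refine Germ.coe_eq.2 (Eventually.of_forall fun x => ?_)
      simp only [pdf_coord, if_pos h]
    · rw [if_neg h]
      apply Subtype.ext
      refine Germ.coe_eq.2 (Eventually.of_forall fun x => ?_)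
      simp only [pdf_coord, if_neg h]
  pd_comm := by
    intro a b φ
    obtain ⟨_, f, hf, rfl⟩ := φ
    apply Subtype.ext
    exact Germ.coe_eq.2 (pdf_comm hf a b)
  fin := by
    intro φ
    obtain ⟨_, f, hf, rfl⟩ := φ
    obtain ⟨S, g, hg⟩ := hf
    refine ⟨S, fun a ha => ?_⟩
    apply Subtype.ext
    refine Germ.coe_eq.2 ?_
    filter_upwards [Rep.pdf_zero (S := S) hg] with x hx
    exact hx a ha

/-- the value of a germ -/
def ev (p : ι → 𝕜) : VV p →+* 𝕜 where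
  toFun φ := Germ.value φ.1
  map_one' := rfl
  map_mul' := by
    rintro ⟨_, f, hf, rfl⟩ ⟨_, f', hf', rfl⟩
    rfl
  map_zero' := rfl
  map_add' := by
    rintro ⟨_, f, hf, rfl⟩ ⟨_, f', hf', rfl⟩
    rfl

lemma ev_mk {f : (ι → 𝕜) → 𝕜} (hf : IsFn p f) : ev p (mk p f hf) = f p := rfl

omit [DecidableEq ι] in
lemma IsFn.continuousAt {f : (ι → 𝕜) → 𝕜} (hf : IsFn p f) : ContinuousAt f p := by
  obtain ⟨S, g, hg⟩ := hf
  have h1 : ContinuousAt (fun q => g (tr S q)) p :=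
    ContinuousAt.comp (g := g) hg.1.continuousAt continuous_tr.continuousAt
  exact h1.congr (EventuallyEq.symm hg.2)

lemma isUnit_of_ev {φ : VV p} (h : ev p φ ≠ 0) : IsUnit φ := by
  obtain ⟨f, hf, rfl⟩ := exists_mk φ
  rw [ev_mk] at h
  have hi : IsFn p f⁻¹ := by
    obtain ⟨S, g, hg⟩ := hf
    have h0 : g (tr S p) ≠ 0 := by
      have := hg.2.self_of_nhds
      rw [← show f p = g (tr S p) from this]
      exact h
    refine ⟨S, g⁻¹, hg.1.inv h0, ?_⟩
    filter_upwards [hg.2] with x hx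
    simp [hx]
  have hne : ∀ᶠ q in 𝓝 p, f q ≠ 0 := hf.continuousAt.eventually_ne h
  refine ⟨⟨mk p f hf, mk p f⁻¹ hi, ?_, ?_⟩, rfl⟩
  · apply Subtype.ext
    refine Germ.coe_eq.2 ?_
    filter_upwards [hne] with q hq
    exact mul_inv_cancel₀ hq
  · apply Subtype.ext
    refine Germ.coe_eq.2 ?_
    filter_upwards [hne] with q hq
    exact inv_mul_cancel₀ hq

/-- a section of `tr S` -/
def sect (p : ι → 𝕜) (S : Finset ι) (e : S → 𝕜) : ι → 𝕜 := fun a => if h : a ∈ S then e ⟨a, h⟩ else p a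

lemma tr_sect (S : Finset ι) (e : S → 𝕜) : tr S (sect p S e) = e := by
  funext a
  simp [tr, sect]

lemma sect_tr (S : Finset ι) : sect p S (tr S p) = p := by
  funext a
  simp [tr, sect]

lemma continuous_sect (S : Finset ι) : Continuous (sect p S) := by
  refine continuous_pi fun a => ?_
  by_cases h : a ∈ S
  · simp only [sect, dif_pos h]
    exact continuous_apply _
  · simp only [sect, dif_neg h]
    exact continuous_const

lemma eventually_sect {S : Finset ι} {P : (ι → 𝕜) → Prop} (h : ∀ᶠ q in 𝓝 p, P q) :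
    ∀ᶠ e in 𝓝 (tr S p), P (sect p S e) := by
  have h1 : Tendsto (sect p S) (𝓝 (tr S p)) (𝓝 p) := by
    have := (continuous_sect (p := p) S).tendsto (tr S p)
    rwa [sect_tr] at this
  exact h1.eventually h

lemma eventually_tr {S : Finset ι} {P : (S → 𝕜) → Prop} (h : ∀ᶠ q in 𝓝 p, P (tr S q)) :
    ∀ᶠ e in 𝓝 (tr S p), P e := by
  filter_upwards [eventually_sect (S := S) h] with e he
  rwa [tr_sect] at he

instance : Nontrivial (VV p) := ⟨0, 1, fun h => by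
  have := congrArg (ev p) h
  simp at this⟩

omit [DecidableEq ι] in
lemma mul_eventually_zero {S : Finset ι} {g g' : (S → 𝕜) → 𝕜} {e : S → 𝕜}
    (hg : AnalyticAt 𝕜 g e) (hg' : AnalyticAt 𝕜 g' e) (h : ∀ᶠ x in 𝓝 e, g x * g' x = 0)
    (hne : ¬ ∀ᶠ x in 𝓝 e, g x = 0) : ∀ᶠ x in 𝓝 e, g' x = 0 := by
  obtain ⟨ε, hε, hB⟩ := Metric.eventually_nhds_iff_ball.1
    ((hg.eventually_analyticAt.and hg'.eventually_analyticAt).and h)
  rw [Filter.not_eventually] at hne
  obtain ⟨x, hx1, hx2⟩ := (hne.and_eventually (Metric.ball_mem_nhds e hε)).exists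
  have h1 : ∀ᶠ y in 𝓝 x, g' y = 0 := by
    have hgc : ContinuousAt g x := (hB x hx2).1.1.continuousAt
    filter_upwards [hgc.eventually_ne hx1, Metric.isOpen_ball.mem_nhds hx2] with y hy1 hy2
    exact (mul_eq_zero.1 (hB y hy2).2).resolve_left hy1
  have h2 : AnalyticOnNhd 𝕜 g' (Metric.ball e ε) := fun y hy => (hB y hy).1.2
  have h3 := h2.eqOn_zero_of_preconnected_of_eventuallyEq_zero
    (convex_ball e ε).isPreconnected hx2 h1
  filter_upwards [Metric.ball_mem_nhds e hε] with y hy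
  exact h3 hy

instance : NoZeroDivisors (VV p) := ⟨by
  intro φ ψ h
  obtain ⟨f, hf, rfl⟩ := exists_mk φ
  obtain ⟨f', hf', rfl⟩ := exists_mk ψ
  have h0 : f * f' =ᶠ[𝓝 p] 0 := (mk_zero_iff (hf.mul hf')).1 h
  by_cases hz : f =ᶠ[𝓝 p] 0
  · exact Or.inl ((mk_zero_iff hf).2 hz)
  right
  rw [mk_zero_iff]
  obtain ⟨S, g, g', hg, hg'⟩ := hf.common hf'
  have h1 : ∀ᶠ e in 𝓝 (tr S p), g e * g' e = 0 := by
    apply eventually_tr
    filter_upwards [h0, hg.2, hg'.2] with q h1 h2 h3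
    rw [← h2, ← h3]
    exact h1
  have h2 : ¬ ∀ᶠ e in 𝓝 (tr S p), g e = 0 := by
    intro h
    apply hz
    filter_upwards [hg.2, continuous_tr.continuousAt.eventually h] with q h3 h4
    rw [h3]
    exact h4
  have h3 := mul_eventually_zero hg.1 hg'.1 h1 h2
  filter_upwards [hg'.2, continuous_tr.continuousAt.eventually h3] with q h4 h5
  rw [h4]
  exact h5⟩

instance : IsDomain (VV p) := NoZeroDivisors.to_isDomain _

omit [DecidableEq ι] in
lemma isFn_comp {S : Finset ι} {g : (S → 𝕜) → 𝕜} (hg : AnalyticAt 𝕜 g (tr S p)) :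
    IsFn p (fun q => g (tr S q)) := ⟨S, g, hg, Eventually.of_forall fun _ => rfl⟩

/-- a function with vanishing derivatives in the directions outside `S` near a point -/
lemma const_outside {T : Finset ι} {S : Set ι} {g : (T → 𝕜) → 𝕜} {e₀ : T → 𝕜}
    (hg : AnalyticAt 𝕜 g e₀)
    (h0 : ∀ b : T, (b : ι) ∉ S → ∀ᶠ e in 𝓝 e₀, fderiv 𝕜 g e (Pi.single b 1) = 0)
    (ρ : (T → 𝕜) → (T → 𝕜)) (hρ : ∀ e b, ρ e b = e b ∨ ((b : ι) ∉ S ∧ ρ e b = e₀ b)) :
    ∀ᶠ e in 𝓝 e₀, g e = g (ρ e) := by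
  have h1 : ∀ᶠ e in 𝓝 e₀, AnalyticAt 𝕜 g e ∧
      ∀ b : T, (b : ι) ∉ S → fderiv 𝕜 g e (Pi.single b 1) = 0 := by
    refine hg.eventually_analyticAt.and ?_
    rw [Filter.eventually_all]
    intro b
    by_cases hb : (b : ι) ∉ S
    · filter_upwards [h0 b hb] with e he _
      exact he
    · exact Eventually.of_forall fun e h => absurd h hb
  obtain ⟨ε, hε, hB⟩ := Metric.eventually_nhds_iff_ball.1 h1
  filter_upwards [Metric.ball_mem_nhds e₀ hε] with e he
  have hρe : ρ e ∈ Metric.ball e₀ ε := by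
    rw [Metric.mem_ball, dist_pi_lt_iff hε]
    intro b
    rw [Metric.mem_ball, dist_pi_lt_iff hε] at he
    rcases hρ e b with h | ⟨-, h⟩
    · rw [h]; exact he b
    · rw [h, dist_self]; exact hε
  have hdir : ∀ x ∈ Metric.ball e₀ ε, fderiv 𝕜 g x (ρ e - e) = 0 := by
    intro x hx
    have h2 : ρ e - e = ∑ b, (ρ e - e) b • (Pi.single b (1 : 𝕜) : T → 𝕜) := by
      funext b
      simp [Finset.sum_apply, Pi.single_apply]
    rw [h2, map_sum]
    refine Finset.sum_eq_zero fun b _ => ?_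
    rw [map_smul]
    rcases hρ e b with h | ⟨h3, -⟩
    · rw [Pi.sub_apply, h, sub_self, zero_smul]
    · rw [(hB x hx).2 b h3, smul_zero]
  let c : ℝ → (T → 𝕜) := fun t => e + t • (ρ e - e)
  have hc : ∀ t ∈ Set.Icc (0 : ℝ) 1, c t ∈ Metric.ball e₀ ε := by
    intro t ht
    have h3 := (convex_ball e₀ ε) he hρe (sub_nonneg.2 ht.2) ht.1 (by ring)
    have h4 : c t = (1 - t) • e + t • ρ e := by
      simp only [c, smul_sub, sub_smul, one_smul]
      abel
    rw [h4]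
    exact h3
  have hd : ∀ t ∈ Set.Icc (0 : ℝ) 1, HasDerivAt (fun t => g (c t)) 0 t := by
    intro t ht
    have h3 : HasDerivAt c (ρ e - e) t := by
      have := ((hasDerivAt_id t).smul_const (ρ e - e)).const_add e
      rw [one_smul] at this
      exact this
    have h4 := ((hB _ (hc t ht)).1.differentiableAt.hasFDerivAt.restrictScalars ℝ).comp_hasDerivAt
      t h3
    have h5 : ((fderiv 𝕜 g (c t)).restrictScalars ℝ) (ρ e - e) = 0 := hdir _ (hc t ht)
    rw [h5] at h4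
    exact h4
  have h6 := constant_of_has_deriv_right_zero (f := fun t => g (c t)) (a := 0) (b := 1)
    (fun t ht => (hd t ht).continuousAt.continuousWithinAt)
    (fun t ht => (hd t ⟨ht.1, ht.2.le⟩).hasDerivWithinAt) 1 ⟨zero_le_one, le_rfl⟩
  have h7 : c 1 = ρ e := by simp [c]
  have h8 : c 0 = e := by simp [c]
  simp only [h7, h8] at h6
  exact h6.symm

/-- germs with vanishing derivatives outside `S` are functions of the coordinates in `S` -/
theorem rep_of_pd_zero {φ : VV p} {S : Finset ι} (h : ∀ a ∉ S, pdV p a φ = 0) :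
    ∃ (g : (S → 𝕜) → 𝕜) (hg : AnalyticAt 𝕜 g (tr S p)),
      φ = mk p (fun q => g (tr S q)) (isFn_comp hg) := by
  obtain ⟨f, hf, rfl⟩ := exists_mk φ
  obtain ⟨T₀, g₀, hg₀⟩ := id hf
  obtain ⟨T, g, hST, hg⟩ : ∃ (T : Finset ι) (g : (T → 𝕜) → 𝕜), S ⊆ T ∧ Rep p T f g :=
    ⟨S ∪ T₀, _, Finset.subset_union_left, Rep.mono (S := T₀) hg₀ Finset.subset_union_right⟩
  let fill : (S → 𝕜) → (T → 𝕜) := fun e b => if hb : (b : ι) ∈ S then e ⟨b, hb⟩ else p b
  have hfill : fill (tr S p) = tr T p := by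
    funext b
    simp [fill, tr]
  have hfa : AnalyticAt 𝕜 fill (tr S p) := by
    rw [analyticAt_pi_iff]
    intro b
    by_cases hb : (b : ι) ∈ S
    · simp only [dif_pos hb]
      exact (ContinuousLinearMap.proj (R := 𝕜) (φ := fun _ : S => 𝕜) ⟨b, hb⟩).analyticAt _
    · simp only [dif_neg hb]
      exact analyticAt_const
  have hga : AnalyticAt 𝕜 (fun e => g (fill e)) (tr S p) :=
    AnalyticAt.comp (g := g) (by rw [hfill]; exact hg.1) hfa
  refine ⟨fun e => g (fill e), hga, ?_⟩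
  rw [mk_eq_mk]
  have h0 : ∀ b : T, (b : ι) ∉ (S : Set ι) →
      ∀ᶠ e in 𝓝 (tr T p), fderiv 𝕜 g e (Pi.single b 1) = 0 := by
    intro b hb
    have h1 : pdf (b : ι) f =ᶠ[𝓝 p] 0 := by
      rw [← mk_zero_iff (hf.pdf _)]
      exact h b hb
    have h2 : tr T (Pi.single (b : ι) (1 : 𝕜)) = Pi.single b 1 := by
      funext b'
      simp only [tr, Pi.single_apply, Subtype.ext_iff]
    apply eventually_tr
    filter_upwards [h1, (hg.pdf b).2] with q h3 h4
    rw [← h2, ← h4, h3]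
    rfl
  have h3 := const_outside (S := (S : Set ι)) hg.1 h0 (fun e => fill (fun a => e ⟨a, hST a.2⟩))
    (by
      intro e b
      by_cases hb : (b : ι) ∈ S
      · left
        simp [fill, hb]
      · right
        refine ⟨hb, ?_⟩
        simp [fill, hb, tr])
  filter_upwards [hg.2, continuous_tr.continuousAt.eventually h3] with q h4 h5
  rw [h4, h5]
  rfl

lemma along_near (c : ι → (ι → 𝕜) → 𝕜) {f : (ι → 𝕜) → 𝕜} {S : Finset ι} {g : (S → 𝕜) → 𝕜}
    (h : Rep p S f g) :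
    along c f =ᶠ[𝓝 p] fun q => ∑ a ∈ S, c a q * pdf a f q := by
  filter_upwards [h.pdf_zero] with q hq
  apply finsum_eq_sum_of_support_subset
  intro a ha
  rw [Function.mem_support] at ha
  by_contra h
  exact ha (by rw [hq a h, mul_zero])

lemma along_congr (c : ι → (ι → 𝕜) → 𝕜) {f f' : (ι → 𝕜) → 𝕜} (h : f =ᶠ[𝓝 p] f') :
    along c f =ᶠ[𝓝 p] along c f' := by
  filter_upwards [h.eventually_nhds] with q hq
  unfold along
  apply finsum_congr
  intro a
  have h1 : f =ᶠ[𝓝 q] f' := hq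
  rw [(pdf_congr a h1).self_of_nhds]

omit [DecidableEq ι] in
lemma isFn_sum {κ : Type} (s : Finset κ) {f : κ → (ι → 𝕜) → 𝕜} (h : ∀ i ∈ s, IsFn p (f i)) :
    IsFn p (fun q => ∑ i ∈ s, f i q) := by
  classical
  induction s using Finset.induction_on with
  | empty => simpa using isFn_const (p := p) (0 : 𝕜)
  | insert i s hi ih =>
    have h1 : (fun q => ∑ i ∈ insert i s, f i q) = f i + fun q => ∑ i ∈ s, f i q := by
      funext q
      rw [Finset.sum_insert hi]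
      rfl
    rw [h1]
    exact (h i (Finset.mem_insert_self _ _)).add (ih fun j hj => h j (Finset.mem_insert_of_mem hj))

lemma mk_sum {κ : Type} (s : Finset κ) {f : κ → (ι → 𝕜) → 𝕜} (h : ∀ i, IsFn p (f i))
    (h' : IsFn p (fun q => ∑ i ∈ s, f i q)) :
    mk p (fun q => ∑ i ∈ s, f i q) h' = ∑ i ∈ s, mk p (f i) (h i) := by
  classical
  apply Subtype.ext
  rw [AddSubmonoidClass.coe_finsetSum]
  have : (fun q => ∑ i ∈ s, f i q) = ∑ i ∈ s, f i := by
    funext q; simp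
  change ((fun q => ∑ i ∈ s, f i q : (ι → 𝕜) → 𝕜) : Germ (𝓝 p) 𝕜)
    = ∑ i ∈ s, (f i : Germ (𝓝 p) 𝕜)
  rw [this]
  exact map_sum (Germ.coeRingHom (𝓝 p)) f s

lemma IsFn.along {c : ι → (ι → 𝕜) → 𝕜} {f : (ι → 𝕜) → 𝕜} (hc : ∀ a, IsFn p (c a))
    (hf : IsFn p f) : IsFn p (along c f) := by
  obtain ⟨S, g, hg⟩ := id hf
  exact (isFn_sum S fun a _ => (hc a).mul (hf.pdf a)).congr (along_near (S := S) c hg)

theorem mk_along {c : ι → (ι → 𝕜) → 𝕜} {f : (ι → 𝕜) → 𝕜} (hc : ∀ a, IsFn p (c a))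
    (hf : IsFn p f) : mk p (JetGerm.along c f) (hf.along hc)
      = (germAlg p).tot (fun a => mk p (c a) (hc a)) (mk p f hf) := by
  obtain ⟨S, g, hg⟩ := id hf
  have h1 : mk p (JetGerm.along c f) (hf.along hc) = mk p (fun q => ∑ a ∈ S, c a q * pdf a f q)
      (isFn_sum S fun a _ => (hc a).mul (hf.pdf a)) :=
    (mk_eq_mk _ _).2 (along_near (S := S) c hg)
  rw [h1, mk_sum S (f := fun a q => c a q * pdf a f q) (fun a => (hc a).mul (hf.pdf a)),
    VarAlg.tot_eq (A := germAlg p) _ (mk p f hf) S ?_]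
  · rfl
  · intro a ha
    apply Subtype.ext
    refine Germ.coe_eq.2 ?_
    filter_upwards [Rep.pdf_zero (S := S) hg] with x hx
    exact hx a ha

end Ring

end Pool.Agent.Helper974.JetGerm
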