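import Mathlib
import Pool.Agent.Helper974.LiouA

namespace Pool.Agent.Helper974.Liou

open Matrix

variable {𝕜 V : Type} [Field 𝕜] [CommRing V] [Algebra 𝕜 V] {N : ℕ} {A : VarAlg 𝕜 (JVar N) V}

lemma lie_smul' (D E : Derivation 𝕜 V V) (f : V) : ⁅D, f • E⁆ = D f • E + f • ⁅D, E⁆ := by
  ext g
  simp only [Derivation.commutator_apply, Derivation.smul_apply, Derivation.add_apply,
    smul_eq_mul, Derivation.leibniz]
  ring

lemma smul_lie' (D E : Derivation 𝕜 V V) (f : V) : ⁅f • D, E⁆ = f • ⁅D, E⁆ - E f • D := by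
  ext g
  simp only [Derivation.commutator_apply, Derivation.smul_apply, Derivation.sub_apply,
    smul_eq_mul, Derivation.leibniz]
  ring

lemma sum_der {κ : Type} (s : Finset κ) (f : κ → Derivation 𝕜 V V) (x : V) :
    (∑ i ∈ s, f i) x = ∑ i ∈ s, f i x := by
  classical
  induction s using Finset.induction_on with
  | empty => simp
  | insert i s hi ih => rw [Finset.sum_insert hi, Finset.sum_insert hi, Derivation.add_apply, ih]

/-- the total derivative, truncated at order `r` in `y` -/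
structure Trunc (A : VarAlg 𝕜 (JVar N) V) (r : ℕ) where
  Δ : Derivation 𝕜 V V
  vf : A.IsVF Δ
  Δ_inl : ∀ b, ∃ c : 𝕜, Δ (A.X (Sum.inl b)) = algebraMap 𝕜 V c
  Δ_up : ∀ i (k : ℤ), 0 ≤ k → Δ (A.X (Sum.inr (i, k))) = A.X (Sum.inr (i, k + 1))
  Δ_dn : ∀ i (l : ℤ), l < 0 → ∀ j (k : ℤ), 2 ≤ k →
    A.pd (Sum.inr (j, k)) (Δ (A.X (Sum.inr (i, l)))) = 0

/-- the variables `u, ū_1, …, ū_r` -/
def EVar (N r : ℕ) (v : JVar N) : Prop := ∃ i, ∃ l : ℕ, l ≤ r ∧ v = Sum.inr (i, -(l : ℤ))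

/-- an echelon basis of the module generated by the brackets -/
structure Ech {r : ℕ} (T : Trunc A r) (κ : Type) [Fintype κ] [DecidableEq κ] where
  s : κ → Derivation 𝕜 V V
  vf : ∀ α, A.IsVF (s α)
  out : ∀ α v, ¬ EVar N r v → s α (A.X v) = 0
  I : κ → JVar N
  I_E : ∀ α, EVar N r (I α)
  piv : ∀ α β, s α (A.X (I β)) = if α = β then 1 else 0
  lieΔ : ∀ α, ⁅T.Δ, s α⁆ ∈ Submodule.span V (Set.range s)
  lieY : ∀ j, ⁅A.pd (Sum.inr (j, 1)), T.Δ⁆ ∈ Submodule.span V (Set.range s)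
  gen : ∀ α, s α ∈ Submodule.span V
    {ζ | ∃ (j : Fin N) (m : ℕ), ζ = (fun η => ⁅T.Δ, η⁆)^[m] ⁅A.pd (Sum.inr (j, 1)), T.Δ⁆}

namespace Ech

variable {r : ℕ} {T : Trunc A r} {κ : Type} [Fintype κ] [DecidableEq κ] (E : Ech T κ)

/-- the module -/
def M : Submodule V (Derivation 𝕜 V V) := Submodule.span V (Set.range E.s)

lemma s_mem (α : κ) : E.s α ∈ E.M := Submodule.subset_span ⟨α, rfl⟩

lemma eq_sum {ζ : Derivation 𝕜 V V} (h : ζ ∈ E.M) : ζ = ∑ α, ζ (A.X (E.I α)) • E.s α := by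
  induction h using Submodule.span_induction with
  | mem ζ h =>
    obtain ⟨α, rfl⟩ := h
    simp [E.piv]
  | zero => simp
  | add ζ η _ _ h1 h2 =>
    simp only [Derivation.add_apply, add_smul, Finset.sum_add_distrib]
    rw [← h1, ← h2]
  | smul f ζ _ h1 =>
    simp only [Derivation.smul_apply, smul_assoc]
    rw [← Finset.smul_sum, ← h1]

lemma zero_of_piv {ζ : Derivation 𝕜 V V} (h : ζ ∈ E.M) (h0 : ∀ α, ζ (A.X (E.I α)) = 0) :
    ζ = 0 := by
  rw [E.eq_sum h]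
  simp [h0]

lemma M_lie (D : Derivation 𝕜 V V) (hD : ∀ α, ⁅D, E.s α⁆ ∈ E.M) {ζ : Derivation 𝕜 V V}
    (h : ζ ∈ E.M) : ⁅D, ζ⁆ ∈ E.M := by
  induction h using Submodule.span_induction with
  | mem ζ h =>
    obtain ⟨α, rfl⟩ := h
    exact hD α
  | zero => simp
  | add ζ η _ _ h1 h2 =>
    rw [lie_add]
    exact E.M.add_mem h1 h2
  | smul f ζ hζ h1 =>
    rw [lie_smul']
    exact E.M.add_mem (E.M.smul_mem _ hζ) (E.M.smul_mem _ h1)

lemma pd_lie_Δ (i : Fin N) (m : ℤ) (hm : 1 ≤ m) :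
    ⁅A.pd (Sum.inr (i, m + 1)), T.Δ⁆ = A.pd (Sum.inr (i, m)) := by
  refine VarAlg.IsVF.ext (A := A) ((VarAlg.isVF_pd _).lie T.vf) (VarAlg.isVF_pd _) ?_
  have h0 : ∀ v w : JVar N, T.Δ (A.pd v (A.X w)) = 0 := by
    intro v w
    rw [A.pd_X]
    split_ifs <;> simp
  rintro (b | ⟨j, k⟩)
  · rw [Derivation.commutator_apply, h0, sub_zero, A.pd_X, if_neg (by simp)]
    obtain ⟨c, hc⟩ := T.Δ_inl b
    rw [hc, Derivation.map_algebraMap]
  · rw [Derivation.commutator_apply, h0, sub_zero, A.pd_X]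
    rcases lt_or_ge k 0 with hk | hk
    · rw [T.Δ_dn j k hk i (m + 1) (by omega), if_neg]
      intro h
      simp only [Sum.inr.injEq, Prod.mk.injEq] at h
      omega
    · rw [T.Δ_up j k hk, A.pd_X]
      congr 1
      simp

/-- the coefficients do not depend on the `x`-derivatives -/
theorem pd_lie_s : ∀ (i : Fin N) (m : ℤ), 1 ≤ m → ∀ α, ⁅A.pd (Sum.inr (i, m)), E.s α⁆ = 0 := by
  classical
  -- for large `m`
  have hval : ∀ (v w : JVar N) (α : κ), ⁅A.pd v, E.s α⁆ (A.X w) = A.pd v (E.s α (A.X w)) := by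
    intro v w α
    rw [Derivation.commutator_apply, A.pd_X]
    split_ifs <;> simp
  have hbig : ∃ M : ℕ, ∀ (i : Fin N) (m : ℤ), (M : ℤ) ≤ m → ∀ α,
      ⁅A.pd (Sum.inr (i, m)), E.s α⁆ = 0 := by
    choose U hU using fun f : V => A.fin f
    let cols : Finset (JVar N) := Finset.univ.image
      (fun p : Fin N × Fin (r + 1) => (Sum.inr (p.1, -((p.2 : ℕ) : ℤ)) : JVar N))
    let W : Finset (JVar N) := (Finset.univ ×ˢ cols).biUnion
      fun p : κ × JVar N => U (E.s p.1 (A.X p.2))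
    refine ⟨W.sup (fun v => Sum.elim (fun _ => 0) (fun p : Fin N × ℤ => p.2.toNat) v) + 1, ?_⟩
    intro i m hm α
    refine VarAlg.IsVF.ext (A := A) ((VarAlg.isVF_pd _).lie (E.vf α)) VarAlg.isVF_zero ?_
    intro w
    rw [hval]
    by_cases hw : EVar N r w
    · obtain ⟨j, l, hl, rfl⟩ := hw
      have h1 : (Sum.inr (i, m) : JVar N) ∉ U (E.s α (A.X (Sum.inr (j, -(l : ℤ))))) := by
        intro h
        have h2 : (Sum.inr (i, m) : JVar N) ∈ W := by
          refine Finset.mem_biUnion.2 ⟨(α, Sum.inr (j, -(l : ℤ))), ?_, h⟩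
          refine Finset.mem_product.2 ⟨Finset.mem_univ _, Finset.mem_image.2
            ⟨(j, ⟨l, by omega⟩), Finset.mem_univ _, rfl⟩⟩
        have h3 := Finset.le_sup
          (f := fun v : JVar N => Sum.elim (fun _ => 0) (fun p : Fin N × ℤ => p.2.toNat) v) h2
        simp only [Sum.elim_inr] at h3
        push_cast at hm
        omega
      rw [hU _ _ h1]
      rfl
    · rw [E.out α w hw, map_zero]
      rfl
  obtain ⟨M, hM⟩ := hbig
  -- going down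
  have hdown : ∀ (n : ℕ) (i : Fin N) (m : ℤ), 1 ≤ m → (M : ℤ) ≤ m + n → ∀ α,
      ⁅A.pd (Sum.inr (i, m)), E.s α⁆ = 0 := by
    intro n
    induction n with
    | zero => intro i m _ h; exact hM i m (by simpa using h)
    | succ n ih =>
      intro i m hm h α
      have hind : ∀ β, ⁅A.pd (Sum.inr (i, m + 1)), E.s β⁆ = 0 :=
        ih i (m + 1) (by omega) (by push_cast at h ⊢; linarith)
      have h1 : ⁅A.pd (Sum.inr (i, m + 1)), ⁅T.Δ, E.s α⁆⁆ = ⁅A.pd (Sum.inr (i, m)), E.s α⁆ := by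
        rw [leibniz_lie, hind α, lie_zero, add_zero, pd_lie_Δ i m hm]
      have h2 : ⁅A.pd (Sum.inr (i, m)), E.s α⁆ ∈ E.M := by
        rw [← h1]
        apply E.M_lie
        · intro β
          rw [hind β]
          exact E.M.zero_mem
        · exact E.lieΔ α
      apply E.zero_of_piv h2
      intro β
      rw [hval, E.piv]
      split_ifs <;> simp
  intro i m hm α
  exact hdown M i m hm (by omega) α

/-- the normaliser of the module inside the module -/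
def nrm : Submodule V (Derivation 𝕜 V V) where
  carrier := {ζ | ζ ∈ E.M ∧ ∀ α, ⁅ζ, E.s α⁆ ∈ E.M}
  add_mem' := by
    rintro ζ η ⟨h1, h2⟩ ⟨h3, h4⟩
    refine ⟨E.M.add_mem h1 h3, fun α => ?_⟩
    rw [add_lie]
    exact E.M.add_mem (h2 α) (h4 α)
  zero_mem' := ⟨E.M.zero_mem, fun α => by rw [zero_lie]; exact E.M.zero_mem⟩
  smul_mem' := by
    rintro f ζ ⟨h1, h2⟩
    refine ⟨E.M.smul_mem _ h1, fun α => ?_⟩
    rw [smul_lie']
    exact E.M.sub_mem (E.M.smul_mem _ (h2 α)) (E.M.smul_mem _ h1)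

lemma nrm_lie {ζ : Derivation 𝕜 V V} (h : ζ ∈ E.nrm) : ⁅T.Δ, ζ⁆ ∈ E.nrm := by
  obtain ⟨h1, h2⟩ := h
  refine ⟨E.M_lie _ E.lieΔ h1, fun α => ?_⟩
  have e : ⁅⁅T.Δ, ζ⁆, E.s α⁆ = ⁅T.Δ, ⁅ζ, E.s α⁆⁆ - ⁅ζ, ⁅T.Δ, E.s α⁆⁆ := by
    rw [leibniz_lie T.Δ ζ]
    abel
  rw [e]
  exact E.M.sub_mem (E.M_lie _ E.lieΔ (h2 α)) (E.M_lie _ h2 (E.lieΔ α))

lemma Y_nrm (j : Fin N) : ⁅A.pd (Sum.inr (j, 1)), T.Δ⁆ ∈ E.nrm := by
  refine ⟨E.lieY j, fun α => ?_⟩
  have hz : ∀ α, ⁅A.pd (Sum.inr (j, 1)), E.s α⁆ = 0 := E.pd_lie_s j 1 le_rfl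
  have e : ⁅⁅A.pd (Sum.inr (j, 1)), T.Δ⁆, E.s α⁆ = ⁅A.pd (Sum.inr (j, 1)), ⁅T.Δ, E.s α⁆⁆ := by
    rw [leibniz_lie (A.pd (Sum.inr (j, 1)))  T.Δ, hz α, lie_zero, add_zero]
  rw [e]
  apply E.M_lie _ _ (E.lieΔ α)
  intro β
  rw [hz β]
  exact E.M.zero_mem

/-- **Involutivity**, in fact commutativity, of the echelon basis. -/
theorem comm (α β : κ) : ⁅E.s α, E.s β⁆ = 0 := by
  have h1 : E.s α ∈ E.nrm := by
    have h := E.gen α
    refine Submodule.span_le.2 ?_ h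
    rintro ζ ⟨j, m, rfl⟩
    induction m with
    | zero => exact E.Y_nrm j
    | succ m ih =>
      rw [Function.iterate_succ_apply']
      exact E.nrm_lie ih
  apply E.zero_of_piv (h1.2 β)
  intro γ
  rw [Derivation.commutator_apply, E.piv, E.piv]
  split_ifs <;> simp

/-- the remaining vector field -/
def sx : Derivation 𝕜 V V := T.Δ - ∑ α, T.Δ (A.X (E.I α)) • E.s α

lemma vf_sx : A.IsVF E.sx := by
  have h1 : A.IsVF (∑ α, T.Δ (A.X (E.I α)) • E.s α) :=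
    VarAlg.IsVF.sum _ fun α _ => (E.vf α).smul _
  have h2 := T.vf.add (h1.smul (-1))
  have e : E.sx = T.Δ + (-1 : V) • ∑ α, T.Δ (A.X (E.I α)) • E.s α := by
    unfold sx
    rw [neg_one_smul, sub_eq_add_neg]
  rw [e]
  exact h2

lemma comm_sx (α : κ) : ⁅E.sx, E.s α⁆ = 0 := by
  have h1 : ⁅T.Δ, E.s α⁆ = ∑ γ, (-(E.s α (T.Δ (A.X (E.I γ))))) • E.s γ := by
    have h := E.eq_sum (E.lieΔ α)
    rw [h]
    refine Finset.sum_congr rfl fun γ _ => ?_
    rw [Derivation.commutator_apply, E.piv]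
    congr 1
    split_ifs <;> simp
  have h2 : ⁅∑ γ, T.Δ (A.X (E.I γ)) • E.s γ, E.s α⁆
      = ∑ γ, (-(E.s α (T.Δ (A.X (E.I γ))))) • E.s γ := by
    rw [sum_lie]
    refine Finset.sum_congr rfl fun γ _ => ?_
    rw [smul_lie', E.comm, smul_zero, zero_sub, neg_smul]
  rw [sx, sub_lie, h1, h2, sub_self]

lemma sx_piv (β : κ) : E.sx (A.X (E.I β)) = 0 := by
  have h : ∑ α, T.Δ (A.X (E.I α)) * E.s α (A.X (E.I β)) = T.Δ (A.X (E.I β)) := by
    simp [E.piv]
  simp only [sx, Derivation.sub_apply, sum_der,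
    Derivation.smul_apply, smul_eq_mul, h, sub_self]

/-- the coefficients of the remaining field do not depend on the `x`-derivatives -/
lemma pd_sx (i : Fin N) (m : ℤ) (hm : 1 ≤ m) (v : JVar N) (hv : EVar N r v) :
    A.pd (Sum.inr (i, m)) (E.sx (A.X v)) = 0 := by
  have hz : ∀ (w : JVar N) (α : κ), A.pd (Sum.inr (i, m)) (E.s α (A.X w)) = 0 := by
    intro w α
    have h := congrArg (fun δ : Derivation 𝕜 V V => δ (A.X w)) (E.pd_lie_s i m hm α)
    simp only [Derivation.commutator_apply, A.pd_X, Derivation.zero_apply] at h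
    split_ifs at h <;> simpa using h
  have hΔ : ∀ w : JVar N, A.pd (Sum.inr (i, m)) (T.Δ (A.X w))
      = ⁅A.pd (Sum.inr (i, m)), T.Δ⁆ (A.X w) := by
    intro w
    rw [Derivation.commutator_apply, A.pd_X]
    split_ifs <;> simp
  have h1 : A.pd (Sum.inr (i, m)) (E.sx (A.X v)) = ⁅A.pd (Sum.inr (i, m)), T.Δ⁆ (A.X v)
      - ∑ α, ⁅A.pd (Sum.inr (i, m)), T.Δ⁆ (A.X (E.I α)) * E.s α (A.X v) := by
    simp only [sx, Derivation.sub_apply, sum_der,
      Derivation.smul_apply, smul_eq_mul, map_sub, map_sum, Derivation.leibniz, hz, hΔ,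
      mul_zero, zero_add]
    congr 1
    exact Finset.sum_congr rfl fun α _ => mul_comm _ _
  rw [h1]
  rcases eq_or_lt_of_le hm with h | h
  · subst h
    have h2 := E.eq_sum (E.lieY i)
    have h3 := congrArg (fun δ : Derivation 𝕜 V V => δ (A.X v)) h2
    simp only [sum_der, Derivation.smul_apply, smul_eq_mul] at h3
    rw [← h3, sub_self]
  · obtain ⟨m', rfl⟩ : ∃ m', m = m' + 1 := ⟨m - 1, by ring⟩
    have hE : ∀ w, EVar N r w → A.pd (Sum.inr (i, m')) (A.X w) = 0 := by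
      rintro w ⟨j, l, hl, rfl⟩
      rw [A.pd_X, if_neg]
      intro h
      simp only [Sum.inr.injEq, Prod.mk.injEq] at h
      omega
    rw [pd_lie_Δ i m' (by omega), hE v hv, zero_sub, neg_eq_zero]
    exact Finset.sum_eq_zero fun α _ => by rw [hE _ (E.I_E α), zero_mul]

lemma pd_s (i : Fin N) (m : ℤ) (hm : 1 ≤ m) (w : JVar N) (α : κ) :
    A.pd (Sum.inr (i, m)) (E.s α (A.X w)) = 0 := by
  have h := congrArg (fun δ : Derivation 𝕜 V V => δ (A.X w)) (E.pd_lie_s i m hm α)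
  simp only [Derivation.commutator_apply, A.pd_X, Derivation.zero_apply] at h
  split_ifs at h <;> simpa using h

end Ech

end Pool.Agent.Helper974.Liou
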