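import Mathlib
import Pool.Agent.Helper974.JetGerm
import Pool.Agent.Helper974.LiouC

namespace Pool.Agent.Helper974.Hyp

open Filter Topology Matrix
open Pool.Agent.Helper974.JetGerm Pool.Agent.Helper974.Liou

variable {𝕜 : Type} [RCLike 𝕜] {N : ℕ}

section Basic

variable {F : Arg 𝕜 N → Fin N → 𝕜} {q : Jet 𝕜 N}

/-- the coordinates on which the right-hand side depends -/
def baseVars (N : ℕ) : Finset (Var N) :=
  ({vx, vy} : Finset (Var N)) ∪ (Finset.univ.image fun j => vu j 0) ∪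
    (Finset.univ.image fun j => vu j 1) ∪ (Finset.univ.image fun j => vu j (-1))

lemma isFn_rhs (hF : AnalyticAt 𝕜 F (base q)) (i : Fin N) : IsFn q (rhs F i) := by
  have hx : (vx : Var N) ∈ baseVars N := by simp [baseVars]
  have hy : (vy : Var N) ∈ baseVars N := by simp [baseVars]
  have h0 : ∀ j : Fin N, vu j 0 ∈ baseVars N := by simp [baseVars]
  have h1 : ∀ j : Fin N, vu j 1 ∈ baseVars N := by simp [baseVars]
  have h2 : ∀ j : Fin N, vu j (-1) ∈ baseVars N := by simp [baseVars]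
  let L : (baseVars N → 𝕜) → Arg 𝕜 N := fun e => (e ⟨vx, hx⟩, e ⟨vy, hy⟩,
    fun i => e ⟨vu i 0, h0 i⟩, fun i => e ⟨vu i 1, h1 i⟩, fun i => e ⟨vu i (-1), h2 i⟩)
  have hp : ∀ a (e : baseVars N → 𝕜), AnalyticAt 𝕜 (fun e : baseVars N → 𝕜 => e a) e := fun a e =>
    (ContinuousLinearMap.proj (R := 𝕜) (φ := fun _ : baseVars N => 𝕜) a).analyticAt _
  have hL : ∀ e, AnalyticAt 𝕜 L e := by
    intro e
    refine AnalyticAt.prod (hp _ e) (AnalyticAt.prod (hp _ e)
      (AnalyticAt.prod ?_ (AnalyticAt.prod ?_ ?_)))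
    · rw [analyticAt_pi_iff]; intro j; exact hp _ e
    · rw [analyticAt_pi_iff]; intro j; exact hp _ e
    · rw [analyticAt_pi_iff]; intro j; exact hp _ e
  refine ⟨baseVars N, fun e => F (L e) i, ?_, Eventually.of_forall fun q' => rfl⟩
  have h3 : AnalyticAt 𝕜 (fun e => F (L e)) (tr (baseVars N) q) :=
    AnalyticAt.comp (g := F) hF (hL _)
  exact ((ContinuousLinearMap.proj (R := 𝕜) (φ := fun _ : Fin N => 𝕜) i).analyticAt _).comp h3

lemma rhs_dep (i j : Fin N) (k : ℤ) (h0 : k ≠ 0) (h1 : k ≠ 1) (h2 : k ≠ -1) (q : Jet 𝕜 N) :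
    pdf (vu j k) (rhs F i) q = 0 := by
  have h : (fun t => rhs F i (Function.update q (vu j k) t)) = fun _ => rhs F i q := by
    funext t
    unfold rhs base
    simp [Ne.symm h0, Ne.symm h1, Ne.symm h2]
  unfold pdf
  rw [h]
  simp

lemma isFn_compX0 (hF : AnalyticAt 𝕜 F (base q)) : ∀ a, IsFn q (compX0 F a)
  | Sum.inl false => isFn_const 1
  | Sum.inl true => isFn_const 0
  | Sum.inr (i, k) => by
    simp only [compX0]
    split_ifs
    · exact isFn_coord _
    · exact isFn_rhs hF i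
    · exact isFn_const 0

lemma isFn_compY0 (hF : AnalyticAt 𝕜 F (base q)) : ∀ a, IsFn q (compY0 F a)
  | Sum.inl false => isFn_const 0
  | Sum.inl true => isFn_const 1
  | Sum.inr (i, k) => by
    simp only [compY0]
    split_ifs
    · exact isFn_coord _
    · exact isFn_rhs hF i
    · exact isFn_const 0

lemma isFn_iter {c : Var N → Jet 𝕜 N → 𝕜} {f : Jet 𝕜 N → 𝕜} (hc : ∀ a, IsFn q (c a))
    (hf : IsFn q f) (l : ℕ) : IsFn q ((along c)^[l] f) := by
  induction l with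
  | zero => exact hf
  | succ l ih =>
    rw [Function.iterate_succ_apply']
    exact ih.along hc

lemma isFn_compX (hF : AnalyticAt 𝕜 F (base q)) : ∀ a, IsFn q (compX F a)
  | Sum.inl false => isFn_const 1
  | Sum.inl true => isFn_const 0
  | Sum.inr (i, k) => by
    simp only [compX]
    split_ifs
    · exact isFn_coord _
    · exact isFn_iter (isFn_compY0 hF) (isFn_rhs hF i) _

lemma isFn_compY (hF : AnalyticAt 𝕜 F (base q)) : ∀ a, IsFn q (compY F a)
  | Sum.inl false => isFn_const 0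
  | Sum.inl true => isFn_const 1
  | Sum.inr (i, k) => by
    simp only [compY]
    split_ifs
    · exact isFn_coord _
    · exact isFn_iter (isFn_compX0 hF) (isFn_rhs hF i) _

end Basic

section Germ

variable (F : Arg 𝕜 N → Fin N → 𝕜) (q : Jet 𝕜 N) (hF : AnalyticAt 𝕜 F (base q))

/-- the algebra of germs at `q` -/
noncomputable abbrev AA (q : Jet 𝕜 N) : VarAlg 𝕜 (Var N) (VV q) := germAlg q

/-- restricted total derivatives on germs -/
noncomputable def gX0 : Derivation 𝕜 (VV q) (VV q) :=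
  (AA q).tot fun a => mk q (compX0 F a) (isFn_compX0 hF a)

noncomputable def gY0 : Derivation 𝕜 (VV q) (VV q) :=
  (AA q).tot fun a => mk q (compY0 F a) (isFn_compY0 hF a)

/-- total derivatives on germs -/
noncomputable def gX : Derivation 𝕜 (VV q) (VV q) :=
  (AA q).tot fun a => mk q (compX F a) (isFn_compX hF a)

noncomputable def gY : Derivation 𝕜 (VV q) (VV q) :=
  (AA q).tot fun a => mk q (compY F a) (isFn_compY hF a)

/-- the germ of the right-hand side -/
noncomputable def gF (i : Fin N) : VV q := mk q (rhs F i) (isFn_rhs hF i)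

/-- `D^l F` -/
noncomputable def FX (i : Fin N) (l : ℕ) : VV q := (gX0 F q hF)^[l] (gF F q hF i)

/-- `D̄^l F` -/
noncomputable def FY (i : Fin N) (l : ℕ) : VV q := (gY0 F q hF)^[l] (gF F q hF i)

lemma mk_iter {c : Var N → Jet 𝕜 N → 𝕜} {f : Jet 𝕜 N → 𝕜} (hc : ∀ a, IsFn q (c a))
    (hf : IsFn q f) (l : ℕ) : mk q ((along c)^[l] f) (isFn_iter hc hf l)
      = ((AA q).tot fun a => mk q (c a) (hc a))^[l] (mk q f hf) := by
  induction l with
  | zero => rfl
  | succ l ih =>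
    have h1 : mk q ((along c)^[l + 1] f) (isFn_iter hc hf (l + 1))
        = mk q (along c ((along c)^[l] f)) ((isFn_iter hc hf l).along hc) := by
      congr 1
      rw [Function.iterate_succ_apply']
    rw [h1, mk_along hc (isFn_iter hc hf l), ih, Function.iterate_succ_apply']

variable {F q}

lemma gX0_X (a : Var N) : gX0 F q hF ((AA q).X a) = mk q (compX0 F a) (isFn_compX0 hF a) :=
  VarAlg.tot_X _ _

lemma gY0_X (a : Var N) : gY0 F q hF ((AA q).X a) = mk q (compY0 F a) (isFn_compY0 hF a) :=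
  VarAlg.tot_X _ _

lemma gX_X (a : Var N) : gX F q hF ((AA q).X a) = mk q (compX F a) (isFn_compX hF a) :=
  VarAlg.tot_X _ _

lemma gY_X (a : Var N) : gY F q hF ((AA q).X a) = mk q (compY F a) (isFn_compY hF a) :=
  VarAlg.tot_X _ _

lemma gX_up (i : Fin N) (k : ℤ) (hk : 0 ≤ k) :
    gX F q hF ((AA q).X (vu i k)) = (AA q).X (vu i (k + 1)) := by
  rw [gX_X]
  apply (mk_eq_mk _ (isFn_coord _)).2
  refine Eventually.of_forall fun q' => ?_
  simp [compX, hk]

lemma gX0_up (i : Fin N) (k : ℤ) (hk : 0 ≤ k) :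
    gX0 F q hF ((AA q).X (vu i k)) = (AA q).X (vu i (k + 1)) := by
  rw [gX0_X]
  apply (mk_eq_mk _ (isFn_coord _)).2
  refine Eventually.of_forall fun q' => ?_
  simp [compX0, hk]

lemma gX_neg (i : Fin N) (l : ℕ) :
    gX F q hF ((AA q).X (vu i (-(l : ℤ) - 1))) = FY F q hF i l := by
  rw [gX_X, FY, gY0, gF, ← mk_iter q (isFn_compY0 hF) (isFn_rhs hF i) l]
  apply (mk_eq_mk _ _).2
  refine Eventually.of_forall fun q' => ?_
  have h : ¬ (0 ≤ -(l : ℤ) - 1) := by omega
  have h2 : (-(-(l : ℤ) - 1) - 1).toNat = l := by omega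
  simp only [compX, if_neg h, h2]

lemma gX0_m1 (i : Fin N) : gX0 F q hF ((AA q).X (vu i (-1))) = gF F q hF i := by
  rw [gX0_X]
  apply (mk_eq_mk _ _).2
  refine Eventually.of_forall fun q' => ?_
  simp [compX0]

lemma gX0_low (i : Fin N) (k : ℤ) (hk : k ≤ -2) :
    gX0 F q hF ((AA q).X (vu i k)) = 0 := by
  rw [gX0_X]
  apply (mk_eq_mk _ (isFn_const 0)).2
  refine Eventually.of_forall fun q' => ?_
  have h1 : ¬ 0 ≤ k := by omega
  have h2 : ¬ k = -1 := by omega
  simp [compX0, h1, h2]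

lemma gY_dn (i : Fin N) (k : ℤ) (hk : k ≤ 0) :
    gY F q hF ((AA q).X (vu i k)) = (AA q).X (vu i (k - 1)) := by
  rw [gY_X]
  apply (mk_eq_mk _ (isFn_coord _)).2
  refine Eventually.of_forall fun q' => ?_
  simp [compY, hk]

lemma gY0_dn (i : Fin N) (k : ℤ) (hk : k ≤ 0) :
    gY0 F q hF ((AA q).X (vu i k)) = (AA q).X (vu i (k - 1)) := by
  rw [gY0_X]
  apply (mk_eq_mk _ (isFn_coord _)).2
  refine Eventually.of_forall fun q' => ?_
  simp [compY0, hk]

lemma gY_pos (i : Fin N) (l : ℕ) :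
    gY F q hF ((AA q).X (vu i ((l : ℤ) + 1))) = FX F q hF i l := by
  rw [gY_X, FX, gX0, gF, ← mk_iter q (isFn_compX0 hF) (isFn_rhs hF i) l]
  apply (mk_eq_mk _ _).2
  refine Eventually.of_forall fun q' => ?_
  have h : ¬ ((l : ℤ) + 1 ≤ 0) := by omega
  have h2 : ((l : ℤ) + 1 - 1).toNat = l := by omega
  simp only [compY, if_neg h, h2]

lemma gY0_1 (i : Fin N) : gY0 F q hF ((AA q).X (vu i 1)) = gF F q hF i := by
  rw [gY0_X]
  apply (mk_eq_mk _ _).2
  refine Eventually.of_forall fun q' => ?_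
  simp [compY0]

lemma gY0_high (i : Fin N) (k : ℤ) (hk : 2 ≤ k) :
    gY0 F q hF ((AA q).X (vu i k)) = 0 := by
  rw [gY0_X]
  apply (mk_eq_mk _ (isFn_const 0)).2
  refine Eventually.of_forall fun q' => ?_
  have h1 : ¬ k ≤ 0 := by omega
  have h2 : ¬ k = 1 := by omega
  simp [compY0, h1, h2]

lemma gF_dep (i j : Fin N) (k : ℤ) (h0 : k ≠ 0) (h1 : k ≠ 1) (h2 : k ≠ -1) :
    (AA q).pd (vu j k) (gF F q hF i) = 0 := by
  show pdV q (vu j k) (mk q _ _) = 0
  rw [pdV_mk, mk_zero_iff]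
  exact Eventually.of_forall fun q' => rhs_dep i j k h0 h1 h2 q'

lemma vf_eq_of {ζ η : Derivation 𝕜 (VV q) (VV q)} (hζ : (AA q).IsVF ζ) (hη : (AA q).IsVF η)
    (f : VV q) (h : ∀ a, ζ ((AA q).X a) = η ((AA q).X a) ∨ (AA q).pd a f = 0) : ζ f = η f := by
  obtain ⟨S, hS⟩ := (AA q).fin f
  rw [hζ f S hS, hη f S hS]
  refine Finset.sum_congr rfl fun a _ => ?_
  rcases h a with h | h
  · rw [h]
  · rw [h, mul_zero, mul_zero]

lemma pd_lie_X (D : Derivation 𝕜 (VV q) (VV q)) (v w : Var N) :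
    ⁅(AA q).pd v, D⁆ ((AA q).X w) = (AA q).pd v (D ((AA q).X w)) := by
  rw [Derivation.commutator_apply, (AA q).pd_X]
  split_ifs <;> simp

lemma gX0_inl (b : Bool) : ∃ c : 𝕜, gX0 F q hF ((AA q).X (Sum.inl b)) = algebraMap 𝕜 (VV q) c := by
  rw [gX0_X]
  cases b
  · exact ⟨1, rfl⟩
  · exact ⟨0, rfl⟩

lemma gY0_inl (b : Bool) : ∃ c : 𝕜, gY0 F q hF ((AA q).X (Sum.inl b)) = algebraMap 𝕜 (VV q) c := by
  rw [gY0_X]
  cases b
  · exact ⟨0, rfl⟩
  · exact ⟨1, rfl⟩

lemma gX_inl (b : Bool) : ∃ c : 𝕜, gX F q hF ((AA q).X (Sum.inl b)) = algebraMap 𝕜 (VV q) c := by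
  rw [gX_X]
  cases b
  · exact ⟨1, rfl⟩
  · exact ⟨0, rfl⟩

lemma gX_eq_gX0_inl (b : Bool) : gX F q hF ((AA q).X (Sum.inl b)) =
    gX0 F q hF ((AA q).X (Sum.inl b)) := by
  rw [gX_X, gX0_X]
  cases b <;> rfl

lemma gY_eq_gY0_inl (b : Bool) : gY F q hF ((AA q).X (Sum.inl b)) =
    gY0 F q hF ((AA q).X (Sum.inl b)) := by
  rw [gY_X, gY0_X]
  cases b <;> rfl

lemma vf_gX0 : (AA q).IsVF (gX0 F q hF) := VarAlg.isVF_tot _
lemma vf_gY0 : (AA q).IsVF (gY0 F q hF) := VarAlg.isVF_tot _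
lemma vf_gX : (AA q).IsVF (gX F q hF) := VarAlg.isVF_tot _
lemma vf_gY : (AA q).IsVF (gY F q hF) := VarAlg.isVF_tot _

lemma pd_gX0_low (j : Fin N) (k : ℤ) (hk : k ≤ -2) : ⁅(AA q).pd (vu j k), gX0 F q hF⁆ = 0 := by
  refine VarAlg.IsVF.ext (A := AA q) ((VarAlg.isVF_pd _).lie (vf_gX0 hF)) VarAlg.isVF_zero ?_
  rintro (b | ⟨i, m⟩)
  · rw [pd_lie_X]
    obtain ⟨c, hc⟩ := gX0_inl hF b
    rw [hc, Derivation.map_algebraMap]
    rfl
  · rw [pd_lie_X]
    rcases lt_trichotomy m (-1) with h | h | h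
    · rw [gX0_low hF i m (by omega), map_zero]
      rfl
    · subst h
      rw [gX0_m1, gF_dep hF i j k (by omega) (by omega) (by omega)]
      rfl
    · rw [gX0_up hF i m (by omega), (AA q).pd_X, if_neg]
      · rfl
      · intro h
        simp only [Sum.inr.injEq, Prod.mk.injEq] at h
        omega

lemma pd_gY0_high (j : Fin N) (k : ℤ) (hk : 2 ≤ k) : ⁅(AA q).pd (vu j k), gY0 F q hF⁆ = 0 := by
  refine VarAlg.IsVF.ext (A := AA q) ((VarAlg.isVF_pd _).lie (vf_gY0 hF)) VarAlg.isVF_zero ?_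
  rintro (b | ⟨i, m⟩)
  · rw [pd_lie_X]
    obtain ⟨c, hc⟩ := gY0_inl hF b
    rw [hc, Derivation.map_algebraMap]
    rfl
  · rw [pd_lie_X]
    rcases lt_trichotomy m 1 with h | h | h
    · rw [gY0_dn hF i m (by omega), (AA q).pd_X, if_neg]
      · rfl
      · intro h
        simp only [Sum.inr.injEq, Prod.mk.injEq] at h
        omega
    · subst h
      rw [gY0_1, gF_dep hF i j k (by omega) (by omega) (by omega)]
      rfl
    · rw [gY0_high hF i m (by omega), map_zero]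
      rfl

lemma pd_gY0_dn (j : Fin N) (k : ℤ) (hk : k ≤ -2) :
    ⁅(AA q).pd (vu j k), gY0 F q hF⁆ = (AA q).pd (vu j (k + 1)) := by
  refine VarAlg.IsVF.ext (A := AA q) ((VarAlg.isVF_pd _).lie (vf_gY0 hF)) (VarAlg.isVF_pd _) ?_
  rintro (b | ⟨i, m⟩)
  · rw [pd_lie_X]
    obtain ⟨c, hc⟩ := gY0_inl hF b
    rw [hc, Derivation.map_algebraMap, (AA q).pd_X, if_neg (by simp)]
  · rw [pd_lie_X]
    rcases lt_trichotomy m 1 with h | h | h
    · rw [gY0_dn hF i m (by omega), (AA q).pd_X, (AA q).pd_X]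
      congr 1
      simp only [Sum.inr.injEq, Prod.mk.injEq, eq_iff_iff]
      constructor
      · rintro ⟨rfl, rfl⟩; exact ⟨rfl, by ring⟩
      · rintro ⟨rfl, rfl⟩; exact ⟨rfl, by ring⟩
    · subst h
      rw [gY0_1, gF_dep hF i j k (by omega) (by omega) (by omega), (AA q).pd_X, if_neg]
      intro h
      simp only [Sum.inr.injEq, Prod.mk.injEq] at h
      omega
    · rw [gY0_high hF i m (by omega), map_zero, (AA q).pd_X, if_neg]
      intro h
      simp only [Sum.inr.injEq, Prod.mk.injEq] at h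
      omega

lemma FX_succ (i : Fin N) (l : ℕ) : FX F q hF i (l + 1) = gX0 F q hF (FX F q hF i l) :=
  Function.iterate_succ_apply' _ _ _

lemma FY_succ (i : Fin N) (l : ℕ) : FY F q hF i (l + 1) = gY0 F q hF (FY F q hF i l) :=
  Function.iterate_succ_apply' _ _ _

lemma FX_low (i j : Fin N) (l : ℕ) (k : ℤ) (hk : k ≤ -2) :
    (AA q).pd (vu j k) (FX F q hF i l) = 0 := by
  induction l with
  | zero => exact gF_dep hF i j k (by omega) (by omega) (by omega)
  | succ l ih =>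
    have h := congrArg (fun δ : Derivation 𝕜 (VV q) (VV q) => δ (FX F q hF i l))
      (pd_gX0_low hF j k hk)
    simp only [Derivation.commutator_apply, ih, map_zero, sub_zero, Derivation.zero_apply] at h
    rw [FX_succ]
    exact h

lemma FY_high (i j : Fin N) (l : ℕ) (k : ℤ) (hk : 2 ≤ k) :
    (AA q).pd (vu j k) (FY F q hF i l) = 0 := by
  induction l with
  | zero => exact gF_dep hF i j k (by omega) (by omega) (by omega)
  | succ l ih =>
    have h := congrArg (fun δ : Derivation 𝕜 (VV q) (VV q) => δ (FY F q hF i l))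
      (pd_gY0_high hF j k hk)
    simp only [Derivation.commutator_apply, ih, map_zero, sub_zero, Derivation.zero_apply] at h
    rw [FY_succ]
    exact h

lemma FY_low (i j : Fin N) : ∀ (l : ℕ) (k : ℤ), k < -(l : ℤ) - 1 →
    (AA q).pd (vu j k) (FY F q hF i l) = 0
  | 0, k, hk => gF_dep hF i j k (by omega) (by omega) (by omega)
  | l + 1, k, hk => by
    have ih1 := FY_low i j l k (by push_cast at hk; omega)
    have ih2 := FY_low i j l (k + 1) (by push_cast at hk; omega)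
    have h := congrArg (fun δ : Derivation 𝕜 (VV q) (VV q) => δ (FY F q hF i l))
      (pd_gY0_dn hF j k (by push_cast at hk; omega))
    simp only [Derivation.commutator_apply, ih1, map_zero, sub_zero, ih2] at h
    rw [FY_succ]
    exact h

lemma gX_m1 (i : Fin N) : gX F q hF ((AA q).X (vu i (-1))) = gF F q hF i := by
  have h := gX_neg hF i 0
  simp only [Nat.cast_zero, neg_zero, zero_sub] at h
  exact h

lemma gY_p1 (i : Fin N) : gY F q hF ((AA q).X (vu i 1)) = gF F q hF i := by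
  have h := gY_pos hF i 0
  simp only [Nat.cast_zero, zero_add] at h
  exact h

lemma gX_FX (i : Fin N) (l : ℕ) : gX F q hF (FX F q hF i l) = FX F q hF i (l + 1) := by
  rw [FX_succ]
  apply vf_eq_of (vf_gX hF) (vf_gX0 hF)
  rintro (b | ⟨j, k⟩)
  · exact Or.inl (gX_eq_gX0_inl hF b)
  · rcases lt_trichotomy k (-1) with h | h | h
    · exact Or.inr (FX_low hF i j l k (by omega))
    · subst h
      left
      rw [gX0_m1, gX_m1]
    · left
      rw [gX_up hF j k (by omega), gX0_up hF j k (by omega)]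

lemma gY_FY (i : Fin N) (l : ℕ) : gY F q hF (FY F q hF i l) = FY F q hF i (l + 1) := by
  rw [FY_succ]
  apply vf_eq_of (vf_gY hF) (vf_gY0 hF)
  rintro (b | ⟨j, k⟩)
  · exact Or.inl (gY_eq_gY0_inl hF b)
  · rcases lt_trichotomy k 1 with h | h | h
    · left
      rw [gY_dn hF j k (by omega), gY0_dn hF j k (by omega)]
    · subst h
      left
      rw [gY0_1, gY_p1]
    · exact Or.inr (FY_high hF i j l k (by omega))

lemma gX_gY : ⁅gX F q hF, gY F q hF⁆ = 0 := by
  refine VarAlg.IsVF.ext (A := AA q) ((vf_gX hF).lie (vf_gY hF)) VarAlg.isVF_zero ?_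
  rintro (b | ⟨i, k⟩)
  · rw [Derivation.commutator_apply]
    have h1 : ∃ c : 𝕜, gY F q hF ((AA q).X (Sum.inl b)) = algebraMap 𝕜 (VV q) c := by
      rw [gY_eq_gY0_inl]
      exact gY0_inl hF b
    obtain ⟨c, hc⟩ := h1
    obtain ⟨c', hc'⟩ := gX_inl hF b
    rw [hc, hc', Derivation.map_algebraMap, Derivation.map_algebraMap, sub_zero]
    rfl
  · rw [Derivation.commutator_apply]
    rcases lt_trichotomy k 0 with h | h | h
    · obtain ⟨l, rfl⟩ : ∃ l : ℕ, k = -(l : ℤ) - 1 := ⟨(-k - 1).toNat, by omega⟩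
      rw [gX_neg, gY_FY, gY_dn hF i _ (by omega)]
      have := gX_neg hF i (l + 1)
      have e : -((l + 1 : ℕ) : ℤ) - 1 = -(l : ℤ) - 1 - 1 := by push_cast; ring
      rw [e] at this
      rw [this, sub_self]
      rfl
    · subst h
      rw [gY_dn hF i 0 le_rfl, gX_up hF i 0 le_rfl]
      have h1 := gX_neg hF i 0
      have h2 := gY_pos hF i 0
      simp only [Nat.cast_zero, neg_zero, zero_sub, zero_add] at h1 h2 ⊢
      rw [h1, h2]
      have : FY F q hF i 0 = FX F q hF i 0 := rfl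
      rw [this, sub_self]
      rfl
    · obtain ⟨l, rfl⟩ : ∃ l : ℕ, k = (l : ℤ) + 1 := ⟨(k - 1).toNat, by omega⟩
      rw [gY_pos, gX_FX, gX_up hF i _ (by omega)]
      have := gY_pos hF i (l + 1)
      have e : ((l + 1 : ℕ) : ℤ) + 1 = (l : ℤ) + 1 + 1 := by push_cast; ring
      rw [e] at this
      rw [this, sub_self]
      rfl

variable (F q) in
/-- the system of total derivatives on germs at `q` -/
noncomputable def sysAt : Sys (AA q) where
  F := gF F q hF
  D := gX F q hF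
  Db := gY F q hF
  D_vf := vf_gX hF
  Db_vf := vf_gY hF
  comm := gX_gY hF
  D_x := by rw [gX_X]; rfl
  D_y := by rw [gX_X]; rfl
  Db_x := by rw [gY_X]; rfl
  Db_y := by rw [gY_X]; rfl
  D_up := gX_up hF
  Db_dn := gY_dn hF
  D_m1 := gX_m1 hF
  Db_1 := gY_p1 hF
  F_dep := fun i j k h0 h1 h2 => gF_dep hF i j k h0 h1 h2

end Germ

end Pool.Agent.Helper974.Hyp
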