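import Mathlib
import Pool.Agent.Helper974.Hyp

namespace Pool.Agent.Helper974.Hyp

open Filter Topology Matrix
open Pool.Agent.Helper974.JetGerm Pool.Agent.Helper974.Liou

variable {𝕜 : Type} [RCLike 𝕜] {N : ℕ}

section Rel

variable {F : Arg 𝕜 N → Fin N → 𝕜} {q : Jet 𝕜 N} (hF : AnalyticAt 𝕜 F (base q))

/-- `φ` is the germ of `f` -/
def RelG (f : Jet 𝕜 N → 𝕜) (φ : VV q) : Prop := φ.1 = (f : Germ (𝓝 q) 𝕜)

lemma relG_mk {f : Jet 𝕜 N → 𝕜} (h : IsFn q f) : RelG f (mk q f h) := rfl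

lemma RelG.isFn {f : Jet 𝕜 N → 𝕜} {φ : VV q} (h : RelG f φ) : IsFn q f := by
  obtain ⟨f', hf', rfl⟩ := exists_mk φ
  exact hf'.congr (Germ.coe_eq.1 h).symm

lemma RelG.eq_mk {f : Jet 𝕜 N → 𝕜} {φ : VV q} (h : RelG f φ) : φ = mk q f h.isFn :=
  Subtype.ext h

lemma RelG.eq_iff {f g : Jet 𝕜 N → 𝕜} {φ ψ : VV q} (h : RelG f φ) (h' : RelG g ψ) :
    φ = ψ ↔ f =ᶠ[𝓝 q] g := by
  rw [h.eq_mk, h'.eq_mk, mk_eq_mk]

lemma relG_zero : RelG (q := q) (0 : Jet 𝕜 N → 𝕜) 0 := rfl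
lemma relG_one : RelG (q := q) (1 : Jet 𝕜 N → 𝕜) 1 := rfl

lemma RelG.add {f g : Jet 𝕜 N → 𝕜} {φ ψ : VV q} (h : RelG f φ) (h' : RelG g ψ) :
    RelG (f + g) (φ + ψ) := by
  show φ.1 + ψ.1 = _
  rw [h, h']
  rfl

lemma RelG.mul {f g : Jet 𝕜 N → 𝕜} {φ ψ : VV q} (h : RelG f φ) (h' : RelG g ψ) :
    RelG (f * g) (φ * ψ) := by
  show φ.1 * ψ.1 = _
  rw [h, h']
  rfl

lemma RelG.neg {f : Jet 𝕜 N → 𝕜} {φ : VV q} (h : RelG f φ) : RelG (-f) (-φ) := by
  show -φ.1 = _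
  rw [h]
  rfl

lemma RelG.sub {f g : Jet 𝕜 N → 𝕜} {φ ψ : VV q} (h : RelG f φ) (h' : RelG g ψ) :
    RelG (f - g) (φ - ψ) := by
  rw [sub_eq_add_neg, sub_eq_add_neg]
  exact h.add h'.neg

lemma RelG.sum {κ : Type} (s : Finset κ) {f : κ → Jet 𝕜 N → 𝕜} {φ : κ → VV q}
    (h : ∀ i ∈ s, RelG (f i) (φ i)) : RelG (∑ i ∈ s, f i) (∑ i ∈ s, φ i) := by
  classical
  induction s using Finset.induction_on with
  | empty => simpa using relG_zero
  | insert i s hi ih =>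
    rw [Finset.sum_insert hi, Finset.sum_insert hi]
    exact (h i (Finset.mem_insert_self _ _)).add (ih fun j hj => h j (Finset.mem_insert_of_mem hj))

lemma RelG.dx {f : Jet 𝕜 N → 𝕜} {φ : VV q} (h : RelG f φ) : RelG (DX F f) (gX F q hF φ) := by
  rw [h.eq_mk]
  unfold gX
  rw [← mk_along (isFn_compX hF) h.isFn]
  rfl

lemma RelG.dy {f : Jet 𝕜 N → 𝕜} {φ : VV q} (h : RelG f φ) : RelG (DY F f) (gY F q hF φ) := by
  rw [h.eq_mk]
  unfold gY
  rw [← mk_along (isFn_compY hF) h.isFn]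
  rfl

lemma RelG.pd {f : Jet 𝕜 N → 𝕜} {φ : VV q} (h : RelG f φ) (a : Var N) :
    RelG (pdf a f) ((AA q).pd a φ) := by
  rw [h.eq_mk]
  rfl

/-- vectors of germs -/
def RelV (f : Fin N → Jet 𝕜 N → 𝕜) (φ : Fin N → VV q) : Prop := ∀ i, RelG (f i) (φ i)

/-- matrices of germs -/
def RelM (M : MatF 𝕜 N) (Φ : Matrix (Fin N) (Fin N) (VV q)) : Prop :=
  ∀ i j, RelG (M i j) (Φ i j)

lemma RelM.add {M M' : MatF 𝕜 N} {Φ Φ' : Matrix (Fin N) (Fin N) (VV q)} (h : RelM M Φ)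
    (h' : RelM M' Φ') : RelM (M + M') (Φ + Φ') := fun i j => (h i j).add (h' i j)

lemma RelM.sub {M M' : MatF 𝕜 N} {Φ Φ' : Matrix (Fin N) (Fin N) (VV q)} (h : RelM M Φ)
    (h' : RelM M' Φ') : RelM (M - M') (Φ - Φ') := fun i j => (h i j).sub (h' i j)

lemma RelM.neg {M : MatF 𝕜 N} {Φ : Matrix (Fin N) (Fin N) (VV q)} (h : RelM M Φ) :
    RelM (-M) (-Φ) := fun i j => (h i j).neg

lemma RelM.transpose {M : MatF 𝕜 N} {Φ : Matrix (Fin N) (Fin N) (VV q)} (h : RelM M Φ) :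
    RelM Mᵀ Φᵀ := fun i j => h j i

lemma RelM.mul {M M' : MatF 𝕜 N} {Φ Φ' : Matrix (Fin N) (Fin N) (VV q)} (h : RelM M Φ)
    (h' : RelM M' Φ') : RelM (M * M') (Φ * Φ') := by
  intro i j
  rw [Matrix.mul_apply, Matrix.mul_apply]
  exact RelG.sum _ fun k _ => (h i k).mul (h' k j)

lemma RelM.mulVec {M : MatF 𝕜 N} {Φ : Matrix (Fin N) (Fin N) (VV q)} (h : RelM M Φ)
    {f : Fin N → Jet 𝕜 N → 𝕜} {φ : Fin N → VV q} (h' : RelV f φ) : RelV (M *ᵥ f) (Φ *ᵥ φ) := by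
  intro i
  exact RelG.sum _ fun k _ => (h i k).mul (h' k)

lemma RelM.dx {M : MatF 𝕜 N} {Φ : Matrix (Fin N) (Fin N) (VV q)} (h : RelM M Φ) :
    RelM (M.map (DX F)) (Φ.map (gX F q hF)) := fun i j => (h i j).dx hF

lemma RelM.dy {M : MatF 𝕜 N} {Φ : Matrix (Fin N) (Fin N) (VV q)} (h : RelM M Φ) :
    RelM (M.map (DY F)) (Φ.map (gY F q hF)) := fun i j => (h i j).dy hF

lemma RelM.eq_iff {M M' : MatF 𝕜 N} {Φ Φ' : Matrix (Fin N) (Fin N) (VV q)} (h : RelM M Φ)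
    (h' : RelM M' Φ') : Φ = Φ' ↔ Near q M M' := by
  constructor
  · rintro rfl i j
    exact ((h i j).eq_iff (h' i j)).1 rfl
  · intro e
    ext1 i j
    exact ((h i j).eq_iff (h' i j)).2 (e i j)

lemma relM_zero : RelM (q := q) (0 : MatF 𝕜 N) 0 := fun _ _ => relG_zero

lemma relM_aM : RelM (aM F) (sysAt F q hF).a := fun i _ => (RelG.pd (relG_mk (isFn_rhs hF i)) _).neg
lemma relM_bM : RelM (bM F) (sysAt F q hF).b := fun i _ => (RelG.pd (relG_mk (isFn_rhs hF i)) _).neg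
lemma relM_cM : RelM (cM F) (sysAt F q hF).c := fun i _ => (RelG.pd (relG_mk (isFn_rhs hF i)) _).neg

/-- invariance of the kernel, for germs -/
lemma KerInv.germ {δ : (Jet 𝕜 N → 𝕜) → Jet 𝕜 N → 𝕜} {m Z : MatF 𝕜 N} (h : KerInv q δ m Z)
    {Δ : Derivation 𝕜 (VV q) (VV q)} (hδ : ∀ f φ, RelG f φ → RelG (δ f) (Δ φ))
    {μ ζ : Matrix (Fin N) (Fin N) (VV q)} (hm : RelM m μ) (hZ : RelM Z ζ) (v : Fin N → VV q)
    (h0 : ζ *ᵥ v = 0) : ζ *ᵥ (dv Δ v + μ *ᵥ v) = 0 := by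
  choose f hf hv using fun i => exists_mk (v i)
  have hr : RelV f v := fun i => by rw [hv i]; exact relG_mk (hf i)
  have h1 : ∀ i, (Z *ᵥ f) i =ᶠ[𝓝 q] 0 := by
    intro i
    have h2 := ((hZ.mulVec hr) i).eq_iff relG_zero
    exact h2.1 (congrFun h0 i)
  have h3 := h f hf h1
  funext i
  have h4 : RelV (fun j => δ (f j) + (m *ᵥ f) j) (dv Δ v + μ *ᵥ v) := fun j =>
    (hδ _ _ (hr j)).add (hm.mulVec hr j)
  exact (((hZ.mulVec h4) i).eq_iff relG_zero).2 (h3 i)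

end Rel

section Up

variable {F : Arg 𝕜 N → Fin N → 𝕜} {p : Jet 𝕜 N} (hF : AnalyticAt 𝕜 F (base p))
  {A : ℕ → MatF 𝕜 N} (hA : ChainUp F p A)

/-- germs of the `a_k` -/
noncomputable def gam : ℕ → Matrix (Fin N) (Fin N) (VV p)
  | 0 => (sysAt F p hF).a
  | k + 1 => fun i j => mk p (A (k + 1) i j) (hA.fn (k + 1) i j)

/-- germs of the `H_k` -/
noncomputable def gH : ℕ → Matrix (Fin N) (Fin N) (VV p)
  | 0 => 0
  | 1 => (sysAt F p hF).a.map (gX F p hF) + (sysAt F p hF).b * (sysAt F p hF).a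
      - (sysAt F p hF).c
  | k + 2 => (gam hF hA (k + 1)).map (gX F p hF) - (sysAt F p hF).b.map (gY F p hF)
      + (sysAt F p hF).b * gam hF hA (k + 1) - gam hF hA (k + 1) * (sysAt F p hF).b
      + gH (k + 1)

/-- germs of the `Z_k` -/
noncomputable def gZ : ℕ → Matrix (Fin N) (Fin N) (VV p)
  | 0 => 1
  | k + 1 => gH hF hA (k + 1) * gZ k

lemma relM_gam (k : ℕ) : RelM (A (k + 1)) (gam hF hA (k + 1)) := fun i j =>
  relG_mk (hA.fn (k + 1) i j)

lemma relM_gH (k : ℕ) : RelM (HP F A k) (gH hF hA (k + 1)) := by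
  induction k with
  | zero => exact (((relM_aM hF).dx hF).add ((relM_bM hF).mul (relM_aM hF))).sub (relM_cM hF)
  | succ k ih =>
    have h := ((((relM_gam hF hA k).dx hF).add ((relM_bM hF).mul (relM_gam hF hA k))).sub
      ((relM_bM hF).dy hF)).sub ((relM_gam hF hA k).mul (relM_bM hF))
    have h2 := h.add ih
    have e : gH hF hA (k + 1 + 1) = (gam hF hA (k + 1)).map (gX F p hF)
        + (sysAt F p hF).b * gam hF hA (k + 1) - (sysAt F p hF).b.map (gY F p hF)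
        - gam hF hA (k + 1) * (sysAt F p hF).b + gH hF hA (k + 1) := by
      rw [gH]
      abel
    rw [e]
    exact h2

lemma relM_gZ (k : ℕ) : RelM (ZP F A k) (gZ hF hA (k + 1)) := by
  induction k with
  | zero =>
    have e : gZ hF hA 1 = gH hF hA 1 := by rw [gZ, gZ, mul_one]
    rw [e]
    exact relM_gH hF hA 0
  | succ k ih => exact (relM_gH hF hA (k + 1)).mul ih

/-- the chain of germs -/
noncomputable def gChain : (sysAt F p hF).Chain where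
  am := gam hF hA
  H := gH hF hA
  Z := gZ hF hA
  am_zero := rfl
  H_one := rfl
  H_succ := fun k => rfl
  Z_zero := rfl
  Z_succ := fun k => rfl
  rel := by
    intro k
    cases k with
    | zero =>
      show (1 : Matrix (Fin N) (Fin N) (VV p)).map (gY F p hF) + (sysAt F p hF).a * 1
        = 1 * (sysAt F p hF).a
      have h : (1 : Matrix (Fin N) (Fin N) (VV p)).map (gY F p hF) = 0 := by
        ext1 i j
        rw [map_apply, one_apply]
        split_ifs <;> simp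
      rw [h, zero_add, mul_one, one_mul]
    | succ k =>
      have h1 := ((relM_gZ hF hA k).dy hF).add ((relM_gam hF hA k).mul (relM_gZ hF hA k))
      have h2 := (relM_gZ hF hA k).mul (relM_aM hF)
      exact (h1.eq_iff h2).2 fun i j => (hA.rel k i j).symm
  inv := by
    intro k v hv
    cases k with
    | zero =>
      have h1 : v = 0 := by
        have : v ᵥ* (1 : Matrix (Fin N) (Fin N) (VV p)) = 0 := hv
        rwa [vecMul_one] at this
      subst h1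
      have h2 : dv (sysAt F p hF).D (0 : Fin N → VV p) = 0 := by funext i; simp [dv]
      rw [h2, zero_vecMul, sub_zero, zero_vecMul]
    | succ k =>
      have h1 := (hA.invT k).germ (Δ := gX F p hF) (fun f φ h => h.dx hF)
        (relM_bM hF).transpose.neg (relM_gZ hF hA k).transpose v
        (by rw [mulVec_transpose]; exact hv)
      rw [neg_mulVec, mulVec_transpose, mulVec_transpose, ← sub_eq_add_neg] at h1
      exact h1

end Up

end Pool.Agent.Helper974.Hyp
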