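import Mathlib

namespace Pool.Agent.Helper974.Liou

open Matrix

/-- a maximal nonvanishing minor of a family of rows -/
theorem exists_minor {V K C : Type} [CommRing V] [IsDomain V] [Fintype C] (g : K → C → V) :
    ∃ (ρ : ℕ) (α : Fin ρ → K) (I : Fin ρ → C),
      (Matrix.of fun a b => g (α a) (I b)).det ≠ 0 ∧
      ∀ κ c, (Matrix.of fun a b => g (α a) (I b)).det * g κ c =
        ∑ a, ((fun b => g κ (I b)) ᵥ* (Matrix.of fun a b => g (α a) (I b)).adjugate) a
          * g (α a) c := by
  classical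
  let P : ℕ → Prop := fun ρ => ∃ (α : Fin ρ → K) (I : Fin ρ → C),
    (Matrix.of fun a b => g (α a) (I b)).det ≠ 0
  have hP0 : P 0 := ⟨Fin.elim0, Fin.elim0, by simp⟩
  have hPle : ∀ ρ, P ρ → ρ ≤ Fintype.card C := by
    rintro ρ ⟨α, I, h⟩
    have hI : Function.Injective I := by
      intro a b hab
      by_contra hne
      apply h
      apply Matrix.det_zero_of_column_eq hne
      intro k
      simp [hab]
    simpa using Fintype.card_le_of_injective I hI
  let ρ := Nat.findGreatest P (Fintype.card C)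
  have hρ : P ρ := Nat.findGreatest_spec (P := P) (Nat.zero_le _) hP0
  have hρ1 : ¬ P (ρ + 1) := by
    intro h
    have h1 := Nat.le_findGreatest (hPle _ h) h
    have h2 : ρ + 1 ≤ ρ := h1
    omega
  obtain ⟨α, I, hdet⟩ := hρ
  refine ⟨ρ, α, I, hdet, ?_⟩
  intro κ c
  set G : Matrix (Fin ρ) (Fin ρ) V := Matrix.of fun a b => g (α a) (I b) with hG
  let α' : Fin (ρ + 1) → K := Fin.cons κ α
  let I' : Fin (ρ + 1) → C := Fin.cons c I
  have h0 : (Matrix.of fun a b => g (α' a) (I' b)).det = 0 := by
    by_contra h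
    exact hρ1 ⟨α', I', h⟩
  obtain ⟨w, hw, hw0⟩ := Matrix.exists_vecMul_eq_zero_iff.2 h0
  have e0 : w 0 * g κ c + ∑ a, w a.succ * g (α a) c = 0 := by
    have := congrFun hw0 0
    simpa [vecMul, dotProduct, Fin.sum_univ_succ, α', I'] using this
  have e1 : ∀ b, w 0 * g κ (I b) + ∑ a, w (Fin.succ a) * G a b = 0 := by
    intro b
    have := congrFun hw0 b.succ
    simpa [vecMul, dotProduct, Fin.sum_univ_succ, α', I', hG] using this
  set w' : Fin ρ → V := fun a => w a.succ with hw'
  have e2 : w 0 • (fun b => g κ (I b)) = -(w' ᵥ* G) := by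
    funext b
    have := e1 b
    simp only [Pi.smul_apply, smul_eq_mul, Pi.neg_apply, vecMul, dotProduct, hw']
    linear_combination this
  have hw00 : w 0 ≠ 0 := by
    intro h
    apply hw
    rw [h, zero_smul] at e2
    have e3 : w' ᵥ* G = 0 := by
      rw [eq_comm, neg_eq_zero] at e2
      exact e2
    have e4 := Matrix.eq_zero_of_vecMul_eq_zero hdet e3
    funext i
    refine Fin.cases ?_ (fun a => ?_) i
    · exact h
    · exact congrFun e4 a
  have e5 : w 0 • ((fun b => g κ (I b)) ᵥ* G.adjugate) = -(G.det • w') := by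
    rw [← smul_vecMul, e2, neg_vecMul, vecMul_vecMul, mul_adjugate, vecMul_smul, vecMul_one]
  apply mul_left_cancel₀ hw00
  rw [Finset.mul_sum]
  have e6 : ∀ a, w 0 * (((fun b => g κ (I b)) ᵥ* G.adjugate) a * g (α a) c)
      = -(G.det * (w a.succ * g (α a) c)) := by
    intro a
    have := congrFun e5 a
    simp only [Pi.smul_apply, smul_eq_mul, Pi.neg_apply, hw'] at this
    linear_combination (g (α a) c) * this
  rw [Finset.sum_congr rfl fun a _ => e6 a, Finset.sum_neg_distrib, ← Finset.mul_sum]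
  linear_combination G.det * e0

end Pool.Agent.Helper974.Liou
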