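import Mathlib
import Pool.Agent.Helper974.HypChain
import Pool.Agent.Helper974.Minor

namespace Pool.Agent.Helper974.Hyp

open Filter Topology Matrix
open Pool.Agent.Helper974.JetGerm Pool.Agent.Helper974.Liou

variable {𝕜 : Type} [RCLike 𝕜] {N : ℕ}

section Gen
variable {V : Type} [CommRing V] [Algebra 𝕜 V]

lemma jac (D E G : Derivation 𝕜 V V) : ⁅D, ⁅E, G⁆⁆ = ⁅⁅D, E⁆, G⁆ + ⁅E, ⁅D, G⁆⁆ :=
  leibniz_lie _ _ _

lemma zlie (D : Derivation 𝕜 V V) : ⁅(0 : Derivation 𝕜 V V), D⁆ = 0 := zero_lie _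

lemma liez (D : Derivation 𝕜 V V) : ⁅D, (0 : Derivation 𝕜 V V)⁆ = 0 := lie_zero _

end Gen

/-- components of `D` truncated at order `r` in `y` -/
noncomputable def compXr (F : Arg 𝕜 N → Fin N → 𝕜) (r : ℕ) : Var N → Jet 𝕜 N → 𝕜
  | Sum.inl b => compX F (Sum.inl b)
  | Sum.inr (i, k) => if k < -(r : ℤ) then fun _ => 0 else compX F (Sum.inr (i, k))

section

variable {F : Arg 𝕜 N → Fin N → 𝕜} {q : Jet 𝕜 N} (hF : AnalyticAt 𝕜 F (base q)) (r : ℕ)

include hF in
lemma isFn_compXr : ∀ a, IsFn q (compXr F r a)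
  | Sum.inl b => isFn_compX hF _
  | Sum.inr (i, k) => by
    simp only [compXr]
    split_ifs
    · exact isFn_const 0
    · exact isFn_compX hF _

variable (F q) in
/-- truncated total derivative on germs -/
noncomputable def gXr : Derivation 𝕜 (VV q) (VV q) :=
  (AA q).tot fun a => mk q (compXr F r a) (isFn_compXr hF r a)

lemma vf_gXr : (AA q).IsVF (gXr F q hF r) := VarAlg.isVF_tot _

lemma gXr_X (a : Var N) :
    gXr F q hF r ((AA q).X a) = mk q (compXr F r a) (isFn_compXr hF r a) := VarAlg.tot_X _ _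

lemma gXr_inl (b : Bool) : gXr F q hF r ((AA q).X (Sum.inl b)) = gX F q hF ((AA q).X (Sum.inl b)) := by
  rw [gXr_X, gX_X]
  rfl

lemma gXr_eq (i : Fin N) (k : ℤ) (hk : -(r : ℤ) ≤ k) :
    gXr F q hF r ((AA q).X (vu i k)) = gX F q hF ((AA q).X (vu i k)) := by
  rw [gXr_X, gX_X]
  apply (mk_eq_mk _ _).2
  refine Eventually.of_forall fun q' => ?_
  have h : ¬ k < -(r : ℤ) := not_lt.2 hk
  simp [compXr, h]

lemma gXr_big (i : Fin N) (k : ℤ) (hk : k < -(r : ℤ)) :
    gXr F q hF r ((AA q).X (vu i k)) = 0 := by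
  rw [gXr_X]
  apply (mk_eq_mk _ (isFn_const 0)).2
  refine Eventually.of_forall fun q' => ?_
  simp [compXr, hk]

/-- no dependence on `y`-derivatives of order greater than `r` -/
def Pr (f : VV q) : Prop := ∀ (i : Fin N) (k : ℤ), k < -(r : ℤ) → (AA q).pd (vu i k) f = 0

lemma pd_lie_gXr (i : Fin N) (k : ℤ) (hk : k < -(r : ℤ)) :
    ⁅(AA q).pd (vu i k), gXr F q hF r⁆ = 0 := by
  refine VarAlg.IsVF.ext (A := AA q) ((VarAlg.isVF_pd _).lie (vf_gXr hF r)) VarAlg.isVF_zero ?_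
  rintro (b | ⟨j, m⟩)
  · rw [pd_lie_X, gXr_inl]
    obtain ⟨c, hc⟩ := gX_inl hF b
    rw [hc, Derivation.map_algebraMap]
    rfl
  · rw [pd_lie_X]
    rcases lt_or_ge m (-(r : ℤ)) with h | h
    · rw [gXr_big hF r j m h, map_zero]
      rfl
    · rw [gXr_eq hF r j m h]
      rcases lt_or_ge m 0 with h0 | h0
      · obtain ⟨l, rfl⟩ : ∃ l : ℕ, m = -(l : ℤ) - 1 := ⟨(-m - 1).toNat, by omega⟩
        rw [gX_neg, FY_low hF j i l k (by omega)]
        rfl
      · rw [gX_up hF j m h0, (AA q).pd_X, if_neg]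
        · rfl
        · intro h
          simp only [Sum.inr.injEq, Prod.mk.injEq] at h
          omega

lemma gXr_of_Pr {f : VV q} (hf : Pr r f) : gXr F q hF r f = gX F q hF f := by
  apply vf_eq_of (vf_gXr hF r) (vf_gX hF)
  rintro (b | ⟨j, m⟩)
  · exact Or.inl (gXr_inl hF r b)
  · rcases lt_or_ge m (-(r : ℤ)) with h | h
    · exact Or.inr (hf j m h)
    · exact Or.inl (gXr_eq hF r j m h)

variable (F q) in
/-- the truncated structure -/
noncomputable def truncAt : Trunc (AA q) r where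
  Δ := gXr F q hF r
  vf := vf_gXr hF r
  Δ_inl := fun b => by
    rw [gXr_inl]
    exact gX_inl hF b
  Δ_up := fun i k hk => by
    rw [gXr_eq hF r i k (by omega)]
    exact gX_up hF i k hk
  Δ_dn := fun i l hl j k hk => by
    rcases lt_or_ge l (-(r : ℤ)) with h | h
    · rw [gXr_big hF r i l h, map_zero]
    · rw [gXr_eq hF r i l h]
      obtain ⟨l, rfl⟩ : ∃ l' : ℕ, l = -(l' : ℤ) - 1 := ⟨(-l - 1).toNat, by omega⟩
      rw [gX_neg]
      exact FY_high hF i j l k hk

variable (F q) in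
/-- iterated brackets `[Δ, [Δ, … ∂/∂u_1^j]]` -/
noncomputable def xi (j : Fin N) : ℕ → Derivation 𝕜 (VV q) (VV q)
  | 0 => (AA q).pd (vu j 1)
  | m + 1 => ⁅gXr F q hF r, xi j m⁆

lemma vf_xi (j : Fin N) (m : ℕ) : (AA q).IsVF (xi F q hF r j m) := by
  induction m with
  | zero => exact VarAlg.isVF_pd _
  | succ m ih => exact (vf_gXr hF r).lie ih

lemma pd_lie_pd (v w : Var N) : ⁅(AA q).pd v, (AA q).pd w⁆ = 0 := by
  ext f
  rw [Derivation.commutator_apply, (AA q).pd_comm, sub_self]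
  rfl

lemma pd_lie_xi (i : Fin N) (k : ℤ) (hk : k < -(r : ℤ)) (j : Fin N) (m : ℕ) :
    ⁅(AA q).pd (vu i k), xi F q hF r j m⁆ = 0 := by
  induction m with
  | zero => exact pd_lie_pd _ _
  | succ m ih =>
    show ⁅(AA q).pd (vu i k), ⁅gXr F q hF r, xi F q hF r j m⁆⁆ = 0
    rw [jac, pd_lie_gXr hF r i k hk, ih, zlie, liez, add_zero]

lemma Pr_of_lie {δ : Derivation 𝕜 (VV q) (VV q)}
    (h : ∀ (i : Fin N) (k : ℤ), k < -(r : ℤ) → ⁅(AA q).pd (vu i k), δ⁆ = 0) {f : VV q}
    (hf : Pr r f) : Pr r (δ f) := by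
  intro i k hk
  have h1 := congrArg (fun D : Derivation 𝕜 (VV q) (VV q) => D f) (h i k hk)
  simp only [Derivation.commutator_apply, hf i k hk, map_zero, sub_zero,
    Derivation.zero_apply] at h1
  exact h1

lemma Pr_xi {f : VV q} (hf : Pr r f) (j : Fin N) (m : ℕ) : Pr r (xi F q hF r j m f) :=
  Pr_of_lie r (fun i k hk => pd_lie_xi hF r i k hk j m) hf

lemma Pr_xi_X (v : Var N) (j : Fin N) (m : ℕ) : Pr r (xi F q hF r j m ((AA q).X v)) := by
  intro i k hk
  have h1 := congrArg (fun D : Derivation 𝕜 (VV q) (VV q) => D ((AA q).X v))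
    (pd_lie_xi hF r i k hk j m)
  simp only [Derivation.commutator_apply, Derivation.zero_apply] at h1
  have h2 : xi F q hF r j m ((AA q).pd (vu i k) ((AA q).X v)) = 0 := by
    rw [(AA q).pd_X]
    split_ifs <;> simp
  rw [h2, sub_zero] at h1
  exact h1

/-- the full iterates agree with the truncated ones -/
lemma it_eq_xi (j : Fin N) : ∀ (m : ℕ) (f : VV q), Pr r f →
    (Sys.Chain.it (S := sysAt F q hF) j m).1 f = xi F q hF r j m f
  | 0, f, _ => rfl
  | m + 1, f, hf => by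
    show ⁅gX F q hF, (Sys.Chain.it (S := sysAt F q hF) j m).1⁆ f = ⁅gXr F q hF r, xi F q hF r j m⁆ f
    have h1 : Pr r (gXr F q hF r f) := Pr_of_lie r (fun i k hk => pd_lie_gXr hF r i k hk) hf
    rw [Derivation.commutator_apply, Derivation.commutator_apply, it_eq_xi j m f hf,
      gXr_of_Pr hF r (Pr_xi hF r hf j m), ← gXr_of_Pr hF r hf, it_eq_xi j m _ h1]

lemma Pr_X (i : Fin N) (k : ℤ) (hk : -(r : ℤ) ≤ k) : Pr r ((AA q).X (vu i k)) := by
  intro j m hm
  rw [(AA q).pd_X, if_neg]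
  intro h
  simp only [Sum.inr.injEq, Prod.mk.injEq] at h
  omega

/-- the iterates move only `u` and its `y`-derivatives up to order `r` -/
lemma xi_out (j : Fin N) : ∀ (m : ℕ) (v : Var N), ¬ EVar N r v →
    xi F q hF r j (m + 1) ((AA q).X v) = 0 := by
  have key : ∀ v : Var N, ¬ EVar N r v → (∃ c : 𝕜, gXr F q hF r ((AA q).X v)
      = algebraMap 𝕜 (VV q) c) ∨ ∃ i : Fin N, ∃ k : ℤ, 1 ≤ k ∧ v = vu i k := by
    rintro (b | ⟨i, k⟩) hv
    · left
      rw [gXr_inl]
      exact gX_inl hF b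
    · rcases lt_or_ge k 1 with h | h
      · left
        refine ⟨0, ?_⟩
        rw [map_zero]
        apply gXr_big
        by_contra h2
        apply hv
        refine ⟨i, (-k).toNat, by omega, ?_⟩
        congr 2
        omega
      · exact Or.inr ⟨i, k, h, rfl⟩
  intro m
  induction m with
  | zero =>
    intro v hv
    show ⁅gXr F q hF r, (AA q).pd (vu j 1)⁆ ((AA q).X v) = 0
    rw [Derivation.commutator_apply, (AA q).pd_X]
    have h0 : gXr F q hF r (if vu j 1 = v then 1 else 0) = 0 := by split_ifs <;> simp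
    rw [h0, zero_sub, neg_eq_zero]
    rcases key v hv with ⟨c, hc⟩ | ⟨i, k, hk, rfl⟩
    · rw [hc, Derivation.map_algebraMap]
    · rw [gXr_eq hF r i k (by omega), gX_up hF i k (by omega), (AA q).pd_X, if_neg]
      intro h
      simp only [Sum.inr.injEq, Prod.mk.injEq] at h
      omega
  | succ m ih =>
    intro v hv
    show ⁅gXr F q hF r, xi F q hF r j (m + 1)⁆ ((AA q).X v) = 0
    rw [Derivation.commutator_apply, ih v hv, map_zero, zero_sub, neg_eq_zero]
    rcases key v hv with ⟨c, hc⟩ | ⟨i, k, hk, rfl⟩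
    · rw [hc, Derivation.map_algebraMap]
    · rw [gXr_eq hF r i k (by omega), gX_up hF i k (by omega)]
      apply ih
      rintro ⟨i', l, hl, h⟩
      simp only [Sum.inr.injEq, Prod.mk.injEq] at h
      omega

end

/-! ### the components as functions -/

/-- components of the iterated brackets, as functions -/
noncomputable def Gf (F : Arg 𝕜 N → Fin N → 𝕜) (r : ℕ) (j : Fin N) : ℕ → Var N → Jet 𝕜 N → 𝕜
  | 0 => fun v _ => if vu j 1 = v then 1 else 0
  | m + 1 => fun v => along (compXr F r) (Gf F r j m v) - along (Gf F r j m) (compXr F r v)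

section

variable {F : Arg 𝕜 N → Fin N → 𝕜} {q : Jet 𝕜 N} (hF : AnalyticAt 𝕜 F (base q)) (r : ℕ)

lemma relG_along {c : Var N → Jet 𝕜 N → 𝕜} {δ : Derivation 𝕜 (VV q) (VV q)}
    (hδ : (AA q).IsVF δ) (hc : ∀ a, RelG (c a) (δ ((AA q).X a))) {f : Jet 𝕜 N → 𝕜} {φ : VV q}
    (hf : RelG f φ) : RelG (along c f) (δ φ) := by
  have h1 : δ = (AA q).tot fun a => mk q (c a) (hc a).isFn := by
    refine VarAlg.IsVF.ext hδ (VarAlg.isVF_tot _) fun a => ?_
    rw [VarAlg.tot_X]
    exact (hc a).eq_mk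
  rw [h1, hf.eq_mk, ← mk_along (fun a => (hc a).isFn) hf.isFn]
  rfl

lemma relG_Gf (j : Fin N) : ∀ (m : ℕ) (v : Var N),
    RelG (Gf F r j m v) (xi F q hF r j m ((AA q).X v))
  | 0, v => by
    show RelG (fun _ => if vu j 1 = v then 1 else 0) ((AA q).pd (vu j 1) ((AA q).X v))
    rw [(AA q).pd_X]
    split_ifs
    · exact relG_one
    · exact relG_zero
  | m + 1, v => by
    show RelG (along (compXr F r) (Gf F r j m v) - along (Gf F r j m) (compXr F r v))
      (⁅gXr F q hF r, xi F q hF r j m⁆ ((AA q).X v))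
    rw [Derivation.commutator_apply]
    refine RelG.sub (relG_along (vf_gXr hF r) (fun a => ?_) (relG_Gf j m v))
      (relG_along (vf_xi hF r j m) (fun a => relG_Gf j m a) ?_)
    · rw [gXr_X]; exact relG_mk _
    · rw [gXr_X]; exact relG_mk _

end

end Pool.Agent.Helper974.Hyp
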