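import Mathlib
import Pool.Agent.Helper974.HypXi

namespace Pool.Agent.Helper974.Hyp

open Filter Topology Matrix
open Pool.Agent.Helper974.JetGerm Pool.Agent.Helper974.Liou

variable {𝕜 : Type} [RCLike 𝕜] {N : ℕ}

/-! ### determinants of germs -/

section Det

variable {q : Jet 𝕜 N} {ρ : ℕ}

lemma relG_det {M : Matrix (Fin ρ) (Fin ρ) (Jet 𝕜 N → 𝕜)} {Φ : Matrix (Fin ρ) (Fin ρ) (VV q)}
    (h : ∀ a b, RelG (M a b) (Φ a b)) : RelG M.det Φ.det := by
  have h1 := RingHom.map_det (VV q).subtype Φ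
  have h2 := RingHom.map_det (Germ.coeRingHom (𝓝 q) : (Jet 𝕜 N → 𝕜) →+* Germ (𝓝 q) 𝕜) M
  have h3 : (VV q).subtype.mapMatrix Φ
      = (Germ.coeRingHom (𝓝 q) : (Jet 𝕜 N → 𝕜) →+* Germ (𝓝 q) 𝕜).mapMatrix M := by
    ext1 a b
    exact h a b
  rw [h3, ← h2] at h1
  exact h1

lemma relG_adj {M : Matrix (Fin ρ) (Fin ρ) (Jet 𝕜 N → 𝕜)} {Φ : Matrix (Fin ρ) (Fin ρ) (VV q)}
    (h : ∀ a b, RelG (M a b) (Φ a b)) (a b : Fin ρ) : RelG (M.adjugate a b) (Φ.adjugate a b) := by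
  have h1 := RingHom.map_adjugate (VV q).subtype Φ
  have h2 := RingHom.map_adjugate (Germ.coeRingHom (𝓝 q) : (Jet 𝕜 N → 𝕜) →+* Germ (𝓝 q) 𝕜) M
  have h3 : (VV q).subtype.mapMatrix Φ
      = (Germ.coeRingHom (𝓝 q) : (Jet 𝕜 N → 𝕜) →+* Germ (𝓝 q) 𝕜).mapMatrix M := by
    ext1 a b
    exact h a b
  rw [h3, ← h2] at h1
  exact congrFun (congrFun h1 a) b

end Det

/-- the data of a maximal minor: rows `α`, columns `I` -/
structure Minor (N r : ℕ) where
  ρ : ℕ
  α : Fin ρ → Fin N × ℕ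
  I : Fin ρ → Fin N × Fin r

namespace Minor

variable {r : ℕ} (m : Minor N r)

/-- the pivot variables -/
def vI (b : Fin m.ρ) : Var N := vu (m.I b).1 (-(((m.I b).2 : ℕ) : ℤ))

/-- the minor, as a matrix of functions -/
noncomputable def Mf (F : Arg 𝕜 N → Fin N → 𝕜) : Matrix (Fin m.ρ) (Fin m.ρ) (Jet 𝕜 N → 𝕜) :=
  Matrix.of fun a b => Gf F r (m.α a).1 ((m.α a).2 + 1) (m.vI b)

/-- the coefficients of the linear relations, as functions -/
noncomputable def xf (F : Arg 𝕜 N → Fin N → 𝕜) (κ : Fin N × ℕ) : Fin m.ρ → Jet 𝕜 N → 𝕜 :=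
  (fun b => Gf F r κ.1 (κ.2 + 1) (m.vI b)) ᵥ* (m.Mf F).adjugate

/-- the minor, as a matrix of germs -/
noncomputable def Mg (F : Arg 𝕜 N → Fin N → 𝕜) (q : Jet 𝕜 N) (hF : AnalyticAt 𝕜 F (base q)) :
    Matrix (Fin m.ρ) (Fin m.ρ) (VV q) :=
  Matrix.of fun a b => xi F q hF r (m.α a).1 ((m.α a).2 + 1) ((AA q).X (m.vI b))

/-- the coefficients of the linear relations, as germs -/
noncomputable def xg (F : Arg 𝕜 N → Fin N → 𝕜) (q : Jet 𝕜 N) (hF : AnalyticAt 𝕜 F (base q))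
    (κ : Fin N × ℕ) : Fin m.ρ → VV q :=
  (fun b => xi F q hF r κ.1 (κ.2 + 1) ((AA q).X (m.vI b))) ᵥ* (m.Mg F q hF).adjugate

variable {F : Arg 𝕜 N → Fin N → 𝕜} {q : Jet 𝕜 N} (hF : AnalyticAt 𝕜 F (base q))

lemma rel_Mg (a b : Fin m.ρ) : RelG (m.Mf F a b) (m.Mg F q hF a b) := relG_Gf hF r _ _ _

lemma rel_xg (κ : Fin N × ℕ) (a : Fin m.ρ) : RelG (m.xf F κ a) (m.xg F q hF κ a) := by
  unfold xf xg vecMul dotProduct
  exact RelG.sum _ fun b _ => (relG_Gf hF r _ _ _).mul (relG_adj (m.rel_Mg hF) b a)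

/-- the linear relation for the row `κ`, as an identity of functions near `q` -/
def RelAt (F : Arg 𝕜 N → Fin N → 𝕜) (q : Jet 𝕜 N) (κ : Fin N × ℕ) : Prop :=
  ∀ (i : Fin N) (l : Fin (r + 1)),
    (m.Mf F).det * Gf F r κ.1 (κ.2 + 1) (vu i (-((l : ℕ) : ℤ))) =ᶠ[𝓝 q]
      ∑ a, m.xf F κ a * Gf F r (m.α a).1 ((m.α a).2 + 1) (vu i (-((l : ℕ) : ℤ)))

lemma relAt_iff (κ : Fin N × ℕ) : m.RelAt F q κ ↔ ∀ (i : Fin N) (l : ℕ), l ≤ r →
    (m.Mg F q hF).det * xi F q hF r κ.1 (κ.2 + 1) ((AA q).X (vu i (-(l : ℤ)))) =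
      ∑ a, m.xg F q hF κ a * xi F q hF r (m.α a).1 ((m.α a).2 + 1)
        ((AA q).X (vu i (-(l : ℤ)))) := by
  have key : ∀ (i : Fin N) (l : ℕ), ((m.Mg F q hF).det * xi F q hF r κ.1 (κ.2 + 1)
      ((AA q).X (vu i (-(l : ℤ)))) = ∑ a, m.xg F q hF κ a * xi F q hF r (m.α a).1
        ((m.α a).2 + 1) ((AA q).X (vu i (-(l : ℤ))))) ↔
      (m.Mf F).det * Gf F r κ.1 (κ.2 + 1) (vu i (-(l : ℤ))) =ᶠ[𝓝 q]
        ∑ a, m.xf F κ a * Gf F r (m.α a).1 ((m.α a).2 + 1) (vu i (-(l : ℤ))) := by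
    intro i l
    exact ((relG_det (m.rel_Mg hF)).mul (relG_Gf hF r _ _ _)).eq_iff
      (RelG.sum _ fun a _ => (m.rel_xg hF κ a).mul (relG_Gf hF r _ _ _))
  constructor
  · intro h i l hl
    exact (key i l).2 (h i ⟨l, by omega⟩)
  · intro h i l
    exact (key i l).1 (h i l (by omega))

/-- the linear relation, as an identity of vector fields -/
lemma rel_der {κ : Fin N × ℕ} (h : m.RelAt F q κ) :
    (m.Mg F q hF).det • xi F q hF r κ.1 (κ.2 + 1)
      = ∑ a, m.xg F q hF κ a • xi F q hF r (m.α a).1 ((m.α a).2 + 1) := by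
  rw [m.relAt_iff hF] at h
  refine VarAlg.IsVF.ext (A := AA q) ((vf_xi hF r _ _).smul _)
    (VarAlg.IsVF.sum _ fun a _ => (vf_xi hF r _ _).smul _) ?_
  intro v
  rw [sum_der]
  simp only [Derivation.smul_apply, smul_eq_mul]
  by_cases hv : EVar N r v
  · obtain ⟨i, l, hl, rfl⟩ := hv
    exact h i l hl
  · rw [xi_out hF r _ _ v hv, mul_zero]
    exact (Finset.sum_eq_zero fun a _ => by rw [xi_out hF r _ _ v hv, mul_zero]).symm

end Minor

/-- **Existence of the minor**, from the vanishing of `Z_r`. -/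
theorem exists_minor_at {F : Arg 𝕜 N → Fin N → 𝕜} {p : Jet 𝕜 N}
    (hF : AnalyticAt 𝕜 F (base p)) (C : (sysAt F p hF).Chain) {r : ℕ} (hZ : C.Z r = 0) :
    ∃ m : Minor N r, ¬ ((m.Mf F).det =ᶠ[𝓝 p] 0) ∧ ∀ κ, m.RelAt F p κ := by
  obtain ⟨Ω, hΩ⟩ := C.top (r := r) hZ
  have hx : ∀ (j : Fin N) (n : ℕ) (i : Fin N) (l : ℕ), l ≤ r →
      (Sys.Chain.it (S := sysAt F p hF) j n).1 ((AA p).X (vu i (-(l : ℤ))))
        = xi F p hF r j n ((AA p).X (vu i (-(l : ℤ)))) := fun j n i l hl =>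
    it_eq_xi hF r j n _ (Pr_X r i _ (by omega))
  obtain ⟨ρ, α, I, hdet, hid⟩ := exists_minor (V := VV p) (K := Fin N × ℕ) (C := Fin N × Fin r)
    (fun κ c => xi F p hF r κ.1 (κ.2 + 1) ((AA p).X (vu c.1 (-((c.2 : ℕ) : ℤ)))))
  let m : Minor N r := ⟨ρ, α, I⟩
  refine ⟨m, ?_, ?_⟩
  · intro h
    apply hdet
    exact ((relG_det (m.rel_Mg hF)).eq_iff relG_zero).2 h
  · intro κ
    rw [m.relAt_iff hF]
    have hlow : ∀ (i : Fin N) (l : ℕ), l < r →
        (m.Mg F p hF).det * xi F p hF r κ.1 (κ.2 + 1) ((AA p).X (vu i (-(l : ℤ)))) =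
        ∑ a, m.xg F p hF κ a * xi F p hF r (m.α a).1 ((m.α a).2 + 1)
          ((AA p).X (vu i (-(l : ℤ)))) := fun i l hl => hid κ (i, ⟨l, hl⟩)
    intro i l hl
    rcases lt_or_eq_of_le hl with h | h
    · exact hlow i l h
    · rw [h]
      clear h hl
      -- the top row
      have htop : ∀ (j : Fin N) (n : ℕ), (fun i => xi F p hF r j n ((AA p).X (vu i (-(r : ℤ)))))
          = -∑ l' ∈ Finset.range r, Ω l' *ᵥ
            (fun i => xi F p hF r j n ((AA p).X (vu i (-(l' : ℤ))))) := by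
        intro j n
        have h1 := hΩ j n
        have h2 : (fun i => (Sys.Chain.it (S := sysAt F p hF) j n).1
            ((AA p).X (Sum.inr (i, -(r : ℤ))))) =
            fun i => xi F p hF r j n ((AA p).X (vu i (-(r : ℤ)))) :=
          funext fun i => hx j n i r le_rfl
        have h3 : ∑ l' ∈ Finset.range r, Ω l' *ᵥ (fun i =>
            (Sys.Chain.it (S := sysAt F p hF) j n).1 ((AA p).X (Sum.inr (i, -(l' : ℤ)))))
            = ∑ l' ∈ Finset.range r, Ω l' *ᵥ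
              (fun i => xi F p hF r j n ((AA p).X (vu i (-(l' : ℤ))))) := by
          refine Finset.sum_congr rfl fun l' hl' => ?_
          congr 1
          funext i
          exact hx j n i l' (Finset.mem_range.1 hl').le
        rw [h2, h3] at h1
        exact eq_neg_of_add_eq_zero_left h1
      have hv : (m.Mg F p hF).det • (fun i => xi F p hF r κ.1 (κ.2 + 1)
          ((AA p).X (vu i (-(r : ℤ))))) = ∑ a, m.xg F p hF κ a •
          (fun i => xi F p hF r (m.α a).1 ((m.α a).2 + 1) ((AA p).X (vu i (-(r : ℤ))))) := by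
        rw [htop]
        simp only [htop, smul_neg, Finset.sum_neg_distrib, Finset.smul_sum]
        rw [Finset.sum_comm]
        congr 1
        refine Finset.sum_congr rfl fun l' hl' => ?_
        have h4 : (m.Mg F p hF).det • (fun i => xi F p hF r κ.1 (κ.2 + 1)
          ((AA p).X (vu i (-(l' : ℤ))))) = ∑ a, m.xg F p hF κ a •
          (fun i => xi F p hF r (m.α a).1 ((m.α a).2 + 1) ((AA p).X (vu i (-(l' : ℤ))))) := by
          funext i
          have := hlow i l' (Finset.mem_range.1 hl')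
          simpa [Finset.sum_apply] using this
        rw [← mulVec_smul, h4, mulVec_sum]
        exact Finset.sum_congr rfl fun a _ => mulVec_smul _ _ _
      have := congrFun hv i
      simpa [Finset.sum_apply] using this

/-! ### the echelon basis near a good point -/

section EchAt

variable {F : Arg 𝕜 N → Fin N → 𝕜} {q : Jet 𝕜 N} (hF : AnalyticAt 𝕜 F (base q)) {r : ℕ}
  (m : Minor N r)

/-- `q` is a good point for the minor -/
structure GoodPt (F : Arg 𝕜 N → Fin N → 𝕜) (q : Jet 𝕜 N) {r : ℕ} (m : Minor N r) : Prop where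
  det : (m.Mf F).det q ≠ 0
  rel : ∀ a, m.RelAt F q ((m.α a).1, (m.α a).2 + 1)
  rel0 : ∀ j, m.RelAt F q (j, 0)

variable {m} (hq : GoodPt F q m)

include hq in
lemma isUnit_det : IsUnit (m.Mg F q hF).det := by
  apply isUnit_of_ev
  have h := (relG_det (m.rel_Mg hF)).eq_mk
  rw [h, ev_mk]
  exact hq.det

variable (m) in
/-- the echelon basis -/
noncomputable def es (a : Fin m.ρ) : Derivation 𝕜 (VV q) (VV q) :=
  ∑ b, (m.Mg F q hF)⁻¹ a b • xi F q hF r (m.α b).1 ((m.α b).2 + 1)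

lemma es_vf (a : Fin m.ρ) : (AA q).IsVF (es hF m a) :=
  VarAlg.IsVF.sum _ fun _ _ => (vf_xi hF r _ _).smul _

lemma es_apply (a : Fin m.ρ) (f : VV q) : es hF m a f =
    ∑ b, (m.Mg F q hF)⁻¹ a b * xi F q hF r (m.α b).1 ((m.α b).2 + 1) f := by
  unfold es
  rw [sum_der]
  rfl

lemma es_out (a : Fin m.ρ) (v : Var N) (hv : ¬ EVar N r v) : es hF m a ((AA q).X v) = 0 := by
  rw [es_apply]
  exact Finset.sum_eq_zero fun b _ => by rw [xi_out hF r _ _ v hv, mul_zero]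

include hq in
lemma es_piv (a b : Fin m.ρ) : es hF m a ((AA q).X (m.vI b)) = if a = b then 1 else 0 := by
  rw [es_apply]
  have h := congrFun (congrFun (Matrix.nonsing_inv_mul _ (isUnit_det hF hq)) a) b
  rw [Matrix.mul_apply, one_apply] at h
  exact h

include hq in
lemma xi_eq_es (a : Fin m.ρ) : xi F q hF r (m.α a).1 ((m.α a).2 + 1)
    = ∑ b, m.Mg F q hF a b • es hF m b := by
  have h := Matrix.mul_nonsing_inv _ (isUnit_det hF hq)
  unfold es
  simp only [Finset.smul_sum, smul_smul]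
  rw [Finset.sum_comm]
  simp only [← Finset.sum_smul]
  have h2 : ∀ c, ∑ b, m.Mg F q hF a b * (m.Mg F q hF)⁻¹ b c = if a = c then 1 else 0 := by
    intro c
    have h3 := congrFun (congrFun h a) c
    rw [Matrix.mul_apply, one_apply] at h3
    exact h3
  simp [h2]

variable (m) in
/-- the module spanned by the echelon basis -/
noncomputable def eM : Submodule (VV q) (Derivation 𝕜 (VV q) (VV q)) :=
  Submodule.span (VV q) (Set.range (es hF m))

include hq in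
lemma xi_mem (a : Fin m.ρ) : xi F q hF r (m.α a).1 ((m.α a).2 + 1) ∈ eM hF m := by
  rw [xi_eq_es hF hq]
  exact Submodule.sum_mem _ fun b _ => Submodule.smul_mem _ _ (Submodule.subset_span ⟨b, rfl⟩)

include hq in
lemma xi_mem_of_rel {κ : Fin N × ℕ} (h : m.RelAt F q κ) :
    xi F q hF r κ.1 (κ.2 + 1) ∈ eM hF m := by
  obtain ⟨u, hu⟩ := isUnit_det hF hq
  have h1 := m.rel_der hF h
  rw [← hu] at h1
  have h2 : xi F q hF r κ.1 (κ.2 + 1) = (↑u⁻¹ : VV q) •
      ∑ a, m.xg F q hF κ a • xi F q hF r (m.α a).1 ((m.α a).2 + 1) := by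
    rw [← h1, smul_smul, Units.inv_mul, one_smul]
  rw [h2]
  exact Submodule.smul_mem _ _ (Submodule.sum_mem _ fun a _ =>
    Submodule.smul_mem _ _ (xi_mem hF hq a))

lemma lie_sum' {V : Type} [CommRing V] [Algebra 𝕜 V] {κ : Type} (s : Finset κ)
    (D : Derivation 𝕜 V V) (f : κ → Derivation 𝕜 V V) : ⁅D, ∑ i ∈ s, f i⁆ = ∑ i ∈ s, ⁅D, f i⁆ :=
  lie_sum _ _ _

include hq in
lemma es_lieΔ (a : Fin m.ρ) : ⁅gXr F q hF r, es hF m a⁆ ∈ eM hF m := by
  have hb : ∀ b : Fin m.ρ, ⁅gXr F q hF r, xi F q hF r (m.α b).1 ((m.α b).2 + 1)⁆ ∈ eM hF m := by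
    intro b
    have h := xi_mem_of_rel hF hq (hq.rel b)
    have e : xi F q hF r (m.α b).1 ((m.α b).2 + 1 + 1)
        = ⁅gXr F q hF r, xi F q hF r (m.α b).1 ((m.α b).2 + 1)⁆ := rfl
    rw [← e]
    exact h
  unfold es
  rw [lie_sum']
  refine Submodule.sum_mem _ fun b _ => ?_
  rw [lie_smul']
  exact Submodule.add_mem _ (Submodule.smul_mem _ _ (xi_mem hF hq b))
    (Submodule.smul_mem _ _ (hb b))

lemma xi_iter (j : Fin N) (n : ℕ) : xi F q hF r j (n + 1)
    = -((fun η => ⁅gXr F q hF r, η⁆)^[n] ⁅(AA q).pd (vu j 1), gXr F q hF r⁆) := by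
  induction n with
  | zero =>
    show ⁅gXr F q hF r, (AA q).pd (vu j 1)⁆ = _
    ext f
    simp [Derivation.commutator_apply]
  | succ n ih =>
    rw [Function.iterate_succ_apply']
    show ⁅gXr F q hF r, xi F q hF r j (n + 1)⁆ = _
    rw [ih]
    ext f
    simp [Derivation.commutator_apply]
    ring

/-- the echelon structure at a good point -/
noncomputable def ech : Ech (truncAt F q hF r) (Fin m.ρ) where
  s := es hF m
  vf := es_vf hF
  out := es_out hF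
  I := m.vI
  I_E := fun a => ⟨(m.I a).1, (m.I a).2, (m.I a).2.2.le, rfl⟩
  piv := es_piv hF hq
  lieΔ := es_lieΔ hF hq
  lieY := fun j => by
    have h := xi_mem_of_rel hF hq (hq.rel0 j)
    have e : ⁅(AA q).pd (vu j 1), gXr F q hF r⁆ = -xi F q hF r j 1 := by
      show _ = -⁅gXr F q hF r, (AA q).pd (vu j 1)⁆
      ext f
      simp [Derivation.commutator_apply]
    show ⁅(AA q).pd (vu j 1), gXr F q hF r⁆ ∈ _
    rw [e]
    exact Submodule.neg_mem _ h
  gen := fun a => by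
    refine Submodule.sum_mem _ fun b _ => Submodule.smul_mem _ _ ?_
    rw [xi_iter]
    exact Submodule.neg_mem _ (Submodule.subset_span ⟨(m.α b).1, (m.α b).2, rfl⟩)

include hq in
/-- the inverse of the minor does not depend on high `y`-derivatives -/
lemma pd_inv (i : Fin N) (k : ℤ) (hk : k < -(r : ℤ)) (a b : Fin m.ρ) :
    (AA q).pd (vu i k) ((m.Mg F q hF)⁻¹ a b) = 0 := by
  set G := m.Mg F q hF with hG
  have hu : IsUnit G.det := isUnit_det hF hq
  have h1 := Matrix.nonsing_inv_mul _ hu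
  have h2 : (G⁻¹ * G).map ((AA q).pd (vu i k)) = 0 := by
    rw [h1]
    ext1 a b
    rw [map_apply, one_apply]
    split_ifs <;> simp
  have h3 : G.map ((AA q).pd (vu i k)) = 0 := by
    ext1 a b
    exact Pr_xi_X hF r (m.vI b) (m.α a).1 ((m.α a).2 + 1) i k hk
  rw [map_mul', h3, mul_zero, add_zero] at h2
  have h4 : (G⁻¹).map ((AA q).pd (vu i k)) = 0 := by
    have h5 := congrArg (· * G⁻¹) h2
    simp only [zero_mul, mul_assoc, Matrix.mul_nonsing_inv _ hu, mul_one] at h5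
    exact h5
  exact congrFun (congrFun h4 a) b

include hq in
lemma pd_es (i : Fin N) (k : ℤ) (hk : k < -(r : ℤ)) (a : Fin m.ρ) (v : Var N) :
    (AA q).pd (vu i k) (es hF m a ((AA q).X v)) = 0 := by
  rw [es_apply, map_sum]
  refine Finset.sum_eq_zero fun b _ => ?_
  rw [Derivation.leibniz, pd_inv hF hq i k hk, Pr_xi_X hF r v _ _ i k hk, smul_zero, smul_zero,
    add_zero]

end EchAt

end Pool.Agent.Helper974.Hyp
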