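import Mathlib
import Pool.Agent.Helper974.HypEch
import Pool.Agent.Helper974.Frob

namespace Pool.Agent.Helper974.Hyp

open Filter Topology Matrix
open Pool.Agent.Helper974.JetGerm Pool.Agent.Helper974.Liou Pool.Agent.Helper974.Frob

variable {𝕜 : Type} [RCLike 𝕜] {N : ℕ}

section Gen

variable {ι : Type} [DecidableEq ι] {q : ι → 𝕜} {S : Finset ι} {O : Type} [Fintype O]
  [DecidableEq O]

/-- a vector field with coefficients `g o v` in the coordinates `S`, as a linear map -/
noncomputable def sig (g : O → S → (S → 𝕜) → 𝕜) (e : S → 𝕜) : (O → 𝕜) →L[𝕜] (S → 𝕜) :=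
  ∑ o, ∑ v, g o v e • (ContinuousLinearMap.proj (R := 𝕜) (φ := fun _ : O => 𝕜) o).smulRight
    (Pi.single v (1 : 𝕜) : S → 𝕜)

omit [DecidableEq O] in
lemma sig_apply (g : O → S → (S → 𝕜) → 𝕜) (e : S → 𝕜) (w : O → 𝕜) (v : S) :
    sig g e w v = ∑ o, w o * g o v e := by
  unfold sig
  simp only [_root_.sum_apply, _root_.smul_apply,
    ContinuousLinearMap.smulRight_apply, ContinuousLinearMap.proj_apply, Finset.sum_apply,
    Pi.smul_apply, smul_eq_mul, Pi.single_apply]
  refine Finset.sum_congr rfl fun o _ => ?_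
  simp [mul_comm]

omit [DecidableEq O] in
lemma sig_an {g : O → S → (S → 𝕜) → 𝕜} {e : S → 𝕜} (hg : ∀ o v, AnalyticAt 𝕜 (g o v) e) :
    AnalyticAt 𝕜 (sig g) e := by
  have h : sig g = fun e => ∑ o, ∑ v, g o v e •
      (ContinuousLinearMap.proj (R := 𝕜) (φ := fun _ : O => 𝕜) o).smulRight
      (Pi.single v (1 : 𝕜) : S → 𝕜) := rfl
  rw [h]
  refine Finset.analyticAt_fun_sum _ fun o _ => ?_
  refine Finset.analyticAt_fun_sum _ fun v _ => ?_
  exact (hg o v).smul analyticAt_const

omit [DecidableEq O] in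
lemma fderiv_sig {g : O → S → (S → 𝕜) → 𝕜} {e : S → 𝕜} (hg : ∀ o v, AnalyticAt 𝕜 (g o v) e)
    (x : S → 𝕜) (w : O → 𝕜) (v : S) :
    fderiv 𝕜 (sig g) e x w v = ∑ o, w o * fderiv 𝕜 (g o v) e x := by
  let L : ((O → 𝕜) →L[𝕜] (S → 𝕜)) →L[𝕜] 𝕜 :=
    (ContinuousLinearMap.proj (R := 𝕜) (φ := fun _ : S => 𝕜) v).comp
      (ContinuousLinearMap.apply 𝕜 (S → 𝕜) w)
  have h1 : HasFDerivAt (fun e => L (sig g e)) (L ∘L fderiv 𝕜 (sig g) e) e :=
    L.hasFDerivAt.comp e (sig_an hg).differentiableAt.hasFDerivAt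
  have h2 : HasFDerivAt (fun e => L (sig g e)) (∑ o, w o • fderiv 𝕜 (g o v) e) e := by
    have h3 : (fun e => L (sig g e)) = fun e => ∑ o, w o * g o v e := by
      funext e
      exact sig_apply g e w v
    rw [h3]
    refine HasFDerivAt.fun_sum fun o _ => ?_
    exact (hg o v).differentiableAt.hasFDerivAt.const_mul (w o)
  have h4 := congrArg (fun T => T x) (h1.unique h2)
  have h5 : L (fderiv 𝕜 (sig g) e x) = ∑ o, w o * fderiv 𝕜 (g o v) e x := by simpa using h4
  exact h5

lemma sig_single (g : O → S → (S → 𝕜) → 𝕜) (e : S → 𝕜) (o : O) :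
    sig g e (Pi.single o 1) = ∑ v, g o v e • (Pi.single v (1 : 𝕜) : S → 𝕜) := by
  funext v
  rw [sig_apply]
  simp [Pi.single_apply, Finset.sum_apply]

lemma sig_lin (g : O → S → (S → 𝕜) → 𝕜) (e : S → 𝕜) (w : O → 𝕜) :
    sig g e w = ∑ o, w o • sig g e (Pi.single o 1) := by
  conv_lhs => rw [← Finset.univ_sum_single w]
  rw [map_sum]
  refine Finset.sum_congr rfl fun o _ => ?_
  rw [← map_smul]
  congr 1
  funext o'
  simp [Pi.single_apply]

/-- a field acting on a function of the coordinates in `S` -/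
lemma field_apply {fo : O → Derivation 𝕜 (VV q) (VV q)} (hvf : ∀ o, (germAlg q).IsVF (fo o))
    {g : O → S → (S → 𝕜) → 𝕜} (hg : ∀ o v, AnalyticAt 𝕜 (g o v) (tr S q))
    (hfo : ∀ o (v : S), fo o ((germAlg q).X v) = mk q (fun q' => g o v (tr S q')) (isFn_comp (hg o v)))
    {G : (S → 𝕜) → 𝕜} (hG : AnalyticAt 𝕜 G (tr S q)) (o : O) :
    ∃ h : AnalyticAt 𝕜 (fun e => fderiv 𝕜 G e (sig g e (Pi.single o 1))) (tr S q),
      fo o (mk q (fun q' => G (tr S q')) (isFn_comp hG))
        = mk q (fun q' => fderiv 𝕜 G (tr S q') (sig g (tr S q') (Pi.single o 1)))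
          (isFn_comp h) := by
  have h : AnalyticAt 𝕜 (fun e => fderiv 𝕜 G e (sig g e (Pi.single o 1))) (tr S q) := by
    apply ContDiffAt.analyticAt
    have h1 := (sig_an hg).contDiffAt (n := (⊤ : WithTop ℕ∞))
    exact (hG.fderiv.contDiffAt).clm_apply (h1.clm_apply contDiffAt_const)
  refine ⟨h, ?_⟩
  have hr : Rep q S (fun q' => G (tr S q')) G := ⟨hG, Eventually.of_forall fun _ => rfl⟩
  have hz : ∀ a ∉ S, (germAlg q).pd a (mk q (fun q' => G (tr S q')) (isFn_comp hG)) = 0 := by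
    intro a ha
    show pdV q a (mk q _ _) = 0
    rw [pdV_mk, mk_zero_iff]
    filter_upwards [hr.pdf_zero] with x hx
    exact hx a ha
  rw [hvf o _ S hz]
  have h2 : ∀ v : S, fo o ((germAlg q).X v) * (germAlg q).pd (v : ι)
      (mk q (fun q' => G (tr S q')) (isFn_comp hG)) = mk q (fun q' => g o v (tr S q') *
        pdf (v : ι) (fun q' => G (tr S q')) q')
        ((isFn_comp (hg o v)).mul ((isFn_comp hG).pdf _)) := by
    intro v
    rw [hfo]
    rfl
  rw [← Finset.sum_coe_sort S, Finset.sum_congr rfl fun v _ => h2 v,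
    ← mk_sum (Finset.univ : Finset S) (f := fun v q' => g o v (tr S q') *
        pdf (v : ι) (fun q' => G (tr S q')) q')
        (fun v => (isFn_comp (hg o v)).mul ((isFn_comp hG).pdf _))
        (isFn_sum _ fun v _ => (isFn_comp (hg o v)).mul ((isFn_comp hG).pdf _)), mk_eq_mk]
  have hall : ∀ᶠ q' in 𝓝 q, ∀ v : S, pdf (v : ι) (fun q' => G (tr S q')) q'
      = fderiv 𝕜 G (tr S q') (tr S (Pi.single (v : ι) 1)) := by
    rw [Filter.eventually_all]
    intro v
    exact (hr.pdf (v : ι)).2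
  filter_upwards [hall] with q' hq'
  rw [sig_single, map_sum]
  refine Finset.sum_congr rfl fun v _ => ?_
  rw [hq' v, map_smul, smul_eq_mul]
  congr 2
  funext v'
  simp only [tr, Pi.single_apply, Subtype.ext_iff]

/-- **Common first integrals** of commuting fields in echelon form. -/
theorem integrals {fo : O → Derivation 𝕜 (VV q) (VV q)} (hvf : ∀ o, (germAlg q).IsVF (fo o))
    (hpd : ∀ o, ∀ v ∈ S, ∀ w ∉ S, (germAlg q).pd w (fo o ((germAlg q).X v)) = 0)
    (piv : O → S) (hpiv : ∀ o o', fo o ((germAlg q).X (piv o')) = if o = o' then 1 else 0)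
    (hcomm : ∀ o o', ⁅fo o, fo o'⁆ = 0) :
    ∃ W : S → (S → 𝕜) → 𝕜, ∃ hW : ∀ v, AnalyticAt 𝕜 (W v) (tr S q),
      (∀ v o, fo o (mk q (fun q' => W v (tr S q')) (isFn_comp (hW v))) = 0) ∧
      ∀ v v' : S, (∀ o, piv o ≠ v') →
        fderiv 𝕜 (W v) (tr S q) (Pi.single v' 1) = if v = v' then 1 else 0 := by
  have hrep : ∀ o (v : S), ∃ (g : (S → 𝕜) → 𝕜) (hg : AnalyticAt 𝕜 g (tr S q)),
      fo o ((germAlg q).X v) = mk q (fun q' => g (tr S q')) (isFn_comp hg) := fun o v =>
    rep_of_pd_zero fun a ha => hpd o v v.2 a ha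
  choose g hg hfo using hrep
  have hgn : ∀ᶠ e in 𝓝 (tr S q), ∀ o v, AnalyticAt 𝕜 (g o v) e := by
    rw [Filter.eventually_all]
    intro o
    rw [Filter.eventually_all]
    intro v
    exact (hg o v).eventually_analyticAt
  -- commutation
  have hc : ∀ᶠ e in 𝓝 (tr S q), ∀ o o' v, fderiv 𝕜 (g o v) e (sig g e (Pi.single o' 1))
      = fderiv 𝕜 (g o' v) e (sig g e (Pi.single o 1)) := by
    rw [Filter.eventually_all]
    intro o
    rw [Filter.eventually_all]
    intro o'
    rw [Filter.eventually_all]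
    intro v
    have h1 := congrArg (fun D : Derivation 𝕜 (VV q) (VV q) => D ((germAlg q).X v)) (hcomm o' o)
    simp only [Derivation.commutator_apply, Derivation.zero_apply] at h1
    rw [hfo, hfo] at h1
    obtain ⟨h2, h3⟩ := field_apply hvf hg hfo (hg o v) o'
    obtain ⟨h4, h5⟩ := field_apply hvf hg hfo (hg o' v) o
    rw [h3, h5, sub_eq_zero, mk_eq_mk] at h1
    exact eventually_tr h1
  have hcomm' : ∀ᶠ e in 𝓝 (tr S q), ∀ w w' : O → 𝕜,
      fderiv 𝕜 (sig g) e (sig g e w) w' = fderiv 𝕜 (sig g) e (sig g e w') w := by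
    filter_upwards [hgn, hc] with e h1 h2 w w'
    funext v
    rw [fderiv_sig h1, fderiv_sig h1, sig_lin g e w, sig_lin g e w']
    simp only [map_sum, map_smul, smul_eq_mul, Finset.mul_sum]
    rw [Finset.sum_comm]
    refine Finset.sum_congr rfl fun o _ => Finset.sum_congr rfl fun o' _ => ?_
    rw [h2 o' o v]
    ring
  let π : (S → 𝕜) →L[𝕜] (O → 𝕜) := ContinuousLinearMap.pi fun o =>
    ContinuousLinearMap.proj (R := 𝕜) (φ := fun _ : S => 𝕜) (piv o)
  have hpv : ∀ᶠ e in 𝓝 (tr S q), ∀ o o', g o (piv o') e = if o = o' then 1 else 0 := by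
    rw [Filter.eventually_all]
    intro o
    rw [Filter.eventually_all]
    intro o'
    have h1 := hpiv o o'
    rw [hfo o (piv o')] at h1
    have h2 : mk q (fun q' => g o (piv o') (tr S q')) (isFn_comp (hg o (piv o')))
        = mk q (fun _ => if o = o' then (1 : 𝕜) else 0) (isFn_const _) := by
      rw [h1]
      split_ifs <;> rfl
    rw [mk_eq_mk] at h2
    exact eventually_tr h2
  have hπ : ∀ᶠ e in 𝓝 (tr S q), ∀ w, π (sig g e w) = w := by
    filter_upwards [hpv] with e h1 w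
    funext o
    show sig g e w (piv o) = w o
    rw [sig_apply]
    simp [h1]
  obtain ⟨W, hW, hW1, hW2⟩ := straighten (sig_an hg) hcomm' π hπ
  have hWv : ∀ v, AnalyticAt 𝕜 (fun e => W e v) (tr S q) := fun v =>
    ((ContinuousLinearMap.proj (R := 𝕜) (φ := fun _ : S => 𝕜) v).analyticAt _).comp hW
  have hWd : ∀ e, DifferentiableAt 𝕜 W e → ∀ v x, fderiv 𝕜 (fun e => W e v) e x
      = fderiv 𝕜 W e x v := by
    intro e he v x
    have h1 : HasFDerivAt (fun e => W e v)
        ((ContinuousLinearMap.proj (R := 𝕜) (φ := fun _ : S => 𝕜) v) ∘L fderiv 𝕜 W e) e :=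
      (ContinuousLinearMap.proj (R := 𝕜) (φ := fun _ : S => 𝕜) v).hasFDerivAt.comp e
        he.hasFDerivAt
    rw [h1.fderiv]
    rfl
  refine ⟨fun v e => W e v, hWv, ?_, ?_⟩
  · intro v o
    obtain ⟨h1, h2⟩ := field_apply hvf hg hfo (hWv v) o
    rw [h2, mk_zero_iff]
    have h3 : ∀ᶠ e in 𝓝 (tr S q), fderiv 𝕜 (fun e => W e v) e (sig g e (Pi.single o 1)) = 0 := by
      filter_upwards [hW1, hW.eventually_analyticAt] with e h4 h5
      rw [hWd e h5.differentiableAt, h4]
      rfl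
    exact continuous_tr.continuousAt.eventually h3
  · intro v v' hv'
    rw [hWd _ hW.differentiableAt, hW2]
    · rw [Pi.single_apply]
    · funext o
      show (Pi.single v' (1 : 𝕜) : S → 𝕜) (piv o) = 0
      rw [Pi.single_apply, if_neg (hv' o)]

end Gen

/-- the variables `x, y, u` and the `y`-derivatives up to order `r` -/
def SE (N r : ℕ) : Finset (Var N) := ({vx, vy} : Finset (Var N)) ∪
  Finset.univ.image (fun c : Fin N × Fin (r + 1) => vu c.1 (-((c.2 : ℕ) : ℤ)))

lemma vx_mem (N r : ℕ) : (vx : Var N) ∈ SE N r := by simp [SE]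
lemma vy_mem (N r : ℕ) : (vy : Var N) ∈ SE N r := by simp [SE]

lemma evar_mem {r : ℕ} {v : Var N} (h : EVar N r v) : v ∈ SE N r := by
  obtain ⟨i, l, hl, rfl⟩ := h
  refine Finset.mem_union_right _ (Finset.mem_image.2 ⟨(i, ⟨l, by omega⟩), Finset.mem_univ _, rfl⟩)

lemma mem_SE {r : ℕ} {v : Var N} (h : v ∈ SE N r) : v = vx ∨ v = vy ∨ EVar N r v := by
  rw [SE, Finset.mem_union, Finset.mem_insert, Finset.mem_singleton, Finset.mem_image] at h
  rcases h with (h | h) | ⟨c, -, h⟩
  · exact Or.inl h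
  · exact Or.inr (Or.inl h)
  · exact Or.inr (Or.inr ⟨c.1, c.2, by omega, h.symm⟩)

lemma not_mem_SE {r : ℕ} {v : Var N} (h : v ∉ SE N r) :
    ∃ (j : Fin N) (k : ℤ), v = vu j k ∧ (1 ≤ k ∨ k < -(r : ℤ)) := by
  rcases v with b | ⟨j, k⟩
  · exfalso
    cases b
    · exact h (vx_mem N r)
    · exact h (vy_mem N r)
  · refine ⟨j, k, rfl, ?_⟩
    by_contra h2
    push Not at h2
    apply h
    apply evar_mem
    refine ⟨j, (-k).toNat, by omega, ?_⟩
    congr 2
    omega

section App

variable {F : Arg 𝕜 N → Fin N → 𝕜} {q : Jet 𝕜 N} (hF : AnalyticAt 𝕜 F (base q)) {r : ℕ}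
  {m : Minor N r} (hq : GoodPt F q m)

/-- the commuting fields -/
noncomputable def fo : Option (Fin m.ρ) → Derivation 𝕜 (VV q) (VV q)
  | none => (ech hF hq).sx
  | some a => es hF m a

/-- the pivot variables -/
def pv (m : Minor N r) : Option (Fin m.ρ) → SE N r
  | none => ⟨vx, vx_mem N r⟩
  | some a => ⟨m.vI a, evar_mem ⟨(m.I a).1, (m.I a).2, (m.I a).2.2.le, rfl⟩⟩

lemma sx_apply (f : VV q) : (ech hF hq).sx f
    = gXr F q hF r f - ∑ a, gXr F q hF r ((AA q).X (m.vI a)) * es hF m a f := by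
  unfold Ech.sx
  rw [Derivation.sub_apply, sum_der]
  rfl

lemma not_evar_inl (b : Bool) : ¬ EVar N r (Sum.inl b) := by
  rintro ⟨i, l, hl, h⟩
  simp at h

lemma fo_pd (o : Option (Fin m.ρ)) (v : Var N) (hv : v ∈ SE N r) (w : Var N) (hw : w ∉ SE N r) :
    (AA q).pd w (fo hF hq o ((AA q).X v)) = 0 := by
  obtain ⟨j, k, rfl, hk⟩ := not_mem_SE hw
  cases o with
  | some a =>
    rcases hk with hk | hk
    · exact (ech hF hq).pd_s j k hk v a
    · exact pd_es hF hq j k hk a v
  | none =>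
    show (AA q).pd (vu j k) ((ech hF hq).sx ((AA q).X v)) = 0
    have hinl : ∀ b : Bool, (AA q).pd (vu j k) ((ech hF hq).sx ((AA q).X (Sum.inl b))) = 0 := by
      intro b
      rw [sx_apply]
      have h1 : ∀ a, es hF m a ((AA q).X (Sum.inl b)) = 0 := fun a =>
        es_out hF a _ (not_evar_inl b)
      obtain ⟨c, hc⟩ := (truncAt F q hF r).Δ_inl b
      have hc' : gXr F q hF r ((AA q).X (Sum.inl b)) = algebraMap 𝕜 (VV q) c := hc
      simp only [h1, mul_zero, Finset.sum_const_zero, sub_zero, hc', Derivation.map_algebraMap]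
    rcases mem_SE hv with rfl | rfl | hv
    · exact hinl false
    · exact hinl true
    · rcases hk with hk | hk
      · exact (ech hF hq).pd_sx j k hk v hv
      · rw [sx_apply, map_sub, map_sum]
        have hΔ : ∀ v : Var N, (AA q).pd (vu j k) (gXr F q hF r ((AA q).X v)) = 0 := by
          intro v
          have h := pd_lie_X (gXr F q hF r) (vu j k) v
          rw [pd_lie_gXr hF r j k hk] at h
          exact h.symm
        rw [hΔ, zero_sub, neg_eq_zero]
        refine Finset.sum_eq_zero fun a _ => ?_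
        rw [Derivation.leibniz, hΔ, pd_es hF hq j k hk, smul_zero, smul_zero, add_zero]

lemma fo_piv (o o' : Option (Fin m.ρ)) :
    fo hF hq o ((AA q).X (pv m o')) = if o = o' then 1 else 0 := by
  cases o with
  | some a =>
    cases o' with
    | some b =>
      have h := es_piv hF hq a b
      simp only [Option.some.injEq]
      exact h
    | none =>
      rw [if_neg (by simp)]
      exact es_out hF a _ (not_evar_inl false)
  | none =>
    cases o' with
    | some b =>
      rw [if_neg (by simp)]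
      exact (ech hF hq).sx_piv b
    | none =>
      rw [if_pos rfl]
      show (ech hF hq).sx ((AA q).X vx) = 1
      rw [sx_apply, gXr_inl]
      have h1 : ∀ a, es hF m a ((AA q).X vx) = 0 := fun a => es_out hF a _ (not_evar_inl false)
      simp only [h1, mul_zero, Finset.sum_const_zero, sub_zero]
      exact (sysAt F q hF).D_x

lemma fo_vf (o : Option (Fin m.ρ)) : (AA q).IsVF (fo hF hq o) := by
  cases o with
  | some a => exact es_vf hF a
  | none => exact (ech hF hq).vf_sx

lemma fo_comm (o o' : Option (Fin m.ρ)) : ⁅fo hF hq o, fo hF hq o'⁆ = 0 := by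
  have hsw : ∀ D E : Derivation 𝕜 (VV q) (VV q), ⁅D, E⁆ = 0 → ⁅E, D⁆ = 0 := by
    intro D E h
    refine Derivation.ext fun f => ?_
    have := congrArg (fun G : Derivation 𝕜 (VV q) (VV q) => G f) h
    simp only [Derivation.commutator_apply, Derivation.zero_apply] at this ⊢
    rw [← neg_eq_zero, neg_sub]
    exact this
  cases o with
  | some a =>
    cases o' with
    | some b => exact (ech hF hq).comm a b
    | none => exact hsw _ _ ((ech hF hq).comm_sx a)
  | none =>
    cases o' with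
    | some b => exact (ech hF hq).comm_sx b
    | none =>
      refine Derivation.ext fun f => ?_
      rw [Derivation.commutator_apply, sub_self]
      rfl

include hF hq in
/-- **Existence of `x`-integrals** near a good point. -/
theorem exists_xint : ∃ W : Fin N → Jet 𝕜 N → 𝕜, (∀ i, IsFn q (W i)) ∧
    (∀ i j, ∀ k : ℤ, (1 ≤ k ∨ k < -(r : ℤ)) → pdf (vu j k) (W i) =ᶠ[𝓝 q] 0) ∧
    (∀ i, DX F (W i) =ᶠ[𝓝 q] 0) ∧
    ∀ i j, pdf (vu j (-(r : ℤ))) (W i) q = if i = j then 1 else 0 := by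
  obtain ⟨W, hW, h1, h2⟩ := integrals (q := q) (S := SE N r) (fo_vf hF hq) (fo_pd hF hq)
    (pv m) (fo_piv hF hq) (fo_comm hF hq)
  have hmem : ∀ i : Fin N, vu i (-(r : ℤ)) ∈ SE N r := fun i => evar_mem ⟨i, r, le_rfl, rfl⟩
  let v : Fin N → SE N r := fun i => ⟨vu i (-(r : ℤ)), hmem i⟩
  have hrep : ∀ i, Rep q (SE N r) (fun q' => W (v i) (tr (SE N r) q')) (W (v i)) := fun i =>
    ⟨hW (v i), Eventually.of_forall fun _ => rfl⟩
  have hout : ∀ i j, ∀ k : ℤ, (1 ≤ k ∨ k < -(r : ℤ)) →
      pdf (vu j k) (fun q' => W (v i) (tr (SE N r) q')) =ᶠ[𝓝 q] 0 := by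
    intro i j k hk
    filter_upwards [(hrep i).pdf_zero] with x hx
    apply hx
    intro h
    rcases mem_SE h with h | h | ⟨j', l, hl, h⟩
    · simp at h
    · simp at h
    · simp only [Sum.inr.injEq, Prod.mk.injEq] at h
      omega
  refine ⟨fun i q' => W (v i) (tr (SE N r) q'), fun i => isFn_comp (hW (v i)), hout, ?_, ?_⟩
  · intro i
    set φ := mk q (fun q' => W (v i) (tr (SE N r) q')) (isFn_comp (hW (v i))) with hφ
    have hrel : RelG (fun q' => W (v i) (tr (SE N r) q')) φ := rfl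
    have h3 : gX F q hF φ = 0 := by
      have hPr : Pr r φ := by
        intro j k hk
        exact ((hrel.pd (vu j k)).eq_iff relG_zero).2 (hout i j k (Or.inr hk))
      rw [← gXr_of_Pr hF r hPr]
      have h4 := h1 (v i) none
      have h5 : (ech hF hq).sx φ = 0 := h4
      rw [sx_apply] at h5
      have h6 : ∀ a, es hF m a φ = 0 := fun a => h1 (v i) (some a)
      simpa [h6] using h5
    exact ((hrel.dx hF).eq_iff relG_zero).1 h3
  · intro i j
    rw [(hrep i).pdf_eq]
    have e : tr (SE N r) (Pi.single (vu j (-(r : ℤ))) (1 : 𝕜)) = Pi.single (v j) 1 := by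
      funext w
      simp only [tr, Pi.single_apply, Subtype.ext_iff]
      rfl
    rw [e, h2 (v i) (v j)]
    · have h3 : v i = v j ↔ i = j := by
        simp [v, Subtype.ext_iff]
      simp only [h3]
    · intro o ho
      have h3 := congrArg Subtype.val ho
      cases o with
      | none => simp [pv, v] at h3
      | some a =>
        have h4 : m.vI a = vu j (-(r : ℤ)) := h3
        unfold Minor.vI at h4
        simp only [Sum.inr.injEq, Prod.mk.injEq] at h4
        have := (m.I a).2.2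
        omega

end App

end Pool.Agent.Helper974.Hyp
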