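import Mathlib
import Pool.Agent.Helper974.HypFrob

namespace Pool.Agent.Helper974.Hyp

open Filter Topology Matrix
open Pool.Agent.Helper974.JetGerm Pool.Agent.Helper974.Liou Pool.Agent.Helper974.Frob

variable {𝕜 : Type} [RCLike 𝕜] {N : ℕ}

section Indep

variable {F : Arg 𝕜 N → Fin N → 𝕜} {q : Jet 𝕜 N} (hF : AnalyticAt 𝕜 F (base q))

lemma pd_gY_dn (j : Fin N) (k : ℤ) (hk : k ≤ -2) :
    ⁅(AA q).pd (vu j k), gY F q hF⁆ = (AA q).pd (vu j (k + 1)) := by
  refine VarAlg.IsVF.ext (A := AA q) ((VarAlg.isVF_pd _).lie (vf_gY hF)) (VarAlg.isVF_pd _) ?_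
  rintro (b | ⟨i, m⟩)
  · rw [pd_lie_X, gY_eq_gY0_inl]
    obtain ⟨c, hc⟩ := gY0_inl hF b
    rw [hc, Derivation.map_algebraMap, (AA q).pd_X, if_neg (by simp)]
  · rw [pd_lie_X]
    rcases lt_or_ge m 1 with h | h
    · rw [gY_dn hF i m (by omega), (AA q).pd_X, (AA q).pd_X]
      congr 1
      simp only [Sum.inr.injEq, Prod.mk.injEq, eq_iff_iff]
      constructor
      · rintro ⟨rfl, rfl⟩; exact ⟨rfl, by ring⟩
      · rintro ⟨rfl, rfl⟩; exact ⟨rfl, by ring⟩
    · obtain ⟨l, rfl⟩ : ∃ l : ℕ, m = (l : ℤ) + 1 := ⟨(m - 1).toNat, by omega⟩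
      rw [gY_pos, FX_low hF i j l k hk, (AA q).pd_X, if_neg]
      intro h
      simp only [Sum.inr.injEq, Prod.mk.injEq] at h
      omega

lemma relG_iterY {f : Jet 𝕜 N → 𝕜} {φ : VV q} (h : RelG f φ) (n : ℕ) :
    RelG ((DY F)^[n] f) ((gY F q hF)^[n] φ) := by
  induction n with
  | zero => exact h
  | succ n ih =>
    rw [Function.iterate_succ_apply', Function.iterate_succ_apply']
    exact ih.dy hF

lemma pd_iterY {r : ℕ} (hr : 1 ≤ r) {φ : VV q}
    (hφ : ∀ (j : Fin N) (k : ℤ), k < -(r : ℤ) → (AA q).pd (vu j k) φ = 0) (n : ℕ) :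
    (∀ (j : Fin N) (k : ℤ), k < -((r + n : ℕ) : ℤ) →
      (AA q).pd (vu j k) ((gY F q hF)^[n] φ) = 0) ∧
    ∀ j : Fin N, (AA q).pd (vu j (-((r + n : ℕ) : ℤ))) ((gY F q hF)^[n] φ)
      = (AA q).pd (vu j (-(r : ℤ))) φ := by
  induction n with
  | zero => exact ⟨fun j k hk => hφ j k (by simpa using hk), fun j => rfl⟩
  | succ n ih =>
    obtain ⟨ih1, ih2⟩ := ih
    have key : ∀ (j : Fin N) (k : ℤ), k ≤ -2 → k < -((r + n : ℕ) : ℤ) →
        (AA q).pd (vu j k) ((gY F q hF)^[n + 1] φ)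
          = (AA q).pd (vu j (k + 1)) ((gY F q hF)^[n] φ) := by
      intro j k hk hk2
      rw [Function.iterate_succ_apply']
      have h := congrArg (fun δ : Derivation 𝕜 (VV q) (VV q) => δ ((gY F q hF)^[n] φ))
        (pd_gY_dn hF j k hk)
      simp only [Derivation.commutator_apply, ih1 j k hk2, map_zero, sub_zero] at h
      exact h
    constructor
    · intro j k hk
      push_cast at hk
      rw [key j k (by omega) (by push_cast; omega)]
      exact ih1 j (k + 1) (by push_cast; omega)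
    · intro j
      rw [key j _ (by push_cast; omega) (by push_cast; omega), ← ih2 j]
      congr 2
      push_cast
      congr 2
      ring

/-- triangular families are independent -/
lemma triangular {r : ℕ} (v : Fin N × ℕ → Var N → 𝕜)
    (h0 : ∀ (m : Fin N × ℕ) (j : Fin N) (n : ℕ), m.2 < n → v m (vu j (-((r + n : ℕ) : ℤ))) = 0)
    (h1 : ∀ (m : Fin N × ℕ) (j : Fin N), v m (vu j (-((r + m.2 : ℕ) : ℤ)))
      = if m.1 = j then 1 else 0) : LinearIndependent 𝕜 v := by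
  classical
  rw [linearIndependent_iff']
  intro s g hs
  by_contra hne
  push Not at hne
  obtain ⟨m₁, hm₁, hg₁⟩ := hne
  obtain ⟨m₀, hm₀, hmax⟩ := Finset.exists_max_image (s.filter fun m => g m ≠ 0) (fun m => m.2)
    ⟨m₁, Finset.mem_filter.2 ⟨hm₁, hg₁⟩⟩
  rw [Finset.mem_filter] at hm₀
  apply hm₀.2
  have h2 := congrFun hs (vu m₀.1 (-((r + m₀.2 : ℕ) : ℤ)))
  simp only [Finset.sum_apply, Pi.smul_apply, smul_eq_mul, Pi.zero_apply] at h2
  rw [Finset.sum_eq_single m₀] at h2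
  · rw [h1, if_pos rfl, mul_one] at h2
    exact h2
  · intro m hm hmne
    by_cases hg : g m = 0
    · rw [hg, zero_mul]
    · have h3 := hmax m (Finset.mem_filter.2 ⟨hm, hg⟩)
      rcases lt_or_eq_of_le h3 with h4 | h4
      · rw [h0 m _ _ h4, mul_zero]
      · have h5 : m₀.2 = m.2 := h4.symm
        rw [h5, h1, if_neg, mul_zero]
        intro h6
        apply hmne
        exact Prod.ext h6 h4
  · intro h
    exact absurd hm₀.1 h

include hF in
/-- `x`-integrals of order `r` with invertible symbol are independent -/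
theorem xIntegrals_of {r : ℕ} (hr : 1 ≤ r) {W : Fin N → Jet 𝕜 N → 𝕜} (hfn : ∀ i, IsFn q (W i))
    (hdep : ∀ i j, ∀ k : ℤ, (1 ≤ k ∨ k < -(r : ℤ)) → pdf (vu j k) (W i) =ᶠ[𝓝 q] 0)
    (hD : ∀ i, DX F (W i) =ᶠ[𝓝 q] 0)
    (hsym : ∀ i j, pdf (vu j (-(r : ℤ))) (W i) q = if i = j then 1 else 0) :
    HasXIntegrals F q := by
  refine ⟨W, fun i => ⟨hfn i, fun j k hk => hdep i j k (Or.inl hk), hD i, ?_⟩, ?_⟩
  · refine ⟨vu i (-(r : ℤ)), by simp, fun h => ?_⟩
    have h1 := h.self_of_nhds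
    rw [hsym, if_pos rfl] at h1
    exact one_ne_zero h1
  · have hrel : ∀ i, RelG (W i) (mk q (W i) (hfn i)) := fun i => rfl
    have hφ : ∀ i (j : Fin N) (k : ℤ), k < -(r : ℤ) →
        (AA q).pd (vu j k) (mk q (W i) (hfn i)) = 0 := by
      intro i j k hk
      exact (((hrel i).pd (vu j k)).eq_iff relG_zero).2 (hdep i j k (Or.inr hk))
    refine triangular (r := r) _ ?_ ?_
    · intro m j n hn
      have h1 := (pd_iterY hF hr (hφ m.1) m.2).1 j (-((r + n : ℕ) : ℤ)) (by push_cast; omega)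
      have h2 := (((relG_iterY hF (hrel m.1) m.2).pd (vu j (-((r + n : ℕ) : ℤ)))).eq_iff
        relG_zero).1 h1
      exact h2.self_of_nhds
    · intro m j
      have h1 := (pd_iterY hF hr (hφ m.1) m.2).2 j
      have h2 := (((relG_iterY hF (hrel m.1) m.2).pd (vu j (-((r + m.2 : ℕ) : ℤ)))).eq_iff
        ((hrel m.1).pd (vu j (-(r : ℤ))))).1 h1
      rw [h2.self_of_nhds, hsym]

end Indep

section XPart

variable {F : Arg 𝕜 N → Fin N → 𝕜} {p : Jet 𝕜 N} (hF : AnalyticAt 𝕜 F (base p))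

lemma continuous_base : Continuous (base : Jet 𝕜 N → Arg 𝕜 N) := by
  unfold base
  fun_prop

include hF in
lemma analytic_near : ∀ᶠ q in 𝓝 p, AnalyticAt 𝕜 F (base q) :=
  (continuous_base.tendsto p).eventually hF.eventually_analyticAt

lemma Minor.relAt_near {r : ℕ} (m : Minor N r) {κ : Fin N × ℕ} (h : m.RelAt F p κ) :
    ∀ᶠ q in 𝓝 p, m.RelAt F q κ := by
  unfold Minor.RelAt
  rw [Filter.eventually_all]
  intro i
  rw [Filter.eventually_all]
  intro l
  exact (h i l).eventually_nhds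

/-- **`x`-integrals from the chain `H_1, H_2, …`.** -/
theorem xpart (C : (sysAt F p hF).Chain) {r : ℕ} (hr : 1 ≤ r) (hZ : C.Z r = 0) :
    ∃ h : Jet 𝕜 N → 𝕜, IsFn p h ∧ ¬ h =ᶠ[𝓝 p] 0 ∧
      ∀ᶠ q in 𝓝 p, h q ≠ 0 → HasXIntegrals F q := by
  obtain ⟨m, hm, hrel⟩ := exists_minor_at hF C hZ
  refine ⟨(m.Mf F).det, (relG_det (m.rel_Mg hF)).isFn, hm, ?_⟩
  have h1 : ∀ᶠ q in 𝓝 p, ∀ a, m.RelAt F q ((m.α a).1, (m.α a).2 + 1) := by
    rw [Filter.eventually_all]
    intro a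
    exact m.relAt_near (hrel _)
  have h2 : ∀ᶠ q in 𝓝 p, ∀ j, m.RelAt F q (j, 0) := by
    rw [Filter.eventually_all]
    intro j
    exact m.relAt_near (hrel _)
  filter_upwards [analytic_near hF, h1, h2] with q hFq h1 h2 hq
  obtain ⟨W, h3, h4, h5, h6⟩ := exists_xint hFq ⟨hq, h1, h2⟩
  exact xIntegrals_of hFq hr h3 h4 h5 h6

end XPart

end Pool.Agent.Helper974.Hyp
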