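import Mathlib
import Pool.Agent.Helper974.HypInt

namespace Pool.Agent.Helper974.Hyp

open Filter Topology Matrix
open Pool.Agent.Helper974.JetGerm Pool.Agent.Helper974.Liou Pool.Agent.Helper974.Frob

variable {𝕜 : Type} [RCLike 𝕜] {N : ℕ}

/-- exchange of `x` and `y` on the coordinates -/
def flipV : Var N → Var N
  | Sum.inl b => Sum.inl (!b)
  | Sum.inr (i, k) => Sum.inr (i, -k)

lemma flipV_flipV (a : Var N) : flipV (flipV a) = a := by
  rcases a with b | ⟨i, k⟩ <;> simp [flipV]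

/-- exchange of `x` and `y` as a permutation of the coordinates -/
def flipE : Var N ≃ Var N := ⟨flipV, flipV, flipV_flipV, flipV_flipV⟩

/-- exchange of `x` and `y` on jets -/
def flipJ (q : Jet 𝕜 N) : Jet 𝕜 N := fun a => q (flipV a)

lemma flipJ_flipJ (q : Jet 𝕜 N) : flipJ (flipJ q) = q := by
  funext a
  simp only [flipJ, flipV_flipV]

/-- exchange of `x` and `y` on functions -/
def fl (f : Jet 𝕜 N → 𝕜) : Jet 𝕜 N → 𝕜 := fun q => f (flipJ q)

lemma fl_fl (f : Jet 𝕜 N → 𝕜) : fl (fl f) = f := by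
  funext q
  simp only [fl, flipJ_flipJ]

lemma fl_add (f g : Jet 𝕜 N → 𝕜) : fl (f + g) = fl f + fl g := rfl
lemma fl_sub (f g : Jet 𝕜 N → 𝕜) : fl (f - g) = fl f - fl g := rfl
lemma fl_mul (f g : Jet 𝕜 N → 𝕜) : fl (f * g) = fl f * fl g := rfl
lemma fl_neg (f : Jet 𝕜 N → 𝕜) : fl (-f) = -fl f := rfl
lemma fl_zero : fl (0 : Jet 𝕜 N → 𝕜) = 0 := rfl
lemma fl_sum {κ : Type} (s : Finset κ) (f : κ → Jet 𝕜 N → 𝕜) :
    fl (∑ i ∈ s, f i) = ∑ i ∈ s, fl (f i) := by
  funext q
  simp only [fl, Finset.sum_apply]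

lemma continuous_flipJ : Continuous (flipJ : Jet 𝕜 N → Jet 𝕜 N) :=
  continuous_pi fun _ => continuous_apply _

lemma eventually_flip {p : Jet 𝕜 N} {P : Jet 𝕜 N → Prop} (h : ∀ᶠ q in 𝓝 p, P q) :
    ∀ᶠ q in 𝓝 (flipJ p), P (flipJ q) := by
  have h1 := (continuous_flipJ (𝕜 := 𝕜) (N := N)).tendsto (flipJ p)
  rw [flipJ_flipJ] at h1
  exact h1.eventually h

lemma fl_congr {p : Jet 𝕜 N} {f g : Jet 𝕜 N → 𝕜} (h : f =ᶠ[𝓝 p] g) :
    fl f =ᶠ[𝓝 (flipJ p)] fl g := eventually_flip h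

lemma fl_congr' {p : Jet 𝕜 N} {f g : Jet 𝕜 N → 𝕜} (h : f =ᶠ[𝓝 (flipJ p)] g) :
    fl f =ᶠ[𝓝 p] fl g := by
  have := fl_congr h
  rwa [flipJ_flipJ] at this

lemma flipJ_update (q : Jet 𝕜 N) (a : Var N) (t : 𝕜) :
    flipJ (Function.update q a t) = Function.update (flipJ q) (flipV a) t := by
  funext b
  simp only [flipJ, Function.update_apply]
  by_cases h : flipV b = a
  · subst h
    simp [flipV_flipV]
  · rw [if_neg h, if_neg]
    rintro rfl
    exact h (flipV_flipV a)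

lemma pdf_fl (a : Var N) (f : Jet 𝕜 N → 𝕜) : pdf a (fl f) = fl (pdf (flipV a) f) := by
  funext q
  simp only [pdf, fl, flipJ_update]
  congr 1
  simp only [flipJ, flipV_flipV]

lemma along_fl {c c' : Var N → Jet 𝕜 N → 𝕜} (h : ∀ a, c (flipV a) = fl (c' a))
    (f : Jet 𝕜 N → 𝕜) : along c (fl f) = fl (along c' f) := by
  funext q
  show ∑ᶠ a, c a q * pdf a (fl f) q = ∑ᶠ a, c' a (flipJ q) * pdf a f (flipJ q)
  rw [← finsum_comp_equiv (flipE (N := N))]
  apply finsum_congr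
  intro a
  show c (flipV a) q * pdf (flipV a) (fl f) q = _
  rw [h, pdf_fl, flipV_flipV]
  rfl

/-- the system with `x` and `y` exchanged -/
def flipF (F : Arg 𝕜 N → Fin N → 𝕜) : Arg 𝕜 N → Fin N → 𝕜 :=
  fun z => F (z.2.1, z.1, z.2.2.1, z.2.2.2.2, z.2.2.2.1)

lemma rhs_flip (F : Arg 𝕜 N → Fin N → 𝕜) (i : Fin N) : rhs (flipF F) i = fl (rhs F i) := by
  funext q
  simp [rhs, flipF, base, fl, flipJ, flipV]

lemma compX0_flip (F : Arg 𝕜 N → Fin N → 𝕜) (a : Var N) :
    compX0 (flipF F) (flipV a) = fl (compY0 F a) := by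
  rcases a with b | ⟨i, k⟩
  · cases b <;> rfl
  · simp only [flipV, compX0, compY0]
    by_cases h : k ≤ 0
    · rw [if_pos (by omega), if_pos h]
      funext q
      simp only [fl, flipJ, flipV]
      congr 2
      ring_nf
    · rw [if_neg (by omega), if_neg h]
      by_cases h1 : k = 1
      · rw [if_pos (by omega), if_pos h1, rhs_flip]
      · rw [if_neg (by omega), if_neg h1]
        rfl

lemma compY0_flip (F : Arg 𝕜 N → Fin N → 𝕜) (a : Var N) :
    compY0 (flipF F) (flipV a) = fl (compX0 F a) := by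
  rcases a with b | ⟨i, k⟩
  · cases b <;> rfl
  · simp only [flipV, compX0, compY0]
    by_cases h : 0 ≤ k
    · rw [if_pos (by omega), if_pos h]
      funext q
      simp only [fl, flipJ, flipV]
      congr 2
      ring_nf
    · rw [if_neg (by omega), if_neg h]
      by_cases h1 : k = -1
      · rw [if_pos (by omega), if_pos h1, rhs_flip]
      · rw [if_neg (by omega), if_neg h1]
        rfl

lemma iter_fl {c c' : Var N → Jet 𝕜 N → 𝕜} (h : ∀ a, c (flipV a) = fl (c' a))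
    (f : Jet 𝕜 N → 𝕜) (n : ℕ) : (along c)^[n] (fl f) = fl ((along c')^[n] f) := by
  induction n with
  | zero => rfl
  | succ n ih => rw [Function.iterate_succ_apply', Function.iterate_succ_apply', ih, along_fl h]

lemma compX_flip (F : Arg 𝕜 N → Fin N → 𝕜) (a : Var N) :
    compX (flipF F) (flipV a) = fl (compY F a) := by
  rcases a with b | ⟨i, k⟩
  · cases b <;> rfl
  · simp only [flipV, compX, compY]
    by_cases h : k ≤ 0
    · rw [if_pos (by omega), if_pos h]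
      funext q
      simp only [fl, flipJ, flipV]
      congr 2
      ring_nf
    · rw [if_neg (by omega), if_neg h, rhs_flip, iter_fl (compY0_flip F)]
      congr 4
      ring

lemma compY_flip (F : Arg 𝕜 N → Fin N → 𝕜) (a : Var N) :
    compY (flipF F) (flipV a) = fl (compX F a) := by
  rcases a with b | ⟨i, k⟩
  · cases b <;> rfl
  · simp only [flipV, compX, compY]
    by_cases h : 0 ≤ k
    · rw [if_pos (by omega), if_pos h]
      funext q
      simp only [fl, flipJ, flipV]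
      congr 2
      ring_nf
    · rw [if_neg (by omega), if_neg h, rhs_flip, iter_fl (compX0_flip F)]

lemma DX_flip (F : Arg 𝕜 N → Fin N → 𝕜) (f : Jet 𝕜 N → 𝕜) :
    DX (flipF F) (fl f) = fl (DY F f) := along_fl (compX_flip F) f

lemma DY_flip (F : Arg 𝕜 N → Fin N → 𝕜) (f : Jet 𝕜 N → 𝕜) :
    DY (flipF F) (fl f) = fl (DX F f) := along_fl (compY_flip F) f

lemma isFn_fl {p : Jet 𝕜 N} {f : Jet 𝕜 N → 𝕜} (h : IsFn p f) : IsFn (flipJ p) (fl f) := by
  obtain ⟨S, g, hg, hf⟩ := h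
  have hm : ∀ a : S, flipV (a : Var N) ∈ S.image flipV := fun a => Finset.mem_image_of_mem _ a.2
  refine ⟨S.image flipV, fun e => g (fun a => e ⟨flipV a, hm a⟩), ?_, ?_⟩
  · have hL : AnalyticAt 𝕜 (fun e : (S.image flipV) → 𝕜 => (fun a : S => e ⟨flipV a, hm a⟩))
        (fun a => flipJ p a) := by
      rw [analyticAt_pi_iff]
      intro a
      exact (ContinuousLinearMap.proj (R := 𝕜) (φ := fun _ : (S.image flipV) => 𝕜)
        ⟨flipV a, hm a⟩).analyticAt _
    refine AnalyticAt.comp (g := g) ?_ hL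
    have e : (fun a : S => flipJ p (flipV (a : Var N))) = fun a : S => p a := by
      funext a
      simp only [flipJ, flipV_flipV]
    rw [e]
    exact hg
  · exact eventually_flip hf

lemma isFn_fl' {p : Jet 𝕜 N} {f : Jet 𝕜 N → 𝕜} (h : IsFn (flipJ p) f) : IsFn p (fl f) := by
  have := isFn_fl h
  rwa [flipJ_flipJ] at this

lemma analytic_flip {F : Arg 𝕜 N → Fin N → 𝕜} {p : Jet 𝕜 N} (hF : AnalyticAt 𝕜 F (base p)) :
    AnalyticAt 𝕜 (flipF F) (base (flipJ p)) := by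
  have hL : AnalyticAt 𝕜 (fun z : Arg 𝕜 N => ((z.2.1, z.1, z.2.2.1, z.2.2.2.2, z.2.2.2.1) :
      Arg 𝕜 N)) (base (flipJ p)) := by
    have h1 : AnalyticAt 𝕜 (fun z : Arg 𝕜 N => z.1) (base (flipJ p)) := analyticAt_fst
    have h2 : AnalyticAt 𝕜 (fun z : Arg 𝕜 N => z.2) (base (flipJ p)) := analyticAt_snd
    have h21 : AnalyticAt 𝕜 (fun z : Arg 𝕜 N => z.2.1) (base (flipJ p)) :=
      analyticAt_fst.comp h2
    have h22 : AnalyticAt 𝕜 (fun z : Arg 𝕜 N => z.2.2) (base (flipJ p)) :=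
      analyticAt_snd.comp h2
    have h221 : AnalyticAt 𝕜 (fun z : Arg 𝕜 N => z.2.2.1) (base (flipJ p)) :=
      analyticAt_fst.comp h22
    have h222 : AnalyticAt 𝕜 (fun z : Arg 𝕜 N => z.2.2.2) (base (flipJ p)) :=
      analyticAt_snd.comp h22
    have h2221 : AnalyticAt 𝕜 (fun z : Arg 𝕜 N => z.2.2.2.1) (base (flipJ p)) :=
      analyticAt_fst.comp h222
    have h2222 : AnalyticAt 𝕜 (fun z : Arg 𝕜 N => z.2.2.2.2) (base (flipJ p)) :=
      analyticAt_snd.comp h222
    exact h21.prod (h1.prod (h221.prod (h2222.prod h2221)))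
  refine AnalyticAt.comp (g := F) ?_ hL
  have e2 : (((base (flipJ p)).2.1, (base (flipJ p)).1, (base (flipJ p)).2.2.1,
      (base (flipJ p)).2.2.2.2, (base (flipJ p)).2.2.2.1) : Arg 𝕜 N) = base p := by
    simp [base, flipJ, flipV]
  rw [e2]
  exact hF

end Pool.Agent.Helper974.Hyp
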