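import Mathlib
import Pool.Agent.Helper974.HypFlip

namespace Pool.Agent.Helper974.Hyp

open Filter Topology Matrix
open Pool.Agent.Helper974.JetGerm Pool.Agent.Helper974.Liou Pool.Agent.Helper974.Frob

variable {𝕜 : Type} [RCLike 𝕜] {N : ℕ}

section MapFl

lemma map_fl_add (M M' : MatF 𝕜 N) : (M + M').map fl = M.map fl + M'.map fl := rfl
lemma map_fl_sub (M M' : MatF 𝕜 N) : (M - M').map fl = M.map fl - M'.map fl := rfl
lemma map_fl_neg (M : MatF 𝕜 N) : (-M).map fl = -M.map fl := rfl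
lemma map_fl_mul (M M' : MatF 𝕜 N) : (M * M').map fl = M.map fl * M'.map fl := by
  ext1 i j
  rw [map_apply, mul_apply, fl_sum, mul_apply]
  rfl

lemma map_fl_smul (n : ℕ) (M : MatF 𝕜 N) : (n • M).map fl = n • M.map fl := rfl

lemma map_fl_fl (M : MatF 𝕜 N) : (M.map fl).map fl = M := by
  ext1 i j
  exact fl_fl _

lemma map_fl_DX (F : Arg 𝕜 N → Fin N → 𝕜) (M : MatF 𝕜 N) :
    (M.map (DX F)).map fl = (M.map fl).map (DY (flipF F)) := by
  ext1 i j
  exact (DY_flip F _).symm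

lemma map_fl_DY (F : Arg 𝕜 N → Fin N → 𝕜) (M : MatF 𝕜 N) :
    (M.map (DY F)).map fl = (M.map fl).map (DX (flipF F)) := by
  ext1 i j
  exact (DX_flip F _).symm

lemma aM_flip (F : Arg 𝕜 N → Fin N → 𝕜) : (bM F).map fl = aM (flipF F) := by
  ext1 i j
  simp only [map_apply, aM, bM, fl_neg, rhs_flip, pdf_fl]
  rfl

lemma bM_flip (F : Arg 𝕜 N → Fin N → 𝕜) : (aM F).map fl = bM (flipF F) := by
  ext1 i j
  simp only [map_apply, aM, bM, fl_neg, rhs_flip, pdf_fl]
  rfl

lemma cM_flip (F : Arg 𝕜 N → Fin N → 𝕜) : (cM F).map fl = cM (flipF F) := by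
  ext1 i j
  simp only [map_apply, cM, fl_neg, rhs_flip, pdf_fl]
  rfl

lemma Near.flip {p : Jet 𝕜 N} {M M' : MatF 𝕜 N} (h : Near p M M') :
    Near (flipJ p) (M.map fl) (M'.map fl) := fun i j => fl_congr (h i j)

lemma IsMat.flip {p : Jet 𝕜 N} {M : MatF 𝕜 N} (h : IsMat p M) : IsMat (flipJ p) (M.map fl) :=
  fun i j => isFn_fl (h i j)

lemma mulVec_fl (M : MatF 𝕜 N) (v : Fin N → Jet 𝕜 N → 𝕜) (i : Fin N) :
    fl ((M *ᵥ v) i) = ((M.map fl) *ᵥ fun j => fl (v j)) i := by
  simp only [mulVec, dotProduct, fl_sum, fl_mul, map_apply]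

lemma KerInv.flip {p : Jet 𝕜 N} {δ δ' : (Jet 𝕜 N → 𝕜) → Jet 𝕜 N → 𝕜} {m Z : MatF 𝕜 N}
    (h : KerInv p δ m Z) (hδ : ∀ f, δ' (fl f) = fl (δ f)) :
    KerInv (flipJ p) δ' (m.map fl) (Z.map fl) := by
  intro v hv hZ i
  have h1 : ∀ i, (Z *ᵥ fun j => fl (v j)) i =ᶠ[𝓝 p] 0 := by
    intro i
    have h2 := fl_congr' (hZ i)
    rw [mulVec_fl, map_fl_fl, fl_zero] at h2
    exact h2
  have h3 := fl_congr (h (fun j => fl (v j)) (fun j => isFn_fl' (hv j)) h1 i)
  rw [mulVec_fl, fl_zero] at h3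
  have e : (fun j => fl (δ (fl (v j)) + (m *ᵥ fun j => fl (v j)) j))
      = fun j => δ' (v j) + (m.map fl *ᵥ v) j := by
    funext j
    rw [fl_add, mulVec_fl, ← hδ, fl_fl]
    simp only [fl_fl]
  rw [e] at h3
  exact h3

end MapFl

section Down

variable {F : Arg 𝕜 N → Fin N → 𝕜} {p : Jet 𝕜 N} (hF : AnalyticAt 𝕜 F (base p))
  {B : ℕ → MatF 𝕜 N}

lemma relM_unique {q : Jet 𝕜 N} {M : MatF 𝕜 N} {Φ Φ' : Matrix (Fin N) (Fin N) (VV q)}
    (h : RelM M Φ) (h' : RelM M Φ') : Φ = Φ' :=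
  (h.eq_iff h').2 fun _ _ => EventuallyEq.rfl

lemma RelM.smul_nat {q : Jet 𝕜 N} {M : MatF 𝕜 N} {Φ : Matrix (Fin N) (Fin N) (VV q)} (n : ℕ)
    (h : RelM M Φ) : RelM (n • M) (n • Φ) := by
  induction n with
  | zero => simpa using relM_zero
  | succ n ih =>
    rw [succ_nsmul, succ_nsmul]
    exact ih.add h

lemma relM_mk {q : Jet 𝕜 N} {M : MatF 𝕜 N} (h : IsMat q M) :
    RelM M (fun i j => mk q (M i j) (h i j)) := fun i j => relG_mk (h i j)

include hF in
/-- the missing invariance condition from the independence of the choice of `b_{-1}` -/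
lemma ChainDown.invT0 (hB : ChainDown F p B) : KerInv p (DY F) (-(aM F)ᵀ) (ZN F B 0)ᵀ := by
  intro v hv h0 i
  let E : MatF 𝕜 N := Matrix.of fun k j => if k = i then v j else 0
  have hE : IsMat p E := by
    intro k j
    simp only [E, of_apply]
    split_ifs
    · exact hv j
    · exact isFn_const 0
  have hE' : IsMat p (B 1 + E) := fun k j => (hB.fn 1 k j).add (hE k j)
  obtain ⟨β, hβ⟩ : ∃ β : Matrix (Fin N) (Fin N) (VV p), RelM (B 1) β := ⟨_, relM_mk (hB.fn 1)⟩
  obtain ⟨ε, hε⟩ : ∃ ε : Matrix (Fin N) (Fin N) (VV p), RelM E ε := ⟨_, relM_mk hE⟩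
  obtain ⟨ν, hν⟩ : ∃ ν : Fin N → VV p, RelV v ν := 
    ⟨fun j => JetGerm.mk p (v j) (hv j), fun j => relG_mk (hv j)⟩
  have ha := relM_aM hF
  have hb := relM_bM hF
  have hc := relM_cM hF
  set S := sysAt F p hF with hS
  have hH0 : RelM (ZN F B 0) (S.b.map (gY F p hF) + S.a * S.b - S.c) :=
    ((hb.dy hF).add (ha.mul hb)).sub hc
  have hH1 : RelM (HN F B 0) (S.a.map (gX F p hF) + S.b * S.a - S.c) :=
    ((ha.dx hF).add (hb.mul ha)).sub hc
  set η := S.b.map (gY F p hF) + S.a * S.b - S.c with hη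
  set η' := S.a.map (gX F p hF) + S.b * S.a - S.c with hη'
  have h2 : ∀ (C : ℕ → MatF 𝕜 N) (γ : Matrix (Fin N) (Fin N) (VV p)), RelM (C 1) γ →
      RelM (HN F C 2) (2 • η + (γ - S.b).map (gY F p hF) + (S.a * (γ - S.b) - (γ - S.b) * S.a)
        - η') := by
    intro C γ hγ
    exact (((RelM.smul_nat 2 hH0).add ((hγ.sub hb).dy hF)).add
      ((ha.mul (hγ.sub hb)).sub ((hγ.sub hb).mul ha))).sub hH1
  -- the relation for the modified matrix
  have hEZ : ε * η = 0 := by
    have h3 : RelM (E * ZN F B 0) (ε * η) := hε.mul hH0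
    refine (h3.eq_iff relM_zero).2 fun k j => ?_
    by_cases hk : k = i
    · have e : (E * ZN F B 0) k j = ((ZN F B 0)ᵀ *ᵥ v) j := by
        simp only [Matrix.mul_apply, E, of_apply, if_pos hk, mulVec, dotProduct, transpose_apply]
        exact Finset.sum_congr rfl fun l _ => mul_comm _ _
      rw [e]
      exact h0 j
    · refine Eventually.of_forall fun q => ?_
      simp [mul_apply, E, hk]
  have hrelE : Near p ((ZN F B 0).map (DX F) - ZN F B 0 * bM F + (B 1 + E) * ZN F B 0) 0 := by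
    have h3 := (((hH0.dx hF).sub (hH0.mul hb)).add ((hβ.add hε).mul hH0))
    have h4 := (((hH0.dx hF).sub (hH0.mul hb)).add (hβ.mul hH0))
    have h5 := (h4.eq_iff relM_zero).2 (hB.rel 0)
    refine (h3.eq_iff relM_zero).1 ?_
    rw [add_mul, hEZ, add_zero]
    exact h5
  have h6 := hB.wd (B 1 + E) hE' hrelE
  have h7 : RelM (ZN F (fun _ => B 1 + E) 1) _ := (h2 (fun _ => B 1 + E) _ (hβ.add hε)).mul hH0
  have h8 : RelM (ZN F B 1) _ := (h2 B _ hβ).mul hH0
  have h9 := (h7.eq_iff h8).2 h6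
  have h10 : (ε.map (gY F p hF) - ε * S.a) * η = 0 := by
    have e1 : (β + ε - S.b).map (gY F p hF)
        = (β - S.b).map (gY F p hF) + ε.map (gY F p hF) := by
      ext1 k j
      simp only [map_apply, Matrix.add_apply, Matrix.sub_apply, map_add, map_sub]
      ring
    rw [e1] at h9
    have e2 : S.a * ε * η = 0 := by rw [Matrix.mul_assoc, hEZ, Matrix.mul_zero]
    have e3 : (2 • η + ((β - S.b).map (gY F p hF) + ε.map (gY F p hF))
        + (S.a * (β + ε - S.b) - (β + ε - S.b) * S.a) - η') * η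
        = (2 • η + (β - S.b).map (gY F p hF) + (S.a * (β - S.b) - (β - S.b) * S.a) - η') * η
          + (ε.map (gY F p hF) - ε * S.a) * η + S.a * ε * η := by
      noncomm_ring
    rw [e3, e2, add_zero] at h9
    exact left_eq_add.1 h9.symm
  have hεi : ∀ j, ε i j = ν j := by
    intro j
    refine ((hε i j).eq_iff (hν j)).2 (Eventually.of_forall fun q => ?_)
    simp [E]
  have h11 : RelV (fun j => DY F (v j) + ((-(aM F)ᵀ) *ᵥ v) j)
      (dv (gY F p hF) ν + (-S.aᵀ) *ᵥ ν) := fun j =>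
    ((hν j).dy hF).add (ha.transpose.neg.mulVec hν j)
  have h12 := hH0.transpose.mulVec h11 i
  refine (h12.eq_iff relG_zero).1 ?_
  have h13 := congrFun (congrFun h10 i) i
  rw [Matrix.mul_apply] at h13
  simp only [mulVec, dotProduct, transpose_apply]
  rw [Matrix.zero_apply] at h13
  rw [← h13]
  refine Finset.sum_congr rfl fun k _ => ?_
  rw [mul_comm]
  congr 1
  rw [Matrix.sub_apply, map_apply, hεi, Matrix.mul_apply, sub_eq_add_neg]
  simp only [Pi.add_apply, dv, neg_mulVec, Pi.neg_apply, mulVec, dotProduct, transpose_apply]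
  congr 2
  refine Finset.sum_congr rfl fun l _ => ?_
  rw [hεi, mul_comm]

include hF in
lemma ChainDown.invT' (hB : ChainDown F p B) (k : ℕ) :
    KerInv p (DY F) (-(aM F)ᵀ) (ZN F B k)ᵀ := by
  cases k with
  | zero => exact hB.invT0 hF
  | succ k => exact hB.invT k

variable (hG : AnalyticAt 𝕜 (flipF F) (base (flipJ p))) (hB : ∀ k, IsMat p (B k))

/-- germs of the flipped `b_{-k}` -/
noncomputable def fam : ℕ → Matrix (Fin N) (Fin N) (VV (flipJ p))
  | 0 => (sysAt (flipF F) (flipJ p) hG).a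
  | k + 1 => fun i j => mk (flipJ p) (fl (B (k + 1) i j)) (isFn_fl (hB (k + 1) i j))

lemma relM_fam (k : ℕ) : RelM ((bs F B k).map fl) (fam hG hB k) := by
  cases k with
  | zero =>
    show RelM ((bM F).map fl) _
    rw [aM_flip]
    exact relM_aM hG
  | succ k => exact fun i j => relG_mk (isFn_fl (hB (k + 1) i j))

/-- germs of the flipped `H_{1-k}` -/
noncomputable def fH : ℕ → Matrix (Fin N) (Fin N) (VV (flipJ p))
  | 0 => (sysAt (flipF F) (flipJ p) hG).b.map (gY (flipF F) (flipJ p) hG)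
      + (sysAt (flipF F) (flipJ p) hG).a * (sysAt (flipF F) (flipJ p) hG).b
      - (sysAt (flipF F) (flipJ p) hG).c
  | 1 => (sysAt (flipF F) (flipJ p) hG).a.map (gX (flipF F) (flipJ p) hG)
      + (sysAt (flipF F) (flipJ p) hG).b * (sysAt (flipF F) (flipJ p) hG).a
      - (sysAt (flipF F) (flipJ p) hG).c
  | k + 2 => 2 • fH (k + 1) + (fam hG hB (k + 1) - fam hG hB k).map (gX (flipF F) (flipJ p) hG)
      + ((sysAt (flipF F) (flipJ p) hG).b * (fam hG hB (k + 1) - fam hG hB k)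
        - (fam hG hB (k + 1) - fam hG hB k) * (sysAt (flipF F) (flipJ p) hG).b) - fH k

/-- germs of the flipped `Z_{1-k}` -/
noncomputable def fZ : ℕ → Matrix (Fin N) (Fin N) (VV (flipJ p))
  | 0 => 1
  | k + 1 => fH hG hB (k + 1) * fZ k

lemma relM_bMf : RelM ((bM F).map fl) (sysAt (flipF F) (flipJ p) hG).a := by
  rw [aM_flip]; exact relM_aM hG

lemma relM_aMf : RelM ((aM F).map fl) (sysAt (flipF F) (flipJ p) hG).b := by
  rw [bM_flip]; exact relM_bM hG

lemma relM_cMf : RelM ((cM F).map fl) (sysAt (flipF F) (flipJ p) hG).c := by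
  rw [cM_flip]; exact relM_cM hG

lemma RelM.flip_dx {M : MatF 𝕜 N} {Φ : Matrix (Fin N) (Fin N) (VV (flipJ p))}
    (h : RelM (M.map fl) Φ) : RelM ((M.map (DX F)).map fl) (Φ.map (gY (flipF F) (flipJ p) hG)) := by
  rw [map_fl_DX]
  exact h.dy hG

lemma RelM.flip_dy {M : MatF 𝕜 N} {Φ : Matrix (Fin N) (Fin N) (VV (flipJ p))}
    (h : RelM (M.map fl) Φ) : RelM ((M.map (DY F)).map fl) (Φ.map (gX (flipF F) (flipJ p) hG)) := by
  rw [map_fl_DY]
  exact h.dx hG

lemma relM_fH : ∀ k, RelM ((HN F B k).map fl) (fH hG hB k)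
  | 0 => by
    rw [fH, HN, map_fl_sub, map_fl_add, map_fl_mul]
    exact (((relM_aMf hG).flip_dx hG).add ((relM_bMf hG).mul (relM_aMf hG))).sub (relM_cMf hG)
  | 1 => by
    rw [fH, HN, map_fl_sub, map_fl_add, map_fl_mul]
    exact (((relM_bMf hG).flip_dy hG).add ((relM_aMf hG).mul (relM_bMf hG))).sub (relM_cMf hG)
  | k + 2 => by
    rw [fH, HN, map_fl_sub, map_fl_add, map_fl_add, map_fl_smul, map_fl_sub, map_fl_mul,
      map_fl_mul]
    have h1 : RelM ((bs F B (k + 1) - bs F B k).map fl) (fam hG hB (k + 1) - fam hG hB k) :=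
      (relM_fam hG hB (k + 1)).sub (relM_fam hG hB k)
    exact (((RelM.smul_nat 2 (relM_fH (k + 1))).add (h1.flip_dy hG)).add
      (((relM_aMf hG).mul h1).sub (h1.mul (relM_aMf hG)))).sub (relM_fH k)

lemma relM_fZ (k : ℕ) : RelM ((ZN F B k).map fl) (fZ hG hB (k + 1)) := by
  induction k with
  | zero =>
    have e : fZ hG hB 1 = fH hG hB 1 := by rw [fZ, fZ, mul_one]
    rw [e]
    exact relM_fH hG hB 1
  | succ k ih =>
    rw [ZN, map_fl_mul]
    exact (relM_fH hG hB (k + 2)).mul ih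

lemma fH_step (k : ℕ) : fH hG hB (k + 1) - fH hG hB k
    = (fam hG hB k).map (gX (flipF F) (flipJ p) hG)
      - (sysAt (flipF F) (flipJ p) hG).b.map (gY (flipF F) (flipJ p) hG)
      + (sysAt (flipF F) (flipJ p) hG).b * fam hG hB k
      - fam hG hB k * (sysAt (flipF F) (flipJ p) hG).b := by
  induction k with
  | zero =>
    rw [fH, fH, fam]
    abel
  | succ k ih =>
    have e : (fam hG hB (k + 1) - fam hG hB k).map (gX (flipF F) (flipJ p) hG)
        = (fam hG hB (k + 1)).map (gX (flipF F) (flipJ p) hG)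
          - (fam hG hB k).map (gX (flipF F) (flipJ p) hG) := by
      ext1 i j
      simp only [map_apply, Matrix.sub_apply, map_sub]
    have e2 : fH hG hB (k + 1 + 1) = 2 • fH hG hB (k + 1)
      + (fam hG hB (k + 1) - fam hG hB k).map (gX (flipF F) (flipJ p) hG)
      + ((sysAt (flipF F) (flipJ p) hG).b * (fam hG hB (k + 1) - fam hG hB k)
        - (fam hG hB (k + 1) - fam hG hB k) * (sysAt (flipF F) (flipJ p) hG).b) - fH hG hB k := by
      rw [fH]
    have e3 : fH hG hB (k + 1 + 1) - fH hG hB (k + 1) = (fH hG hB (k + 1) - fH hG hB k)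
      + (fam hG hB (k + 1) - fam hG hB k).map (gX (flipF F) (flipJ p) hG)
      + ((sysAt (flipF F) (flipJ p) hG).b * (fam hG hB (k + 1) - fam hG hB k)
        - (fam hG hB (k + 1) - fam hG hB k) * (sysAt (flipF F) (flipJ p) hG).b) := by
      rw [e2, two_smul]
      abel
    rw [e3, ih, e, Matrix.mul_sub, Matrix.sub_mul]
    abel

/-- the chain of the flipped system -/
noncomputable def fChain (hF : AnalyticAt 𝕜 F (base p)) (hBd : ChainDown F p B) :
    (sysAt (flipF F) (flipJ p) hG).Chain where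
  am := fam hG hBd.fn
  H := fH hG hBd.fn
  Z := fZ hG hBd.fn
  am_zero := rfl
  H_one := rfl
  H_succ := fun k => by
    have h := fH_step hG hBd.fn (k + 1)
    exact sub_eq_iff_eq_add.1 h
  Z_zero := rfl
  Z_succ := fun k => rfl
  rel := by
    intro k
    cases k with
    | zero =>
      show (1 : Matrix (Fin N) (Fin N) (VV (flipJ p))).map (gY (flipF F) (flipJ p) hG)
          + (sysAt (flipF F) (flipJ p) hG).a * 1 = 1 * (sysAt (flipF F) (flipJ p) hG).a
      have h : (1 : Matrix (Fin N) (Fin N) (VV (flipJ p))).map (gY (flipF F) (flipJ p) hG) = 0 := by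
        ext1 i j
        rw [map_apply, one_apply]
        split_ifs <;> simp
      rw [h, zero_add, mul_one, one_mul]
    | succ k =>
      have h1 := (((relM_fZ hG hBd.fn k).flip_dx hG).sub
        ((relM_fZ hG hBd.fn k).mul (relM_bMf hG))).add
        ((relM_fam hG hBd.fn (k + 1)).mul (relM_fZ hG hBd.fn k))
      have h2 : Near (flipJ p) _ _ := (hBd.rel k).flip
      rw [map_fl_add, map_fl_sub, map_fl_mul, map_fl_mul] at h2
      have h3 := (h1.eq_iff relM_zero).2 h2
      have h4 : (fZ hG hBd.fn (k + 1)).map (gY (flipF F) (flipJ p) hG)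
          + fam hG hBd.fn (k + 1) * fZ hG hBd.fn (k + 1)
          - fZ hG hBd.fn (k + 1) * (sysAt (flipF F) (flipJ p) hG).a = 0 := by
        rw [← h3]
        abel
      exact sub_eq_zero.1 h4
  inv := by
    intro k v hv
    cases k with
    | zero =>
      have h1 : v = 0 := by
        have : v ᵥ* (1 : Matrix (Fin N) (Fin N) (VV (flipJ p))) = 0 := hv
        rwa [vecMul_one] at this
      subst h1
      have h2 : dv (sysAt (flipF F) (flipJ p) hG).D (0 : Fin N → VV (flipJ p)) = 0 := by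
        funext i; simp [dv]
      rw [h2, zero_vecMul, sub_zero, zero_vecMul]
    | succ k =>
      have h0 : KerInv (flipJ p) (DX (flipF F)) ((-(aM F)ᵀ).map fl) (((ZN F B k)ᵀ).map fl) :=
        (hBd.invT' hF k).flip (DX_flip F)
      have h1 := h0.germ (Δ := gX (flipF F) (flipJ p) hG) (fun f φ h => h.dx hG)
        (μ := -(sysAt (flipF F) (flipJ p) hG).bᵀ) (ζ := (fZ hG hBd.fn (k + 1))ᵀ)
        (relM_aMf hG).transpose.neg (relM_fZ hG hBd.fn k).transpose v
        (by rw [mulVec_transpose]; exact hv)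
      rw [neg_mulVec, mulVec_transpose, mulVec_transpose, ← sub_eq_add_neg] at h1
      exact h1

end Down

end Pool.Agent.Helper974.Hyp
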