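import Mathlib
import Pool.Agent.Helper974.HypDown

namespace Pool.Agent.Helper974.Hyp

open Filter Topology Matrix
open Pool.Agent.Helper974.JetGerm Pool.Agent.Helper974.Liou Pool.Agent.Helper974.Frob

variable {𝕜 : Type} [RCLike 𝕜] {N : ℕ}

lemma yIntegrals_of_flip {F : Arg 𝕜 N → Fin N → 𝕜} {q : Jet 𝕜 N}
    (h : HasXIntegrals (flipF F) (flipJ q)) : HasYIntegrals F q := by
  obtain ⟨W, hW, hind⟩ := h
  have hDY : ∀ f : Jet 𝕜 N → 𝕜, DY F (fl f) = fl (DX (flipF F) f) := by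
    intro f
    have h1 := DX_flip F (fl f)
    rw [fl_fl] at h1
    rw [h1, fl_fl]
  have hDX : ∀ f : Jet 𝕜 N → 𝕜, DX F (fl f) = fl (DY (flipF F) f) := by
    intro f
    have h1 := DY_flip F (fl f)
    rw [fl_fl] at h1
    rw [h1, fl_fl]
  refine ⟨fun i => fl (W i), fun i => ⟨isFn_fl' (hW i).fn, ?_, ?_, ?_⟩, ?_⟩
  · intro j k hk
    rw [pdf_fl]
    exact fl_congr' ((hW i).dep j (-k) (by omega))
  · rw [hDY]
    exact fl_congr' (hW i).zero
  · obtain ⟨a, ha, hne⟩ := (hW i).nontriv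
    refine ⟨flipV a, ?_, ?_⟩
    · intro h
      apply ha
      rw [← flipV_flipV a, h]
      rfl
    · intro h
      apply hne
      rw [pdf_fl, flipV_flipV] at h
      have := fl_congr h
      rwa [fl_fl] at this
  · have hit : ∀ (n : ℕ) (f : Jet 𝕜 N → 𝕜), (DX F)^[n] (fl f) = fl ((DY (flipF F))^[n] f) := by
      intro n f
      induction n with
      | zero => rfl
      | succ n ih => rw [Function.iterate_succ_apply', Function.iterate_succ_apply', ih, hDX]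
    have e : (fun (m : Fin N × ℕ) (a : Var N) => pdf a ((DX F)^[m.2] (fl (W m.1))) q)
        = (LinearEquiv.funCongrLeft 𝕜 𝕜 (flipE (N := N)) : (Var N → 𝕜) →ₗ[𝕜] (Var N → 𝕜)) ∘
          fun (m : Fin N × ℕ) (a : Var N) => pdf a ((DY (flipF F))^[m.2] (W m.1)) (flipJ q) := by
      funext m a
      rw [hit, pdf_fl]
      rfl
    unfold FunIndep
    rw [e]
    exact hind.map' _ (LinearEquiv.ker _)

theorem main {F : Arg 𝕜 N → Fin N → 𝕜} {p : Jet 𝕜 N} (hF : AnalyticAt 𝕜 F (base p))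
    (hL : LiouvilleType F p) :
    ∃ h : Jet 𝕜 N → 𝕜, IsFn p h ∧ ¬ h =ᶠ[𝓝 p] 0 ∧
      ∀ᶠ q in 𝓝 p, h q ≠ 0 → DarbouxIntegrable F q := by
  obtain ⟨⟨A, hA, r, hr⟩, B, hB, s, hs⟩ := hL
  have hG := analytic_flip hF
  have hZr : (gChain hF hA).Z (r + 1) = 0 := ((relM_gZ hF hA r).eq_iff relM_zero).2 hr
  have hZs : (fChain hG hF hB).Z (s + 1) = 0 := by
    refine ((relM_fZ hG hB.fn s).eq_iff relM_zero).2 ?_
    exact hs.flip
  obtain ⟨h₁, hf₁, hn₁, hi₁⟩ := xpart hF (gChain hF hA) (Nat.succ_le_succ (Nat.zero_le r)) hZr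
  obtain ⟨h₂, hf₂, hn₂, hi₂⟩ := xpart hG (fChain hG hF hB) (Nat.succ_le_succ (Nat.zero_le s)) hZs
  have hf₂' : IsFn p (fl h₂) := isFn_fl' hf₂
  refine ⟨h₁ * fl h₂, hf₁.mul hf₂', ?_, ?_⟩
  · intro h0
    have h1 : mk p h₁ hf₁ * mk p (fl h₂) hf₂' = 0 := (mk_zero_iff (hf₁.mul hf₂')).2 h0
    rcases mul_eq_zero.1 h1 with h2 | h2
    · exact hn₁ ((mk_zero_iff _).1 h2)
    · apply hn₂
      have h3 := fl_congr ((mk_zero_iff _).1 h2)
      rwa [fl_fl] at h3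
  · have h3 := eventually_flip hi₂
    rw [flipJ_flipJ] at h3
    filter_upwards [hi₁, h3] with q hq1 hq2 hne
    have hne1 : h₁ q ≠ 0 := fun h => hne (by rw [Pi.mul_apply, h, zero_mul])
    have hne2 : h₂ (flipJ q) ≠ 0 := fun h => hne (by
      rw [Pi.mul_apply]
      show h₁ q * h₂ (flipJ q) = 0
      rw [h, mul_zero])
    exact ⟨yIntegrals_of_flip (hq2 hne2), hq1 hne1⟩

end Pool.Agent.Helper974.Hyp
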