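import Mathlib
import Pool.Agent.Helper974.HypMain

namespace Pool.Agent.Helper974.Hyp

open Filter Topology Matrix
open Pool.Agent.Helper974.JetGerm

/-- the Liouville equation `u_xy = exp u` -/
noncomputable def liouF : Arg ℝ 1 → Fin 1 → ℝ := fun z i => Real.exp (z.2.2.1 i)

/-- `exp u` -/
noncomputable def eu : Jet ℝ 1 → ℝ := fun q => Real.exp (q (vu 0 0))

noncomputable def Eu : MatF ℝ 1 := Matrix.of fun _ _ => eu

lemma mul11 (M M' : MatF ℝ 1) (i j : Fin 1) : (M * M') i j = M i 0 * M' 0 j := by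
  rw [Matrix.mul_apply]
  simp

lemma rhs_liou (i : Fin 1) : rhs liouF i = eu := by
  funext q
  have : i = 0 := Subsingleton.elim _ _
  subst this
  rfl

lemma pdf_of_coord (a b : Var 1) (g g' : ℝ → ℝ) (hg : ∀ t, HasDerivAt g (g' t) t) :
    pdf a (fun q : Jet ℝ 1 => g (q b)) = fun q => if a = b then g' (q b) else 0 := by
  funext q
  unfold pdf
  by_cases h : a = b
  · subst h
    simp only [Function.update_self, if_true]
    exact (hg _).deriv
  · have : (fun t => g (Function.update q a t b)) = fun _ => g (q b) := by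
      funext t
      rw [Function.update_of_ne (Ne.symm h)]
    rw [this, if_neg h]
    simp

lemma along_of_coord (c : Var 1 → Jet ℝ 1 → ℝ) (b : Var 1) (g g' : ℝ → ℝ)
    (hg : ∀ t, HasDerivAt g (g' t) t) :
    along c (fun q : Jet ℝ 1 => g (q b)) = fun q => c b q * g' (q b) := by
  funext q
  unfold along
  rw [finsum_eq_single _ b]
  · rw [pdf_of_coord _ _ g g' hg]
    simp
  · intro a ha
    rw [pdf_of_coord _ _ g g' hg]
    simp [ha]

lemma pdf_zero' (a : Var 1) : pdf a (0 : Jet ℝ 1 → ℝ) = 0 := by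
  have := pdf_of_coord a vx (fun _ => 0) (fun _ => 0) (fun t => hasDerivAt_const t 0)
  simp only [ite_self] at this
  exact this

lemma along_zero' (c : Var 1 → Jet ℝ 1 → ℝ) : along c (0 : Jet ℝ 1 → ℝ) = 0 := by
  have := along_of_coord c vx (fun _ => 0) (fun _ => 0) (fun t => hasDerivAt_const t 0)
  simp only [mul_zero] at this
  exact this

lemma DX_zero' (F : Arg ℝ 1 → Fin 1 → ℝ) : DX F 0 = 0 := along_zero' _
lemma DY_zero' (F : Arg ℝ 1 → Fin 1 → ℝ) : DY F 0 = 0 := along_zero' _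

lemma aM_liou : aM liouF = 0 := by
  ext1 i j
  show -pdf (vu j 1) (rhs liouF i) = 0
  rw [rhs_liou]
  unfold eu
  rw [pdf_of_coord _ _ Real.exp Real.exp Real.hasDerivAt_exp]
  funext q
  simp

lemma bM_liou : bM liouF = 0 := by
  ext1 i j
  show -pdf (vu j (-1)) (rhs liouF i) = 0
  rw [rhs_liou]
  unfold eu
  rw [pdf_of_coord _ _ Real.exp Real.exp Real.hasDerivAt_exp]
  funext q
  simp

lemma cM_liou : cM liouF = -Eu := by
  ext1 i j
  show -pdf (vu j 0) (rhs liouF i) = -eu
  rw [rhs_liou]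
  have hj : j = 0 := Subsingleton.elim _ _
  subst hj
  unfold eu
  rw [pdf_of_coord _ _ Real.exp Real.exp Real.hasDerivAt_exp]
  simp

lemma DX_eu : DX liouF eu = (fun q => q (vu 0 1)) * eu := by
  unfold DX eu
  rw [along_of_coord _ _ Real.exp Real.exp Real.hasDerivAt_exp]
  funext q
  simp [compX]

lemma DY_eu : DY liouF eu = (fun q => q (vu 0 (-1))) * eu := by
  unfold DY eu
  rw [along_of_coord _ _ Real.exp Real.exp Real.hasDerivAt_exp]
  funext q
  simp [compY]

lemma DX_uy : DX liouF (fun q => -q (vu 0 (-1))) = -eu := by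
  unfold DX
  rw [along_of_coord _ _ (fun t => -t) (fun _ => -1) (fun t => (hasDerivAt_id t).neg)]
  funext q
  simp [compX, rhs_liou]

lemma DY_ux : DY liouF (fun q => -q (vu 0 1)) = -eu := by
  unfold DY
  rw [along_of_coord _ _ (fun t => -t) (fun _ => -1) (fun t => (hasDerivAt_id t).neg)]
  funext q
  simp [compY, rhs_liou]

/-- the matrices `a_k` -/
noncomputable def Aex : ℕ → MatF ℝ 1
  | 1 => Matrix.of fun _ _ => fun q => -q (vu 0 (-1))
  | _ => 0

/-- the matrices `b_{-k}` -/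
noncomputable def Bex : ℕ → MatF ℝ 1
  | 1 => Matrix.of fun _ _ => fun q => -q (vu 0 1)
  | _ => 0

lemma isMat_Aex (p : Jet ℝ 1) : ∀ k, IsMat p (Aex k)
  | 0 => fun _ _ => isFn_const 0
  | 1 => fun _ _ => (isFn_coord _).neg
  | _ + 2 => fun _ _ => isFn_const 0

lemma isMat_Bex (p : Jet ℝ 1) : ∀ k, IsMat p (Bex k)
  | 0 => fun _ _ => isFn_const 0
  | 1 => fun _ _ => (isFn_coord _).neg
  | _ + 2 => fun _ _ => isFn_const 0

lemma map_zero_DX : (0 : MatF ℝ 1).map (DX liouF) = 0 := by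
  ext1 i j
  exact DX_zero' _

lemma map_zero_DY : (0 : MatF ℝ 1).map (DY liouF) = 0 := by
  ext1 i j
  exact DY_zero' _

lemma HP0 (A : ℕ → MatF ℝ 1) : HP liouF A 0 = Eu := by
  rw [HP, aM_liou, bM_liou, cM_liou, map_zero_DX]
  simp

lemma HN1 (B : ℕ → MatF ℝ 1) : HN liouF B 1 = Eu := by
  rw [HN, aM_liou, bM_liou, cM_liou, map_zero_DY]
  simp

lemma HN0 (B : ℕ → MatF ℝ 1) : HN liouF B 0 = Eu := by
  rw [HN, aM_liou, bM_liou, cM_liou, map_zero_DX]
  simp

lemma ZP1 : ZP liouF Aex 1 = 0 := by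
  have h : HP liouF Aex 1 = 0 := by
    rw [HP, bM_liou, map_zero_DY, HP0]
    simp only [zero_add, Aex, Matrix.zero_mul, Matrix.mul_zero, add_zero, sub_zero]
    ext1 i j
    show DX liouF (fun q => -q (vu 0 (-1))) + eu = 0
    rw [DX_uy]
    simp
  rw [ZP, h, Matrix.zero_mul]

lemma HN2 {B : ℕ → MatF ℝ 1} (hB : B 1 = Bex 1) : HN liouF B 2 = 0 := by
  rw [HN, HN1, HN0, aM_liou]
  simp only [bs, zero_add, hB, bM_liou, sub_zero, Matrix.zero_mul, Matrix.mul_zero, add_zero]
  simp only [Bex]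
  ext1 i j
  show 2 • eu + DY liouF (fun q => -q (vu 0 1)) - eu = 0
  rw [DY_ux, two_smul]
  abel

lemma ZN1 : ZN liouF Bex 1 = 0 := by
  rw [ZN, HN2 rfl, Matrix.zero_mul]

lemma ZP_succ (k : ℕ) : ZP liouF Aex (k + 1) = 0 := by
  induction k with
  | zero => exact ZP1
  | succ k ih => rw [ZP, ih, Matrix.mul_zero]

lemma ZN_succ (k : ℕ) : ZN liouF Bex (k + 1) = 0 := by
  induction k with
  | zero => exact ZN1
  | succ k ih => rw [ZN, ih, Matrix.mul_zero]

lemma eu_ne (q : Jet ℝ 1) : eu q ≠ 0 := (Real.exp_pos _).ne'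

lemma kerInv_zero (p : Jet ℝ 1) (δ : (Jet ℝ 1 → ℝ) → Jet ℝ 1 → ℝ) (m : MatF ℝ 1) :
    KerInv p δ m 0 := by
  intro v _ _ i
  rw [Matrix.zero_mulVec]
  rfl

lemma kerInv_Eu (p : Jet ℝ 1) (c : Var 1 → Jet ℝ 1 → ℝ) {Z : MatF ℝ 1} (hZ : Z = Eu) :
    KerInv p (along c) 0 Z := by
  intro v _ h i
  subst hZ
  have h1 : v 0 =ᶠ[𝓝 p] 0 := by
    filter_upwards [h 0] with q hq
    simp only [mulVec, dotProduct, Finset.univ_unique, Fin.default_eq_zero, Finset.sum_singleton,
      Eu, Pi.mul_apply, Pi.zero_apply, mul_eq_zero] at hq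
    exact hq.resolve_left (eu_ne q)
  have h2 : along c (v 0) =ᶠ[𝓝 p] 0 := by
    have := along_congr c h1
    rwa [along_zero'] at this
  filter_upwards [h2] with q hq
  simp only [mulVec, dotProduct, Finset.univ_unique, Fin.default_eq_zero, Finset.sum_singleton,
      Eu, Pi.mul_apply, Matrix.zero_apply, zero_mul, add_zero, hq, Pi.zero_apply, mul_zero]

/-- the Liouville equation is of Liouville type -/
theorem liouvilleType_liouF (p : Jet ℝ 1) : LiouvilleType liouF p := by
  refine ⟨⟨Aex, ⟨?_, ?_, ?_, ?_⟩, 1, ?_⟩, Bex, ⟨?_, ?_, ?_, ?_, ?_⟩, 1, ?_⟩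
  · exact isMat_Aex p
  · intro k
    cases k with
    | zero =>
      intro i j
      rw [aM_liou, Matrix.mul_zero]
      have h : (ZP liouF Aex 0).map (DY liouF) + Aex (0 + 1) * ZP liouF Aex 0 = 0 := by
        rw [ZP, HP0]
        ext1 i j
        show DY liouF eu + _ = 0
        rw [DY_eu, mul11]
        funext q
        simp [Aex, Eu]
      rw [h]
    | succ k =>
      intro i j
      rw [ZP_succ, map_zero_DY]
      simp
  · intro k
    cases k with
    | zero =>
      rw [aM_liou]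
      exact kerInv_Eu p _ (HP0 _)
    | succ k => rw [ZP_succ]; exact kerInv_zero _ _ _
  · intro k
    cases k with
    | zero =>
      rw [bM_liou, transpose_zero, neg_zero]
      exact kerInv_Eu p _ (by rw [ZP, HP0]; rfl)
    | succ k => rw [ZP_succ, transpose_zero]; exact kerInv_zero _ _ _
  · rw [ZP1]
    exact fun _ _ => EventuallyEq.rfl
  · exact isMat_Bex p
  · intro k
    cases k with
    | zero =>
      have h : (ZN liouF Bex 0).map (DX liouF) - ZN liouF Bex 0 * bM liouF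
          + Bex (0 + 1) * ZN liouF Bex 0 = 0 := by
        rw [ZN, HN1, bM_liou, Matrix.mul_zero, sub_zero]
        ext1 i j
        show DX liouF eu + _ = 0
        rw [DX_eu, mul11]
        funext q
        simp [Bex, Eu]
      rw [h]
      exact fun _ _ => EventuallyEq.rfl
    | succ k =>
      rw [ZN_succ, map_zero_DX]
      intro i j
      simp
  · intro k
    rw [ZN_succ]; exact kerInv_zero _ _ _
  · intro k
    rw [ZN_succ, transpose_zero]; exact kerInv_zero _ _ _
  · intro B' hB' h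
    have h0 := h 0 0
    have h1 : B' 0 0 =ᶠ[𝓝 p] fun q => -q (vu 0 1) := by
      rw [ZN, HN1, bM_liou, Matrix.mul_zero, sub_zero] at h0
      filter_upwards [h0] with q hq
      have e : (Eu.map (DX liouF) + B' * Eu) 0 0 q = q (vu 0 1) * eu q + B' 0 0 q * eu q := by
        show DX liouF eu q + (B' * Eu) 0 0 q = _
        rw [DX_eu]
        simp [Matrix.mul_apply, Eu]
      rw [e] at hq
      have h2 : (q (vu 0 1) + B' 0 0 q) * eu q = 0 := by
        rw [add_mul]; exact hq
      have h3 := (mul_eq_zero.1 h2).resolve_right (eu_ne q)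
      linarith
    intro i j
    have hi : i = 0 := Subsingleton.elim _ _
    have hj : j = 0 := Subsingleton.elim _ _
    subst hi hj
    have h4 : DY liouF (B' 0 0) =ᶠ[𝓝 p] -eu := by
      have := along_congr (compY liouF) h1
      rw [← DY_ux]
      exact this
    rw [ZN1]
    have e : ZN liouF (fun _ => B') 1 0 0 = (2 • eu + DY liouF (B' 0 0) - eu) * eu := by
      have e1 : ZN liouF (fun _ => B') 1 = HN liouF (fun _ => B') 2 * Eu := by
        rw [ZN, ZN, HN1]
      have e2 : HN liouF (fun _ => B') 2 = 2 • Eu + B'.map (DY liouF) - Eu := by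
        rw [HN, HN1, HN0, aM_liou]
        simp only [bs, zero_add, bM_liou, sub_zero, Matrix.zero_mul, Matrix.mul_zero, add_zero]
      rw [e1, e2, mul11]
      rfl
    rw [e]
    filter_upwards [h4] with q hq
    simp only [Pi.mul_apply, Pi.sub_apply, Pi.add_apply, hq, Pi.neg_apply,
      two_smul, Matrix.zero_apply, Pi.zero_apply]
    ring
  · rw [ZN1]
    exact fun _ _ => EventuallyEq.rfl

end Pool.Agent.Helper974.Hyp
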