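import Mathlib

namespace Pool.Agent.Helper974.Third

noncomputable section

variable {R : Type} [CommRing R] [Algebra ℝ R] (D : Derivation ℝ R R)

/-- first component of the first order operator `Q` -/
def Qa (c : R) (y1 : R) : R := D (c * y1)

/-- second component of the first order operator `Q` -/
def Qb (b c : R) (y0 y1 : R) : R := c * D y0 + b * c ^ 2 * D y1 + D (b * c ^ 2 * y1)

/-- derivative of `Qa` in the direction `w` -/
def dQa (c w0 : R) (y1 : R) : R := D (-(c ^ 2 * w0) * y1)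

/-- derivative of `Qb` in the direction `w` -/
def dQb (b c w0 w1 : R) (y0 y1 : R) : R :=
  -(c ^ 2 * w0) * D y0 + (w1 * c ^ 2 - 2 * b * c ^ 3 * w0) * D y1
    + D ((w1 * c ^ 2 - 2 * b * c ^ 3 * w0) * y1)

/-- the components of the adjoint with respect to the direction -/
def Na (b c : R) (z0 z1 y0 y1 : R) : R :=
  c ^ 2 * (y1 * D z0 - z1 * D y0) - 2 * b * c ^ 3 * (z1 * D y1 - y1 * D z1)

def Nb (c : R) (z1 y1 : R) : R := c ^ 2 * (z1 * D y1 - y1 * D z1)

theorem key_a (c y1 z1 : R) :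
    dQa D c (D (Qa D c y1)) z1 - dQa D c (D (Qa D c z1)) y1 + Qa D c (D (Nb D c z1 y1)) = 0 := by
  have h2 : D (2 : R) = 0 := by
    have := D.map_natCast 2
    simpa using this
  simp only [dQa, Qa, Nb, Derivation.leibniz, Derivation.leibniz_pow, map_add, map_neg, map_sub,
    smul_eq_mul, nsmul_eq_mul]
  norm_num
  simp only [h2]
  ring

theorem key_b (b c y0 y1 z0 z1 : R) :
    dQb D b c (D (Qa D c y1)) (D (Qb D b c y0 y1)) z0 z1
      - dQb D b c (D (Qa D c z1)) (D (Qb D b c z0 z1)) y0 y1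
      + Qb D b c (D (Na D b c z0 z1 y0 y1)) (D (Nb D c z1 y1)) = 0 := by
  have h2 : D (2 : R) = 0 := by
    have := D.map_natCast 2
    simpa using this
  have h3 : D (3 : R) = 0 := by
    have := D.map_natCast 3
    simpa using this
  simp only [dQb, Qa, Qb, Na, Nb, Derivation.leibniz, Derivation.leibniz_pow, map_add,
    map_sub, smul_eq_mul, nsmul_eq_mul, h2]
  norm_num
  simp only [h2, h3]
  ring


/-- the third order operator -/
def Pa (c : R) (q1 : R) : R := D (Qa D c (D q1))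

def Pb (b c : R) (q0 q1 : R) : R := D (Qb D b c (D q0) (D q1))

def dPa (c w0 : R) (q1 : R) : R := D (dQa D c w0 (D q1))

def dPb (b c w0 w1 : R) (q0 q1 : R) : R := D (dQb D b c w0 w1 (D q0) (D q1))

variable {M : Type} [AddCommGroup M] (τ : R →+ M)

theorem tau_eq (hτ : ∀ x, τ (D x) = 0) {X Y Z : R} (h : X = Y + D Z) : τ X = τ Y := by
  rw [h, map_add, hτ, add_zero]

/-- skew-symmetry of a first order block operator -/
theorem skewQ (hτ : ∀ x, τ (D x) = 0) (c e x0 x1 y0 y1 : R) :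
    τ (x0 * D (c * y1) + x1 * (c * D y0 + e * D y1 + D (e * y1)))
      = - τ (y0 * D (c * x1) + y1 * (c * D x0 + e * D x1 + D (e * x1))) := by
  rw [← map_neg]
  apply tau_eq D τ hτ (Z := x0 * c * y1 + y0 * c * x1 + 2 * e * x1 * y1)
  have h2 : D (2 : R) = 0 := by
    have := D.map_natCast 2
    simpa using this
  simp only [Derivation.leibniz, map_add, smul_eq_mul, h2]
  ring

theorem skewP (hτ : ∀ x, τ (D x) = 0) (b c p0 p1 q0 q1 : R) :
    τ (p0 * Pa D c q1 + p1 * Pb D b c q0 q1) = - τ (q0 * Pa D c p1 + q1 * Pb D b c p0 p1) := by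
  have h : ∀ p0 p1 q0 q1 : R, τ (p0 * Pa D c q1 + p1 * Pb D b c q0 q1)
      = - τ (D p0 * Qa D c (D q1) + D p1 * Qb D b c (D q0) (D q1)) := by
    intro p0 p1 q0 q1
    rw [← map_neg]
    apply tau_eq D τ hτ (Z := p0 * Qa D c (D q1) + p1 * Qb D b c (D q0) (D q1))
    simp only [Pa, Pb, Derivation.leibniz, map_add, smul_eq_mul]
    ring
  rw [h, h]
  have := skewQ D τ hτ c (b * c ^ 2) (D p0) (D p1) (D q0) (D q1)
  simp only [Qa, Qb]
  rw [this]

theorem trilinear (hτ : ∀ x, τ (D x) = 0) (b c p0 p1 q0 q1 r0 r1 : R) :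
    τ (p0 * dPa D c (Pa D c q1) r1 + p1 * dPb D b c (Pa D c q1) (Pb D b c q0 q1) r0 r1)
      + τ (q0 * dPa D c (Pa D c r1) p1 + q1 * dPb D b c (Pa D c r1) (Pb D b c r0 r1) p0 p1)
      + τ (r0 * dPa D c (Pa D c p1) q1 + r1 * dPb D b c (Pa D c p1) (Pb D b c p0 p1) q0 q1)
      = 0 := by
  have h : ∀ w0 w1 p0 p1 q0 q1 : R, τ (p0 * dPa D c w0 q1 + p1 * dPb D b c w0 w1 q0 q1)
      = - τ (D p0 * dQa D c w0 (D q1) + D p1 * dQb D b c w0 w1 (D q0) (D q1)) := by
    intro w0 w1 p0 p1 q0 q1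
    rw [← map_neg]
    apply tau_eq D τ hτ (Z := p0 * dQa D c w0 (D q1) + p1 * dQb D b c w0 w1 (D q0) (D q1))
    simp only [dPa, dPb, Derivation.leibniz, map_add, smul_eq_mul]
    ring
  rw [h, h, h]
  simp only [Pa, Pb]
  generalize D p0 = x0
  generalize D p1 = x1
  generalize D q0 = y0
  generalize D q1 = y1
  generalize D r0 = z0
  generalize D r1 = z1
  have t2 : τ (y0 * dQa D c (D (Qa D c z1)) x1
        + y1 * dQb D b c (D (Qa D c z1)) (D (Qb D b c z0 z1)) x0 x1)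
      = - τ (x0 * dQa D c (D (Qa D c z1)) y1
        + x1 * dQb D b c (D (Qa D c z1)) (D (Qb D b c z0 z1)) y0 y1) := by
    simp only [dQa, dQb]
    exact skewQ D τ hτ _ _ _ _ _ _
  have t3 : τ (z0 * dQa D c (D (Qa D c x1)) y1
        + z1 * dQb D b c (D (Qa D c x1)) (D (Qb D b c x0 x1)) y0 y1)
      = τ (x0 * Qa D c (D (Nb D c z1 y1))
        + x1 * Qb D b c (D (Na D b c z0 z1 y0 y1)) (D (Nb D c z1 y1))) := by
    have e1 : ∀ w0 w1 : R, τ (z0 * dQa D c w0 y1 + z1 * dQb D b c w0 w1 y0 y1)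
        = τ (w0 * Na D b c z0 z1 y0 y1 + w1 * Nb D c z1 y1) := by
      intro w0 w1
      apply tau_eq D τ hτ
        (Z := z0 * (-(c ^ 2 * w0)) * y1 + z1 * (w1 * c ^ 2 - 2 * b * c ^ 3 * w0) * y1)
      simp only [dQa, dQb, Na, Nb, Derivation.leibniz, map_add, smul_eq_mul]
      ring
    rw [e1]
    have e2 : ∀ n0 n1 : R, τ (D (Qa D c x1) * n0 + D (Qb D b c x0 x1) * n1)
        = - τ (D n0 * Qa D c x1 + D n1 * Qb D b c x0 x1) := by
      intro n0 n1
      rw [← map_neg]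
      apply tau_eq D τ hτ (Z := n0 * Qa D c x1 + n1 * Qb D b c x0 x1)
      simp only [Derivation.leibniz, map_add, smul_eq_mul]
      ring
    rw [e2]
    have e3 := skewQ D τ hτ c (b * c ^ 2) (D (Na D b c z0 z1 y0 y1)) (D (Nb D c z1 y1)) x0 x1
    simp only [Qa, Qb]
    rw [e3, neg_neg]
  rw [t2, t3, ← map_neg, neg_neg, ← map_neg, ← map_add, ← map_add]
  have ka := key_a D c y1 z1
  have kb := key_b D b c y0 y1 z0 z1
  have : -(x0 * dQa D c (D (Qa D c y1)) z1
        + x1 * dQb D b c (D (Qa D c y1)) (D (Qb D b c y0 y1)) z0 z1)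
      + (x0 * dQa D c (D (Qa D c z1)) y1
        + x1 * dQb D b c (D (Qa D c z1)) (D (Qb D b c z0 z1)) y0 y1)
      + -(x0 * Qa D c (D (Nb D c z1 y1))
        + x1 * Qb D b c (D (Na D b c z0 z1 y0 y1)) (D (Nb D c z1 y1))) = 0 := by
    linear_combination (-x0) * ka - x1 * kb
  rw [this, map_zero]

end

end Pool.Agent.Helper974.Third
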